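import Pool.Agent.Work.MP_6d7a54_an.UP.Defs

/-!
# Factorisation of a bounded holomorphic function by Blaschke factors, logarithms

Common tools for the items GR and MM.
-/

set_option autoImplicit false

namespace Pool.Agent.Work.MP_6d7a54_an.UP

open Complex Metric Real Set

namespace Fac

/-- a partial factorisation on the disc of radius `R` with zeros of modulus at most `r` -/
structure PF (f : ℂ → ℂ) (R r : ℝ) (n : ℕ) (a : Fin n → ℂ) (g : ℂ → ℂ) : Prop where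
  /-- holomorphic -/
  dg : DifferentiableOn ℂ g (ball 0 R)
  /-- the zeros -/
  ha : ∀ i, ‖a i‖ ≤ r
  /-- the factorisation -/
  eq : ∀ z ∈ ball (0 : ℂ) R, f z = (∏ i, (z - a i)) * g z

/-- one more zero -/
theorem PF.ext {f g : ℂ → ℂ} {R r : ℝ} {n : ℕ} {a : Fin n → ℂ} (h : PF f R r n a g) {b : ℂ}
    (hrR : r < R) (hb : ‖b‖ ≤ r) (hg : g b = 0) :
    PF f R r (n + 1) (Fin.cons b a) (dslope g b) := by
  have hbR : b ∈ ball (0 : ℂ) R := by
    rw [mem_ball_zero_iff]; linarith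
  refine ⟨(Complex.differentiableOn_dslope (isOpen_ball.mem_nhds hbR)).2 h.dg, ?_, ?_⟩
  · intro i
    refine Fin.cases ?_ (fun j => ?_) i
    · simpa using hb
    · simpa using h.ha j
  · intro z hz
    rw [h.eq z hz, Fin.prod_univ_succ]
    simp only [Fin.cons_zero, Fin.cons_succ]
    have h1 : (z - b) • dslope g b z = g z - g b := sub_smul_dslope g b z
    rw [hg, sub_zero, smul_eq_mul] at h1
    rw [← h1]
    ring

/-- the denominator of the Blaschke factor, normalised -/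
noncomputable def bl (R : ℝ) (a z : ℂ) : ℂ := ((R : ℂ) ^ 2 - (starRingEnd ℂ) a * z) / (R : ℂ)

theorem bl_diff (R : ℝ) (a : ℂ) : Differentiable ℂ (bl R a) := by
  unfold bl
  fun_prop

theorem norm_bl {R : ℝ} (hR : 0 < R) (a z : ℂ) (hz : ‖z‖ = R) : ‖bl R a z‖ = ‖z - a‖ := by
  have h1 : (R : ℂ) ^ 2 = z * (starRingEnd ℂ) z := by
    rw [Complex.mul_conj, Complex.normSq_eq_norm_sq, hz]
    push_cast
    rfl
  have h2 : bl R a z = z * (starRingEnd ℂ) (z - a) / (R : ℂ) := by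
    unfold bl
    rw [h1, map_sub]
    ring
  rw [h2, norm_div, norm_mul, RCLike.norm_conj, hz, Complex.norm_real,
    Real.norm_of_nonneg hR.le]
  field_simp

theorem bl_ne {R r : ℝ} (hr : 0 < r) (hrR : r < R) {a z : ℂ} (ha : ‖a‖ ≤ r) (hz : ‖z‖ ≤ R) :
    R * (R - r) ≤ ‖(R : ℂ) ^ 2 - (starRingEnd ℂ) a * z‖ := by
  have h1 : ‖(R : ℂ) ^ 2‖ - ‖(starRingEnd ℂ) a * z‖ ≤ ‖(R : ℂ) ^ 2 - (starRingEnd ℂ) a * z‖ :=
    norm_sub_norm_le _ _
  rw [norm_mul, RCLike.norm_conj, norm_pow, Complex.norm_real,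
    Real.norm_of_nonneg (hr.le.trans hrR.le)] at h1
  have h2 : ‖a‖ * ‖z‖ ≤ r * R := mul_le_mul ha hz (norm_nonneg _) hr.le
  nlinarith

/-- the function without the zeros -/
noncomputable def HH (R' : ℝ) {n : ℕ} (a : Fin n → ℂ) (g : ℂ → ℂ) (z : ℂ) : ℂ :=
  (∏ i, bl R' (a i) z) * g z

theorem HH_diff {f g : ℂ → ℂ} {R r : ℝ} {n : ℕ} {a : Fin n → ℂ} (h : PF f R r n a g) (R' : ℝ) :
    DifferentiableOn ℂ (HH R' a g) (ball 0 R) := by
  unfold HH
  refine DifferentiableOn.mul ?_ h.dg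
  exact DifferentiableOn.fun_finsetProd fun i _ => (bl_diff R' (a i)).differentiableOn

theorem HH_le {f g : ℂ → ℂ} {R r R' M : ℝ} {n : ℕ} {a : Fin n → ℂ} (h : PF f R r n a g)
    (h0 : 0 < R') (h2 : R' < R) (hM : ∀ z ∈ ball (0 : ℂ) R, ‖f z‖ ≤ M) (z : ℂ)
    (hz : ‖z‖ ≤ R') : ‖HH R' a g z‖ ≤ M := by
  have hsub : closedBall (0 : ℂ) R' ⊆ ball 0 R := closedBall_subset_ball h2
  have hd : DiffContOnCl ℂ (HH R' a g) (ball 0 R') :=
    ((HH_diff h R').mono hsub).diffContOnCl_ball subset_rfl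
  refine Complex.norm_le_of_forall_mem_frontier_norm_le isBounded_ball hd (C := M) ?_ ?_
  · intro w hw
    rw [frontier_ball (0 : ℂ) h0.ne'] at hw
    have hw1 : ‖w‖ = R' := by rwa [mem_sphere_zero_iff_norm] at hw
    have hw2 : w ∈ ball (0 : ℂ) R := by rw [mem_ball_zero_iff, hw1]; exact h2
    have h3 : ‖HH R' a g w‖ = ‖f w‖ := by
      unfold HH
      rw [h.eq w hw2, norm_mul, norm_mul, norm_prod, norm_prod]
      congr 1
      exact Finset.prod_congr rfl fun i _ => norm_bl h0 (a i) w hw1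
    rw [h3]
    exact hM w hw2
  · rw [closure_ball (0 : ℂ) h0.ne', mem_closedBall_zero_iff]
    exact hz

theorem HH_zero {f g : ℂ → ℂ} {R r R' : ℝ} {n : ℕ} {a : Fin n → ℂ} (h : PF f R r n a g)
    (h0 : 0 < r) (h1 : 0 < R') (hR : 0 < R) :
    ‖f 0‖ * (R' / r) ^ n ≤ ‖HH R' a g 0‖ := by
  have h2 : ‖HH R' a g 0‖ = R' ^ n * ‖g 0‖ := by
    unfold HH
    rw [norm_mul, norm_prod]
    congr 1
    rw [Finset.prod_congr rfl (g := fun _ => R') (fun i _ => ?_), Finset.prod_const,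
      Finset.card_univ, Fintype.card_fin]
    unfold bl
    rw [mul_zero, sub_zero, norm_div, norm_pow, Complex.norm_real, Real.norm_of_nonneg h1.le]
    field_simp
  have h3 : ‖f 0‖ ≤ r ^ n * ‖g 0‖ := by
    rw [h.eq 0 (mem_ball_self hR), norm_mul, norm_prod]
    refine mul_le_mul_of_nonneg_right ?_ (norm_nonneg _)
    refine (Finset.prod_le_prod (fun i _ => norm_nonneg _) (g := fun _ => r)
      (fun i _ => ?_)).trans (le_of_eq ?_)
    · rw [zero_sub, norm_neg]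
      exact h.ha i
    · rw [Finset.prod_const, Finset.card_univ, Fintype.card_fin]
  rw [h2, div_pow]
  calc ‖f 0‖ * (R' ^ n / r ^ n) ≤ (r ^ n * ‖g 0‖) * (R' ^ n / r ^ n) :=
        mul_le_mul_of_nonneg_right h3 (by positivity)
    _ = R' ^ n * ‖g 0‖ := by
        field_simp

/-- the complete factorisation -/
theorem exists_fac {f : ℂ → ℂ} {R R' r M : ℝ} (h0 : 0 < r) (h1 : r < R') (h2 : R' < R)
    (hf : DifferentiableOn ℂ f (ball 0 R)) (hM : ∀ z ∈ ball (0 : ℂ) R, ‖f z‖ ≤ M)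
    (hf0 : f 0 ≠ 0) :
    ∃ (n : ℕ) (a : Fin n → ℂ) (H : ℂ → ℂ), (∀ i, ‖a i‖ ≤ r) ∧
      DifferentiableOn ℂ H (ball 0 R) ∧ (∀ z : ℂ, ‖z‖ ≤ r → H z ≠ 0) ∧
      (∀ z : ℂ, ‖z‖ ≤ R' → ‖H z‖ ≤ M) ∧ ‖f 0‖ ≤ ‖H 0‖ ∧ ‖f 0‖ * (R' / r) ^ n ≤ M ∧
      ∀ z ∈ ball (0 : ℂ) R, f z * ∏ i, ((R' : ℂ) ^ 2 - (starRingEnd ℂ) (a i) * z) =
        H z * ∏ i, ((R' : ℂ) * (z - a i)) := by
  have hR' : 0 < R' := h0.trans h1
  have hR : 0 < R := hR'.trans h2
  have hq : 1 < R' / r := by rwa [one_lt_div h0]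
  have hfp : 0 < ‖f 0‖ := norm_pos_iff.2 hf0
  obtain ⟨n, a, g, hPF, hg⟩ : ∃ (n : ℕ) (a : Fin n → ℂ) (g : ℂ → ℂ), PF f R r n a g ∧
      ∀ b : ℂ, ‖b‖ ≤ r → g b ≠ 0 := by
    by_contra hcon
    push Not at hcon
    have hall : ∀ n : ℕ, ∃ (a : Fin n → ℂ) (g : ℂ → ℂ), PF f R r n a g := by
      intro n
      induction n with
      | zero => exact ⟨Fin.elim0, f, hf, fun i => i.elim0, fun z _ => by simp⟩
      | succ n ih =>
        obtain ⟨a, g, h⟩ := ih
        obtain ⟨b, hb, hgb⟩ := hcon n a g h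
        exact ⟨_, _, h.ext (h1.trans h2) hb hgb⟩
    obtain ⟨n, hn⟩ := pow_unbounded_of_one_lt (M / ‖f 0‖) hq
    obtain ⟨a, g, h⟩ := hall n
    have h3 := (HH_zero h h0 hR' hR).trans (HH_le h hR' h2 hM 0 (by simp [hR'.le]))
    rw [div_lt_iff₀ hfp] at hn
    linarith
  refine ⟨n, a, HH R' a g, hPF.ha, HH_diff hPF R', ?_, HH_le hPF hR' h2 hM, ?_, ?_, ?_⟩
  · intro z hz
    unfold HH
    refine mul_ne_zero (Finset.prod_ne_zero_iff.2 fun i _ => ?_) (hg z hz)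
    unfold bl
    have h3 := bl_ne h0 h1 (hPF.ha i) (hz.trans h1.le)
    have h4 : 0 < R' * (R' - r) := mul_pos hR' (by linarith)
    have h5 : (R' : ℂ) ^ 2 - (starRingEnd ℂ) (a i) * z ≠ 0 :=
      norm_pos_iff.1 (h4.trans_le h3)
    have h6 : (R' : ℂ) ≠ 0 := by exact_mod_cast hR'.ne'
    exact div_ne_zero h5 h6
  · have h3 := HH_zero hPF h0 hR' hR
    have h4 : 1 ≤ (R' / r) ^ n := one_le_pow₀ hq.le
    nlinarith
  · exact (HH_zero hPF h0 hR' hR).trans (HH_le hPF hR' h2 hM 0 (by simp [hR'.le]))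
  · intro z hz
    rw [hPF.eq z hz]
    unfold HH bl
    have h6 : (R' : ℂ) ≠ 0 := by exact_mod_cast hR'.ne'
    rw [Finset.prod_div_distrib, Finset.prod_mul_distrib]
    have h7 : ∏ _i : Fin n, (R' : ℂ) ≠ 0 := Finset.prod_ne_zero_iff.2 fun _ _ => h6
    field_simp

/-- logarithm of a zero free function on a disc -/
theorem exists_log {H : ℂ → ℂ} {r : ℝ} (hr : 0 < r) (hH : DifferentiableOn ℂ H (ball 0 r))
    (hne : ∀ z ∈ ball (0 : ℂ) r, H z ≠ 0) :
    ∃ L : ℂ → ℂ, DifferentiableOn ℂ L (ball 0 r) ∧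
      (∀ z ∈ ball (0 : ℂ) r, Complex.exp (L z) = H z) ∧
      (∀ z ∈ ball (0 : ℂ) r, deriv L z = deriv H z / H z) ∧ |(L 0).im| ≤ π := by
  have hd : DifferentiableOn ℂ (fun z => deriv H z / H z) (ball 0 r) :=
    (hH.deriv isOpen_ball).div hH hne
  obtain ⟨L, hL0, hL⟩ := hd.isExactOn_ball.with_val_at 0 (Complex.log (H 0))
  have h0 : (0 : ℂ) ∈ ball (0 : ℂ) r := mem_ball_self hr
  have hLd : DifferentiableOn ℂ L (ball 0 r) := fun z hz =>
    (hL z hz).differentiableAt.differentiableWithinAt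
  refine ⟨L, hLd, ?_, fun z hz => (hL z hz).deriv, ?_⟩
  · intro z hz
    have hFd : DifferentiableOn ℂ (fun w => H w * Complex.exp (-L w)) (ball 0 r) :=
      hH.mul hLd.neg.cexp
    have hF0 : (ball (0 : ℂ) r).EqOn (deriv (fun w => H w * Complex.exp (-L w))) 0 := by
      intro w hw
      have h1 : HasDerivAt H (deriv H w) w :=
        (hH.differentiableAt (isOpen_ball.mem_nhds hw)).hasDerivAt
      have h2 := h1.mul (hL w hw).neg.cexp
      have h3 : deriv (fun w => H w * Complex.exp (-L w)) w = _ := h2.deriv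
      rw [h3]
      have := hne w hw
      simp only [Pi.zero_apply]
      field_simp
      ring
    have h1 : H z * Complex.exp (-L z) = H 0 * Complex.exp (-L 0) :=
      isOpen_ball.is_const_of_deriv_eq_zero (convex_ball (0 : ℂ) r).isPreconnected hFd
        hF0 hz h0
    rw [hL0, Complex.exp_neg (Complex.log (H 0)), Complex.exp_log (hne 0 h0),
      mul_inv_cancel₀ (hne 0 h0), Complex.exp_neg] at h1
    have h2 := Complex.exp_ne_zero (L z)
    field_simp at h1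
    exact h1.symm
  · rw [hL0, Complex.log_im]
    exact Complex.abs_arg_le_pi _

end Fac

end Pool.Agent.Work.MP_6d7a54_an.UP
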