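import Pool.Agent.Work.MP_6d7a54_an.UP.Defs

/-!
# Borel-Caratheodory with two derivatives
-/

set_option autoImplicit false

namespace Pool.Agent.Work.MP_6d7a54_an.UP

open Complex Metric Real Set

namespace BC

/-- Cauchy estimate on smaller and smaller discs -/
theorem cauchy {f : ℂ → ℂ} {rho r t B : ℝ} (ht : 0 < t) (hr : r + t < rho)
    (hf : DifferentiableOn ℂ f (ball 0 rho)) (hB : ∀ z : ℂ, ‖z‖ ≤ r + t → ‖f z‖ ≤ B) (z : ℂ)
    (hz : ‖z‖ ≤ r) : ‖deriv f z‖ ≤ B / t := by
  have hsub : closedBall z t ⊆ ball 0 rho := by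
    intro w hw
    rw [mem_closedBall, dist_eq_norm] at hw
    rw [mem_ball_zero_iff]
    have : ‖w‖ ≤ ‖w - z‖ + ‖z‖ := by
      have := norm_add_le (w - z) z
      rwa [sub_add_cancel] at this
    linarith
  refine Complex.norm_deriv_le_of_forall_mem_sphere_norm_le ht ?_ ?_
  · exact (hf.mono hsub).diffContOnCl_ball subset_rfl
  · intro w hw
    rw [mem_sphere, dist_eq_norm] at hw
    apply hB
    have := norm_add_le (w - z) z
    rw [sub_add_cancel] at this
    linarith

end BC

open BC in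
theorem BC_proof : S_BC := by
  refine ⟨54, by norm_num, ?_⟩
  intro u rho d S L hd hd1 hdr hr1 hS hL hu hre hu0 z hz
  have hSL : 0 < S + L := by linarith
  have b0 : ∀ w : ℂ, ‖w‖ ≤ (rho - 2 * d / 3) + d / 3 → ‖u w‖ ≤ 6 * (S + L) / d := by
    intro w hw
    have hw1 : w ∈ ball (0 : ℂ) rho := by
      rw [mem_ball_zero_iff]
      linarith
    have h1 := Complex.borelCaratheodory (M := S) (R := rho) (by linarith) hu
      (fun x hx => hre x hx) (by linarith) hw1
    have h2 : d / 3 ≤ rho - ‖w‖ := by linarith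
    have h3 : 2 * S * ‖w‖ / (rho - ‖w‖) ≤ 2 * S / (d / 3) := by
      have h4 : ‖w‖ ≤ 1 := by linarith
      apply div_le_div₀ (by linarith) _ (by linarith) h2
      nlinarith [norm_nonneg w]
    have h5 : ‖u 0‖ * (rho + ‖w‖) / (rho - ‖w‖) ≤ 2 * L / (d / 3) := by
      apply div_le_div₀ (by linarith) _ (by linarith) h2
      have h6 : rho + ‖w‖ ≤ 2 := by linarith
      have h7 : 0 ≤ rho + ‖w‖ := by linarith [norm_nonneg w]
      nlinarith [norm_nonneg (u 0)]
    have h8 : 2 * S / (d / 3) + 2 * L / (d / 3) = 6 * (S + L) / d := by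
      field_simp
      ring
    linarith
  have hdu : DifferentiableOn ℂ (deriv u) (ball 0 rho) := hu.deriv isOpen_ball
  have b1 : ∀ w : ℂ, ‖w‖ ≤ (rho - d) + d / 3 → ‖deriv u w‖ ≤ 6 * (S + L) / d / (d / 3) := by
    intro w hw
    exact cauchy (r := rho - 2 * d / 3) (by linarith) (by linarith) hu b0 w (by linarith)
  have b2 := cauchy (r := rho - d) (by linarith) (by linarith) hdu b1 z (by linarith)
  have e3 : 6 * (S + L) / d / (d / 3) / (d / 3) = 54 * (S + L) / d ^ 3 := by
    field_simp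
    ring
  have hdd : d ^ 3 ≤ d ^ 2 := by
    have : 0 ≤ d ^ 2 * (1 - d) := mul_nonneg (by positivity) (by linarith)
    nlinarith
  have hdd2 : d ^ 3 ≤ d := by
    have : 0 ≤ d * (1 - d) := mul_nonneg (by positivity) (by linarith)
    nlinarith
  have hn : 0 ≤ 54 * (S + L) := by linarith
  refine ⟨?_, ?_, ?_⟩
  · refine (b0 z (by linarith)).trans ?_
    exact div_le_div₀ hn (by linarith) (by positivity) hdd2
  · refine (b1 z (by linarith)).trans ?_
    have e2 : 6 * (S + L) / d / (d / 3) = 18 * (S + L) / d ^ 2 := by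
      field_simp
      ring
    rw [e2]
    exact div_le_div₀ hn (by linarith) (by positivity) hdd
  · rw [← e3]
    exact b2

end Pool.Agent.Work.MP_6d7a54_an.UP
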