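import Pool.Agent.Work.MP_6d7a54_an.UP.Fac

/-!
# Good radii for the logarithmic derivatives
-/

set_option autoImplicit false

namespace Pool.Agent.Work.MP_6d7a54_an.UP

open Complex Metric Real Set

namespace GR

/-- pigeonhole: an interval far from finitely many points -/
theorem pigeon (n : ℕ) (b : Fin n → ℝ) (R : ℝ) {d : ℝ} (hd : 0 < d) :
    ∃ r₁ r₂ : ℝ, R ≤ r₁ ∧ r₁ < r₂ ∧ r₂ ≤ R + d / 2 ∧
      ∀ x, r₁ ≤ x → x ≤ r₂ → ∀ i, d / (8 * ((n : ℝ) + 1)) ≤ |x - b i| := by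
  classical
  set l : ℝ := d / (2 * ((n : ℝ) + 1)) with hl
  have hn : (0 : ℝ) < (n : ℝ) + 1 := by positivity
  have hl0 : 0 < l := by positivity
  have hc : (Finset.univ.image (fun i : Fin n => ⌊(b i - R) / l⌋)).card <
      ((Finset.range (n + 1)).image (fun j : ℕ => (j : ℤ))).card := by
    rw [Finset.card_image_of_injective _ Nat.cast_injective, Finset.card_range]
    refine (Finset.card_image_le).trans_lt ?_
    rw [Finset.card_univ, Fintype.card_fin]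
    exact Nat.lt_succ_self n
  obtain ⟨j', hj', hnot⟩ := Finset.exists_mem_notMem_of_card_lt_card hc
  obtain ⟨j, hj, rfl⟩ := Finset.mem_image.1 hj'
  rw [Finset.mem_range] at hj
  have hjn : (j : ℝ) + 1 ≤ (n : ℝ) + 1 := by
    have : j + 1 ≤ n + 1 := hj
    exact_mod_cast this
  have hln : ((n : ℝ) + 1) * l = d / 2 := by
    rw [hl]
    field_simp
  have hl4 : d / (8 * ((n : ℝ) + 1)) = l / 4 := by
    rw [hl]
    field_simp
    norm_num
  rw [hl4]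
  have hj0 : (0 : ℝ) ≤ j := Nat.cast_nonneg j
  refine ⟨R + j * l + l / 4, R + j * l + 3 * l / 4, ?_, ?_, ?_, ?_⟩
  · have : 0 ≤ (j : ℝ) * l := by positivity
    linarith
  · linarith
  · have : ((j : ℝ) + 1) * l ≤ ((n : ℝ) + 1) * l := mul_le_mul_of_nonneg_right hjn hl0.le
    linarith
  · intro x hx1 hx2 i
    have hne : ⌊(b i - R) / l⌋ ≠ (j : ℤ) := fun h => hnot (by
      rw [← h]
      exact Finset.mem_image_of_mem _ (Finset.mem_univ i))
    rcases lt_or_gt_of_ne hne with h | h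
    · have h1 : ⌊(b i - R) / l⌋ + 1 ≤ (j : ℤ) := h
      have h2 := Int.lt_floor_add_one ((b i - R) / l)
      have h3 : ((⌊(b i - R) / l⌋ : ℤ) : ℝ) + 1 ≤ (j : ℝ) := by exact_mod_cast h1
      have h4 : (b i - R) / l < j := lt_of_lt_of_le h2 h3
      rw [div_lt_iff₀ hl0] at h4
      have h5 : l / 4 ≤ x - b i := by linarith
      exact h5.trans (le_abs_self _)
    · have h1 : (j : ℤ) + 1 ≤ ⌊(b i - R) / l⌋ := h
      have h2 := Int.floor_le ((b i - R) / l)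
      have h3 : (j : ℝ) + 1 ≤ ((⌊(b i - R) / l⌋ : ℤ) : ℝ) := by exact_mod_cast h1
      have h4 : (j : ℝ) + 1 ≤ (b i - R) / l := h3.trans h2
      rw [le_div_iff₀ hl0] at h4
      have h5 : l / 4 ≤ -(x - b i) := by linarith
      exact h5.trans (neg_le_abs _)

/-- number of zeros -/
theorem count_le {n : ℕ} {X R d : ℝ} (hd : 0 < d) (hR : 1 / 2 ≤ R) (hRd : R + d ≤ 1)
    (h : Real.exp (-X) * ((R + 7 * d / 8) / (R + 3 * d / 4)) ^ n ≤ Real.exp X) :
    (n : ℝ) ≤ 16 * (X / d) := by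
  set q : ℝ := (R + 7 * d / 8) / (R + 3 * d / 4) with hq
  have h0 : 0 < R + 3 * d / 4 := by linarith
  have h0' : 0 < R + 7 * d / 8 := by linarith
  have hq0 : 0 < q := div_pos h0' h0
  have h1 := Real.one_sub_inv_le_log_of_pos hq0
  have h2 : d / 8 ≤ 1 - q⁻¹ := by
    rw [hq, inv_div, le_sub_iff_add_le, ← le_sub_iff_add_le', div_le_iff₀ h0']
    have : d * (1 - (R + 7 * d / 8)) ≥ 0 := mul_nonneg hd.le (by linarith)
    nlinarith
  have h3 : q ^ n = Real.exp (n * Real.log q) := by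
    rw [Real.exp_nat_mul, Real.exp_log hq0]
  rw [h3, ← Real.exp_add, Real.exp_le_exp] at h
  have h4 : (n : ℝ) * (d / 8) ≤ n * Real.log q :=
    mul_le_mul_of_nonneg_left (h2.trans h1) (Nat.cast_nonneg n)
  have h5 : (n : ℝ) * d ≤ 16 * X := by linarith
  rw [← mul_div_assoc, le_div_iff₀ hd]
  exact h5

/-- the logarithmic derivative -/
noncomputable def G (L : ℂ → ℂ) {n : ℕ} (a : Fin n → ℂ) (R' : ℝ) (w : ℂ) : ℂ :=
  deriv L w + ∑ i, ((w - a i)⁻¹ + (starRingEnd ℂ) (a i) *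
    ((R' : ℂ) ^ 2 - (starRingEnd ℂ) (a i) * w)⁻¹)

/-- its derivative -/
noncomputable def G' (L : ℂ → ℂ) {n : ℕ} (a : Fin n → ℂ) (R' : ℝ) (w : ℂ) : ℂ :=
  deriv (deriv L) w + ∑ i, (-1 / (w - a i) ^ 2 + (starRingEnd ℂ) (a i) *
    ((starRingEnd ℂ) (a i) / ((R' : ℂ) ^ 2 - (starRingEnd ℂ) (a i) * w) ^ 2))

theorem hasDeriv_G {L : ℂ → ℂ} {n : ℕ} {a : Fin n → ℂ} {R' r : ℝ} {z : ℂ}
    (hL : DifferentiableOn ℂ L (ball 0 r)) (hz : z ∈ ball (0 : ℂ) r) (ha : ∀ i, z ≠ a i)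
    (hb : ∀ i, (R' : ℂ) ^ 2 - (starRingEnd ℂ) (a i) * z ≠ 0) :
    HasDerivAt (G L a R') (G' L a R' z) z := by
  have h1 : HasDerivAt (deriv L) (deriv (deriv L) z) z :=
    ((hL.deriv isOpen_ball).differentiableAt (isOpen_ball.mem_nhds hz)).hasDerivAt
  refine h1.add (HasDerivAt.fun_sum fun i _ => ?_)
  have h2 : HasDerivAt (fun w => w - a i) 1 z := (hasDerivAt_id' z).sub_const (a i)
  have h3 : HasDerivAt (fun w => (R' : ℂ) ^ 2 - (starRingEnd ℂ) (a i) * w)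
      (-(starRingEnd ℂ) (a i)) z := by
    have := ((hasDerivAt_id' z).const_mul ((starRingEnd ℂ) (a i))).const_sub ((R' : ℂ) ^ 2)
    rwa [mul_one] at this
  refine (h2.fun_inv (sub_ne_zero.2 (ha i))).add ?_
  have h4 := (h3.fun_inv (hb i)).const_mul ((starRingEnd ℂ) (a i))
  rwa [neg_neg] at h4

theorem deriv_eq {h H L : ℂ → ℂ} {n : ℕ} {a : Fin n → ℂ} {R R' r : ℝ} (hr : r < R') (hR : R' < R)
    (hh : DifferentiableOn ℂ h (ball 0 R)) (hH : DifferentiableOn ℂ H (ball 0 R))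
    (hHne : ∀ z ∈ ball (0 : ℂ) r, H z ≠ 0)
    (hL : ∀ z ∈ ball (0 : ℂ) r, deriv L z = deriv H z / H z)
    (hb : ∀ i, ∀ z ∈ ball (0 : ℂ) r, (R' : ℂ) ^ 2 - (starRingEnd ℂ) (a i) * z ≠ 0)
    (hR0 : R' ≠ 0)
    (heq : ∀ z ∈ ball (0 : ℂ) R, h z * ∏ i, ((R' : ℂ) ^ 2 - (starRingEnd ℂ) (a i) * z) =
        H z * ∏ i, ((R' : ℂ) * (z - a i))) {z : ℂ} (hz : z ∈ ball (0 : ℂ) r)
    (hza : ∀ i, z ≠ a i) : h z ≠ 0 ∧ deriv h z = h z * G L a R' z := by
  have hsub : ball (0 : ℂ) r ⊆ ball 0 R := ball_subset_ball (hr.trans hR).le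
  have hzR := hsub hz
  have hR0' : (R' : ℂ) ≠ 0 := by exact_mod_cast hR0
  have hE : ∏ i, ((R' : ℂ) * (z - a i)) ≠ 0 :=
    Finset.prod_ne_zero_iff.2 fun i _ => mul_ne_zero hR0' (sub_ne_zero.2 (hza i))
  have hD : ∏ i, ((R' : ℂ) ^ 2 - (starRingEnd ℂ) (a i) * z) ≠ 0 :=
    Finset.prod_ne_zero_iff.2 fun i _ => hb i z hz
  have hne : h z ≠ 0 := by
    intro h0
    have := heq z hzR
    rw [h0, zero_mul] at this
    exact mul_ne_zero (hHne z hz) hE this.symm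
  refine ⟨hne, ?_⟩
  have hda := hh.differentiableAt (isOpen_ball.mem_nhds hzR)
  have hdH := hH.differentiableAt (isOpen_ball.mem_nhds hzR)
  have e1 : logDeriv (fun w => h w * ∏ i, ((R' : ℂ) ^ 2 - (starRingEnd ℂ) (a i) * w)) z =
      logDeriv (fun w => H w * ∏ i, ((R' : ℂ) * (w - a i))) z := by
    apply Filter.EventuallyEq.eq_of_nhds
    apply logDeriv_congr_nhds
    filter_upwards [isOpen_ball.mem_nhds hzR] with w hw
    exact heq w hw
  have d1 : ∀ i ∈ Finset.univ, DifferentiableAt ℂ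
      (fun w => (R' : ℂ) ^ 2 - (starRingEnd ℂ) (a i) * w) z := fun i _ => by fun_prop
  have d2 : ∀ i ∈ Finset.univ, DifferentiableAt ℂ (fun w => (R' : ℂ) * (w - a i)) z :=
    fun i _ => by fun_prop
  rw [logDeriv_mul z hne hD hda (DifferentiableAt.fun_finsetProd d1),
    logDeriv_mul z (hHne z hz) hE hdH (DifferentiableAt.fun_finsetProd d2),
    logDeriv_prod (fun i _ => hb i z hz) d1,
    logDeriv_prod (f := fun i w => (R' : ℂ) * (w - a i))
      (fun i _ => mul_ne_zero hR0' (sub_ne_zero.2 (hza i))) d2,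
    logDeriv_apply h, logDeriv_apply H, ← hL z hz] at e1
  have l1 : ∀ i, logDeriv (fun w => (R' : ℂ) ^ 2 - (starRingEnd ℂ) (a i) * w) z =
      -((starRingEnd ℂ) (a i) * ((R' : ℂ) ^ 2 - (starRingEnd ℂ) (a i) * z)⁻¹) := by
    intro i
    have h3 : HasDerivAt (fun w => (R' : ℂ) ^ 2 - (starRingEnd ℂ) (a i) * w)
        (-(starRingEnd ℂ) (a i)) z := by
      have := ((hasDerivAt_id' z).const_mul ((starRingEnd ℂ) (a i))).const_sub ((R' : ℂ) ^ 2)
      rwa [mul_one] at this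
    rw [logDeriv_apply, h3.deriv, div_eq_mul_inv, neg_mul]
  have l2 : ∀ i, logDeriv (fun w => (R' : ℂ) * (w - a i)) z = (z - a i)⁻¹ := by
    intro i
    have h3 : HasDerivAt (fun w => (R' : ℂ) * (w - a i)) ((R' : ℂ) * 1) z :=
      ((hasDerivAt_id' z).sub_const (a i)).const_mul _
    rw [logDeriv_apply, h3.deriv, mul_one]
    have := sub_ne_zero.2 (hza i)
    field_simp
  simp only [l1, l2, Finset.sum_neg_distrib] at e1
  unfold G
  rw [Finset.sum_add_distrib]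
  have e2 : deriv h z / h z = deriv L z + (∑ i, (z - a i)⁻¹ + ∑ i, (starRingEnd ℂ) (a i) *
      ((R' : ℂ) ^ 2 - (starRingEnd ℂ) (a i) * z)⁻¹) := by
    linear_combination e1
  rw [← e2, mul_div_cancel₀ _ hne]

theorem norm_b {R' r d : ℝ} {a z : ℂ} (hr : 0 < r) (hrR : r + d / 8 ≤ R') (hR : 1 / 2 ≤ R')
    (hd : 0 < d) (ha : ‖a‖ ≤ r) (hr1 : r ≤ 1) (hz : ‖z‖ ≤ R') :
    (R' : ℂ) ^ 2 - (starRingEnd ℂ) a * z ≠ 0 ∧
      ‖(starRingEnd ℂ) a / ((R' : ℂ) ^ 2 - (starRingEnd ℂ) a * z)‖ ≤ 16 / d := by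
  have h1 := Fac.bl_ne hr (by linarith : r < R') ha hz
  have h2 : d / 16 ≤ R' * (R' - r) := by
    have : 1 / 2 * (d / 8) ≤ R' * (R' - r) :=
      mul_le_mul hR (by linarith) (by positivity) (by linarith)
    linarith
  have h3 : 0 < ‖(R' : ℂ) ^ 2 - (starRingEnd ℂ) a * z‖ := by
    have : 0 < d / 16 := by positivity
    linarith
  refine ⟨norm_pos_iff.1 h3, ?_⟩
  rw [norm_div, RCLike.norm_conj, div_le_div_iff₀ h3 hd]
  have h4 : ‖a‖ * d ≤ 1 * d := mul_le_mul_of_nonneg_right (ha.trans hr1) hd.le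
  linarith

/-- the bounds for `G` and `G'` -/
theorem bounds {L : ℂ → ℂ} {n : ℕ} {a : Fin n → ℂ} {R' B X d : ℝ} {z : ℂ} (hX : 1 ≤ X)
    (hd : 0 < d) (hd1 : d ≤ 1) (hn : (n : ℝ) ≤ 16 * (X / d)) (hB : 0 ≤ B)
    (hL1 : ‖deriv L z‖ ≤ B * (X / d) ^ 3) (hL2 : ‖deriv (deriv L) z‖ ≤ B * (X / d) ^ 3)
    (hz : ∀ i, d / (8 * ((n : ℝ) + 1)) ≤ ‖z - a i‖)
    (hb : ∀ i, ‖(starRingEnd ℂ) (a i) / ((R' : ℂ) ^ 2 - (starRingEnd ℂ) (a i) * z)‖ ≤ 16 / d) :
    ‖G L a R' z‖ ≤ (B + 2432) * (X / d) ^ 3 ∧ ‖G' L a R' z‖ ≤ (B + 300032) * (X / d) ^ 5 := by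
  set Y : ℝ := X / d with hY
  have hY1 : 1 ≤ Y := by
    rw [hY, one_le_div hd]
    linarith
  have hdY : 1 / d ≤ Y := by
    rw [hY]
    exact div_le_div_of_nonneg_right hX hd.le
  have hn1 : (n : ℝ) + 1 ≤ 17 * Y := by linarith
  have t1 : ∀ i, ‖(z - a i)⁻¹‖ ≤ 136 * Y ^ 2 := by
    intro i
    have h0 : 0 < d / (8 * ((n : ℝ) + 1)) := by positivity
    rw [norm_inv]
    refine (inv_anti₀ h0 (hz i)).trans ?_
    rw [inv_div]
    calc 8 * ((n : ℝ) + 1) / d = 8 * ((n : ℝ) + 1) * (1 / d) := by ring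
      _ ≤ 8 * (17 * Y) * Y := by
          apply mul_le_mul (by linarith) hdY (by positivity) (by positivity)
      _ = 136 * Y ^ 2 := by ring
  have t2 : ∀ i, ‖(starRingEnd ℂ) (a i) / ((R' : ℂ) ^ 2 - (starRingEnd ℂ) (a i) * z)‖ ≤
      16 * Y := by
    intro i
    refine (hb i).trans ?_
    calc 16 / d = 16 * (1 / d) := by ring
      _ ≤ 16 * Y := mul_le_mul_of_nonneg_left hdY (by norm_num)
  have hY2 : Y ≤ Y ^ 2 := by nlinarith
  have hY3 : Y ^ 3 ≤ Y ^ 5 := pow_le_pow_right₀ hY1 (by norm_num)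
  have hY5 : Y ^ 2 ≤ Y ^ 4 := pow_le_pow_right₀ hY1 (by norm_num)
  constructor
  · unfold G
    refine (norm_add_le _ _).trans ?_
    have h1 : ‖∑ i, ((z - a i)⁻¹ + (starRingEnd ℂ) (a i) *
        ((R' : ℂ) ^ 2 - (starRingEnd ℂ) (a i) * z)⁻¹)‖ ≤ ∑ _i : Fin n, 152 * Y ^ 2 := by
      refine (norm_sum_le _ _).trans (Finset.sum_le_sum fun i _ => ?_)
      refine (norm_add_le _ _).trans ?_
      have h2 := t1 i
      have h3 := t2 i
      rw [div_eq_mul_inv] at h3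
      linarith
    rw [Finset.sum_const, Finset.card_univ, Fintype.card_fin, nsmul_eq_mul] at h1
    have h2 : (n : ℝ) * (152 * Y ^ 2) ≤ 16 * Y * (152 * Y ^ 2) :=
      mul_le_mul_of_nonneg_right hn (by positivity)
    calc _ ≤ B * Y ^ 3 + 16 * Y * (152 * Y ^ 2) := add_le_add hL1 (h1.trans h2)
      _ = (B + 2432) * Y ^ 3 := by ring
  · unfold G'
    refine (norm_add_le _ _).trans ?_
    have h1 : ‖∑ i, (-1 / (z - a i) ^ 2 + (starRingEnd ℂ) (a i) *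
        ((starRingEnd ℂ) (a i) / ((R' : ℂ) ^ 2 - (starRingEnd ℂ) (a i) * z) ^ 2))‖ ≤
        ∑ _i : Fin n, 18752 * Y ^ 4 := by
      refine (norm_sum_le _ _).trans (Finset.sum_le_sum fun i _ => ?_)
      refine (norm_add_le _ _).trans ?_
      have e1 : -1 / (z - a i) ^ 2 = -((z - a i)⁻¹ ^ 2) := by
        rw [inv_pow, neg_div, one_div]
      have e2 : (starRingEnd ℂ) (a i) * ((starRingEnd ℂ) (a i) /
          ((R' : ℂ) ^ 2 - (starRingEnd ℂ) (a i) * z) ^ 2) =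
          ((starRingEnd ℂ) (a i) / ((R' : ℂ) ^ 2 - (starRingEnd ℂ) (a i) * z)) ^ 2 := by
        rw [div_pow]
        ring
      rw [e1, e2, norm_neg, norm_pow, norm_pow]
      have h2 := pow_le_pow_left₀ (norm_nonneg _) (t1 i) 2
      have h3 := pow_le_pow_left₀ (norm_nonneg _) (t2 i) 2
      calc _ ≤ (136 * Y ^ 2) ^ 2 + (16 * Y) ^ 2 := add_le_add h2 h3
        _ = 18496 * Y ^ 4 + 256 * Y ^ 2 := by ring
        _ ≤ 18752 * Y ^ 4 := by linarith
    rw [Finset.sum_const, Finset.card_univ, Fintype.card_fin, nsmul_eq_mul] at h1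
    have h2 : (n : ℝ) * (18752 * Y ^ 4) ≤ 16 * Y * (18752 * Y ^ 4) :=
      mul_le_mul_of_nonneg_right hn (by positivity)
    calc _ ≤ B * Y ^ 3 + 16 * Y * (18752 * Y ^ 4) := add_le_add hL2 (h1.trans h2)
      _ ≤ B * Y ^ 5 + 300032 * Y ^ 5 := by
          have := mul_le_mul_of_nonneg_left hY3 hB
          have e : 16 * Y * (18752 * Y ^ 4) = 300032 * Y ^ 5 := by ring
          linarith
      _ = (B + 300032) * Y ^ 5 := by ring

end GR

open GR in
theorem GR_proof (h1 : S_BC) : S_GR := by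
  obtain ⟨K₀, hK₀, hBC⟩ := h1
  set B : ℝ := 384 * K₀ with hBdef
  refine ⟨(B + 2432) ^ 2 + (B + 300032), 6, by nlinarith, ?_⟩
  intro h X R d hX hd hd8 hR hRd hh hhM hh0
  have hball : ball (0 : ℂ) (R + d) ⊆ closedBall 0 (R + d) := ball_subset_closedBall
  have hhd : DifferentiableOn ℂ h (ball 0 (R + d)) := fun z hz =>
    (hh z (hball hz)).differentiableAt.differentiableWithinAt
  have hpos := Real.exp_pos (-X)
  have hh0' : h 0 ≠ 0 := by
    rw [← norm_pos_iff]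
    linarith
  obtain ⟨n, a, H, ha, hHd, hHne, hHM, hH0, hn, heq⟩ := Fac.exists_fac
    (f := h) (R := R + d) (R' := R + 7 * d / 8) (r := R + 3 * d / 4) (M := Real.exp X)
    (by linarith) (by linarith) (by linarith) hhd (fun z hz => hhM z (hball hz)) hh0'
  have hcount : (n : ℝ) ≤ 16 * (X / d) :=
    count_le hd hR hRd ((mul_le_mul_of_nonneg_right hh0 (by positivity)).trans hn)
  obtain ⟨r₁, r₂, hr1, hr12, hr2, hsep⟩ := pigeon n (fun i => ‖a i‖) R hd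
  refine ⟨r₁, r₂, hr1, hr12, hr2, ?_⟩
  have hr0 : 0 < R + 3 * d / 4 := by linarith
  have hHne' : ∀ z ∈ ball (0 : ℂ) (R + 3 * d / 4), H z ≠ 0 :=
    fun z hz => hHne z (mem_ball_zero_iff.1 hz).le
  obtain ⟨L, hLd, hLe, hLder, hL0⟩ := Fac.exists_log (H := H) (r := R + 3 * d / 4) hr0
    (hHd.mono (ball_subset_ball (by linarith))) hHne'
  have h0b : (0 : ℂ) ∈ ball (0 : ℂ) (R + 3 * d / 4) := mem_ball_self hr0
  have hre : ∀ x ∈ ball (0 : ℂ) (R + 3 * d / 4), Real.exp (L x).re = ‖H x‖ := by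
    intro x hx
    rw [← hLe x hx, Complex.norm_exp]
  have hreX : ∀ x ∈ ball (0 : ℂ) (R + 3 * d / 4), (L x).re ≤ X := by
    intro x hx
    rw [← Real.exp_le_exp, hre x hx]
    exact hHM x ((mem_ball_zero_iff.1 hx).le.trans (by linarith))
  have hL0n : ‖L 0‖ ≤ 5 * X := by
    have h1 : -X ≤ (L 0).re := by
      rw [← Real.exp_le_exp, hre 0 h0b]
      exact hh0.trans hH0
    have h2 : |(L 0).re| ≤ X := abs_le.2 ⟨h1, hreX 0 h0b⟩
    have h3 := Complex.norm_le_abs_re_add_abs_im (L 0)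
    have h4 : π < 4 := Real.pi_lt_four
    linarith
  have hY1 : 1 ≤ X / d := by
    rw [one_le_div hd]
    linarith
  have hdY : 1 / d ≤ X / d := div_le_div_of_nonneg_right hX hd.le
  intro z hz1 hz2
  have hzR : ‖z‖ ≤ R + d / 2 := hz2.trans hr2
  have hbc := hBC L (R + 3 * d / 4) (d / 4) X (5 * X) (by linarith) (by linarith) (by linarith)
    (by linarith) hX (by linarith) hLd hreX hL0n z (by linarith)
  have hBX : K₀ * (X + 5 * X) / (d / 4) ^ 3 ≤ B * (X / d) ^ 3 := by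
    have e1 : K₀ * (X + 5 * X) / (d / 4) ^ 3 = B * (X / d * (1 / d) ^ 2) := by
      rw [hBdef]
      field_simp
      ring
    rw [e1]
    have e2 : X / d * (1 / d) ^ 2 ≤ (X / d) ^ 3 := by
      have e3 : (1 / d) ^ 2 ≤ (X / d) ^ 2 := pow_le_pow_left₀ (by positivity) hdY 2
      have e4 := mul_le_mul_of_nonneg_left e3 (by linarith : (0 : ℝ) ≤ X / d)
      calc _ ≤ X / d * (X / d) ^ 2 := e4
        _ = (X / d) ^ 3 := by ring
    exact mul_le_mul_of_nonneg_left e2 (by rw [hBdef]; linarith)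
  have hnb : ∀ i, ∀ x : ℂ, ‖x‖ ≤ R + 7 * d / 8 →
      ((R + 7 * d / 8 : ℝ) : ℂ) ^ 2 - (starRingEnd ℂ) (a i) * x ≠ 0 ∧
      ‖(starRingEnd ℂ) (a i) / (((R + 7 * d / 8 : ℝ) : ℂ) ^ 2 - (starRingEnd ℂ) (a i) * x)‖ ≤
        16 / d := fun i x hx => norm_b hr0 (by linarith) (by linarith) hd (ha i) (by linarith) hx
  have hδ : 0 < d / (8 * ((n : ℝ) + 1)) := by positivity
  have hsep' : ∀ i, d / (8 * ((n : ℝ) + 1)) ≤ ‖z - a i‖ := fun i =>
    (hsep ‖z‖ hz1 hz2 i).trans (abs_norm_sub_norm_le z (a i))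
  have hza : ∀ i, z ≠ a i := by
    intro i h'
    have := hsep' i
    rw [h', sub_self, norm_zero] at this
    linarith
  have hzb : z ∈ ball (0 : ℂ) (R + 3 * d / 4) := by
    rw [mem_ball_zero_iff]
    linarith
  obtain ⟨hG, hG'⟩ := bounds (a := a) (R' := R + 7 * d / 8) hX hd (by linarith) hcount
    (by rw [hBdef]; linarith) (hbc.2.1.trans hBX) (hbc.2.2.trans hBX) hsep'
    (fun i => (hnb i z (by linarith)).2)
  have hder : ∀ x ∈ ball (0 : ℂ) (R + 3 * d / 4), (∀ i, x ≠ a i) →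
      h x ≠ 0 ∧ deriv h x = h x * G L a (R + 7 * d / 8) x := fun x hx hxa =>
    deriv_eq (by linarith) (by linarith) hhd hHd hHne' hLder
      (fun i w hw => (hnb i w ((mem_ball_zero_iff.1 hw).le.trans (by linarith))).1)
      (by linarith) heq hx hxa
  obtain ⟨hne, hd1⟩ := hder z hzb hza
  have hev : deriv h =ᶠ[nhds z] fun x => h x * G L a (R + 7 * d / 8) x := by
    have hopen : IsOpen {x : ℂ | ∀ i, x ≠ a i} := by
      have : {x : ℂ | ∀ i, x ≠ a i} = ⋂ i, {a i}ᶜ := by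
        ext x
        simp
      rw [this]
      exact isOpen_iInter_of_finite fun i => isOpen_compl_singleton
    filter_upwards [isOpen_ball.mem_nhds hzb, hopen.mem_nhds hza] with x hx hxa
    exact (hder x hx hxa).2
  have hd2 : deriv (deriv h) z = h z * (G L a (R + 7 * d / 8) z ^ 2 + G' L a (R + 7 * d / 8) z) := by
    rw [hev.deriv_eq]
    have hzRd : z ∈ ball (0 : ℂ) (R + d) := by
      rw [mem_ball_zero_iff]
      linarith
    have h1 : HasDerivAt h (deriv h z) z :=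
      (hhd.differentiableAt (isOpen_ball.mem_nhds hzRd)).hasDerivAt
    have h2 := h1.fun_mul (hasDeriv_G (a := a) (R' := R + 7 * d / 8) hLd hzb hza
      (fun i => (hnb i z (by linarith)).1))
    rw [h2.deriv, hd1]
    ring
  refine ⟨hne, ?_, ?_⟩
  · rw [hd1, mul_div_cancel_left₀ _ hne]
    refine hG.trans ?_
    have h3 : (X / d) ^ 3 ≤ (X / d) ^ 6 := pow_le_pow_right₀ hY1 (by norm_num)
    have h4 : B + 2432 ≤ (B + 2432) ^ 2 + (B + 300032) := by nlinarith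
    exact mul_le_mul h4 h3 (by positivity) (by positivity)
  · rw [hd2, mul_div_cancel_left₀ _ hne]
    refine (norm_add_le _ _).trans ?_
    rw [norm_pow]
    have h3 := pow_le_pow_left₀ (norm_nonneg _) hG 2
    have h5 : (X / d) ^ 5 ≤ (X / d) ^ 6 := pow_le_pow_right₀ hY1 (by norm_num)
    have hB0 : 0 ≤ B + 300032 := by rw [hBdef]; linarith
    calc _ ≤ ((B + 2432) * (X / d) ^ 3) ^ 2 + (B + 300032) * (X / d) ^ 5 := add_le_add h3 hG'
      _ ≤ ((B + 2432) * (X / d) ^ 3) ^ 2 + (B + 300032) * (X / d) ^ 6 :=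
          add_le_add le_rfl (mul_le_mul_of_nonneg_left h5 hB0)
      _ = ((B + 2432) ^ 2 + (B + 300032)) * (X / d) ^ 6 := by ring

end Pool.Agent.Work.MP_6d7a54_an.UP
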