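import Pool.Agent.Work.MP_6d7a54_an.UP.DefsG

/-!
# Item G_End: end of the local argument (the curve is close to a line)
-/

set_option autoImplicit false

namespace Pool.Agent.Work.MP_6d7a54_an.UP

open Complex Metric Real Set

namespace GEnd

/-- an `m`-th root of a nonzero constant -/
theorem root_const {m : ℕ} (hm : m ≠ 0) (a : ℂ) (ha : a ≠ 0) : ∃ b : ℂ, b ^ m = a := by
  refine ⟨Complex.exp (Complex.log a / m), ?_⟩
  rw [← Complex.exp_nat_mul]
  have hmc : (m : ℂ) ≠ 0 := by exact_mod_cast hm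
  rw [mul_div_cancel₀ _ hmc, Complex.exp_log ha]

/-- a holomorphic `m`-th root of `nu + e` for small `e` -/
theorem root_near {m : ℕ} (hm : m ≠ 0) {nu : ℂ} {e : ℂ → ℂ} {rho : ℝ} (hnu : 0 < ‖nu‖)
    (hed : DifferentiableOn ℂ e (ball 0 rho)) (he : ∀ z ∈ ball (0 : ℂ) rho, ‖e z‖ ≤ ‖nu‖ / 2) :
    ∃ R : ℂ → ℂ, DifferentiableOn ℂ R (ball 0 rho) ∧
      ∀ z ∈ ball (0 : ℂ) rho, R z ^ m = nu + e z := by
  have hn0 : nu ≠ 0 := norm_pos_iff.1 hnu
  have hmc : (m : ℂ) ≠ 0 := by exact_mod_cast hm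
  have hlt : ∀ z ∈ ball (0 : ℂ) rho, ‖e z / nu‖ < 1 := by
    intro z hz
    rw [norm_div, div_lt_one hnu]
    have := he z hz
    linarith
  have hsl : ∀ z ∈ ball (0 : ℂ) rho, 1 + e z / nu ∈ slitPlane := fun z hz =>
    Complex.mem_slitPlane_of_norm_lt_one (hlt z hz)
  refine ⟨fun z => Complex.exp ((Complex.log nu + Complex.log (1 + e z / nu)) / m), ?_, ?_⟩
  · have h1 : DifferentiableOn ℂ (fun z => 1 + e z / nu) (ball 0 rho) :=
      (hed.div_const nu).const_add 1
    exact ((((h1.clog hsl).const_add _).div_const _)).cexp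
  · intro z hz
    simp only
    rw [← Complex.exp_nat_mul, mul_div_cancel₀ _ hmc, Complex.exp_add, Complex.exp_log hn0,
      Complex.exp_log (Complex.slitPlane_ne_zero (hsl z hz))]
    field_simp

/-- the core: `al p1 ^ m + be p2 ^ m = nu + e` -/
theorem core (h1 : S3_L1) (m : ℕ) (L c0 : ℝ) (hm : 3 ≤ m) (hL : 1 ≤ L) (hc0 : 0 < c0)
    (hc1 : c0 ≤ 1) : ∃ C : ℝ, 0 ≤ C ∧ ∀ (p1 p2 e : ℂ → ℂ) (al be nu : ℂ),
    DifferentiableOn ℂ p1 (ball 0 (1/8)) → DifferentiableOn ℂ p2 (ball 0 (1/8)) →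
    DifferentiableOn ℂ e (ball 0 (1/8)) →
    (∀ z ∈ ball (0 : ℂ) (1/8), al * p1 z ^ m + be * p2 z ^ m = nu + e z) →
    (∀ z ∈ ball (0 : ℂ) (1/8), ‖e z‖ ≤ ‖nu‖ / 2) → e 0 = 0 → c0 ≤ ‖nu‖ → ‖nu‖ ≤ 3 * L →
    c0 ≤ ‖al‖ → ‖al‖ ≤ 2 → c0 ≤ ‖be‖ → ‖be‖ ≤ 2 → Tame L (p1 0 ^ m) → Tame L (p2 0 ^ m) →
    ∀ z : ℂ, ‖z‖ ≤ 1/64 → ‖p1 z ^ m‖ ≤ C ∧ ‖p2 z ^ m‖ ≤ C := by
  have hm0 : m ≠ 0 := by omega
  have hL0 : 0 < L := by linarith
  have hL2 : 1 ≤ 3 * L ^ 2 / c0 := by
    rw [le_div_iff₀ hc0]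
    nlinarith
  obtain ⟨C1, hC1, hmain⟩ := h1 m (3 * L ^ 2 / c0) hm hL2
  refine ⟨C1 * (6 * L) / c0, by positivity, ?_⟩
  intro p1 p2 e al be nu hp1 hp2 hed heq he he0 hnu1 hnu2 hal1 hal2 hbe1 hbe2 ht1 ht2
  have hnup : 0 < ‖nu‖ := by linarith
  have hnu0 : nu ≠ 0 := norm_pos_iff.1 hnup
  obtain ⟨R, hR, hRm⟩ := root_near hm0 hnup hed he
  obtain ⟨al', hal'⟩ := root_const hm0 al (norm_pos_iff.1 (by linarith))
  obtain ⟨be', hbe'⟩ := root_const hm0 be (norm_pos_iff.1 (by linarith))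
  have hne : ∀ z ∈ ball (0 : ℂ) (1/8), nu + e z ≠ 0 := by
    intro z hz h
    have h2 := he z hz
    have h3 : e z = - nu := by linear_combination h
    rw [h3, norm_neg] at h2
    linarith
  have hRne : ∀ z ∈ ball (0 : ℂ) (1/8), R z ≠ 0 := by
    intro z hz h
    have h2 := hRm z hz
    rw [h, zero_pow hm0] at h2
    exact hne z hz h2.symm
  have h0 : (0 : ℂ) ∈ ball (0 : ℂ) (1/8) := mem_ball_self (by norm_num)
  -- the general statement for one function
  have key : ∀ (p : ℂ → ℂ) (ga ga' : ℂ), ga' ^ m = ga → ∀ z ∈ ball (0 : ℂ) (1/8),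
      (ga' * p z / R z) ^ m = ga * p z ^ m / (nu + e z) := by
    intro p ga ga' hga z hz
    rw [div_pow, mul_pow, hga, hRm z hz]
  have tame : ∀ (p : ℂ → ℂ) (ga ga' : ℂ), ga' ^ m = ga → c0 ≤ ‖ga‖ → ‖ga‖ ≤ 2 →
      Tame L (p 0 ^ m) → Tame (3 * L ^ 2 / c0) ((ga' * p 0 / R 0) ^ m) := by
    intro p ga ga' hga g1 g2 ht
    rw [key p ga ga' hga 0 h0, he0, add_zero]
    unfold Tame
    rw [norm_div, norm_mul]
    obtain ⟨t1, t2⟩ := ht
    have t1' : 1 ≤ L * ‖p 0 ^ m‖ := by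
      rw [inv_le_iff_one_le_mul₀ hL0] at t1
      linarith
    constructor
    · rw [inv_div, div_le_div_iff₀ (by positivity) hnup]
      calc c0 * ‖nu‖ ≤ c0 * (3 * L) := by gcongr
        _ = (c0 * 1) * (3 * L) := by ring
        _ ≤ (‖ga‖ * (L * ‖p 0 ^ m‖)) * (3 * L) := by gcongr
        _ = ‖ga‖ * ‖p 0 ^ m‖ * (3 * L ^ 2) := by ring
    · rw [div_le_div_iff₀ hnup hc0]
      calc ‖ga‖ * ‖p 0 ^ m‖ * c0 ≤ (2 * L) * ‖nu‖ := by gcongr
        _ ≤ (3 * L ^ 2) * ‖nu‖ := by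
            refine mul_le_mul_of_nonneg_right ?_ hnup.le
            nlinarith
  have diff : ∀ (p : ℂ → ℂ) (ga' : ℂ), DifferentiableOn ℂ p (ball 0 (1/8)) →
      DifferentiableOn ℂ (fun z => ga' * p z / R z) (ball 0 (1/8)) := by
    intro p ga' hp
    exact (hp.const_mul ga').div hR hRne
  have bd : ∀ (p : ℂ → ℂ) (ga ga' : ℂ), ga' ^ m = ga → c0 ≤ ‖ga‖ → ∀ z : ℂ, ‖z‖ ≤ 1/64 →
      ‖(ga' * p z / R z) ^ m‖ ≤ C1 → ‖p z ^ m‖ ≤ C1 * (6 * L) / c0 := by
    intro p ga ga' hga g1 z hz hb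
    have hzb : z ∈ ball (0 : ℂ) (1/8) := by
      rw [mem_ball_zero_iff]; linarith
    have hgp : 0 < ‖ga‖ := by linarith
    have hpos : 0 < ‖nu + e z‖ := norm_pos_iff.2 (hne z hzb)
    rw [key p ga ga' hga z hzb, norm_div, norm_mul, div_le_iff₀ hpos] at hb
    have h3 : ‖nu + e z‖ ≤ 6 * L := by
      have := norm_add_le nu (e z)
      have := he z hzb
      linarith
    rw [le_div_iff₀ hc0]
    calc ‖p z ^ m‖ * c0 ≤ ‖p z ^ m‖ * ‖ga‖ := by gcongr
      _ = ‖ga‖ * ‖p z ^ m‖ := by ring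
      _ ≤ C1 * ‖nu + e z‖ := hb
      _ ≤ C1 * (6 * L) := by gcongr
  have hsum : ∀ z ∈ ball (0 : ℂ) (1/8),
      (al' * p1 z / R z) ^ m + (be' * p2 z / R z) ^ m = 1 := by
    intro z hz
    rw [key p1 al al' hal' z hz, key p2 be be' hbe' z hz, ← add_div, heq z hz,
      div_self (hne z hz)]
  intro z hz
  have hz' : ‖z‖ ≤ (1/8 : ℝ) / 8 := by linarith
  constructor
  · refine bd p1 al al' hal' hal1 z hz ?_
    exact hmain (fun z => al' * p1 z / R z) (fun z => be' * p2 z / R z) (1/8) (by norm_num)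
      (diff p1 al' hp1) (diff p2 be' hp2) hsum (tame p1 al al' hal' hal1 hal2 ht1)
      (tame p2 be be' hbe' hbe1 hbe2 ht2) z hz'
  · refine bd p2 be be' hbe' hbe1 z hz ?_
    exact hmain (fun z => be' * p2 z / R z) (fun z => al' * p1 z / R z) (1/8) (by norm_num)
      (diff p2 be' hp2) (diff p1 al' hp1) (fun z hz => by rw [add_comm]; exact hsum z hz)
      (tame p2 be be' hbe' hbe1 hbe2 ht2) (tame p1 al al' hal' hal1 hal2 ht1) z hz'

/-- the third index, norms -/
theorem thirdn (i k : Fin 3) (hik : i ≠ k) : ∃ l : Fin 3,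
    (∀ f : Fin 3 → ℂ, f 0 + f 1 + f 2 = f i + f k + f l) ∧
    ∀ f : Fin 3 → ℝ, ∑ j, f j = f i + f k + f l := by
  fin_cases i <;> fin_cases k
  · exact absurd rfl hik
  · exact ⟨2, fun f => by simp, fun f => by rw [Fin.sum_univ_three]; simp⟩
  · exact ⟨1, fun f => by simp; ring, fun f => by rw [Fin.sum_univ_three]; simp; ring⟩
  · exact ⟨2, fun f => by simp; ring, fun f => by rw [Fin.sum_univ_three]; simp; ring⟩
  · exact absurd rfl hik
  · exact ⟨0, fun f => by simp; ring, fun f => by rw [Fin.sum_univ_three]; simp; ring⟩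
  · exact ⟨1, fun f => by simp; ring, fun f => by rw [Fin.sum_univ_three]; simp; ring⟩
  · exact ⟨0, fun f => by simp; ring, fun f => by rw [Fin.sum_univ_three]; simp; ring⟩
  · exact absurd rfl hik

end GEnd

open GEnd

theorem End_proof (h1 : S3_L1) : S3_End := by
  intro m L hm hL
  have hL0 : 0 < L := by linarith
  set c0 : ℝ := 1 / (2 * L ^ 2) with hc0def
  have hc0 : 0 < c0 := by positivity
  have hc1 : c0 ≤ 1 / 2 := by
    rw [hc0def, div_le_div_iff₀ (by positivity) (by norm_num)]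
    nlinarith
  have hcL : c0 * L ≤ 1 / (2 * L) := by
    rw [hc0def]
    apply le_of_eq
    field_simp
  have hLL : 1 / (2 * L ^ 2) ≤ 1 / (2 * L) := by
    rw [div_le_div_iff₀ (by positivity) (by positivity)]
    nlinarith
  obtain ⟨C, hC, hcore⟩ := core h1 m L c0 hm hL hc0 (by linarith)
  refine ⟨c0, Real.log (1 + (3 * C + (2 * C + 3 * L + 1))), hc0,
    Real.log_nonneg (by linarith), ?_⟩
  intro q i k lam hD hB hik hlam hder z hz
  obtain ⟨l, hl, hln⟩ := thirdn i k hik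
  have hm0 : m ≠ 0 := by omega
  have hsub : ball (0 : ℂ) (1/8) ⊆ ball (0 : ℂ) 2 := ball_subset_ball (by norm_num)
  have hsub2 : closedBall (0 : ℂ) (1/8) ⊆ ball (0 : ℂ) 2 :=
    closedBall_subset_ball (by norm_num)
  have hqd : ∀ j, DifferentiableOn ℂ (q j) (ball 0 (1/8)) := fun j => (hD.hq j).mono hsub
  have hxd : ∀ j, DifferentiableOn ℂ (xx m q j) (ball 0 2) := fun j => (hD.hq j).pow m
  have h0 : (0 : ℂ) ∈ ball (0 : ℂ) (1/8) := mem_ball_self (by norm_num)
  have h02 : (0 : ℂ) ∈ ball (0 : ℂ) 2 := mem_ball_self (by norm_num)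
  have hsumx : ∀ z ∈ ball (0 : ℂ) 2, xx m q i z + xx m q k z + xx m q l z = 1 := by
    intro z hz
    have := hl (fun j => xx m q j z)
    rw [← this]
    exact hD.heq z hz
  set mu : ℂ := xx m q i 0 - lam * xx m q k 0 with hmu
  set e : ℂ → ℂ := fun z => xx m q i z - lam * xx m q k z - mu with he
  have hed2 : DifferentiableOn ℂ e (ball 0 2) :=
    ((hxd i).sub ((hxd k).const_mul lam)).sub_const mu
  have hed : DifferentiableOn ℂ e (ball 0 (1/8)) := hed2.mono hsub
  have he0 : e 0 = 0 := by simp only [he, hmu]; ring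
  have hat : ∀ j, ∀ z ∈ ball (0 : ℂ) 2, DifferentiableAt ℂ (xx m q j) z := fun j z hz =>
    (hxd j).differentiableAt (isOpen_ball.mem_nhds hz)
  have hede : ∀ z ∈ ball (0 : ℂ) 2,
      deriv e z = deriv (xx m q i) z - lam * deriv (xx m q k) z := by
    intro z hz
    have h2 : HasDerivAt e (deriv (xx m q i) z - lam * deriv (xx m q k) z) z := by
      exact (((hat i z hz).hasDerivAt).sub (((hat k z hz).hasDerivAt).const_mul lam)).sub_const mu
    exact h2.deriv
  have hesm : ∀ z ∈ ball (0 : ℂ) (1/8), ‖e z‖ ≤ c0 / 8 := by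
    intro z hz
    have hconv : Convex ℝ (closedBall (0 : ℂ) (1/8)) := convex_closedBall _ _
    have h2 := hconv.norm_image_sub_le_of_norm_deriv_le (f := e) (C := c0)
      (fun x hx => hed2.differentiableAt (isOpen_ball.mem_nhds (hsub2 hx)))
      (fun x hx => by
        rw [hede x (hsub2 hx)]
        exact hder x (mem_closedBall_zero_iff.1 hx))
      (x := 0) (y := z) (mem_closedBall_self (by norm_num)) (ball_subset_closedBall hz)
    rw [he0, sub_zero, sub_zero] at h2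
    rw [mem_ball_zero_iff] at hz
    calc ‖e z‖ ≤ c0 * ‖z‖ := h2
      _ ≤ c0 * (1/8) := by gcongr
      _ = c0 / 8 := by ring
  have hbt : ∀ j, Tame L (xx m q j 0) := fun j => hB.h1 j
  have hbn : ∀ j, L⁻¹ ≤ ‖1 - xx m q j 0‖ := fun j => hB.h2 j
  have hmule : ‖mu‖ ≤ 2 * L := by
    rw [hmu]
    have e1 := norm_sub_le (xx m q i 0) (lam * xx m q k 0)
    rw [norm_mul] at e1
    have e2 : ‖lam‖ * ‖xx m q k 0‖ ≤ 1 * L := by
      gcongr
      exact (hbt k).2
    have e3 := (hbt i).2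
    linarith
  have hzb : z ∈ ball (0 : ℂ) (1/8) := by
    rw [mem_ball_zero_iff]; linarith
  have hz2 : z ∈ ball (0 : ℂ) 2 := hsub hzb
  have hez := hesm z hzb
  have hlin : L⁻¹ = 1 / (2 * L) + 1 / (2 * L) := by field_simp; ring
  -- it is enough to bound two functions
  have hxz : xx m q i z = lam * xx m q k z + mu + e z := by simp only [he]; ring
  have hxi : ‖xx m q i z‖ ≤ ‖xx m q k z‖ + 2 * L + 1 := by
    rw [hxz]
    have e1 := norm_add_le (lam * xx m q k z + mu) (e z)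
    have e2 := norm_add_le (lam * xx m q k z) mu
    rw [norm_mul] at e2
    have e3 : ‖lam‖ * ‖xx m q k z‖ ≤ 1 * ‖xx m q k z‖ := by gcongr
    linarith
  have hfin : ∀ B : ℝ, ∑ j, ‖xx m q j z‖ ≤ 3 * C + (2 * C + 3 * L + 1) →
      sg (xx m q) z ≤ Real.log (1 + (3 * C + (2 * C + 3 * L + 1))) := by
    intro _ hB'
    unfold sg
    have h3 : 0 ≤ ∑ j, ‖xx m q j z‖ := Finset.sum_nonneg fun _ _ => norm_nonneg _
    exact Real.log_le_log (by linarith) (by linarith)
  refine hfin 0 ?_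
  rw [hln (fun j => ‖xx m q j z‖)]
  by_cases hcase : c0 ≤ ‖lam‖ ∧ c0 ≤ ‖mu‖
  · -- case A
    obtain ⟨hla, hmu1⟩ := hcase
    have hA := hcore (q i) (q k) e 1 (-lam) mu (hqd i) (hqd k) hed
      (fun w hw => by
        show 1 * xx m q i w + -lam * xx m q k w = mu + (xx m q i w - lam * xx m q k w - mu)
        ring)
      (fun w hw => (hesm w hw).trans (by linarith)) he0 hmu1 (by linarith)
      (by rw [norm_one]; linarith) (by rw [norm_one]; norm_num) (by rw [norm_neg]; exact hla)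
      (by rw [norm_neg]; linarith) (hbt i) (hbt k) z hz
    have hA1 : ‖xx m q i z‖ ≤ C := hA.1
    have hA2 : ‖xx m q k z‖ ≤ C := hA.2
    have hl3 : ‖xx m q l z‖ ≤ 1 + C + C := by
      have e1 : xx m q l z = 1 - xx m q i z - xx m q k z := by
        linear_combination hsumx z hz2
      rw [e1]
      have e2 := norm_sub_le (1 - xx m q i z) (xx m q k z)
      have e3 := norm_sub_le (1 : ℂ) (xx m q i z)
      rw [norm_one] at e3
      linarith
    linarith
  · -- case B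
    have hcB : c0 ≤ ‖1 + lam‖ ∧ c0 ≤ ‖1 - mu‖ := by
      by_cases hla : c0 ≤ ‖lam‖
      · have hmu1 : ‖mu‖ < c0 := by
          by_contra hcon
          exact hcase ⟨hla, not_lt.1 hcon⟩
        constructor
        · have e0 : (1 + lam) * xx m q k 0 = (1 - xx m q l 0) - mu := by
            rw [hmu]
            linear_combination hsumx 0 h02
          have e1 : ‖1 + lam‖ * ‖xx m q k 0‖ = ‖(1 - xx m q l 0) - mu‖ := by
            rw [← norm_mul, e0]
          have e2 := norm_sub_norm_le (1 - xx m q l 0) mu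
          have e3 := hbn l
          have e4 : ‖1 + lam‖ * ‖xx m q k 0‖ ≤ ‖1 + lam‖ * L := by
            gcongr
            exact (hbt k).2
          have e5 : 1 / (2 * L) ≤ ‖1 + lam‖ * L := by
            rw [hc0def] at hmu1
            linarith
          rw [hc0def]
          rw [div_le_iff₀ (by positivity)] at e5 ⊢
          nlinarith
        · have e1 := norm_sub_norm_le (1 : ℂ) mu
          rw [norm_one] at e1
          linarith
      · rw [not_le] at hla
        constructor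
        · have e1 := norm_sub_norm_le (1 : ℂ) (-lam)
          rw [norm_one, norm_neg, sub_neg_eq_add] at e1
          linarith
        · have e0 : 1 - mu = (1 - xx m q i 0) + lam * xx m q k 0 := by
            rw [hmu]; ring
          have e1 := norm_sub_norm_le (1 - xx m q i 0) (-(lam * xx m q k 0))
          rw [norm_neg, sub_neg_eq_add, norm_mul] at e1
          have e2 : ‖lam‖ * ‖xx m q k 0‖ ≤ c0 * L := by
            gcongr
            exact (hbt k).2
          have e3 := hbn i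
          rw [e0]
          linarith
    obtain ⟨hla, hmu1⟩ := hcB
    have hA := hcore (q l) (q k) (fun w => - e w) 1 (1 + lam) (1 - mu) (hqd l) (hqd k) hed.neg
      (fun w hw => by
        show 1 * xx m q l w + (1 + lam) * xx m q k w =
          (1 - mu) + -(xx m q i w - lam * xx m q k w - mu)
        linear_combination hsumx w (hsub hw))
      (fun w hw => by rw [norm_neg]; exact (hesm w hw).trans (by linarith))
      (by simp only [he0, neg_zero]) hmu1
      (by
        have e1 := norm_sub_le (1 : ℂ) mu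
        rw [norm_one] at e1
        linarith)
      (by rw [norm_one]; linarith) (by rw [norm_one]; norm_num) hla
      (by
        have e1 := norm_add_le (1 : ℂ) lam
        rw [norm_one] at e1
        linarith) (hbt l) (hbt k) z hz
    have hA1 : ‖xx m q l z‖ ≤ C := hA.1
    have hA2 : ‖xx m q k z‖ ≤ C := hA.2
    linarith

end Pool.Agent.Work.MP_6d7a54_an.UP
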