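import Pool.Agent.Work.MP_6d7a54_an.UP.Defs

/-!
# Step 2 of MP_6d7a54_an: Cartan's inequality at all centres
-/

namespace Pool.Agent.Work.MP_6d7a54_an.UP

open Complex Metric Real Set

noncomputable section

namespace Step2

lemma sz_nonneg (u v : ℂ → ℂ) (z : ℂ) : 0 ≤ sz u v z := le_max_left _ _

lemma sz_cont {u v : ℂ → ℂ} {s : Set ℂ} (hu : ContinuousOn u s) (hv : ContinuousOn v s) :
    ContinuousOn (sz u v) s := by
  unfold sz
  have h1 : ContinuousOn (fun z => (u z).re) s := Complex.continuous_re.comp_continuousOn hu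
  have h2 : ContinuousOn (fun z => (v z).re) s := Complex.continuous_re.comp_continuousOn hv
  have h3 : ContinuousOn (fun z => max (u z).re (v z).re) s :=
    continuous_max.comp_continuousOn (h1.prodMk h2)
  exact continuous_max.comp_continuousOn (continuousOn_const.prodMk h3)

/-- the maximum of `sz` on closed balls -/
def S (u v : ℂ → ℂ) (r : ℝ) : ℝ := sSup (sz u v '' closedBall 0 r)

lemma bdd {u v : ℂ → ℂ} (hu : ContinuousOn u (ball 0 1)) (hv : ContinuousOn v (ball 0 1))
    {r : ℝ} (hr : r < 1) : BddAbove (sz u v '' closedBall 0 r) := by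
  have h1 : closedBall (0 : ℂ) r ⊆ ball 0 1 := closedBall_subset_ball hr
  exact ((isCompact_closedBall (0 : ℂ) r).image_of_continuousOn
    ((sz_cont hu hv).mono h1)).bddAbove

lemma sz_le_S {u v : ℂ → ℂ} (hu : ContinuousOn u (ball 0 1)) (hv : ContinuousOn v (ball 0 1))
    {r : ℝ} (hr : r < 1) {z : ℂ} (hz : ‖z‖ ≤ r) : sz u v z ≤ S u v r := by
  exact le_csSup (bdd hu hv hr) ⟨z, by simpa using hz, rfl⟩

lemma S_le {u v : ℂ → ℂ} {r a : ℝ} (hr : 0 ≤ r) (h : ∀ z : ℂ, ‖z‖ ≤ r → sz u v z ≤ a) :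
    S u v r ≤ a := by
  refine csSup_le ⟨sz u v 0, 0, by simpa using hr, rfl⟩ ?_
  rintro _ ⟨z, hz, rfl⟩
  exact h z (by simpa using hz)

/-- zeros of a nonzero analytic function in a smaller closed ball are finite in number -/
lemma finite_zeros {f : ℂ → ℂ} (hf : AnalyticOnNhd ℂ f (ball 0 1)) {c : ℂ} (hc : c ∈ ball (0 : ℂ) 1)
    (h0 : f c ≠ 0) {r : ℝ} (hr : r < 1) : {z | z ∈ closedBall (0 : ℂ) r ∧ f z = 0}.Finite := by
  by_contra hinf
  have hinf' : {z | z ∈ closedBall (0 : ℂ) r ∧ f z = 0}.Infinite := hinf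
  obtain ⟨z, hz, hacc⟩ := hinf'.exists_accPt_of_subset_isCompact (isCompact_closedBall (0 : ℂ) r)
    (fun z hz => hz.1)
  have hz1 : z ∈ ball (0 : ℂ) 1 := closedBall_subset_ball hr hz
  have hfreq : ∃ᶠ w in nhdsWithin z {z}ᶜ, f w = 0 := by
    have := accPt_iff_frequently_nhdsNE.mp hacc
    exact this.mono (fun w hw => hw.2)
  have := hf.eqOn_zero_of_preconnected_of_frequently_eq_zero
    ((convex_ball (0 : ℂ) 1).isPreconnected) hz1 hfreq
  exact h0 (this hc)

/-- a radius avoiding the zeros -/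
lemma exists_radius {f : ℂ → ℂ} (hf : AnalyticOnNhd ℂ f (ball 0 1)) {c : ℂ}
    (hc : c ∈ ball (0 : ℂ) 1) (h0 : f c ≠ 0) {r₁ r₂ : ℝ} (h12 : r₁ < r₂) (hr : r₂ < 1) :
    ∃ r : ℝ, r₁ < r ∧ r < r₂ ∧ ∀ z ∈ sphere (0 : ℂ) r, f z ≠ 0 := by
  have hfin := finite_zeros hf hc h0 hr
  have hfin2 : ((fun z : ℂ => ‖z‖) '' {z | z ∈ closedBall (0 : ℂ) r₂ ∧ f z = 0}).Finite :=
    hfin.image _
  obtain ⟨r, hr1, hr2⟩ := ((Set.Ioo_infinite h12).sdiff hfin2).nonempty
  refine ⟨r, hr1.1, hr1.2, fun z hz hfz => hr2 ⟨z, ⟨?_, hfz⟩, ?_⟩⟩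
  · have : ‖z‖ = r := by simpa using hz
    simp only [mem_closedBall, dist_zero_right]
    linarith [hr1.2]
  · simpa using hz

/-- the growth of the bounds -/
lemma absorb (x a : ℝ) (ha : 0 ≤ a) : x * √a ≤ a / 24 + 6 * x ^ 2 := by
  have h1 : √a ^ 2 = a := Real.sq_sqrt ha
  nlinarith [sq_nonneg (√a / √24 - √6 * x), sq_nonneg (√a - 12 * x)]

lemma log_le_four (S : ℝ) (hS : 0 < S) : Real.log S ≤ 4 * √(√S) := by
  have h1 : 0 < √(√S) := Real.sqrt_pos.2 (Real.sqrt_pos.2 hS)
  have h2 : S = √(√S) ^ 4 := by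
    have e1 : √(√S) ^ 2 = √S := Real.sq_sqrt (Real.sqrt_nonneg _)
    have e2 : √S ^ 2 = S := Real.sq_sqrt hS.le
    calc S = √S ^ 2 := e2.symm
      _ = (√(√S) ^ 2) ^ 2 := by rw [e1]
      _ = √(√S) ^ 4 := by ring
  calc Real.log S = Real.log (√(√S) ^ 4) := by rw [← h2]
    _ = 4 * Real.log (√(√S)) := by rw [Real.log_pow]; norm_num
    _ ≤ 4 * √(√S) := by
        have := Real.log_le_sub_one_of_pos h1
        linarith

lemma sphere_pos {r : ℝ} (hr : 0 < r) (c : ℂ) : sphere c |r| = sphere c r := by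
  rw [abs_of_pos hr]

/-- positivity of the Poisson kernel on the circle -/
lemma pk_nonneg {r : ℝ} {c z : ℂ} (hr : 0 < r) (hc : c ∈ ball (0 : ℂ) r)
    (hz : z ∈ sphere (0 : ℂ) r) : 0 ≤ poissonKernel 0 c z := by
  rw [poissonKernel_def]
  have h1 : ‖z‖ = r := by simpa using hz
  have h2 : ‖c‖ < r := by simpa using hc
  simp only [sub_zero]
  apply div_nonneg _ (by positivity)
  rw [h1]
  nlinarith [norm_nonneg c]

lemma pk_cont {r : ℝ} {c : ℂ} (hr : 0 < r) (hc : c ∈ ball (0 : ℂ) r) :
    ContinuousOn (poissonKernel 0 c) (sphere 0 r) := by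
  unfold poissonKernel
  apply ContinuousOn.div (by fun_prop) (by fun_prop)
  intro z hz h0
  have h1 : ‖z‖ = r := by simpa using hz
  have h2 : ‖c‖ < r := by simpa using hc
  simp only [sub_zero] at h0
  have h3 : z = c := by
    have : ‖z - c‖ = 0 := by simpa using h0
    exact sub_eq_zero.mp (norm_eq_zero.mp this)
  rw [h3] at h1
  linarith

lemma pk_int {r : ℝ} {c : ℂ} (hr : 0 < r) (hc : c ∈ ball (0 : ℂ) r) {f : ℂ → ℝ}
    (hf : ContinuousOn f (sphere 0 r)) :
    CircleIntegrable (fun z => poissonKernel 0 c z * f z) 0 r := by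
  apply ContinuousOn.circleIntegrable hr.le
  exact (pk_cont hr hc).mul hf

lemma pk_one {r : ℝ} {c : ℂ} (hr : 0 < r) (hc : c ∈ ball (0 : ℂ) r) :
    circleAverage (fun z => poissonKernel 0 c z) 0 r = 1 := by
  have h : InnerProductSpace.HarmonicOnNhd (fun _ : ℂ => (1 : ℝ)) (closedBall (0 : ℂ) r) := by
    intro x hx
    exact (analyticAt_const (𝕜 := ℂ) (x := x) (v := (1 : ℂ))).harmonicAt_re
  have := h.circleAverage_poissonKernel_smul hc
  have e : (poissonKernel 0 c • fun _ : ℂ => (1 : ℝ)) = fun z => poissonKernel 0 c z := by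
    funext z
    simp
  rw [e] at this
  exact this

/-- the integrated inequality: if `a sz <= A - log |o|` on the circle then the same holds
for Poisson averages -/
lemma averaged (h1 : S_PJ) {u v o : ℂ → ℂ} {r a A : ℝ} {c : ℂ} (hr : 0 < r) (hr1 : r < 1)
    (hc : c ∈ ball (0 : ℂ) r) (hu : ContinuousOn u (ball 0 1)) (hv : ContinuousOn v (ball 0 1))
    (ho : AnalyticOnNhd ℂ o (ball 0 1)) (hs : ∀ z ∈ sphere (0 : ℂ) r, o z ≠ 0) (h0 : o c ≠ 0)
    (hp : ∀ z ∈ sphere (0 : ℂ) r, a * sz u v z ≤ A - Real.log ‖o z‖) :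
    a * circleAverage (fun z => poissonKernel 0 c z * sz u v z) 0 r ≤ A - Real.log ‖o c‖ := by
  have hsub : closedBall (0 : ℂ) r ⊆ ball 0 1 := closedBall_subset_ball hr1
  have hss : sphere (0 : ℂ) r ⊆ ball 0 1 := sphere_subset_closedBall.trans hsub
  have hPJ := h1 o r c hr hc (ho.mono hsub) hs h0
  have hszc : ContinuousOn (sz u v) (sphere 0 r) := (sz_cont hu hv).mono hss
  have hlogc : ContinuousOn (fun z => Real.log ‖o z‖) (sphere 0 r) := by
    apply ContinuousOn.log
    · exact (ho.continuousOn.mono hss).norm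
    · intro z hz
      exact norm_ne_zero_iff.2 (hs z hz)
  have hA : circleAverage (fun z => poissonKernel 0 c z * A) 0 r = A := by
    have : (fun z => poissonKernel 0 c z * A) = fun z => A • poissonKernel 0 c z := by
      funext z
      simp [mul_comm]
    rw [this, circleAverage_fun_smul, pk_one hr hc]
    simp
  have hB : circleAverage (fun z => poissonKernel 0 c z * (A - Real.log ‖o z‖)) 0 r
      = A - circleAverage (fun z => poissonKernel 0 c z * Real.log ‖o z‖) 0 r := by
    have : (fun z => poissonKernel 0 c z * (A - Real.log ‖o z‖))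
        = fun z => poissonKernel 0 c z * A - poissonKernel 0 c z * Real.log ‖o z‖ := by
      funext z
      ring
    rw [this, circleAverage_fun_sub (pk_int hr hc continuousOn_const) (pk_int hr hc hlogc), hA]
  have hC : a * circleAverage (fun z => poissonKernel 0 c z * sz u v z) 0 r
      = circleAverage (fun z => poissonKernel 0 c z * (a * sz u v z)) 0 r := by
    have : (fun z => poissonKernel 0 c z * (a * sz u v z))
        = fun z => a • (poissonKernel 0 c z * sz u v z) := by
      funext z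
      simp only [smul_eq_mul]
      ring
    rw [this, circleAverage_fun_smul]
    simp
  rw [hC]
  calc circleAverage (fun z => poissonKernel 0 c z * (a * sz u v z)) 0 r
      ≤ circleAverage (fun z => poissonKernel 0 c z * (A - Real.log ‖o z‖)) 0 r := by
        apply circleAverage_mono
        · exact pk_int hr hc (continuousOn_const.mul hszc)
        · exact pk_int hr hc (continuousOn_const.sub hlogc)
        · intro z hz
          rw [abs_of_pos hr] at hz
          exact mul_le_mul_of_nonneg_left (hp z hz) (pk_nonneg hr hc hz)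
    _ = A - circleAverage (fun z => poissonKernel 0 c z * Real.log ‖o z‖) 0 r := hB
    _ ≤ A - Real.log ‖o c‖ := by linarith

/-- the pointwise inequality on the good circle -/
lemma pointwise {m : ℕ} (hm : 3 ≤ m) {s W h q o Y : ℝ} (hY : 1 ≤ Y) (hs : 0 ≤ s)
    (hW : W = q ^ (m - 2) * o) (hh : h = q ^ m) (hq : 0 < q) (ho : 0 < o)
    (h3 : h ≤ 3 * Real.exp s) (hC : Real.exp s * W ≤ 16 * Y ^ 3 * h) :
    (1 / 3) * s ≤ Real.log 48 + 3 * Real.log Y - Real.log o := by
  have hm0 : (3 : ℝ) ≤ m := by exact_mod_cast hm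
  have hlogq : (m : ℝ) * Real.log q ≤ Real.log 3 + s := by
    have : Real.log h ≤ Real.log (3 * Real.exp s) :=
      Real.log_le_log (by rw [hh]; positivity) h3
    rw [hh, Real.log_pow, Real.log_mul (by norm_num) (Real.exp_ne_zero s), Real.log_exp] at this
    exact this
  have hlogC : s + ((m : ℝ) - 2) * Real.log q + Real.log o
      ≤ Real.log 16 + 3 * Real.log Y + m * Real.log q := by
    have h4 : Real.log (Real.exp s * W) ≤ Real.log (16 * Y ^ 3 * h) :=
      Real.log_le_log (by rw [hW]; positivity) hC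
    rw [hW, hh, Real.log_mul (Real.exp_ne_zero s) (by positivity), Real.log_exp,
      Real.log_mul (by positivity) (by positivity), Real.log_pow,
      Real.log_mul (by positivity) (by positivity), Real.log_mul (by norm_num) (by positivity),
      Real.log_pow, Real.log_pow] at h4
    have h5 : ((m - 2 : ℕ) : ℝ) = (m : ℝ) - 2 := by
      rw [Nat.cast_sub (by omega)]
      norm_num
    rw [h5] at h4
    push_cast at h4
    linarith
  have h6 : s + Real.log o ≤ Real.log 16 + 3 * Real.log Y + 2 * Real.log q := by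
    linarith
  have h7 : 3 * Real.log q ≤ Real.log 3 + s := by
    by_cases hq1 : 0 ≤ Real.log q
    · calc 3 * Real.log q ≤ m * Real.log q := mul_le_mul_of_nonneg_right hm0 hq1
        _ ≤ _ := hlogq
    · have : 0 ≤ Real.log 3 := Real.log_nonneg (by norm_num)
      linarith
  have h8 : Real.log 48 = Real.log 16 + Real.log 3 := by
    rw [← Real.log_mul (by norm_num) (by norm_num)]
    norm_num
  have h9 : 0 ≤ Real.log 3 := Real.log_nonneg (by norm_num)
  rw [h8]
  linarith

lemma om_analytic {m : ℕ} {u v q : ℂ → ℂ} (hu : DifferentiableOn ℂ u (ball 0 1))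
    (hv : DifferentiableOn ℂ v (ball 0 1)) (hq : DifferentiableOn ℂ q (ball 0 1)) :
    AnalyticOnNhd ℂ (om m u v q) (ball 0 1) := by
  have au := hu.analyticOnNhd isOpen_ball
  have av := hv.analyticOnNhd isOpen_ball
  have aq := hq.analyticOnNhd isOpen_ball
  intro z hz
  have u1 : AnalyticAt ℂ (deriv u) z := (au z hz).deriv
  have u2 : AnalyticAt ℂ (deriv (deriv u)) z := u1.deriv
  have q0 := aq z hz
  have q1 : AnalyticAt ℂ (deriv q) z := q0.deriv
  have q2 : AnalyticAt ℂ (deriv (deriv q)) z := q1.deriv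
  have v0 := av z hz
  unfold om
  have e1 : AnalyticAt ℂ (fun z => Complex.exp (- v z)) z := v0.neg.cexp
  fun_prop

lemma S_mono {u v : ℂ → ℂ} (hu : ContinuousOn u (ball 0 1)) (hv : ContinuousOn v (ball 0 1)) :
    MonotoneOn (S u v) (Icc (3/4) (7/8)) := by
  intro a ha b hb hab
  apply S_le (by linarith [ha.1])
  intro z hz
  exact sz_le_S hu hv (by linarith [hb.2]) (hz.trans hab)

lemma h_bound (u v : ℂ → ℂ) (z : ℂ) :
    ‖1 + Complex.exp (u z) + Complex.exp (v z)‖ ≤ 3 * Real.exp (sz u v z) := by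
  have h1 : ‖Complex.exp (u z)‖ ≤ Real.exp (sz u v z) := by
    rw [Complex.norm_exp]
    exact Real.exp_le_exp.2 ((le_max_left _ _).trans (le_max_right _ _))
  have h2 : ‖Complex.exp (v z)‖ ≤ Real.exp (sz u v z) := by
    rw [Complex.norm_exp]
    exact Real.exp_le_exp.2 ((le_max_right _ _).trans (le_max_right _ _))
  have h3 : 1 ≤ Real.exp (sz u v z) := Real.one_le_exp (sz_nonneg u v z)
  calc ‖1 + Complex.exp (u z) + Complex.exp (v z)‖
      ≤ ‖(1 : ℂ)‖ + ‖Complex.exp (u z)‖ + ‖Complex.exp (v z)‖ :=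
        (norm_add_le _ _).trans (by gcongr; exact norm_add_le _ _)
    _ ≤ 3 * Real.exp (sz u v z) := by
        rw [norm_one]
        linarith

end Step2

open Step2 in
theorem Step2_proof (h1 : S_PJ) (h2 : S_HU) (h3 : S_HL) (h4 : S_BC) (h5 : S_Grow) (h6 : S_GR)
    (h7 : S_Cartan) (h8 : S_Om) : S_Step2 := by
  intro m L hm hL
  obtain ⟨K1, hK1, HBC⟩ := h4
  obtain ⟨K2, k2, hK2, HGR⟩ := h6
  set K0 : ℝ := max K1 K2 with hK0
  set k0 : ℕ := max 3 k2 with hk0
  have hK01 : 1 ≤ K0 := hK1.trans (le_max_left _ _)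
  set CL : ℝ := 32 * (3 + L) with hCL
  have hCL1 : 1 ≤ CL := by rw [hCL]; linarith
  set A0 : ℝ := Real.log 48 + 3 * Real.log K0 + 3 * k0 * Real.log CL
    + 6 * (192 * (k0 : ℝ)) ^ 2 with hA0
  refine ⟨1/30, max 64 (Real.exp A0), by norm_num, le_max_of_le_left (by norm_num), ?_⟩
  intro u v q M hD hB hCM hz0 c hc
  obtain ⟨z0, hz0, hMz⟩ := hz0
  have hM64 : 64 ≤ M := (le_max_left _ _).trans hCM
  have hC0 : 0 ≤ max 64 (Real.exp A0) := le_max_of_le_left (by norm_num)
  by_cases hom : om m u v q c = 0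
  · rw [hom, norm_zero]
    positivity
  have cu := hD.hu.continuousOn
  have cv := hD.hv.continuousOn
  have au := hD.hu.analyticOnNhd isOpen_ball
  have av := hD.hv.analyticOnNhd isOpen_ball
  have aq := hD.hq.analyticOnNhd isOpen_ball
  have h64 : 64 ≤ S u v (3/4) :=
    (hM64.trans hMz).trans (sz_le_S cu cv (by norm_num) (hz0.trans (by norm_num)))
  obtain ⟨R, hR1, hR2, hR3, hR4⟩ := h5 (S u v) (S_mono cu cv) h64
  set Sv : ℝ := S u v R with hSv
  have hSv64 : 64 ≤ Sv := h64.trans (S_mono cu cv ⟨le_refl _, by norm_num⟩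
    ⟨hR1, by linarith⟩ hR1)
  have hSvpos : 0 < Sv := by linarith
  have hsq : 8 ≤ √Sv := by
    have : √64 ≤ √Sv := Real.sqrt_le_sqrt hSv64
    have e : √(64 : ℝ) = 8 := by
      rw [show (64 : ℝ) = 8 ^ 2 by norm_num]
      exact Real.sqrt_sq (by norm_num)
    linarith
  have hsqpos : 0 < √Sv := by linarith
  have hsqsq : √Sv * √Sv = Sv := Real.mul_self_sqrt hSvpos.le
  set d0 : ℝ := 1 / (8 * √Sv) with hd0
  have hd0pos : 0 < d0 := by rw [hd0]; positivity
  have hd0le : d0 ≤ 1/64 := by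
    rw [hd0]
    apply one_div_le_one_div_of_le (by norm_num)
    linarith
  set d : ℝ := d0 / 4 with hd
  have hdpos : 0 < d := by positivity
  have hdle : d ≤ 1/8 := by rw [hd]; linarith
  have hd4 : d0 = 4 * d := by rw [hd]; ring
  have hinvd : 1 / d = 32 * √Sv := by
    rw [hd, hd0]
    field_simp
    norm_num
  -- bounds of sz
  have hsz : ∀ z : ℂ, ‖z‖ ≤ R + d0 → sz u v z ≤ 2 * Sv := fun z hz =>
    (sz_le_S cu cv (by linarith) hz).trans hR4
  set X : ℝ := 2 * Sv + 2 + L with hX
  have hX1 : 1 ≤ X := by rw [hX]; linarith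
  set T : ℝ := X / d with hT
  have hT1 : 1 ≤ T := by
    rw [hT, le_div_iff₀ hdpos]
    linarith
  -- Borel-Caratheodory
  have hbc : ∀ w : ℂ → ℂ, DifferentiableOn ℂ w (ball 0 1) →
      (∀ z : ℂ, (w z).re ≤ sz u v z) → ‖w 0‖ ≤ L → ∀ z : ℂ, ‖z‖ ≤ R + 3 * d →
      ‖deriv w z‖ ≤ K0 * T ^ k0 ∧ ‖deriv (deriv w) z‖ ≤ K0 * T ^ k0 := by
    intro w hw hre hw0 z hz
    have := HBC w (R + d0) d (2 * Sv) L hdpos (by linarith) (by linarith) (by linarith)
      (by linarith) hL (hw.mono (ball_subset_ball (by linarith)))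
      (fun z hz => (hre z).trans (hsz z (by
        have : ‖z‖ < R + d0 := by simpa using hz
        linarith))) hw0 z (by linarith)
    have key : K1 * (2 * Sv + L) / d ^ 3 ≤ K0 * T ^ k0 := by
      calc K1 * (2 * Sv + L) / d ^ 3 ≤ K0 * X ^ 3 / d ^ 3 := by
            apply div_le_div_of_nonneg_right _ (by positivity)
            apply mul_le_mul (le_max_left _ _) _ (by linarith) (by linarith)
            calc 2 * Sv + L ≤ X := by rw [hX]; linarith
              _ = X ^ 1 := (pow_one X).symm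
              _ ≤ X ^ 3 := pow_le_pow_right₀ hX1 (by norm_num)
        _ = K0 * T ^ 3 := by rw [hT]; ring
        _ ≤ K0 * T ^ k0 := by
            apply mul_le_mul_of_nonneg_left _ (by linarith)
            exact pow_le_pow_right₀ hT1 (le_max_left _ _)
    exact ⟨this.2.1.trans key, this.2.2.trans key⟩
  -- good radii
  set h : ℂ → ℂ := fun z => 1 + Complex.exp (u z) + Complex.exp (v z) with hh
  have hhan : AnalyticOnNhd ℂ h (ball 0 1) := by
    intro z hz
    have e1 := (au z hz).cexp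
    have e2 := (av z hz).cexp
    rw [hh]
    fun_prop
  obtain ⟨r₁, r₂, hr1, hr12, hr2, hgood⟩ := HGR h X (R + d) d hX1 hdpos hdle (by linarith)
    (by linarith) (hhan.mono (closedBall_subset_ball (by linarith)))
    (by
      intro z hz
      have hz' : ‖z‖ ≤ R + d + d := by simpa using hz
      have h3 : (3 : ℝ) ≤ Real.exp 2 := by
        have := Real.add_one_le_exp (2 : ℝ)
        linarith
      calc ‖h z‖ ≤ 3 * Real.exp (sz u v z) := h_bound u v z
        _ ≤ Real.exp 2 * Real.exp (2 * Sv) := by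
            apply mul_le_mul h3 _ (Real.exp_nonneg _) (Real.exp_nonneg _)
            exact Real.exp_le_exp.2 (hsz z (by linarith))
        _ = Real.exp (2 + 2 * Sv) := (Real.exp_add _ _).symm
        _ ≤ Real.exp X := Real.exp_le_exp.2 (by rw [hX]; linarith))
    (by
      have e1 : L ≤ Real.exp L := by
        have := Real.add_one_le_exp L
        linarith
      calc Real.exp (-X) ≤ Real.exp (-L) := Real.exp_le_exp.2 (by rw [hX]; linarith)
        _ = (Real.exp L)⁻¹ := Real.exp_neg L
        _ ≤ L⁻¹ := inv_anti₀ (by linarith) e1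
        _ ≤ ‖h 0‖ := hB.h4.1)
  have hcball : c ∈ ball (0 : ℂ) 1 := by
    simp only [mem_ball, dist_zero_right]
    linarith
  obtain ⟨r, hrr1, hrr2, hrs⟩ := exists_radius (om_analytic (m := m) hD.hu hD.hv hD.hq)
    hcball hom hr12 (by linarith)
  have hrpos : 0 < r := by linarith
  have hr1' : r < 1 := by linarith
  have hcr : c ∈ ball (0 : ℂ) r := by
    simp only [mem_ball, dist_zero_right]
    linarith
  set Y : ℝ := K0 * T ^ k0 with hY
  have hTk : 1 ≤ T ^ k0 := one_le_pow₀ hT1
  have hY1 : 1 ≤ Y := by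
    rw [hY]
    nlinarith
  have hGRY : K2 * (X / d) ^ k2 ≤ Y := by
    rw [hY, ← hT]
    apply mul_le_mul (le_max_right _ _) _ (by positivity) (by linarith)
    exact pow_le_pow_right₀ hT1 (le_max_right _ _)
  -- the pointwise inequality
  have hpt : ∀ z ∈ sphere (0 : ℂ) r,
      (1 / 3) * sz u v z ≤ (Real.log 48 + 3 * Real.log Y) - Real.log ‖om m u v q z‖ := by
    intro z hz
    have hzr : ‖z‖ = r := by simpa using hz
    have hzb : z ∈ ball (0 : ℂ) 1 := by
      simp only [mem_ball, dist_zero_right]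
      linarith
    obtain ⟨g1, g2, g3⟩ := hgood z (by linarith) (by linarith)
    obtain ⟨bu1, bu2⟩ := hbc u hD.hu
      (fun z => (le_max_left _ _).trans (le_max_right _ _)) hB.nu z (by linarith)
    obtain ⟨bv1, bv2⟩ := hbc v hD.hv
      (fun z => (le_max_right _ _).trans (le_max_right _ _)) hB.nv z (by linarith)
    have hC := h7 u v h z Y hY1 (au z hzb) (av z hzb) (Filter.Eventually.of_forall fun _ => rfl)
      g1 bu1 bv1 bu2 bv2 (g2.trans hGRY) (g3.trans hGRY)
    have hO := h8 m u v q z (by omega) (au z hzb) (av z hzb) (aq z hzb)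
      (Filter.eventually_of_mem (isOpen_ball.mem_nhds hzb) (fun x hx => hD.heq x hx))
    have hhq : h z = q z ^ m := hD.heq z hzb
    have hq0 : q z ≠ 0 := by
      intro h0
      apply g1
      rw [hhq, h0, zero_pow (by omega)]
    exact pointwise (h := ‖h z‖) (W := ‖WW u v z‖) hm hY1 (sz_nonneg u v z)
      (by rw [hO, norm_mul, norm_pow]) (by rw [hhq, norm_pow]) (norm_pos_iff.2 hq0)
      (norm_pos_iff.2 (hrs z hz)) (h_bound u v z) hC
  have hav := averaged h1 hrpos hr1' hcr cu cv (om_analytic (m := m) hD.hu hD.hv hD.hq)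
    hrs hom hpt
  -- comparison of averages
  set avg : ℝ := circleAverage (sz u v) 0 r with havg
  have havg0 : 0 ≤ avg := circleAverage_nonneg_of_nonneg (fun z _ => sz_nonneg u v z)
  have auc : AnalyticOnNhd ℂ u (closedBall 0 r) := au.mono (closedBall_subset_ball hr1')
  have avc : AnalyticOnNhd ℂ v (closedBall 0 r) := av.mono (closedBall_subset_ball hr1')
  have hHL := h3 u v r c hrpos hcr auc avc
  have hP : (5 / 8) * avg ≤ circleAverage (fun z => poissonKernel 0 c z * sz u v z) 0 r := by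
    refine le_trans ?_ hHL
    apply mul_le_mul_of_nonneg_right _ havg0
    rw [le_div_iff₀ (by positivity)]
    linarith
  have hM5 : M ≤ 5 * avg := by
    have := h2 u v r z0 hrpos (by
      simp only [mem_ball, dist_zero_right]
      linarith) auc avc
    refine (hMz.trans this).trans ?_
    apply mul_le_mul_of_nonneg_right _ havg0
    rw [div_le_iff₀ (by linarith)]
    linarith
  have hSavg : Sv ≤ 64 * √Sv * avg := by
    have e : 64 * √Sv = 2 / d := by
      have : 2 / d = 2 * (1 / d) := by ring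
      rw [this, hinvd]
      ring
    rw [e, hSv]
    apply S_le (by linarith)
    intro z hz
    have := h2 u v r z hrpos (by
      simp only [mem_ball, dist_zero_right]
      linarith) auc avc
    refine this.trans ?_
    apply mul_le_mul_of_nonneg_right _ havg0
    apply div_le_div₀ (by norm_num) (by linarith) hdpos (by linarith)
  have hsqavg : √Sv ≤ 64 * avg := by
    have : √Sv * √Sv ≤ √Sv * (64 * avg) := by
      rw [hsqsq]
      linarith
    exact le_of_mul_le_mul_left this hsqpos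
  have hsqq : √(√Sv) ≤ 8 * √avg := by
    have e : √(64 * avg) = 8 * √avg := by
      rw [Real.sqrt_mul (by norm_num)]
      congr 1
      rw [show (64 : ℝ) = 8 ^ 2 by norm_num]
      exact Real.sqrt_sq (by norm_num)
    rw [← e]
    exact Real.sqrt_le_sqrt hsqavg
  have hlogS : Real.log Sv ≤ 32 * √avg := by
    have := log_le_four Sv hSvpos
    linarith
  -- bound of log Y
  have hTle : T ≤ CL * Sv ^ 2 := by
    have e : T = X * (32 * √Sv) := by
      rw [← hinvd, hT]
      ring
    have hsS : √Sv ≤ Sv := by nlinarith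
    have hXS : X ≤ (3 + L) * Sv := by
      rw [hX]
      nlinarith
    rw [e, hCL]
    calc X * (32 * √Sv) ≤ ((3 + L) * Sv) * (32 * Sv) := by
          apply mul_le_mul hXS (by linarith) (by positivity) (by positivity)
      _ = 32 * (3 + L) * Sv ^ 2 := by ring
  have hlogT : Real.log T ≤ Real.log CL + 2 * Real.log Sv := by
    calc Real.log T ≤ Real.log (CL * Sv ^ 2) := Real.log_le_log (by linarith) hTle
      _ = Real.log CL + 2 * Real.log Sv := by
          rw [Real.log_mul (by positivity) (by positivity), Real.log_pow]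
          norm_num
  have hlogY : Real.log Y = Real.log K0 + k0 * Real.log T := by
    rw [hY, Real.log_mul (by positivity) (by positivity), Real.log_pow]
  have hk0pos : (0 : ℝ) ≤ k0 := Nat.cast_nonneg _
  have hAA : Real.log 48 + 3 * Real.log Y ≤ A0 + avg / 24 := by
    have e1 : (k0 : ℝ) * Real.log T ≤ k0 * (Real.log CL + 2 * Real.log Sv) :=
      mul_le_mul_of_nonneg_left hlogT hk0pos
    have e2 : (k0 : ℝ) * Real.log Sv ≤ k0 * (32 * √avg) :=
      mul_le_mul_of_nonneg_left hlogS hk0pos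
    have e3 := absorb (192 * (k0 : ℝ)) avg havg0
    rw [hlogY, hA0]
    nlinarith
  have hfin : Real.log ‖om m u v q c‖ ≤ A0 - 1 / 30 * M := by
    have e1 : (1 / 3 : ℝ) * ((5 / 8) * avg)
        ≤ (1 / 3) * circleAverage (fun z => poissonKernel 0 c z * sz u v z) 0 r :=
      mul_le_mul_of_nonneg_left hP (by norm_num)
    linarith
  have hpos : 0 < ‖om m u v q c‖ := norm_pos_iff.2 hom
  calc ‖om m u v q c‖ = Real.exp (Real.log ‖om m u v q c‖) := (Real.exp_log hpos).symm
    _ ≤ Real.exp (A0 + (-(1 / 30) * M)) := Real.exp_le_exp.2 (by linarith)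
    _ = Real.exp A0 * Real.exp (-(1 / 30) * M) := Real.exp_add _ _
    _ ≤ max 64 (Real.exp A0) * Real.exp (-(1 / 30) * M) :=
        mul_le_mul_of_nonneg_right (le_max_right _ _) (Real.exp_nonneg _)

end

end Pool.Agent.Work.MP_6d7a54_an.UP
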