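import Pool.Agent.Work.MP_6d7a54_an.UP.DefsG
import Pool.Agent.Work.MP_6d7a54_an.UP.I_Step2

/-!
# The engine (MP_6d7a54_an): pointwise Cartan inequality implies exponential smallness
-/

namespace Pool.Agent.Work.MP_6d7a54_an.UP

open Complex Metric Real Set

noncomputable section

namespace GEngine

open Step2

lemma sum_nonneg' {N : ℕ} (f : Fin N → ℂ → ℂ) (z : ℂ) : 0 ≤ ∑ i, ‖f i z‖ :=
  Finset.sum_nonneg fun i _ => norm_nonneg _

lemma sg_nonneg {N : ℕ} (f : Fin N → ℂ → ℂ) (z : ℂ) : 0 ≤ sg f z :=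
  Real.log_nonneg (by linarith [sum_nonneg' f z])

lemma exp_sg {N : ℕ} (f : Fin N → ℂ → ℂ) (z : ℂ) : Real.exp (sg f z) = 1 + ∑ i, ‖f i z‖ :=
  Real.exp_log (by linarith [sum_nonneg' f z])

lemma sg_cont {N : ℕ} {f : Fin N → ℂ → ℂ} {s : Set ℂ} (hf : ∀ i, ContinuousOn (f i) s) :
    ContinuousOn (sg f) s := by
  unfold sg
  apply ContinuousOn.log
  · apply ContinuousOn.add continuousOn_const
    exact continuousOn_finset_sum _ fun i _ => (hf i).norm
  · intro z _
    have := sum_nonneg' f z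
    linarith

lemma norm_le_exp_sg {N : ℕ} (f : Fin N → ℂ → ℂ) (z : ℂ) (i : Fin N) :
    ‖f i z‖ ≤ Real.exp (sg f z) := by
  rw [exp_sg]
  have := Finset.single_le_sum (f := fun i => ‖f i z‖) (fun i _ => norm_nonneg _)
    (Finset.mem_univ i)
  linarith

lemma log_le_sg {N : ℕ} (f : Fin N → ℂ → ℂ) (z : ℂ) (i : Fin N) :
    Real.log ‖f i z‖ ≤ sg f z := by
  by_cases h : f i z = 0
  · rw [h, norm_zero, Real.log_zero]
    exact sg_nonneg f z
  · rw [Real.log_le_iff_le_exp (norm_pos_iff.2 h)]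
    exact norm_le_exp_sg f z i

/-- the maximum of `sg` on closed balls -/
def T {N : ℕ} (f : Fin N → ℂ → ℂ) (r : ℝ) : ℝ := sSup (sg f '' closedBall 0 r)

variable {N : ℕ} {f : Fin N → ℂ → ℂ}

lemma bddT (hf : ∀ i, ContinuousOn (f i) (ball 0 1)) {r : ℝ} (hr : r < 1) :
    BddAbove (sg f '' closedBall 0 r) := by
  have h1 : closedBall (0 : ℂ) r ⊆ ball 0 1 := closedBall_subset_ball hr
  exact ((isCompact_closedBall (0 : ℂ) r).image_of_continuousOn
    ((sg_cont hf).mono h1)).bddAbove

lemma sg_le_T (hf : ∀ i, ContinuousOn (f i) (ball 0 1)) {r : ℝ} (hr : r < 1) {z : ℂ}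
    (hz : ‖z‖ ≤ r) : sg f z ≤ T f r :=
  le_csSup (bddT hf hr) ⟨z, by simpa using hz, rfl⟩

lemma T_le {r a : ℝ} (hr : 0 ≤ r) (h : ∀ z : ℂ, ‖z‖ ≤ r → sg f z ≤ a) : T f r ≤ a := by
  refine csSup_le ⟨sg f 0, 0, by simpa using hr, rfl⟩ ?_
  rintro _ ⟨z, hz, rfl⟩
  exact h z (by simpa using hz)

lemma T_mono (hf : ∀ i, ContinuousOn (f i) (ball 0 1)) : MonotoneOn (T f) (Icc (3/4) (7/8)) := by
  intro a ha b hb hab
  apply T_le (by linarith [ha.1])
  intro z hz
  exact sg_le_T hf (by linarith [hb.2]) (hz.trans hab)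

/-- the integrated inequality -/
lemma averaged (h1 : S_PJ) {s : ℂ → ℝ} {o : ℂ → ℂ} {r a A : ℝ} {c : ℂ} (hr : 0 < r) (hr1 : r < 1)
    (hc : c ∈ ball (0 : ℂ) r) (hscont : ContinuousOn s (sphere 0 r))
    (ho : AnalyticOnNhd ℂ o (ball 0 1)) (hs : ∀ z ∈ sphere (0 : ℂ) r, o z ≠ 0) (h0 : o c ≠ 0)
    (hp : ∀ z ∈ sphere (0 : ℂ) r, a * s z ≤ A - Real.log ‖o z‖) :
    a * circleAverage (fun z => poissonKernel 0 c z * s z) 0 r ≤ A - Real.log ‖o c‖ := by
  have hsub : closedBall (0 : ℂ) r ⊆ ball 0 1 := closedBall_subset_ball hr1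
  have hss : sphere (0 : ℂ) r ⊆ ball 0 1 := sphere_subset_closedBall.trans hsub
  have hPJ := h1 o r c hr hc (ho.mono hsub) hs h0
  have hlogc : ContinuousOn (fun z => Real.log ‖o z‖) (sphere 0 r) := by
    apply ContinuousOn.log
    · exact (ho.continuousOn.mono hss).norm
    · intro z hz
      exact norm_ne_zero_iff.2 (hs z hz)
  have hA : circleAverage (fun z => poissonKernel 0 c z * A) 0 r = A := by
    have : (fun z => poissonKernel 0 c z * A) = fun z => A • poissonKernel 0 c z := by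
      funext z
      simp [mul_comm]
    rw [this, circleAverage_fun_smul, pk_one hr hc]
    simp
  have hB : circleAverage (fun z => poissonKernel 0 c z * (A - Real.log ‖o z‖)) 0 r
      = A - circleAverage (fun z => poissonKernel 0 c z * Real.log ‖o z‖) 0 r := by
    have : (fun z => poissonKernel 0 c z * (A - Real.log ‖o z‖))
        = fun z => poissonKernel 0 c z * A - poissonKernel 0 c z * Real.log ‖o z‖ := by
      funext z
      ring
    rw [this, circleAverage_fun_sub (pk_int hr hc continuousOn_const) (pk_int hr hc hlogc), hA]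
  have hC : a * circleAverage (fun z => poissonKernel 0 c z * s z) 0 r
      = circleAverage (fun z => poissonKernel 0 c z * (a * s z)) 0 r := by
    have : (fun z => poissonKernel 0 c z * (a * s z))
        = fun z => a • (poissonKernel 0 c z * s z) := by
      funext z
      simp only [smul_eq_mul]
      ring
    rw [this, circleAverage_fun_smul]
    simp
  rw [hC]
  calc circleAverage (fun z => poissonKernel 0 c z * (a * s z)) 0 r
      ≤ circleAverage (fun z => poissonKernel 0 c z * (A - Real.log ‖o z‖)) 0 r := by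
        apply circleAverage_mono
        · exact pk_int hr hc (continuousOn_const.mul hscont)
        · exact pk_int hr hc (continuousOn_const.sub hlogc)
        · intro z hz
          rw [abs_of_pos hr] at hz
          exact mul_le_mul_of_nonneg_left (hp z hz) (pk_nonneg hr hc hz)
    _ = A - circleAverage (fun z => poissonKernel 0 c z * Real.log ‖o z‖) 0 r := hB
    _ ≤ A - Real.log ‖o c‖ := by linarith

/-- kernel bounds -/
lemma pk_upper {r : ℝ} {c z : ℂ} (hc : c ∈ ball (0 : ℂ) r)
    (hz : z ∈ sphere (0 : ℂ) r) : poissonKernel 0 c z ≤ (r + ‖c‖) / (r - ‖c‖) := by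
  have := re_herglotzRieszKernel_le hz hc
  rw [poissonKernel_eq_re_herglotzRieszKernel, Function.comp_apply, herglotzRieszKernel_def]
  simpa using this

lemma pk_lower {r : ℝ} {c z : ℂ} (hc : c ∈ ball (0 : ℂ) r)
    (hz : z ∈ sphere (0 : ℂ) r) : (r - ‖c‖) / (r + ‖c‖) ≤ poissonKernel 0 c z := by
  have := le_re_herglotzRieszKernel hz hc
  rw [poissonKernel_eq_re_herglotzRieszKernel, Function.comp_apply, herglotzRieszKernel_def]
  simpa using this

lemma avg_lower {s : ℂ → ℝ} {r : ℝ} {c : ℂ} (hr : 0 < r) (hc : c ∈ ball (0 : ℂ) r)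
    (hs : ContinuousOn s (sphere 0 r)) (h0 : ∀ z, 0 ≤ s z) :
    (r - ‖c‖) / (r + ‖c‖) * circleAverage s 0 r
      ≤ circleAverage (fun z => poissonKernel 0 c z * s z) 0 r := by
  have e : (r - ‖c‖) / (r + ‖c‖) * circleAverage s 0 r
      = circleAverage (fun z => ((r - ‖c‖) / (r + ‖c‖)) • s z) 0 r := by
    rw [circleAverage_fun_smul]
    simp
  rw [e]
  have hcs : ContinuousOn (fun z => ((r - ‖c‖) / (r + ‖c‖)) • s z) (sphere 0 r) :=
    hs.const_smul ((r - ‖c‖) / (r + ‖c‖))
  apply circleAverage_mono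
  · exact hcs.circleIntegrable hr.le
  · exact pk_int hr hc hs
  · intro z hz
    rw [abs_of_pos hr] at hz
    simp only [smul_eq_mul]
    exact mul_le_mul_of_nonneg_right (pk_lower hc hz) (h0 z)

lemma avg_upper {s : ℂ → ℝ} {r : ℝ} {c : ℂ} (hr : 0 < r) (hc : c ∈ ball (0 : ℂ) r)
    (hs : ContinuousOn s (sphere 0 r)) (h0 : ∀ z, 0 ≤ s z) :
    circleAverage (fun z => poissonKernel 0 c z * s z) 0 r
      ≤ (r + ‖c‖) / (r - ‖c‖) * circleAverage s 0 r := by
  have e : (r + ‖c‖) / (r - ‖c‖) * circleAverage s 0 r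
      = circleAverage (fun z => ((r + ‖c‖) / (r - ‖c‖)) • s z) 0 r := by
    rw [circleAverage_fun_smul]
    simp
  rw [e]
  have hcs : ContinuousOn (fun z => ((r + ‖c‖) / (r - ‖c‖)) • s z) (sphere 0 r) :=
    hs.const_smul ((r + ‖c‖) / (r - ‖c‖))
  apply circleAverage_mono
  · exact pk_int hr hc hs
  · exact hcs.circleIntegrable hr.le
  · intro z hz
    rw [abs_of_pos hr] at hz
    simp only [smul_eq_mul]
    exact mul_le_mul_of_nonneg_right (pk_upper hc hz) (h0 z)

/-- upper Harnack inequality for `sg`, if the `f i` have no zeros on the circle -/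
lemma sg_upper (h1 : S_PJ) {r : ℝ} {z : ℂ} (hr : 0 < r) (hr1 : r < 1) (hz : z ∈ ball (0 : ℂ) r)
    (hf : ∀ i, AnalyticOnNhd ℂ (f i) (ball 0 1)) (hs : ∀ i, ∀ w ∈ sphere (0 : ℂ) r, f i w ≠ 0) :
    sg f z ≤ Real.log (1 + N) + (r + ‖z‖) / (r - ‖z‖) * circleAverage (sg f) 0 r := by
  set B : ℝ := (r + ‖z‖) / (r - ‖z‖) * circleAverage (sg f) 0 r with hB
  have hsub : closedBall (0 : ℂ) r ⊆ ball 0 1 := closedBall_subset_ball hr1
  have hss : sphere (0 : ℂ) r ⊆ ball 0 1 := sphere_subset_closedBall.trans hsub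
  have hsgc : ContinuousOn (sg f) (sphere 0 r) :=
    sg_cont fun i => (hf i).continuousOn.mono hss
  have hzr : ‖z‖ < r := by simpa using hz
  have hB0 : 0 ≤ B := by
    apply mul_nonneg
    · apply div_nonneg (by positivity) (by linarith)
    · exact circleAverage_nonneg_of_nonneg fun w _ => sg_nonneg f w
  have key : ∀ i, ‖f i z‖ ≤ Real.exp B := by
    intro i
    by_cases h0 : f i z = 0
    · rw [h0, norm_zero]
      exact Real.exp_nonneg _
    rw [← Real.log_le_iff_le_exp (norm_pos_iff.2 h0)]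
    calc Real.log ‖f i z‖
        ≤ circleAverage (fun w => poissonKernel 0 z w * Real.log ‖f i w‖) 0 r :=
          h1 (f i) r z hr hz ((hf i).mono hsub) (hs i) h0
      _ ≤ circleAverage (fun w => poissonKernel 0 z w * sg f w) 0 r := by
          apply circleAverage_mono
          · apply pk_int hr hz
            apply ContinuousOn.log
            · exact ((hf i).continuousOn.mono hss).norm
            · intro w hw
              exact norm_ne_zero_iff.2 (hs i w hw)
          · exact pk_int hr hz hsgc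
          · intro w hw
            rw [abs_of_pos hr] at hw
            exact mul_le_mul_of_nonneg_left (log_le_sg f w i) (pk_nonneg hr hz hw)
      _ ≤ B := avg_upper hr hz hsgc (sg_nonneg f)
  have h2 : 1 + ∑ i, ‖f i z‖ ≤ (1 + N) * Real.exp B := by
    have h3 : ∑ i, ‖f i z‖ ≤ ∑ _i : Fin N, Real.exp B := Finset.sum_le_sum fun i _ => key i
    have h4 : ∑ _i : Fin N, Real.exp B = N * Real.exp B := by simp
    have h5 : 1 ≤ Real.exp B := Real.one_le_exp hB0
    rw [h4] at h3
    linarith
  unfold sg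
  calc Real.log (1 + ∑ i, ‖f i z‖) ≤ Real.log ((1 + N) * Real.exp B) :=
        Real.log_le_log (by linarith [sum_nonneg' f z]) h2
    _ = Real.log (1 + N) + B := by
        rw [Real.log_mul (by positivity) (Real.exp_ne_zero B), Real.log_exp]

end GEngine

open GEngine Step2 in
theorem Engine_proof (h1 : S_PJ) (h5 : S_Grow) (h6 : S_GRF) : S_Engine := by
  intro N L eta K hL heta hK
  obtain ⟨K2, k2, hK2, HGR⟩ := h6 N
  set N1 : ℝ := Real.log (1 + N) with hN1
  have hN10 : 0 ≤ N1 := Real.log_nonneg (by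
    have : (0 : ℝ) ≤ N := Nat.cast_nonneg _
    linarith)
  set k0 : ℕ := k2 with hk0
  set CL : ℝ := 32 * (3 + L) with hCL
  have hCL1 : 1 ≤ CL := by rw [hCL]; linarith
  -- K + K log Y <= A0 + (eta / 4) avg
  set A0 : ℝ := K + K * Real.log K2 + K * k0 * Real.log CL
    + (72 * K * k0) ^ 2 / eta with hA0
  refine ⟨eta / 24, max (64 + 64 * N1) (Real.exp (A0 + eta * N1)), by positivity,
    le_max_of_le_left (by positivity), ?_⟩
  intro f o M hf ho hB hpt hCM hz0 c hc
  obtain ⟨z0, hz0, hMz⟩ := hz0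
  have hM64 : 64 + 64 * N1 ≤ M := (le_max_left _ _).trans hCM
  have hC0 : 0 ≤ max (64 + 64 * N1) (Real.exp (A0 + eta * N1)) := le_max_of_le_left (by positivity)
  by_cases hom : o c = 0
  · rw [hom, norm_zero]
    positivity
  have cf : ∀ i, ContinuousOn (f i) (ball 0 1) := fun i => (hf i).continuousOn
  have af : ∀ i, AnalyticOnNhd ℂ (f i) (ball 0 1) := fun i => (hf i).analyticOnNhd isOpen_ball
  have ao : AnalyticOnNhd ℂ o (ball 0 1) := ho.analyticOnNhd isOpen_ball
  have h64 : 64 ≤ T f (3/4) := by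
    have := hMz.trans (sg_le_T cf (by norm_num : (3/4 : ℝ) < 1) (hz0.trans (by norm_num)))
    linarith
  obtain ⟨R, hR1, hR2, hR3, hR4⟩ := h5 (T f) (T_mono cf) h64
  set Sv : ℝ := T f R with hSv
  have hSvM : M ≤ Sv := (hMz.trans (sg_le_T cf (by linarith) (hz0.trans (by linarith))))
  have hSv64 : 64 ≤ Sv := by linarith
  have hSvpos : 0 < Sv := by linarith
  have hsq : 8 ≤ √Sv := by
    have : √64 ≤ √Sv := Real.sqrt_le_sqrt hSv64
    have e : √(64 : ℝ) = 8 := by
      rw [show (64 : ℝ) = 8 ^ 2 by norm_num]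
      exact Real.sqrt_sq (by norm_num)
    linarith
  have hsqpos : 0 < √Sv := by linarith
  have hsqsq : √Sv * √Sv = Sv := Real.mul_self_sqrt hSvpos.le
  set d0 : ℝ := 1 / (8 * √Sv) with hd0
  have hd0pos : 0 < d0 := by rw [hd0]; positivity
  have hd0le : d0 ≤ 1/64 := by
    rw [hd0]
    apply one_div_le_one_div_of_le (by norm_num)
    linarith
  set d : ℝ := d0 / 4 with hd
  have hdpos : 0 < d := by positivity
  have hdle : d ≤ 1/8 := by rw [hd]; linarith
  have hd4 : d0 = 4 * d := by rw [hd]; ring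
  have hinvd : 1 / d = 32 * √Sv := by
    rw [hd, hd0]
    field_simp
    norm_num
  have hsg : ∀ z : ℂ, ‖z‖ ≤ R + d0 → sg f z ≤ 2 * Sv := fun z hz =>
    (sg_le_T cf (by linarith) hz).trans hR4
  set X : ℝ := 2 * Sv + 2 + L with hX
  have hX1 : 1 ≤ X := by rw [hX]; linarith
  set Tt : ℝ := X / d with hT
  have hT1 : 1 ≤ Tt := by
    rw [hT, le_div_iff₀ hdpos]
    linarith
  obtain ⟨r₁, r₂, hr1, hr12, hr2, hgood⟩ := HGR f X (R + d) d hX1 hdpos hdle (by linarith)
    (by linarith) (fun i => (af i).mono (closedBall_subset_ball (by linarith)))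
    (by
      intro i z hz
      have hz' : ‖z‖ ≤ R + d + d := by simpa using hz
      calc ‖f i z‖ ≤ Real.exp (sg f z) := norm_le_exp_sg f z i
        _ ≤ Real.exp X := Real.exp_le_exp.2 (by
            have := hsg z (by linarith)
            rw [hX]
            linarith))
    (by
      intro i
      have e1 : L ≤ Real.exp L := by
        have := Real.add_one_le_exp L
        linarith
      calc Real.exp (-X) ≤ Real.exp (-L) := Real.exp_le_exp.2 (by rw [hX]; linarith)
        _ = (Real.exp L)⁻¹ := Real.exp_neg L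
        _ ≤ L⁻¹ := inv_anti₀ (by linarith) e1
        _ ≤ ‖f i 0‖ := (hB i).1)
  have hcball : c ∈ ball (0 : ℂ) 1 := by
    simp only [mem_ball, dist_zero_right]
    linarith
  obtain ⟨r, hrr1, hrr2, hrs⟩ := exists_radius ao hcball hom hr12 (by linarith)
  have hrpos : 0 < r := by linarith
  have hr1' : r < 1 := by linarith
  have hcr : c ∈ ball (0 : ℂ) r := by
    simp only [mem_ball, dist_zero_right]
    linarith
  have hss : sphere (0 : ℂ) r ⊆ ball 0 1 :=
    sphere_subset_closedBall.trans (closedBall_subset_ball hr1')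
  set Y : ℝ := K2 * Tt ^ k0 with hY
  have hTk : 1 ≤ Tt ^ k0 := one_le_pow₀ hT1
  have hY1 : 1 ≤ Y := by
    rw [hY]
    exact one_le_mul_of_one_le_of_one_le hK2 hTk
  have hnz : ∀ z : ℂ, ‖z‖ = r → ∀ i, f i z ≠ 0 ∧ ‖deriv (f i) z / f i z‖ ≤ Y ∧
      ‖deriv (deriv (f i)) z / f i z‖ ≤ Y := by
    intro z hz i
    exact hgood z (by linarith) (by linarith) i
  have hpt' : ∀ z ∈ sphere (0 : ℂ) r,
      eta * sg f z ≤ (K + K * Real.log Y) - Real.log ‖o z‖ := by
    intro z hz
    have hzr : ‖z‖ = r := by simpa using hz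
    exact hpt z (hss hz) Y hY1 (hnz z hzr) (hrs z hz)
  have hsgc : ContinuousOn (sg f) (sphere 0 r) := (sg_cont cf).mono hss
  have hav := averaged h1 hrpos hr1' hcr hsgc ao hrs hom hpt'
  set avg : ℝ := circleAverage (sg f) 0 r with havg
  have havg0 : 0 ≤ avg := circleAverage_nonneg_of_nonneg (fun z _ => sg_nonneg f z)
  have hHL := avg_lower hrpos hcr hsgc (sg_nonneg f)
  have hP : (5 / 8) * avg ≤ circleAverage (fun z => poissonKernel 0 c z * sg f z) 0 r := by
    refine le_trans ?_ hHL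
    apply mul_le_mul_of_nonneg_right _ havg0
    rw [le_div_iff₀ (by positivity)]
    linarith
  have hnz' : ∀ i, ∀ w ∈ sphere (0 : ℂ) r, f i w ≠ 0 := fun i w hw =>
    (hnz w (by simpa using hw) i).1
  have hM5 : M ≤ N1 + 5 * avg := by
    have := sg_upper (f := f) h1 hrpos hr1' (z := z0) (by
      simp only [mem_ball, dist_zero_right]
      linarith) af hnz'
    refine (hMz.trans this).trans ?_
    apply add_le_add le_rfl
    apply mul_le_mul_of_nonneg_right _ havg0
    rw [div_le_iff₀ (by linarith)]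
    linarith
  have havg1 : N1 ≤ avg := by linarith
  have havg2 : 1 ≤ avg := by linarith
  have hSavg : Sv ≤ N1 + 64 * √Sv * avg := by
    have e : 64 * √Sv = 2 / d := by
      have : 2 / d = 2 * (1 / d) := by ring
      rw [this, hinvd]
      ring
    rw [e, hSv]
    apply T_le (by linarith)
    intro z hz
    have := sg_upper (f := f) h1 hrpos hr1' (z := z) (by
      simp only [mem_ball, dist_zero_right]
      linarith) af hnz'
    refine this.trans ?_
    apply add_le_add le_rfl
    apply mul_le_mul_of_nonneg_right _ havg0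
    apply div_le_div₀ (by norm_num) (by linarith) hdpos (by linarith)
  have hsqavg : √Sv ≤ 65 * avg := by
    have h2 : N1 ≤ √Sv * avg := by
      calc N1 ≤ 1 * avg := by linarith
        _ ≤ √Sv * avg := mul_le_mul_of_nonneg_right (by linarith) havg0
    have : √Sv * √Sv ≤ √Sv * (65 * avg) := by
      rw [hsqsq]
      linarith
    exact le_of_mul_le_mul_left this hsqpos
  have hsqq : √(√Sv) ≤ 9 * √avg := by
    have e : √(81 * avg) = 9 * √avg := by
      rw [Real.sqrt_mul (by norm_num)]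
      congr 1
      rw [show (81 : ℝ) = 9 ^ 2 by norm_num]
      exact Real.sqrt_sq (by norm_num)
    rw [← e]
    exact Real.sqrt_le_sqrt (by linarith)
  have hlogS : Real.log Sv ≤ 36 * √avg := by
    have := log_le_four Sv hSvpos
    linarith
  have hTle : Tt ≤ CL * Sv ^ 2 := by
    have e : Tt = X * (32 * √Sv) := by
      rw [← hinvd, hT]
      ring
    have hsS : √Sv ≤ Sv := by
      calc √Sv = 1 * √Sv := (one_mul _).symm
        _ ≤ √Sv * √Sv := mul_le_mul_of_nonneg_right (by linarith) hsqpos.le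
        _ = Sv := hsqsq
    have hXS : X ≤ (3 + L) * Sv := by
      have hLS : L * 1 ≤ L * Sv := mul_le_mul_of_nonneg_left (by linarith) (by linarith)
      rw [hX, add_mul]
      linarith
    rw [e, hCL]
    calc X * (32 * √Sv) ≤ ((3 + L) * Sv) * (32 * Sv) := by
          apply mul_le_mul hXS (by linarith) (by positivity) (by positivity)
      _ = 32 * (3 + L) * Sv ^ 2 := by ring
  have hlogT : Real.log Tt ≤ Real.log CL + 2 * Real.log Sv := by
    calc Real.log Tt ≤ Real.log (CL * Sv ^ 2) := Real.log_le_log (by linarith) hTle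
      _ = Real.log CL + 2 * Real.log Sv := by
          rw [Real.log_mul (by positivity) (by positivity), Real.log_pow]
          norm_num
  have hlogY : Real.log Y = Real.log K2 + k0 * Real.log Tt := by
    rw [hY, Real.log_mul (by positivity) (by positivity), Real.log_pow]
  have hk0pos : (0 : ℝ) ≤ k0 := Nat.cast_nonneg _
  have hAM : 72 * K * k0 * √avg ≤ eta / 4 * avg + (72 * K * k0) ^ 2 / eta := by
    have e1 : √avg ^ 2 = avg := Real.sq_sqrt havg0
    have e2 : 0 ≤ (eta / 2 * √avg - 72 * K * k0) ^ 2 / eta := by positivity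
    have e3 : (eta / 2 * √avg - 72 * K * k0) ^ 2 / eta
        = eta / 4 * √avg ^ 2 - 72 * K * k0 * √avg + (72 * K * k0) ^ 2 / eta := by
      field_simp
      ring
    rw [e3, e1] at e2
    linarith
  have hAA : K + K * Real.log Y ≤ A0 + eta / 4 * avg := by
    have e1 : (k0 : ℝ) * Real.log Tt ≤ k0 * (Real.log CL + 2 * (36 * √avg)) := by
      apply mul_le_mul_of_nonneg_left _ hk0pos
      linarith
    have e2 : K * Real.log Y ≤ K * (Real.log K2 + k0 * (Real.log CL + 2 * (36 * √avg))) := by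
      apply mul_le_mul_of_nonneg_left _ (by linarith)
      rw [hlogY]
      linarith
    have e3 : K * (Real.log K2 + k0 * (Real.log CL + 2 * (36 * √avg)))
        = K * Real.log K2 + K * k0 * Real.log CL + 72 * K * k0 * √avg := by ring
    rw [e3] at e2
    rw [hA0]
    linarith
  have hfin : Real.log ‖o c‖ ≤ A0 + eta * N1 - eta / 24 * M := by
    have e1 : eta * ((5 / 8) * avg)
        ≤ eta * circleAverage (fun z => poissonKernel 0 c z * sg f z) 0 r :=
      mul_le_mul_of_nonneg_left hP heta.le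
    have e2 : eta * M ≤ eta * (N1 + 5 * avg) := mul_le_mul_of_nonneg_left hM5 heta.le
    have e3 : 0 ≤ eta * N1 := by positivity
    have e4 : 0 ≤ eta * avg := by positivity
    have e5 : 0 ≤ eta * M := mul_nonneg heta.le (by linarith)
    have e6 : eta * (N1 + 5 * avg) = eta * N1 + 5 * (eta * avg) := by ring
    have e7 : eta * ((5 / 8) * avg) = 5 / 8 * (eta * avg) := by ring
    have e8 : eta / 4 * avg = 1 / 4 * (eta * avg) := by ring
    have e9 : eta / 24 * M = 1 / 24 * (eta * M) := by ring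
    rw [e6] at e2
    rw [e7] at e1
    rw [e8] at hAA
    rw [e9]
    linarith
  have hpos : 0 < ‖o c‖ := norm_pos_iff.2 hom
  calc ‖o c‖ = Real.exp (Real.log ‖o c‖) := (Real.exp_log hpos).symm
    _ ≤ Real.exp ((A0 + eta * N1) + (-(eta / 24) * M)) := Real.exp_le_exp.2 (by linarith)
    _ = Real.exp (A0 + eta * N1) * Real.exp (-(eta / 24) * M) := Real.exp_add _ _
    _ ≤ max (64 + 64 * N1) (Real.exp (A0 + eta * N1)) * Real.exp (-(eta / 24) * M) :=
        mul_le_mul_of_nonneg_right (le_max_right _ _) (Real.exp_nonneg _)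

end

end Pool.Agent.Work.MP_6d7a54_an.UP
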