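import Pool.Agent.Work.MP_6d7a54_an.UP.DefsG

/-!
# MP_6d7a54_an, general version: factorisation of the Wronskian, symmetry
-/

set_option autoImplicit false

namespace Pool.Agent.Work.MP_6d7a54_an.UP

open Complex Metric Real Set

namespace GFac

theorem d1 (m : ℕ) (q : ℂ → ℂ) (z : ℂ) (hq : AnalyticAt ℂ q z) :
    deriv (fun x => q x ^ m) =ᶠ[nhds z] fun x => (m : ℂ) * q x ^ (m - 1) * deriv q x := by
  filter_upwards [hq.eventually_analyticAt] with x hx
  exact (hx.differentiableAt.hasDerivAt.pow m).deriv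

theorem d2 (n : ℕ) (q : ℂ → ℂ) (z : ℂ) (hq : AnalyticAt ℂ q z) :
    deriv (deriv (fun x => q x ^ (n + 2))) z =
      q z ^ n * (((n + 2 : ℕ) : ℂ) * ((((n + 2 : ℕ) : ℂ) - 1) * deriv q z ^ 2
        + q z * deriv (deriv q) z)) := by
  rw [(d1 (n + 2) q z hq).deriv_eq]
  have h1 : HasDerivAt q (deriv q z) z := hq.differentiableAt.hasDerivAt
  have h2 : HasDerivAt (deriv q) (deriv (deriv q) z) z := hq.deriv.differentiableAt.hasDerivAt
  have h3 := ((h1.pow (n + 1)).const_mul ((n + 2 : ℕ) : ℂ)).mul h2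
  have h4 : deriv (fun x => ((n + 2 : ℕ) : ℂ) * q x ^ (n + 2 - 1) * deriv q x) z = _ := h3.deriv
  rw [h4]
  simp only [Nat.add_sub_cancel, Pi.pow_apply]
  push_cast
  ring

theorem e1 (n : ℕ) (q : ℂ → ℂ) (z : ℂ) (hq : AnalyticAt ℂ q z) :
    deriv (fun x => q x ^ (n + 2)) z = q z ^ n * (((n + 2 : ℕ) : ℂ) * (q z * deriv q z)) := by
  rw [(d1 (n + 2) q z hq).self_of_nhds]
  have : n + 2 - 1 = n + 1 := rfl
  rw [this]
  ring

theorem xan (m : ℕ) (q : Fin 3 → ℂ → ℂ) (z : ℂ) (hq : ∀ i, AnalyticAt ℂ (q i) z) (i : Fin 3) :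
    AnalyticAt ℂ (xx m q i) z := (hq i).pow m

/-- the first two derivatives of the relation -/
theorem sums (m : ℕ) (q : Fin 3 → ℂ → ℂ) (z : ℂ) (hq : ∀ i, AnalyticAt ℂ (q i) z)
    (heq : ∀ᶠ x in nhds z, q 0 x ^ m + q 1 x ^ m + q 2 x ^ m = 1) :
    xx m q 0 z + xx m q 1 z + xx m q 2 z = 1 ∧
    deriv (xx m q 0) z + deriv (xx m q 1) z + deriv (xx m q 2) z = 0 ∧
    deriv (deriv (xx m q 0)) z + deriv (deriv (xx m q 1)) z + deriv (deriv (xx m q 2)) z = 0 := by
  have hx := xan m q z hq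
  have h1 : ∀ᶠ x in nhds z, xx m q 0 x + xx m q 1 x + xx m q 2 x = 1 := heq
  have h2 : ∀ᶠ x in nhds z, deriv (xx m q 0) x + deriv (xx m q 1) x + deriv (xx m q 2) x = 0 := by
    filter_upwards [h1.eventually_nhds, (hx 0).eventually_analyticAt,
      (hx 1).eventually_analyticAt, (hx 2).eventually_analyticAt] with x hx1 a0 a1 a2
    have h3 : (fun y => xx m q 0 y + xx m q 1 y + xx m q 2 y) =ᶠ[nhds x] fun _ => 1 := hx1
    have h4 := h3.deriv_eq
    rw [deriv_const] at h4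
    have h5 := ((a0.differentiableAt.hasDerivAt.add a1.differentiableAt.hasDerivAt).add
      a2.differentiableAt.hasDerivAt).deriv
    rw [← h5]
    exact h4
  refine ⟨h1.self_of_nhds, h2.self_of_nhds, ?_⟩
  have h3 : (fun y => deriv (xx m q 0) y + deriv (xx m q 1) y + deriv (xx m q 2) y)
      =ᶠ[nhds z] fun _ => 0 := h2
  have h4 := h3.deriv_eq
  rw [deriv_const] at h4
  have h5 := (((hx 0).deriv.differentiableAt.hasDerivAt.add
    (hx 1).deriv.differentiableAt.hasDerivAt).add (hx 2).deriv.differentiableAt.hasDerivAt).deriv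
  rw [← h5]
  exact h4

end GFac

theorem Sym3_proof : S3_Sym := by
  intro m q z hq heq
  obtain ⟨-, s1, s2⟩ := GFac.sums m q z hq heq
  refine ⟨s1, ?_⟩
  unfold W3
  set a0 := deriv (xx m q 0) z
  set a1 := deriv (xx m q 1) z
  set b0 := deriv (deriv (xx m q 0)) z
  set b1 := deriv (deriv (xx m q 1)) z
  have ha2 : deriv (xx m q 2) z = -a0 - a1 := by linear_combination s1
  have hb2 : deriv (deriv (xx m q 2)) z = -b0 - b1 := by linear_combination s2
  have key : ∀ i j : Fin 3, i ≠ j →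
      (deriv (xx m q i) z * deriv (deriv (xx m q j)) z
        - deriv (deriv (xx m q i)) z * deriv (xx m q j) z = a0 * b1 - b0 * a1) ∨
      (deriv (xx m q i) z * deriv (deriv (xx m q j)) z
        - deriv (deriv (xx m q i)) z * deriv (xx m q j) z = -(a0 * b1 - b0 * a1)) := by
    intro i j hij
    fin_cases i <;> fin_cases j
    · exact absurd rfl hij
    · exact Or.inl rfl
    · right
      change a0 * deriv (deriv (xx m q 2)) z - b0 * deriv (xx m q 2) z = _
      rw [ha2, hb2]; ring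
    · right
      change a1 * b0 - b1 * a0 = _
      ring
    · exact absurd rfl hij
    · left
      change a1 * deriv (deriv (xx m q 2)) z - b1 * deriv (xx m q 2) z = _
      rw [ha2, hb2]; ring
    · left
      change deriv (xx m q 2) z * b0 - deriv (deriv (xx m q 2)) z * a0 = _
      rw [ha2, hb2]; ring
    · right
      change deriv (xx m q 2) z * b1 - deriv (deriv (xx m q 2)) z * a1 = _
      rw [ha2, hb2]; ring
    · exact absurd rfl hij
  intro i j hij
  rcases key i j hij with h | h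
  · rw [h]
  · rw [h, norm_neg]

theorem Fac3_proof : S3_Fac := by
  intro m J q z hm hq heq hJ
  obtain ⟨s0, s1, s2⟩ := GFac.sums m q z hq heq
  obtain ⟨n, rfl⟩ : ∃ n, m = n + 2 := ⟨m - 2, by omega⟩
  have hx : ∀ i, xx (n + 2) q i z = q i z ^ n * y0 q i z := by
    intro i
    unfold xx y0
    ring
  have hx1 : ∀ i, deriv (xx (n + 2) q i) z = q i z ^ n * y1 (n + 2) q i z :=
    fun i => GFac.e1 n (q i) z (hq i)
  have hx2 : ∀ i, deriv (deriv (xx (n + 2) q i)) z = q i z ^ n * y2 (n + 2) q i z :=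
    fun i => GFac.d2 n (q i) z (hq i)
  have hdet : W3 (n + 2) q z =
      xx (n + 2) q 0 z * (deriv (xx (n + 2) q 1) z * deriv (deriv (xx (n + 2) q 2)) z
        - deriv (deriv (xx (n + 2) q 1)) z * deriv (xx (n + 2) q 2) z)
      - xx (n + 2) q 1 z * (deriv (xx (n + 2) q 0) z * deriv (deriv (xx (n + 2) q 2)) z
        - deriv (deriv (xx (n + 2) q 0)) z * deriv (xx (n + 2) q 2) z)
      + xx (n + 2) q 2 z * (deriv (xx (n + 2) q 0) z * deriv (deriv (xx (n + 2) q 1)) z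
        - deriv (deriv (xx (n + 2) q 0)) z * deriv (xx (n + 2) q 1) z) := by
    unfold W3
    set a0 := deriv (xx (n + 2) q 0) z
    set a1 := deriv (xx (n + 2) q 1) z
    set b0 := deriv (deriv (xx (n + 2) q 0)) z
    set b1 := deriv (deriv (xx (n + 2) q 1)) z
    have ha2 : deriv (xx (n + 2) q 2) z = -a0 - a1 := by linear_combination s1
    have hb2 : deriv (deriv (xx (n + 2) q 2)) z = -b0 - b1 := by linear_combination s2
    rw [ha2, hb2]
    linear_combination (-(a0 * b1 - b0 * a1)) * s0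
  have hprod : (∏ i ∈ Jᶜ, q i z ^ (n + 2 - 2)) * (∏ i ∈ J, q i z ^ (n + 2)) *
      ∏ i ∈ J, (q i z ^ 2)⁻¹ = q 0 z ^ n * q 1 z ^ n * q 2 z ^ n := by
    rw [mul_assoc, ← Finset.prod_mul_distrib]
    have h1 : ∏ i ∈ J, q i z ^ (n + 2) * (q i z ^ 2)⁻¹ = ∏ i ∈ J, q i z ^ n := by
      refine Finset.prod_congr rfl fun i hi => ?_
      have := hJ i hi
      rw [pow_add, mul_assoc, mul_inv_cancel₀ (pow_ne_zero 2 this), mul_one]
    rw [h1, Nat.add_sub_cancel, Finset.prod_compl_mul_prod, Fin.prod_univ_three]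
  rw [hdet]
  simp only [hx, hx1, hx2]
  unfold om3
  linear_combination (-(y0 q 0 z * (y1 (n + 2) q 1 z * y2 (n + 2) q 2 z
      - y2 (n + 2) q 1 z * y1 (n + 2) q 2 z)
    - y0 q 1 z * (y1 (n + 2) q 0 z * y2 (n + 2) q 2 z - y2 (n + 2) q 0 z * y1 (n + 2) q 2 z)
    + y0 q 2 z * (y1 (n + 2) q 0 z * y2 (n + 2) q 1 z - y2 (n + 2) q 0 z * y1 (n + 2) q 1 z)))
      * hprod

end Pool.Agent.Work.MP_6d7a54_an.UP
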