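import Pool.Agent.Work.MP_6d7a54_an.UP.DefsG
import Pool.Agent.Work.MP_6d7a54_an.UP.I_GR

/-!
# Good radii for the logarithmic derivatives of a finite family
-/

set_option autoImplicit false

namespace Pool.Agent.Work.MP_6d7a54_an.UP

open Complex Metric Real Set

namespace GGRF

open GR

/-- the bounds for `G` and `G'`, with a free separation constant -/
theorem bounds {L : ℂ → ℂ} {n : ℕ} {a : Fin n → ℂ} {R' A B X d : ℝ} {z : ℂ} (hX : 1 ≤ X)
    (hd : 0 < d) (hd1 : d ≤ 1) (hn : (n : ℝ) ≤ 16 * (X / d)) (hB : 0 ≤ B) (hA : 1 ≤ A)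
    (hL1 : ‖deriv L z‖ ≤ B * (X / d) ^ 3) (hL2 : ‖deriv (deriv L) z‖ ≤ B * (X / d) ^ 3)
    (hz : ∀ i, d / (8 * (A * (X / d))) ≤ ‖z - a i‖)
    (hb : ∀ i, ‖(starRingEnd ℂ) (a i) / ((R' : ℂ) ^ 2 - (starRingEnd ℂ) (a i) * z)‖ ≤ 16 / d) :
    ‖G L a R' z‖ ≤ (B + (128 * A + 256)) * (X / d) ^ 3 ∧
      ‖G' L a R' z‖ ≤ (B + (1024 * A ^ 2 + 4096)) * (X / d) ^ 5 := by
  set Y : ℝ := X / d with hY
  have hY1 : 1 ≤ Y := by
    rw [hY, one_le_div hd]
    linarith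
  have hdY : 1 / d ≤ Y := by
    rw [hY]
    exact div_le_div_of_nonneg_right hX hd.le
  have hA0 : 0 < A := by linarith
  have hY0 : 0 < Y := by linarith
  have t1 : ∀ i, ‖(z - a i)⁻¹‖ ≤ 8 * A * Y ^ 2 := by
    intro i
    have h0 : 0 < d / (8 * (A * Y)) := by positivity
    rw [norm_inv]
    refine (inv_anti₀ h0 (hz i)).trans ?_
    rw [inv_div]
    calc 8 * (A * Y) / d = 8 * (A * Y) * (1 / d) := by ring
      _ ≤ 8 * (A * Y) * Y := mul_le_mul_of_nonneg_left hdY (by positivity)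
      _ = 8 * A * Y ^ 2 := by ring
  have t2 : ∀ i, ‖(starRingEnd ℂ) (a i) / ((R' : ℂ) ^ 2 - (starRingEnd ℂ) (a i) * z)‖ ≤
      16 * Y := by
    intro i
    refine (hb i).trans ?_
    calc 16 / d = 16 * (1 / d) := by ring
      _ ≤ 16 * Y := mul_le_mul_of_nonneg_left hdY (by norm_num)
  have hY2 : Y ≤ Y ^ 2 := by nlinarith
  have hY3 : Y ^ 3 ≤ Y ^ 5 := pow_le_pow_right₀ hY1 (by norm_num)
  have hY5 : Y ^ 2 ≤ Y ^ 4 := pow_le_pow_right₀ hY1 (by norm_num)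
  constructor
  · unfold G
    refine (norm_add_le _ _).trans ?_
    have h1 : ‖∑ i, ((z - a i)⁻¹ + (starRingEnd ℂ) (a i) *
        ((R' : ℂ) ^ 2 - (starRingEnd ℂ) (a i) * z)⁻¹)‖ ≤ ∑ _i : Fin n, (8 * A + 16) * Y ^ 2 := by
      refine (norm_sum_le _ _).trans (Finset.sum_le_sum fun i _ => ?_)
      refine (norm_add_le _ _).trans ?_
      have h2 := t1 i
      have h3 := t2 i
      rw [div_eq_mul_inv] at h3
      linarith
    rw [Finset.sum_const, Finset.card_univ, Fintype.card_fin, nsmul_eq_mul] at h1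
    have h2 : (n : ℝ) * ((8 * A + 16) * Y ^ 2) ≤ 16 * Y * ((8 * A + 16) * Y ^ 2) :=
      mul_le_mul_of_nonneg_right hn (by positivity)
    calc _ ≤ B * Y ^ 3 + 16 * Y * ((8 * A + 16) * Y ^ 2) := add_le_add hL1 (h1.trans h2)
      _ = (B + (128 * A + 256)) * Y ^ 3 := by ring
  · unfold G'
    refine (norm_add_le _ _).trans ?_
    have h1 : ‖∑ i, (-1 / (z - a i) ^ 2 + (starRingEnd ℂ) (a i) *
        ((starRingEnd ℂ) (a i) / ((R' : ℂ) ^ 2 - (starRingEnd ℂ) (a i) * z) ^ 2))‖ ≤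
        ∑ _i : Fin n, (64 * A ^ 2 + 256) * Y ^ 4 := by
      refine (norm_sum_le _ _).trans (Finset.sum_le_sum fun i _ => ?_)
      refine (norm_add_le _ _).trans ?_
      have e1 : -1 / (z - a i) ^ 2 = -((z - a i)⁻¹ ^ 2) := by
        rw [inv_pow, neg_div, one_div]
      have e2 : (starRingEnd ℂ) (a i) * ((starRingEnd ℂ) (a i) /
          ((R' : ℂ) ^ 2 - (starRingEnd ℂ) (a i) * z) ^ 2) =
          ((starRingEnd ℂ) (a i) / ((R' : ℂ) ^ 2 - (starRingEnd ℂ) (a i) * z)) ^ 2 := by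
        rw [div_pow]
        ring
      rw [e1, e2, norm_neg, norm_pow, norm_pow]
      have h2 := pow_le_pow_left₀ (norm_nonneg _) (t1 i) 2
      have h3 := pow_le_pow_left₀ (norm_nonneg _) (t2 i) 2
      calc _ ≤ (8 * A * Y ^ 2) ^ 2 + (16 * Y) ^ 2 := add_le_add h2 h3
        _ = 64 * A ^ 2 * Y ^ 4 + 256 * Y ^ 2 := by ring
        _ ≤ (64 * A ^ 2 + 256) * Y ^ 4 := by linarith
    rw [Finset.sum_const, Finset.card_univ, Fintype.card_fin, nsmul_eq_mul] at h1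
    have h2 : (n : ℝ) * ((64 * A ^ 2 + 256) * Y ^ 4) ≤ 16 * Y * ((64 * A ^ 2 + 256) * Y ^ 4) :=
      mul_le_mul_of_nonneg_right hn (by positivity)
    calc _ ≤ B * Y ^ 3 + 16 * Y * ((64 * A ^ 2 + 256) * Y ^ 4) := add_le_add hL2 (h1.trans h2)
      _ ≤ B * Y ^ 5 + (1024 * A ^ 2 + 4096) * Y ^ 5 := by
          have := mul_le_mul_of_nonneg_left hY3 hB
          have e : 16 * Y * ((64 * A ^ 2 + 256) * Y ^ 4) = (1024 * A ^ 2 + 4096) * Y ^ 5 := by ring
          linarith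
      _ = (B + (1024 * A ^ 2 + 4096)) * Y ^ 5 := by ring

/-- one function: bounds off the zeros -/
theorem single (h1 : S_BC) : ∃ B : ℝ, 0 ≤ B ∧ ∀ (h : ℂ → ℂ) (X R d : ℝ), 1 ≤ X → 0 < d →
    d ≤ 1/8 → 1/2 ≤ R → R + d ≤ 1 → AnalyticOnNhd ℂ h (closedBall 0 (R + d)) →
    (∀ z ∈ closedBall (0 : ℂ) (R + d), ‖h z‖ ≤ Real.exp X) → Real.exp (-X) ≤ ‖h 0‖ →
    ∃ (n : ℕ) (a : Fin n → ℂ), (n : ℝ) ≤ 16 * (X / d) ∧ ∀ (A : ℝ) (z : ℂ), 1 ≤ A →
      ‖z‖ ≤ R + d / 2 → (∀ i, d / (8 * (A * (X / d))) ≤ |‖z‖ - ‖a i‖|) →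
      h z ≠ 0 ∧ ‖deriv h z / h z‖ ≤ (B + (128 * A + 256)) * (X / d) ^ 3 ∧
      ‖deriv (deriv h) z / h z‖ ≤ ((B + (128 * A + 256)) ^ 2 +
        (B + (1024 * A ^ 2 + 4096))) * (X / d) ^ 6 := by
  obtain ⟨K₀, hK₀, hBC⟩ := h1
  set B : ℝ := 384 * K₀ with hBdef
  have hB0 : 0 ≤ B := by rw [hBdef]; linarith
  refine ⟨B, hB0, ?_⟩
  intro h X R d hX hd hd8 hR hRd hh hhM hh0
  have hball : ball (0 : ℂ) (R + d) ⊆ closedBall 0 (R + d) := ball_subset_closedBall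
  have hhd : DifferentiableOn ℂ h (ball 0 (R + d)) := fun z hz =>
    (hh z (hball hz)).differentiableAt.differentiableWithinAt
  have hpos := Real.exp_pos (-X)
  have hh0' : h 0 ≠ 0 := by
    rw [← norm_pos_iff]
    linarith
  obtain ⟨n, a, H, ha, hHd, hHne, hHM, hH0, hn, heq⟩ := Fac.exists_fac
    (f := h) (R := R + d) (R' := R + 7 * d / 8) (r := R + 3 * d / 4) (M := Real.exp X)
    (by linarith) (by linarith) (by linarith) hhd (fun z hz => hhM z (hball hz)) hh0'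
  have hcount : (n : ℝ) ≤ 16 * (X / d) :=
    count_le hd hR hRd ((mul_le_mul_of_nonneg_right hh0 (by positivity)).trans hn)
  refine ⟨n, a, hcount, ?_⟩
  have hr0 : 0 < R + 3 * d / 4 := by linarith
  have hHne' : ∀ z ∈ ball (0 : ℂ) (R + 3 * d / 4), H z ≠ 0 :=
    fun z hz => hHne z (mem_ball_zero_iff.1 hz).le
  obtain ⟨L, hLd, hLe, hLder, hL0⟩ := Fac.exists_log (H := H) (r := R + 3 * d / 4) hr0
    (hHd.mono (ball_subset_ball (by linarith))) hHne'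
  have h0b : (0 : ℂ) ∈ ball (0 : ℂ) (R + 3 * d / 4) := mem_ball_self hr0
  have hre : ∀ x ∈ ball (0 : ℂ) (R + 3 * d / 4), Real.exp (L x).re = ‖H x‖ := by
    intro x hx
    rw [← hLe x hx, Complex.norm_exp]
  have hreX : ∀ x ∈ ball (0 : ℂ) (R + 3 * d / 4), (L x).re ≤ X := by
    intro x hx
    rw [← Real.exp_le_exp, hre x hx]
    exact hHM x ((mem_ball_zero_iff.1 hx).le.trans (by linarith))
  have hL0n : ‖L 0‖ ≤ 5 * X := by
    have h1 : -X ≤ (L 0).re := by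
      rw [← Real.exp_le_exp, hre 0 h0b]
      exact hh0.trans hH0
    have h2 : |(L 0).re| ≤ X := abs_le.2 ⟨h1, hreX 0 h0b⟩
    have h3 := Complex.norm_le_abs_re_add_abs_im (L 0)
    have h4 : π < 4 := Real.pi_lt_four
    linarith
  have hY1 : 1 ≤ X / d := by
    rw [one_le_div hd]
    linarith
  have hdY : 1 / d ≤ X / d := div_le_div_of_nonneg_right hX hd.le
  intro A z hA hzR hsep
  have hbc := hBC L (R + 3 * d / 4) (d / 4) X (5 * X) (by linarith) (by linarith) (by linarith)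
    (by linarith) hX (by linarith) hLd hreX hL0n z (by linarith)
  have hBX : K₀ * (X + 5 * X) / (d / 4) ^ 3 ≤ B * (X / d) ^ 3 := by
    have e1 : K₀ * (X + 5 * X) / (d / 4) ^ 3 = B * (X / d * (1 / d) ^ 2) := by
      rw [hBdef]
      field_simp
      ring
    rw [e1]
    have e2 : X / d * (1 / d) ^ 2 ≤ (X / d) ^ 3 := by
      have e3 : (1 / d) ^ 2 ≤ (X / d) ^ 2 := pow_le_pow_left₀ (by positivity) hdY 2
      have e4 := mul_le_mul_of_nonneg_left e3 (by linarith : (0 : ℝ) ≤ X / d)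
      calc _ ≤ X / d * (X / d) ^ 2 := e4
        _ = (X / d) ^ 3 := by ring
    exact mul_le_mul_of_nonneg_left e2 hB0
  have hnb : ∀ i, ∀ x : ℂ, ‖x‖ ≤ R + 7 * d / 8 →
      ((R + 7 * d / 8 : ℝ) : ℂ) ^ 2 - (starRingEnd ℂ) (a i) * x ≠ 0 ∧
      ‖(starRingEnd ℂ) (a i) / (((R + 7 * d / 8 : ℝ) : ℂ) ^ 2 - (starRingEnd ℂ) (a i) * x)‖ ≤
        16 / d := fun i x hx => norm_b hr0 (by linarith) (by linarith) hd (ha i) (by linarith) hx
  have hδ : 0 < d / (8 * (A * (X / d))) := by positivity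
  have hsep' : ∀ i, d / (8 * (A * (X / d))) ≤ ‖z - a i‖ := fun i =>
    (hsep i).trans (abs_norm_sub_norm_le z (a i))
  have hza : ∀ i, z ≠ a i := by
    intro i h'
    have := hsep' i
    rw [h', sub_self, norm_zero] at this
    linarith
  have hzb : z ∈ ball (0 : ℂ) (R + 3 * d / 4) := by
    rw [mem_ball_zero_iff]
    linarith
  obtain ⟨hG, hG'⟩ := bounds (a := a) (R' := R + 7 * d / 8) hX hd (by linarith) hcount
    hB0 hA (hbc.2.1.trans hBX) (hbc.2.2.trans hBX) hsep'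
    (fun i => (hnb i z (by linarith)).2)
  have hder : ∀ x ∈ ball (0 : ℂ) (R + 3 * d / 4), (∀ i, x ≠ a i) →
      h x ≠ 0 ∧ deriv h x = h x * G L a (R + 7 * d / 8) x := fun x hx hxa =>
    deriv_eq (by linarith) (by linarith) hhd hHd hHne' hLder
      (fun i w hw => (hnb i w ((mem_ball_zero_iff.1 hw).le.trans (by linarith))).1)
      (by linarith) heq hx hxa
  obtain ⟨hne, hd1⟩ := hder z hzb hza
  have hev : deriv h =ᶠ[nhds z] fun x => h x * G L a (R + 7 * d / 8) x := by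
    have hopen : IsOpen {x : ℂ | ∀ i, x ≠ a i} := by
      have : {x : ℂ | ∀ i, x ≠ a i} = ⋂ i, {a i}ᶜ := by
        ext x
        simp
      rw [this]
      exact isOpen_iInter_of_finite fun i => isOpen_compl_singleton
    filter_upwards [isOpen_ball.mem_nhds hzb, hopen.mem_nhds hza] with x hx hxa
    exact (hder x hx hxa).2
  have hd2 : deriv (deriv h) z = h z * (G L a (R + 7 * d / 8) z ^ 2 + G' L a (R + 7 * d / 8) z) := by
    rw [hev.deriv_eq]
    have hzRd : z ∈ ball (0 : ℂ) (R + d) := by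
      rw [mem_ball_zero_iff]
      linarith
    have h1 : HasDerivAt h (deriv h z) z :=
      (hhd.differentiableAt (isOpen_ball.mem_nhds hzRd)).hasDerivAt
    have h2 := h1.fun_mul (hasDeriv_G (a := a) (R' := R + 7 * d / 8) hLd hzb hza
      (fun i => (hnb i z (by linarith)).1))
    rw [h2.deriv, hd1]
    ring
  refine ⟨hne, ?_, ?_⟩
  · rw [hd1, mul_div_cancel_left₀ _ hne]
    exact hG
  · rw [hd2, mul_div_cancel_left₀ _ hne]
    refine (norm_add_le _ _).trans ?_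
    rw [norm_pow]
    have h3 := pow_le_pow_left₀ (norm_nonneg _) hG 2
    have h5 : (X / d) ^ 5 ≤ (X / d) ^ 6 := pow_le_pow_right₀ hY1 (by norm_num)
    have hB1 : 0 ≤ B + (1024 * A ^ 2 + 4096) := by positivity
    have h6 := mul_le_mul_of_nonneg_left h5 hB1
    have h7 : ((B + (128 * A + 256)) * (X / d) ^ 3) ^ 2 =
      (B + (128 * A + 256)) ^ 2 * (X / d) ^ 6 := by ring
    rw [h7] at h3
    linarith

end GGRF

theorem GRF_proof (h1 : S_BC) : S_GRF := by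
  intro N
  obtain ⟨B, hB, hs⟩ := GGRF.single h1
  set A : ℝ := 16 * N + 1 with hA
  have hN0 : (0 : ℝ) ≤ N := Nat.cast_nonneg N
  have hA1 : 1 ≤ A := by rw [hA]; linarith
  have hc1 : 1 ≤ B + (128 * A + 256) := by linarith
  have hc2 : 0 ≤ B + (1024 * A ^ 2 + 4096) := by positivity
  refine ⟨(B + (128 * A + 256)) ^ 2 + (B + (1024 * A ^ 2 + 4096)), 6, by nlinarith, ?_⟩
  intro f X R d hX hd hd8 hR hRd hf hfM hf0
  choose n a hn hbd using fun i => hs (f i) X R d hX hd hd8 hR hRd (hf i) (hfM i) (hf0 i)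
  have hY1 : 1 ≤ X / d := by
    rw [one_le_div hd]
    linarith
  let e := Fintype.equivFin (Σ i : Fin N, Fin (n i))
  obtain ⟨r₁, r₂, hr1, hr12, hr2, hsep⟩ := GR.pigeon (Fintype.card (Σ i : Fin N, Fin (n i)))
    (fun j => ‖a (e.symm j).1 (e.symm j).2‖) R hd
  have hcard : ((Fintype.card (Σ i : Fin N, Fin (n i)) : ℕ) : ℝ) + 1 ≤ A * (X / d) := by
    rw [Fintype.card_sigma]
    simp only [Fintype.card_fin]
    push_cast
    have h2 : ∑ i : Fin N, (n i : ℝ) ≤ ∑ _i : Fin N, 16 * (X / d) :=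
      Finset.sum_le_sum fun i _ => hn i
    rw [Finset.sum_const, Finset.card_univ, Fintype.card_fin, nsmul_eq_mul] at h2
    rw [hA]
    linarith
  have hsep2 : ∀ x, r₁ ≤ x → x ≤ r₂ → ∀ (i : Fin N) (j : Fin (n i)),
      d / (8 * (A * (X / d))) ≤ |x - ‖a i j‖| := by
    intro x hx1 hx2 i j
    have h2 := hsep x hx1 hx2 (e ⟨i, j⟩)
    rw [Equiv.symm_apply_apply] at h2
    refine le_trans ?_ h2
    apply div_le_div_of_nonneg_left hd.le (by positivity)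
    linarith
  refine ⟨r₁, r₂, hr1, hr12, hr2, fun z hz1 hz2 i => ?_⟩
  obtain ⟨g1, g2, g3⟩ := hbd i A z hA1 (hz2.trans hr2) (fun j => hsep2 ‖z‖ hz1 hz2 i j)
  refine ⟨g1, g2.trans ?_, g3⟩
  have h3 : (X / d) ^ 3 ≤ (X / d) ^ 6 := pow_le_pow_right₀ hY1 (by norm_num)
  have h4 : B + (128 * A + 256) ≤
      (B + (128 * A + 256)) ^ 2 + (B + (1024 * A ^ 2 + 4096)) := by nlinarith
  exact mul_le_mul h4 h3 (by positivity) (by positivity)

end Pool.Agent.Work.MP_6d7a54_an.UP
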