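import Pool.Agent.Work.MP_6d7a54_an.UP.DefsG
import Pool.Agent.Work.MP_6d7a54_an.UP.Fac

/-!
# Geometric form of the main theorem (MP_6d7a54_an, general version)
-/

set_option autoImplicit false

namespace Pool.Agent.Work.MP_6d7a54_an.UP

open Complex Metric Real Set

namespace GGeo

/-- the algebraic identity behind the bound -/
theorem alg {m : ℕ} (hm : 1 ≤ m) {F F' a b da db : ℂ} (hF : F ≠ 0) :
    ((m : ℂ) * a ^ (m - 1) * da * F - a ^ m * F') / F ^ 2 * (b ^ m / F)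
      - a ^ m / F * (((m : ℂ) * b ^ (m - 1) * db * F - b ^ m * F') / F ^ 2)
      = (m : ℂ) * (a * b) ^ (m - 1) / F ^ 2 * (da * b - db * a) := by
  obtain ⟨k, rfl⟩ : ∃ k, m = k + 1 := ⟨m - 1, by omega⟩
  simp only [Nat.add_sub_cancel]
  field_simp
  ring

/-- derivative of `x_i` at the base point -/
theorem deriv_xx {m : ℕ} {q : Fin 3 → ℂ → ℂ} {f : ℂ → Fin 3 → ℂ} {F : ℂ → ℂ}
    (hf : DifferentiableAt ℂ f 0) (hF : DifferentiableAt ℂ F 0) (hF0 : F 0 ≠ 0)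
    (hx : ∀ᶠ z in nhds (0 : ℂ), ∀ i, xx m q i z = f z i ^ m / F z) (i : Fin 3) :
    deriv (xx m q i) 0 = ((m : ℂ) * f 0 i ^ (m - 1) * deriv f 0 i * F 0
      - f 0 i ^ m * deriv F 0) / F 0 ^ 2 := by
  have h1 : xx m q i =ᶠ[nhds 0] fun z => f z i ^ m / F z := hx.mono fun z hz => hz i
  rw [h1.deriv_eq]
  have h2 : HasDerivAt (fun z => f z i) (deriv f 0 i) 0 :=
    (hasDerivAt_pi.1 hf.hasDerivAt) i
  have h3 := (h2.pow m).div hF.hasDerivAt hF0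
  exact h3.deriv

/-- lower bound of `w` -/
theorem ne_of_exc {m : ℕ} {w : Fin 3 → ℂ} (h : w ∉ Exc m) :
    (∀ i, w i ≠ 0) ∧ w 0 ^ m + w 1 ^ m ≠ 0 ∧ w 0 ^ m + w 2 ^ m ≠ 0 ∧ w 1 ^ m + w 2 ^ m ≠ 0 := by
  have h' : w 0 * w 1 * w 2 * ((w 0 ^ m + w 1 ^ m) * (w 0 ^ m + w 2 ^ m) * (w 1 ^ m + w 2 ^ m))
      ≠ 0 := h
  rw [mul_ne_zero_iff, mul_ne_zero_iff, mul_ne_zero_iff, mul_ne_zero_iff, mul_ne_zero_iff] at h'
  refine ⟨fun i => ?_, h'.2.1.1, h'.2.1.2, h'.2.2⟩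
  fin_cases i
  · exact h'.1.1.1
  · exact h'.1.1.2
  · exact h'.1.2

/-- the constant `L` -/
theorem exists_L (a : Fin 3 → ℂ) (ha : ∀ i, a i ≠ 0) (ha1 : ∀ i, 1 - a i ≠ 0) :
    ∃ L : ℝ, 1 ≤ L ∧ (∀ i, Tame L (a i)) ∧ ∀ i, L⁻¹ ≤ ‖1 - a i‖ := by
  obtain ⟨L, hL⟩ : ∃ L : ℝ, L = 1 + ∑ i, (‖a i‖ + ‖a i‖⁻¹ + ‖1 - a i‖⁻¹) := ⟨_, rfl⟩
  have h0 : ∀ i ∈ (Finset.univ : Finset (Fin 3)), 0 ≤ ‖a i‖ + ‖a i‖⁻¹ + ‖1 - a i‖⁻¹ :=
    fun i _ => by positivity
  have h1 : ∀ i, ‖a i‖ + ‖a i‖⁻¹ + ‖1 - a i‖⁻¹ ≤ L := by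
    intro i
    have := Finset.single_le_sum h0 (Finset.mem_univ i)
    linarith
  have h2 : 1 ≤ L := by
    have := Finset.sum_nonneg h0
    linarith
  have hinv : ∀ x : ℂ, x ≠ 0 → ‖x‖⁻¹ ≤ L → L⁻¹ ≤ ‖x‖ := by
    intro x hx h
    have hx' : 0 < ‖x‖ := norm_pos_iff.2 hx
    exact inv_le_of_inv_le₀ hx' h
  refine ⟨L, h2, fun i => ⟨?_, ?_⟩, fun i => ?_⟩
  · apply hinv _ (ha i)
    have e1 := h1 i
    have e2 := norm_nonneg (a i)
    have e3 : 0 ≤ ‖1 - a i‖⁻¹ := by positivity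
    linarith
  · have e1 := h1 i
    have e2 : 0 ≤ ‖a i‖⁻¹ := by positivity
    have e3 : 0 ≤ ‖1 - a i‖⁻¹ := by positivity
    linarith
  · apply hinv _ (ha1 i)
    have e1 := h1 i
    have e2 : 0 ≤ ‖a i‖⁻¹ := by positivity
    have e3 := norm_nonneg (a i)
    linarith

/-- cancellation -/
theorem canc {n P S X : ℂ} (hn : n ≠ 0) (hP : P ≠ 0) (hS : S ≠ 0) :
    X = S ^ 2 / (n * P) * (n * P / S ^ 2 * X) := by
  field_simp

end GGeo

/-- bound for discs in the complement of the Fermat curve and the coordinate lines -/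
theorem Geo_proof (h1 : S3_Main) : S3_Geo := by
  intro m J hm hJ w hw hexc
  obtain ⟨hw0, h01, h02, h12⟩ := GGeo.ne_of_exc hexc
  have hS : w 0 ^ m + w 1 ^ m + w 2 ^ m ≠ 0 := hw.2
  obtain ⟨S, hSdef⟩ : ∃ S : ℂ, S = w 0 ^ m + w 1 ^ m + w 2 ^ m := ⟨_, rfl⟩
  rw [← hSdef] at hS
  obtain ⟨L, hL1, hLt, hL⟩ := GGeo.exists_L (fun i => w i ^ m / S)
    (fun i => div_ne_zero (pow_ne_zero _ (hw0 i)) hS) (by
      intro i
      have key : ∀ i : Fin 3, S - w i ^ m ≠ 0 := by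
        intro i
        rw [hSdef]
        fin_cases i
        · intro h; apply h12; simp only [Fin.zero_eta, Fin.isValue] at h; linear_combination h
        · intro h; apply h02; simp only [Fin.mk_one, Fin.isValue] at h; linear_combination h
        · intro h; apply h01; simp only [Fin.reduceFinMk, Fin.isValue] at h; linear_combination h
      have e1 : 1 - w i ^ m / S = (S - w i ^ m) / S := by field_simp
      show 1 - w i ^ m / S ≠ 0
      rw [e1]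
      exact div_ne_zero (key i) hS)
  obtain ⟨C, hC0, hC⟩ := h1 m J L hm hJ hL1
  obtain ⟨B, hB⟩ : ∃ B : Fin 3 → Fin 3 → ℝ, B = fun i j =>
      ‖S ^ 2 / ((m : ℂ) * (w i * w j) ^ (m - 1))‖ * (C * ‖w j ^ m / S‖ + ‖w i ^ m / S‖ * C) :=
    ⟨_, rfl⟩
  have hBnn : ∀ i j, 0 ≤ B i j := by
    intro i j
    rw [hB]
    positivity
  refine ⟨∑ i, ∑ j, B i j, Finset.sum_nonneg fun i _ => Finset.sum_nonneg fun j _ => hBnn i j, ?_⟩
  intro f hf hcone hf0 i j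
  have hBij : B i j ≤ ∑ i, ∑ j, B i j :=
    (Finset.single_le_sum (f := fun j => B i j) (fun j _ => hBnn i j) (Finset.mem_univ j)).trans
      (Finset.single_le_sum (f := fun i => ∑ j, B i j)
        (fun i _ => Finset.sum_nonneg fun j _ => hBnn i j) (Finset.mem_univ i))
  refine le_trans ?_ hBij
  -- the function F
  obtain ⟨F, hF⟩ : ∃ F : ℂ → ℂ, F = fun z => f z 0 ^ m + f z 1 ^ m + f z 2 ^ m := ⟨_, rfl⟩
  have hfi : ∀ i, DifferentiableOn ℂ (fun z => f z i) (ball 0 1) :=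
    fun i => (differentiableOn_pi.1 hf) i
  have hFd : DifferentiableOn ℂ F (ball 0 1) := by
    rw [hF]
    exact (((hfi 0).pow m).add ((hfi 1).pow m)).add ((hfi 2).pow m)
  have hFne : ∀ z ∈ ball (0 : ℂ) 1, F z ≠ 0 := by
    intro z hz
    rw [hF]
    exact (hcone z hz).2
  obtain ⟨Lg, hLg, hexp, -, -⟩ := Fac.exists_log one_pos hFd hFne
  obtain ⟨g, hg⟩ : ∃ g : ℂ → ℂ, g = fun z => Complex.exp (Lg z / (m : ℂ)) := ⟨_, rfl⟩
  have hm0 : (m : ℂ) ≠ 0 := by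
    have : m ≠ 0 := by omega
    exact_mod_cast this
  have hgm : ∀ z ∈ ball (0 : ℂ) 1, g z ^ m = F z := by
    intro z hz
    rw [hg]
    simp only
    rw [← Complex.exp_nat_mul, mul_div_cancel₀ _ hm0, hexp z hz]
  have hgne : ∀ z, g z ≠ 0 := fun z => by rw [hg]; exact Complex.exp_ne_zero _
  have hgd : DifferentiableOn ℂ g (ball 0 1) := by
    rw [hg]
    exact (hLg.div_const _).cexp
  obtain ⟨q, hq⟩ : ∃ q : Fin 3 → ℂ → ℂ, q = fun i z => f z i / g z := ⟨_, rfl⟩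
  have hqm : ∀ z ∈ ball (0 : ℂ) 1, ∀ i, q i z ^ m = f z i ^ m / F z := by
    intro z hz i
    rw [hq]
    simp only
    rw [div_pow, hgm z hz]
  have h0 : (0 : ℂ) ∈ ball (0 : ℂ) 1 := mem_ball_self one_pos
  have hF0 : F 0 = S := by
    rw [hF, hSdef]
    simp only
    rw [hf0]
  have hdat : Dat3 m J q 1 := by
    refine ⟨fun i => ?_, fun i hi z hz => ?_, fun z hz => ?_⟩
    · rw [hq]
      exact (hfi i).div hgd fun z _ => hgne z
    · rw [hq]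
      exact div_ne_zero ((hcone z hz).1 i hi) (hgne z)
    · rw [hqm z hz, hqm z hz, hqm z hz, ← add_div, ← add_div]
      have : F z = f z 0 ^ m + f z 1 ^ m + f z 2 ^ m := by rw [hF]
      rw [← this]
      exact div_self (hFne z hz)
  have hq0 : ∀ i, q i 0 ^ m = w i ^ m / S := by
    intro i
    rw [hqm 0 h0 i, hF0, hf0]
  have hbase : Base3 m L q := by
    refine ⟨fun i => ?_, fun i => ?_⟩
    · rw [hq0]; exact hLt i
    · rw [hq0]; exact hL i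
  have hder := hC q hdat hbase
  have hball : ball (0 : ℂ) 1 ∈ nhds (0 : ℂ) := isOpen_ball.mem_nhds h0
  have hx : ∀ᶠ z in nhds (0 : ℂ), ∀ i, xx m q i z = f z i ^ m / F z := by
    filter_upwards [hball] with z hz i
    exact hqm z hz i
  have hfd : DifferentiableAt ℂ f 0 := hf.differentiableAt hball
  have hFdd : DifferentiableAt ℂ F 0 := hFd.differentiableAt hball
  have hFn0 : F 0 ≠ 0 := hFne 0 h0
  have ei := GGeo.deriv_xx hfd hFdd hFn0 hx i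
  have ej := GGeo.deriv_xx hfd hFdd hFn0 hx j
  have hkey := GGeo.alg (m := m) (by omega) (F := F 0) (F' := deriv F 0) (a := f 0 i) (b := f 0 j)
    (da := deriv f 0 i) (db := deriv f 0 j) hFn0
  rw [← ei, ← ej, hf0, hF0] at hkey
  have hww : w i * w j ≠ 0 := mul_ne_zero (hw0 i) (hw0 j)
  have e3 : deriv f 0 i * w j - deriv f 0 j * w i = S ^ 2 / ((m : ℂ) * (w i * w j) ^ (m - 1)) *
      (deriv (xx m q i) 0 * (w j ^ m / S) - w i ^ m / S * deriv (xx m q j) 0) := by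
    rw [hkey]
    exact GGeo.canc hm0 (pow_ne_zero _ hww) hS
  rw [e3, norm_mul, hB]
  simp only
  refine mul_le_mul_of_nonneg_left ?_ (norm_nonneg _)
  refine (norm_sub_le _ _).trans ?_
  rw [norm_mul, norm_mul]
  exact add_le_add (mul_le_mul_of_nonneg_right (hder i) (norm_nonneg _))
    (mul_le_mul_of_nonneg_left (hder j) (norm_nonneg _))

end Pool.Agent.Work.MP_6d7a54_an.UP
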