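import Pool.Agent.Work.MP_6d7a54_an.UP.DefsG

/-!
# L1: Landau type lemma for the affine Fermat curve
-/

set_option autoImplicit false

namespace Pool.Agent.Work.MP_6d7a54_an.UP

open Complex Metric Real Set

noncomputable section

namespace GL1

/-- the function `o` -/
def oo (m : ℕ) (k1 k2 : ℂ → ℂ) (z : ℂ) : ℂ := (m : ℂ) * (k2 z * deriv k1 z - k1 z * deriv k2 z)

theorem oo_diff {m : ℕ} {k1 k2 : ℂ → ℂ} (h1 : DifferentiableOn ℂ k1 (ball 0 1))
    (h2 : DifferentiableOn ℂ k2 (ball 0 1)) : DifferentiableOn ℂ (oo m k1 k2) (ball 0 1) :=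
  ((h2.mul (h1.deriv isOpen_ball)).sub (h1.mul (h2.deriv isOpen_ball))).const_mul _

/-- the derivatives of the powers -/
theorem ident {m : ℕ} (hm : 1 ≤ m) {k1 k2 : ℂ → ℂ} (h1 : DifferentiableOn ℂ k1 (ball 0 1))
    (h2 : DifferentiableOn ℂ k2 (ball 0 1)) (he : ∀ z ∈ ball (0 : ℂ) 1, k1 z ^ m + k2 z ^ m = 1)
    {z : ℂ} (hz : z ∈ ball (0 : ℂ) 1) :
    deriv (fun z => k1 z ^ m) z = (k1 z * k2 z) ^ (m - 1) * oo m k1 k2 z ∧
      deriv (fun z => k2 z ^ m) z = - deriv (fun z => k1 z ^ m) z := by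
  have d1 : HasDerivAt k1 (deriv k1 z) z :=
    ((h1 z hz).differentiableAt (isOpen_ball.mem_nhds hz)).hasDerivAt
  have d2 : HasDerivAt k2 (deriv k2 z) z :=
    ((h2 z hz).differentiableAt (isOpen_ball.mem_nhds hz)).hasDerivAt
  have e1 := d1.pow m
  have e2 := d2.pow m
  have e1' : deriv (fun z => k1 z ^ m) z = (m : ℂ) * k1 z ^ (m - 1) * deriv k1 z := e1.deriv
  have e2' : deriv (fun z => k2 z ^ m) z = (m : ℂ) * k2 z ^ (m - 1) * deriv k2 z := e2.deriv
  have hs : (m : ℂ) * k1 z ^ (m - 1) * deriv k1 z + (m : ℂ) * k2 z ^ (m - 1) * deriv k2 z = 0 := by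
    have h3 := e1.add e2
    have h4 : (k1 ^ m + k2 ^ m) =ᶠ[nhds z] fun _ => (1 : ℂ) := by
      filter_upwards [isOpen_ball.mem_nhds hz] with x hx
      exact he x hx
    have h5 : HasDerivAt (k1 ^ m + k2 ^ m) 0 z :=
      (hasDerivAt_const z (1 : ℂ)).congr_of_eventuallyEq h4
    exact h3.unique h5
  refine ⟨?_, ?_⟩
  · rw [e1']
    have h6 := he z hz
    have hp1 : k1 z ^ m = k1 z ^ (m - 1) * k1 z := by
      rw [← pow_succ]; congr 1; omega
    have hp2 : k2 z ^ m = k2 z ^ (m - 1) * k2 z := by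
      rw [← pow_succ]; congr 1; omega
    unfold oo
    rw [mul_pow]
    rw [hp1, hp2] at h6
    linear_combination (k1 z ^ (m - 1) * k1 z) * hs - (m : ℂ) * k1 z ^ (m - 1) * deriv k1 z * h6
  · rw [e1', e2']
    linear_combination hs

/-- the pointwise inequality in real numbers -/
theorem real_ineq {m : ℕ} (hm : 3 ≤ m) {a b D Y O : ℝ} (ha : 0 < a) (hb : 0 < b) (hO : 0 < O)
    (hY : 1 ≤ Y) (hD : D = (a * b) ^ (m - 1) * O) (hDa : D ≤ Y * a ^ m) (hDb : D ≤ Y * b ^ m)
    (hab : 1 ≤ a ^ m + b ^ m) :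
    (1 - 2 / (m : ℝ)) * Real.log (1 + (a ^ m + b ^ m)) ≤ 2 + 2 * Real.log Y - Real.log O := by
  have hm0 : (0 : ℝ) < m := by exact_mod_cast (by omega : 0 < m)
  have hA : 0 < a ^ m := pow_pos ha m
  have hB : 0 < b ^ m := pow_pos hb m
  have hD0 : 0 < D := by rw [hD]; positivity
  set s := Real.log (1 + (a ^ m + b ^ m)) with hs
  have hlA : Real.log (a ^ m) = m * Real.log a := Real.log_pow _ _
  have hlB : Real.log (b ^ m) = m * Real.log b := Real.log_pow _ _
  have hsA : m * Real.log a ≤ s := by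
    rw [← hlA]
    exact Real.log_le_log hA (by linarith)
  have hsB : m * Real.log b ≤ s := by
    rw [← hlB]
    exact Real.log_le_log hB (by linarith)
  have hkey : (1 + (a ^ m + b ^ m)) * D ≤ 4 * Y * (a ^ m * b ^ m) := by
    rcases le_total (a ^ m) (b ^ m) with h | h
    · have h1 : 1 + (a ^ m + b ^ m) ≤ 4 * b ^ m := by linarith
      calc (1 + (a ^ m + b ^ m)) * D ≤ (4 * b ^ m) * (Y * a ^ m) :=
            mul_le_mul h1 hDa hD0.le (by positivity)
        _ = _ := by ring
    · have h1 : 1 + (a ^ m + b ^ m) ≤ 4 * a ^ m := by linarith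
      calc (1 + (a ^ m + b ^ m)) * D ≤ (4 * a ^ m) * (Y * b ^ m) :=
            mul_le_mul h1 hDb hD0.le (by positivity)
        _ = _ := by ring
  have hlog := Real.log_le_log (by positivity) hkey
  rw [Real.log_mul (by positivity) hD0.ne', Real.log_mul (by positivity) (by positivity),
    Real.log_mul (by norm_num) (by positivity), Real.log_mul hA.ne' hB.ne', hlA, hlB, ← hs] at hlog
  have hlD : Real.log D = (m - 1) * (Real.log a + Real.log b) + Real.log O := by
    rw [hD, Real.log_mul (by positivity) hO.ne', Real.log_pow, Real.log_mul ha.ne' hb.ne',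
      Nat.cast_sub (by omega)]
    push_cast
    ring
  have h4 : Real.log 4 ≤ 2 := by
    have : Real.log 4 = 2 * Real.log 2 := by
      rw [show (4 : ℝ) = 2 ^ 2 by norm_num, Real.log_pow]; push_cast; ring
    rw [this]
    have := Real.log_two_lt_d9
    linarith
  have hlY : 0 ≤ Real.log Y := Real.log_nonneg hY
  have h5 : Real.log a + Real.log b ≤ 2 / m * s := by
    rw [div_mul_eq_mul_div, le_div_iff₀ hm0]
    linarith
  linarith

/-- the case of the unit disc -/
theorem unit (h1 : S_Engine) (m : ℕ) (L : ℝ) (hm : 3 ≤ m) (hL : 1 ≤ L) : ∃ C : ℝ, 0 ≤ C ∧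
    ∀ (k1 k2 : ℂ → ℂ), DifferentiableOn ℂ k1 (ball 0 1) →
    DifferentiableOn ℂ k2 (ball 0 1) → (∀ z ∈ ball (0 : ℂ) 1, k1 z ^ m + k2 z ^ m = 1) →
    Tame L (k1 0 ^ m) → Tame L (k2 0 ^ m) → ∀ z : ℂ, ‖z‖ ≤ 1 / 8 → ‖k1 z ^ m‖ ≤ C := by
  have hm0 : (0 : ℝ) < m := by exact_mod_cast (by omega : 0 < m)
  have hm3 : (3 : ℝ) ≤ m := by exact_mod_cast hm
  have heta : 0 < 1 - 2 / (m : ℝ) := by
    have : 2 / (m : ℝ) < 1 := by rw [div_lt_one hm0]; linarith
    linarith
  obtain ⟨kap, CE, hkap, hCE, heng⟩ := h1 2 L (1 - 2 / (m : ℝ)) 2 hL heta (by norm_num)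
  set A : ℝ := (L + 2) ^ (2 * (m - 1)) with hA
  have hA0 : 0 < A := by positivity
  set B : ℝ := max CE (Real.log (A * CE + 1) / kap) with hB
  refine ⟨max (L + 1) (Real.exp B), le_max_of_le_left (by linarith), ?_⟩
  intro k1 k2 d1 d2 he t1 t2 z hz
  set f : Fin 2 → ℂ → ℂ := ![fun z => k1 z ^ m, fun z => k2 z ^ m] with hf
  have hf0 : f 0 = fun z => k1 z ^ m := rfl
  have hf1 : f 1 = fun z => k2 z ^ m := rfl
  have hsg : ∀ z, sg f z = Real.log (1 + (‖k1 z‖ ^ m + ‖k2 z‖ ^ m)) := by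
    intro z
    unfold sg
    rw [Fin.sum_univ_two, hf0, hf1]
    simp only [norm_pow]
  have hsub : ∀ c : ℂ, ‖c‖ ≤ 1 / 8 → c ∈ ball (0 : ℂ) 1 := by
    intro c hc
    rw [mem_ball_zero_iff]
    linarith
  by_cases hcase : ∀ x : ℂ, ‖x‖ ≤ 1 / 8 → ‖deriv (fun z => k1 z ^ m) x‖ < 1
  · -- no exit
    refine le_max_of_le_left ?_
    have hd : ∀ x ∈ closedBall (0 : ℂ) (1 / 8), HasDerivWithinAt (fun z => k1 z ^ m)
        (deriv (fun z => k1 z ^ m) x) (closedBall 0 (1 / 8)) x := by
      intro x hx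
      rw [mem_closedBall_zero_iff] at hx
      have hx1 := hsub x hx
      exact (((d1 x hx1).differentiableAt (isOpen_ball.mem_nhds hx1)).pow m).hasDerivAt
        |>.hasDerivWithinAt
    have h3 := (convex_closedBall (0 : ℂ) (1 / 8)).norm_image_sub_le_of_norm_hasDerivWithin_le
      (C := 1) hd (fun x hx => (hcase x (mem_closedBall_zero_iff.1 hx)).le)
      (mem_closedBall_self (by norm_num)) (mem_closedBall_zero_iff.2 hz)
    rw [sub_zero, one_mul] at h3
    have h4 : ‖k1 z ^ m‖ ≤ ‖k1 z ^ m - k1 0 ^ m‖ + ‖k1 0 ^ m‖ := by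
      have := norm_add_le (k1 z ^ m - k1 0 ^ m) (k1 0 ^ m)
      rwa [sub_add_cancel] at this
    have h5 := t1.2
    linarith
  · -- first exit
    push Not at hcase
    refine le_max_of_le_right ?_
    have hcont : ContinuousOn (fun x => ‖deriv (fun z => k1 z ^ m) x‖) (closedBall 0 (1 / 8)) := by
      have h3 : DifferentiableOn ℂ (fun z => k1 z ^ m) (ball 0 1) := d1.pow m
      have h4 := (h3.deriv isOpen_ball).continuousOn.norm
      exact h4.mono fun x hx => hsub x (mem_closedBall_zero_iff.1 hx)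
    set S : Set ℂ := closedBall (0 : ℂ) (1 / 8) ∩
      (fun x => ‖deriv (fun z => k1 z ^ m) x‖) ⁻¹' (Ici 1) with hS
    have hSc : IsCompact S := by
      have h3 : IsClosed S := hcont.preimage_isClosed_of_isClosed isClosed_closedBall isClosed_Ici
      exact (isCompact_closedBall (0 : ℂ) (1 / 8)).of_isClosed_subset h3 inter_subset_left
    have hSne : S.Nonempty := by
      obtain ⟨x, hx1, hx2⟩ := hcase
      exact ⟨x, mem_closedBall_zero_iff.2 hx1, hx2⟩
    obtain ⟨c, hcS, hcmin⟩ := hSc.exists_isMinOn hSne continuous_norm.continuousOn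
    have hc8 : ‖c‖ ≤ 1 / 8 := mem_closedBall_zero_iff.1 hcS.1
    have hc1 : 1 ≤ ‖deriv (fun z => k1 z ^ m) c‖ := hcS.2
    have hlt : ∀ x : ℂ, ‖x‖ < ‖c‖ → ‖deriv (fun z => k1 z ^ m) x‖ ≤ 1 := by
      intro x hx
      by_contra hcon
      push Not at hcon
      have hxS : x ∈ S := ⟨mem_closedBall_zero_iff.2 (by linarith), hcon.le⟩
      have := hcmin hxS
      simp only [mem_ofPred_eq] at this
      linarith
    -- the value at `c`
    have hyc : ‖k1 c ^ m - k1 0 ^ m‖ ≤ 1 := by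
      have hseg : ∀ t : ℝ, t ∈ Icc (0 : ℝ) 1 → HasDerivWithinAt (fun t : ℝ => k1 ((t : ℂ) * c) ^ m)
          (deriv (fun z => k1 z ^ m) ((t : ℂ) * c) * c) (Icc 0 1) t := by
        intro t ht
        have hn : ‖(t : ℂ) * c‖ ≤ 1 / 8 := by
          rw [norm_mul, Complex.norm_real, Real.norm_eq_abs, abs_of_nonneg ht.1]
          calc t * ‖c‖ ≤ 1 * ‖c‖ := mul_le_mul_of_nonneg_right ht.2 (norm_nonneg _)
            _ ≤ 1 / 8 := by rw [one_mul]; exact hc8
        have hx1 := hsub _ hn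
        have h3 : HasDerivAt (fun z => k1 z ^ m) (deriv (fun z => k1 z ^ m) ((t : ℂ) * c))
            ((t : ℂ) * c) :=
          (((d1 _ hx1).differentiableAt (isOpen_ball.mem_nhds hx1)).pow m).hasDerivAt
        have h4 : HasDerivAt (fun t : ℝ => (t : ℂ) * c) c t := by
          have := (Complex.ofRealCLM.hasDerivAt (x := t)).mul_const c
          simpa using this
        exact (h3.comp t h4).hasDerivWithinAt
      have h5 := norm_image_sub_le_of_norm_deriv_le_segment_01' (C := 1) hseg (by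
        intro t ht
        rw [norm_mul]
        rcases eq_or_ne c 0 with hc0 | hc0
        · rw [hc0]; simp
        · have hcp : 0 < ‖c‖ := norm_pos_iff.2 hc0
          have hn : ‖(t : ℂ) * c‖ < ‖c‖ := by
            rw [norm_mul, Complex.norm_real, Real.norm_eq_abs, abs_of_nonneg ht.1]
            calc t * ‖c‖ < 1 * ‖c‖ := mul_lt_mul_of_pos_right ht.2 hcp
              _ = ‖c‖ := one_mul _
          have h6 := hlt _ hn
          calc ‖deriv (fun z => k1 z ^ m) ((t : ℂ) * c)‖ * ‖c‖ ≤ 1 * 1 :=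
                mul_le_mul h6 (by linarith) (norm_nonneg _) (by norm_num)
            _ = 1 := one_mul _)
      simpa using h5
    have hc1' := hsub c hc8
    have hyc2 : ‖k1 c‖ ^ m ≤ L + 2 := by
      rw [← norm_pow]
      have := norm_add_le (k1 c ^ m - k1 0 ^ m) (k1 0 ^ m)
      rw [sub_add_cancel] at this
      have h5 := t1.2
      linarith
    have hwc2 : ‖k2 c‖ ^ m ≤ L + 2 := by
      rw [← norm_pow]
      have h3 : k2 c ^ m = 1 - k1 c ^ m := by
        have := he c hc1'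
        linear_combination this
      have h4 : k2 c ^ m = (1 : ℂ) - (k1 c ^ m - k1 0 ^ m) - k1 0 ^ m := by rw [h3]; ring
      have h5 : k2 c ^ m = k2 0 ^ m - (k1 c ^ m - k1 0 ^ m) := by
        have := he 0 (hsub 0 (by simp))
        rw [h4]
        linear_combination -this
      rw [h5]
      have h6 := norm_sub_le (k2 0 ^ m) (k1 c ^ m - k1 0 ^ m)
      have h7 := t2.2
      linarith
    have hle : ∀ x : ℝ, 0 ≤ x → x ^ m ≤ L + 2 → x ≤ L + 2 := by
      intro x hx hxm
      rcases le_total x 1 with h | h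
      · linarith
      · exact (le_self_pow₀ h (by omega)).trans hxm
    have hk1 := hle _ (norm_nonneg _) hyc2
    have hk2 := hle _ (norm_nonneg _) hwc2
    have hoc : 1 ≤ A * ‖oo m k1 k2 c‖ := by
      have h3 := (ident (by omega) d1 d2 he hc1').1
      rw [h3, norm_mul, norm_pow, norm_mul] at hc1
      refine hc1.trans (mul_le_mul_of_nonneg_right ?_ (norm_nonneg _))
      have h4 : ‖k1 c‖ * ‖k2 c‖ ≤ (L + 2) * (L + 2) :=
        mul_le_mul hk1 hk2 (norm_nonneg _) (by linarith)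
      calc (‖k1 c‖ * ‖k2 c‖) ^ (m - 1) ≤ ((L + 2) * (L + 2)) ^ (m - 1) :=
            pow_le_pow_left₀ (by positivity) h4 _
        _ = A := by rw [hA, pow_mul, pow_two]
    -- the engine
    have hpt : ∀ z ∈ ball (0 : ℂ) 1, ∀ Y : ℝ, 1 ≤ Y →
        (∀ i, f i z ≠ 0 ∧ ‖deriv (f i) z / f i z‖ ≤ Y ∧ ‖deriv (deriv (f i)) z / f i z‖ ≤ Y) →
        oo m k1 k2 z ≠ 0 →
        (1 - 2 / (m : ℝ)) * sg f z ≤ 2 + 2 * Real.log Y - Real.log ‖oo m k1 k2 z‖ := by
      intro z hz Y hY hall ho
      obtain ⟨a1, a2, -⟩ := hall 0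
      obtain ⟨b1, b2, -⟩ := hall 1
      rw [hf0] at a1 a2
      rw [hf1] at b1 b2
      have a1' : k1 z ≠ 0 := fun h => a1 (by simp only [h]; exact zero_pow (by omega))
      have b1' : k2 z ≠ 0 := fun h => b1 (by simp only [h]; exact zero_pow (by omega))
      obtain ⟨i1, i2⟩ := ident (by omega) d1 d2 he hz
      rw [norm_div, norm_pow, div_le_iff₀ (by positivity)] at a2 b2
      rw [i2, norm_neg] at b2
      rw [hsg]
      refine real_ineq hm (norm_pos_iff.2 a1') (norm_pos_iff.2 b1') (norm_pos_iff.2 ho) hY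
        (D := ‖deriv (fun z => k1 z ^ m) z‖) ?_ a2 b2 ?_
      · rw [i1, norm_mul, norm_pow, norm_mul]
      · have := norm_add_le (k1 z ^ m) (k2 z ^ m)
        rw [he z hz, norm_one, norm_pow, norm_pow] at this
        exact this
    have hdf : ∀ i, DifferentiableOn ℂ (f i) (ball 0 1) := by
      intro i
      fin_cases i
      · exact d1.pow m
      · exact d2.pow m
    have htf : ∀ i, Tame L (f i 0) := by
      intro i
      fin_cases i
      · exact t1
      · exact t2
    have hsB : sg f z ≤ B := by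
      by_contra hcon
      push Not at hcon
      have h3 : CE ≤ sg f z := (le_max_left _ _).trans hcon.le
      have h4 := heng f (oo m k1 k2) (sg f z) hdf (oo_diff d1 d2) htf hpt h3
        ⟨z, by linarith, le_rfl⟩ c hc8
      have h5 : 1 ≤ A * (CE * Real.exp (-kap * sg f z)) :=
        hoc.trans (mul_le_mul_of_nonneg_left h4 hA0.le)
      have h6 : Real.exp (kap * sg f z) ≤ A * CE := by
        have h7 := mul_le_mul_of_nonneg_left h5 (Real.exp_pos (kap * sg f z)).le
        have h8 : Real.exp (kap * sg f z) * (A * (CE * Real.exp (-kap * sg f z))) = A * CE := by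
          have : Real.exp (kap * sg f z) * Real.exp (-kap * sg f z) = 1 := by
            rw [← Real.exp_add]
            have : kap * sg f z + -kap * sg f z = 0 := by ring
            rw [this, Real.exp_zero]
          linear_combination (A * CE) * this
        rw [h8, mul_one] at h7
        exact h7
      have h9 : kap * sg f z < Real.log (A * CE + 1) := by
        rw [Real.lt_log_iff_exp_lt (by positivity)]
        linarith
      have h10 : sg f z < Real.log (A * CE + 1) / kap := by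
        rw [lt_div_iff₀ hkap]
        linarith
      exact absurd (h10.trans_le (le_max_right CE _)) (not_lt.2 hcon.le)
    calc ‖k1 z ^ m‖ = ‖k1 z‖ ^ m := norm_pow _ _
      _ ≤ 1 + (‖k1 z‖ ^ m + ‖k2 z‖ ^ m) := by
          have : 0 ≤ ‖k2 z‖ ^ m := by positivity
          linarith
      _ = Real.exp (sg f z) := by
          rw [hsg, Real.exp_log (by positivity)]
      _ ≤ Real.exp B := Real.exp_le_exp.2 hsB

end GL1

open GL1 in
theorem L1_proof (h1 : S_Engine) : S3_L1 := by
  intro m L hm hL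
  obtain ⟨C, hC, hunit⟩ := unit h1 m L hm hL
  refine ⟨C, hC, ?_⟩
  intro k1 k2 rho hrho d1 d2 he t1 t2 z hz
  have hmem : ∀ x ∈ ball (0 : ℂ) 1, (rho : ℂ) * x ∈ ball (0 : ℂ) rho := by
    intro x hx
    rw [mem_ball_zero_iff] at hx ⊢
    rw [norm_mul, Complex.norm_real, Real.norm_eq_abs, abs_of_pos hrho]
    calc rho * ‖x‖ < rho * 1 := mul_lt_mul_of_pos_left hx hrho
      _ = rho := mul_one _
  have hd : ∀ k : ℂ → ℂ, DifferentiableOn ℂ k (ball 0 rho) →
      DifferentiableOn ℂ (fun x => k ((rho : ℂ) * x)) (ball 0 1) := by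
    intro k hk
    exact hk.comp ((differentiable_id.const_mul (rho : ℂ)).differentiableOn) hmem
  have h3 := hunit (fun x => k1 ((rho : ℂ) * x)) (fun x => k2 ((rho : ℂ) * x)) (hd k1 d1)
    (hd k2 d2) (fun x hx => he _ (hmem x hx)) (by simpa using t1) (by simpa using t2)
    (z / (rho : ℂ)) (by
      rw [norm_div, Complex.norm_real, Real.norm_eq_abs, abs_of_pos hrho, div_le_iff₀ hrho]
      linarith)
  have hr0 : (rho : ℂ) ≠ 0 := by exact_mod_cast hrho.ne'
  simp only [mul_div_cancel₀ z hr0] at h3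
  exact h3

end

end Pool.Agent.Work.MP_6d7a54_an.UP
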