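import Pool.Agent.Work.MP_6d7a54_an.UP.DefsG

/-!
# Item Point3: the pointwise Cartan inequality, general version
-/

set_option autoImplicit false

namespace Pool.Agent.Work.MP_6d7a54_an.UP

open Complex Metric Real Set

namespace GPoint

lemma dsum {g0 g1 g2 : ℂ → ℂ} {z c : ℂ} (h0 : AnalyticAt ℂ g0 z) (h1 : AnalyticAt ℂ g1 z)
    (h2 : AnalyticAt ℂ g2 z) (h : ∀ᶠ w in nhds z, g0 w + g1 w + g2 w = c) :
    ∀ᶠ w in nhds z, deriv g0 w + deriv g1 w + deriv g2 w = 0 := by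
  filter_upwards [h.eventually_nhds, h0.eventually_analyticAt, h1.eventually_analyticAt,
    h2.eventually_analyticAt] with w hw a0 a1 a2
  have e1 : HasDerivAt (fun x => g0 x + g1 x + g2 x) (deriv g0 w + deriv g1 w + deriv g2 w) w :=
    (a0.differentiableAt.hasDerivAt.add a1.differentiableAt.hasDerivAt).add
      a2.differentiableAt.hasDerivAt
  have e2 : (fun x => g0 x + g1 x + g2 x) =ᶠ[nhds w] fun _ => c := hw
  rw [← e1.deriv, e2.deriv_eq, deriv_const]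

/-- the algebraic inequality -/
lemma alg {x0 x1 x2 a0 a1 a2 b0 b1 b2 : ℂ} {Y : ℝ} (hY : 1 ≤ Y) (hx : x0 + x1 + x2 = 1)
    (ha : a0 + a1 + a2 = 0) (hb : b0 + b1 + b2 = 0)
    (A0 : ‖a0‖ ≤ Y * ‖x0‖) (A1 : ‖a1‖ ≤ Y * ‖x1‖) (A2 : ‖a2‖ ≤ Y * ‖x2‖)
    (B0 : ‖b0‖ ≤ Y * ‖x0‖) (B1 : ‖b1‖ ≤ Y * ‖x1‖) (B2 : ‖b2‖ ≤ Y * ‖x2‖) :
    (1 + (‖x0‖ + ‖x1‖ + ‖x2‖)) * ‖a0 * b1 - b0 * a1‖
      ≤ 12 * Y ^ 2 * (‖x0‖ * ‖x1‖ * ‖x2‖) := by
  have hY0 : 0 ≤ Y := by linarith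
  have key : ∀ (s t u v : ℂ) (p q : ℝ), ‖s‖ ≤ Y * p → ‖t‖ ≤ Y * q → ‖u‖ ≤ Y * p → ‖v‖ ≤ Y * q →
      0 ≤ p → 0 ≤ q → ‖s * t - u * v‖ ≤ 2 * Y ^ 2 * (p * q) := by
    intro s t u v p q hs ht hu hv hp hq
    have e1 : ‖s * t‖ ≤ (Y * p) * (Y * q) := by
      rw [norm_mul]
      exact mul_le_mul hs ht (norm_nonneg _) (by positivity)
    have e2 : ‖u * v‖ ≤ (Y * p) * (Y * q) := by
      rw [norm_mul]
      exact mul_le_mul hu hv (norm_nonneg _) (by positivity)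
    calc ‖s * t - u * v‖ ≤ ‖s * t‖ + ‖u * v‖ := norm_sub_le _ _
      _ ≤ (Y * p) * (Y * q) + (Y * p) * (Y * q) := add_le_add e1 e2
      _ = _ := by ring
  have w2 : ‖a0 * b1 - b0 * a1‖ ≤ 2 * Y ^ 2 * (‖x0‖ * ‖x1‖) :=
    key _ _ _ _ _ _ A0 B1 B0 A1 (norm_nonneg _) (norm_nonneg _)
  have w0 : ‖a0 * b1 - b0 * a1‖ ≤ 2 * Y ^ 2 * (‖x1‖ * ‖x2‖) := by
    have e : a0 * b1 - b0 * a1 = a1 * b2 - b1 * a2 := by
      have ha' : a0 = -a1 - a2 := by linear_combination ha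
      have hb' : b0 = -b1 - b2 := by linear_combination hb
      rw [ha', hb']; ring
    rw [e]
    exact key _ _ _ _ _ _ A1 B2 B1 A2 (norm_nonneg _) (norm_nonneg _)
  have w1 : ‖a0 * b1 - b0 * a1‖ ≤ 2 * Y ^ 2 * (‖x0‖ * ‖x2‖) := by
    have e : a0 * b1 - b0 * a1 = b0 * a2 - a0 * b2 := by
      have ha' : a1 = -a0 - a2 := by linear_combination ha
      have hb' : b1 = -b0 - b2 := by linear_combination hb
      rw [ha', hb']; ring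
    rw [e]
    exact key _ _ _ _ _ _ B0 A2 A0 B2 (norm_nonneg _) (norm_nonneg _)
  have p0 : ‖x0‖ * ‖a0 * b1 - b0 * a1‖ ≤ 2 * Y ^ 2 * (‖x0‖ * ‖x1‖ * ‖x2‖) := by
    calc _ ≤ ‖x0‖ * (2 * Y ^ 2 * (‖x1‖ * ‖x2‖)) := mul_le_mul_of_nonneg_left w0 (norm_nonneg _)
      _ = _ := by ring
  have p1 : ‖x1‖ * ‖a0 * b1 - b0 * a1‖ ≤ 2 * Y ^ 2 * (‖x0‖ * ‖x1‖ * ‖x2‖) := by
    calc _ ≤ ‖x1‖ * (2 * Y ^ 2 * (‖x0‖ * ‖x2‖)) := mul_le_mul_of_nonneg_left w1 (norm_nonneg _)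
      _ = _ := by ring
  have p2 : ‖x2‖ * ‖a0 * b1 - b0 * a1‖ ≤ 2 * Y ^ 2 * (‖x0‖ * ‖x1‖ * ‖x2‖) := by
    calc _ ≤ ‖x2‖ * (2 * Y ^ 2 * (‖x0‖ * ‖x1‖)) := mul_le_mul_of_nonneg_left w2 (norm_nonneg _)
      _ = _ := by ring
  have pp : ‖a0 * b1 - b0 * a1‖ ≤ 6 * Y ^ 2 * (‖x0‖ * ‖x1‖ * ‖x2‖) := by
    have e : a0 * b1 - b0 * a1 = x0 * (a0 * b1 - b0 * a1) + x1 * (a0 * b1 - b0 * a1)
        + x2 * (a0 * b1 - b0 * a1) := by
      rw [← add_mul, ← add_mul, hx, one_mul]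
    calc ‖a0 * b1 - b0 * a1‖ = ‖x0 * (a0 * b1 - b0 * a1) + x1 * (a0 * b1 - b0 * a1)
        + x2 * (a0 * b1 - b0 * a1)‖ := by rw [← e]
      _ ≤ ‖x0 * (a0 * b1 - b0 * a1)‖ + ‖x1 * (a0 * b1 - b0 * a1)‖
        + ‖x2 * (a0 * b1 - b0 * a1)‖ := norm_add₃_le
      _ ≤ 2 * Y ^ 2 * (‖x0‖ * ‖x1‖ * ‖x2‖) + 2 * Y ^ 2 * (‖x0‖ * ‖x1‖ * ‖x2‖)
        + 2 * Y ^ 2 * (‖x0‖ * ‖x1‖ * ‖x2‖) := by
          rw [norm_mul x0, norm_mul x1, norm_mul x2]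
          exact add_le_add (add_le_add p0 p1) p2
      _ = _ := by ring
  calc (1 + (‖x0‖ + ‖x1‖ + ‖x2‖)) * ‖a0 * b1 - b0 * a1‖
      = ‖a0 * b1 - b0 * a1‖ + ‖x0‖ * ‖a0 * b1 - b0 * a1‖ + ‖x1‖ * ‖a0 * b1 - b0 * a1‖
        + ‖x2‖ * ‖a0 * b1 - b0 * a1‖ := by ring
    _ ≤ 6 * Y ^ 2 * (‖x0‖ * ‖x1‖ * ‖x2‖) + 2 * Y ^ 2 * (‖x0‖ * ‖x1‖ * ‖x2‖)
        + 2 * Y ^ 2 * (‖x0‖ * ‖x1‖ * ‖x2‖) + 2 * Y ^ 2 * (‖x0‖ * ‖x1‖ * ‖x2‖) :=
        add_le_add (add_le_add (add_le_add pp p0) p1) p2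
    _ = _ := by ring

end GPoint

open GPoint in
theorem Point3_proof (h1 : S3_Fac) : S3_Point := by
  intro m J q hm hJm hD z hz Y hY hx hom
  have hm0 : m ≠ 0 := by omega
  have hmR : (0 : ℝ) < m := by exact_mod_cast Nat.pos_of_ne_zero hm0
  have hball : ball (0 : ℂ) 1 ∈ nhds z := isOpen_ball.mem_nhds hz
  have hqa : ∀ i, AnalyticAt ℂ (q i) z := fun i => (hD.hq i).analyticAt hball
  have hxa : ∀ i, AnalyticAt ℂ (xx m q i) z := fun i => (hqa i).pow m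
  have heq : ∀ᶠ x in nhds z, q 0 x ^ m + q 1 x ^ m + q 2 x ^ m = 1 := by
    filter_upwards [hball] with x hx using hD.heq x hx
  have heqx : ∀ᶠ x in nhds z, xx m q 0 x + xx m q 1 x + xx m q 2 x = 1 := heq
  have hd := dsum (hxa 0) (hxa 1) (hxa 2) heqx
  have hdd := dsum (hxa 0).deriv (hxa 1).deriv (hxa 2).deriv hd
  have hx0 := heqx.self_of_nhds
  have hd0 := hd.self_of_nhds
  have hdd0 := hdd.self_of_nhds
  have hxn : ∀ i, 0 < ‖xx m q i z‖ := fun i => norm_pos_iff.2 (hx i).1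
  have hA : ∀ i, ‖deriv (xx m q i) z‖ ≤ Y * ‖xx m q i z‖ := fun i => by
    have := (hx i).2.1
    rwa [norm_div, div_le_iff₀ (hxn i)] at this
  have hB : ∀ i, ‖deriv (deriv (xx m q i)) z‖ ≤ Y * ‖xx m q i z‖ := fun i => by
    have := (hx i).2.2
    rwa [norm_div, div_le_iff₀ (hxn i)] at this
  have halg := alg hY hx0 hd0 hdd0 (hA 0) (hA 1) (hA 2) (hB 0) (hB 1) (hB 2)
  have hq0 : ∀ i, q i z ≠ 0 := fun i h => (hx i).1 (by
    show q i z ^ m = 0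
    rw [h, zero_pow hm0])
  have hqn : ∀ i, 0 < ‖q i z‖ := fun i => norm_pos_iff.2 (hq0 i)
  have hfac := h1 m J q z (by omega) hqa heq (fun i _ => hq0 i)
  have hW : deriv (xx m q 0) z * deriv (deriv (xx m q 1)) z
    - deriv (deriv (xx m q 0)) z * deriv (xx m q 1) z = W3 m q z := rfl
  rw [hW] at halg
  have hWn : 0 < ‖W3 m q z‖ := by
    rw [hfac]
    refine norm_pos_iff.2 (mul_ne_zero (mul_ne_zero ?_ ?_) hom)
    · exact Finset.prod_ne_zero_iff.2 fun i _ => pow_ne_zero _ (hq0 i)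
    · exact Finset.prod_ne_zero_iff.2 fun i _ => pow_ne_zero _ (hq0 i)
  -- logarithms
  have hsum : ∑ i, ‖xx m q i z‖ = ‖xx m q 0 z‖ + ‖xx m q 1 z‖ + ‖xx m q 2 z‖ :=
    Fin.sum_univ_three _
  have hS : 0 < 1 + ∑ i, ‖xx m q i z‖ := by
    have : 0 ≤ ∑ i, ‖xx m q i z‖ := Finset.sum_nonneg fun i _ => norm_nonneg _
    linarith
  have hlx : ∀ i, Real.log ‖xx m q i z‖ = m * Real.log ‖q i z‖ := fun i => by
    show Real.log ‖q i z ^ m‖ = _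
    rw [norm_pow, Real.log_pow]
  have hlog1 : sg (xx m q) z + Real.log ‖W3 m q z‖ ≤
      Real.log 12 + 2 * Real.log Y + ∑ i, (m * Real.log ‖q i z‖ : ℝ) := by
    have e1 : sg (xx m q) z + Real.log ‖W3 m q z‖ =
        Real.log ((1 + ∑ i, ‖xx m q i z‖) * ‖W3 m q z‖) := by
      rw [Real.log_mul hS.ne' hWn.ne']; rfl
    have e2 : Real.log 12 + 2 * Real.log Y + ∑ i, (m * Real.log ‖q i z‖ : ℝ) =
        Real.log (12 * Y ^ 2 * (‖xx m q 0 z‖ * ‖xx m q 1 z‖ * ‖xx m q 2 z‖)) := by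
      have hY0 : 0 < Y := by linarith
      rw [Real.log_mul (by positivity)
        (mul_ne_zero (mul_ne_zero (hxn 0).ne' (hxn 1).ne') (hxn 2).ne'),
        Real.log_mul (by norm_num) (by positivity), Real.log_pow,
        Real.log_mul (mul_ne_zero (hxn 0).ne' (hxn 1).ne') (hxn 2).ne',
        Real.log_mul (hxn 0).ne' (hxn 1).ne', hlx 0, hlx 1, hlx 2, Fin.sum_univ_three]
      push_cast
      ring
    rw [e1, e2]
    refine Real.log_le_log (mul_pos hS hWn) ?_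
    rw [hsum]
    exact halg
  have hlogW : Real.log ‖W3 m q z‖ = ∑ i ∈ Jᶜ, ((m : ℝ) - 2) * Real.log ‖q i z‖
      + ∑ i ∈ J, (m : ℝ) * Real.log ‖q i z‖ + Real.log ‖om3 m J q z‖ := by
    rw [hfac, norm_mul, norm_mul, norm_prod, norm_prod, Real.log_mul, Real.log_mul,
      Real.log_prod, Real.log_prod]
    · congr 2
      · refine Finset.sum_congr rfl fun i _ => ?_
        rw [norm_pow, Real.log_pow, Nat.cast_sub (by omega)]
        norm_num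
      · refine Finset.sum_congr rfl fun i _ => ?_
        rw [norm_pow, Real.log_pow]
    · intro i _; rw [norm_pow]; exact pow_ne_zero _ (hqn i).ne'
    · intro i _; rw [norm_pow]; exact pow_ne_zero _ (hqn i).ne'
    · exact Finset.prod_ne_zero_iff.2 fun i _ => by
        rw [norm_pow]; exact pow_ne_zero _ (hqn i).ne'
    · exact Finset.prod_ne_zero_iff.2 fun i _ => by
        rw [norm_pow]; exact pow_ne_zero _ (hqn i).ne'
    · exact mul_ne_zero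
        (Finset.prod_ne_zero_iff.2 fun i _ => by
          rw [norm_pow]; exact pow_ne_zero _ (hqn i).ne')
        (Finset.prod_ne_zero_iff.2 fun i _ => by
          rw [norm_pow]; exact pow_ne_zero _ (hqn i).ne')
    · exact (norm_pos_iff.2 hom).ne'
  have hsplit : ∑ i, ((m : ℝ) * Real.log ‖q i z‖) = ∑ i ∈ Jᶜ, (m : ℝ) * Real.log ‖q i z‖
      + ∑ i ∈ J, (m : ℝ) * Real.log ‖q i z‖ := by
    rw [add_comm, Finset.sum_add_sum_compl]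
  have hdiff : ∑ i ∈ Jᶜ, (m : ℝ) * Real.log ‖q i z‖ =
      ∑ i ∈ Jᶜ, ((m : ℝ) - 2) * Real.log ‖q i z‖ + ∑ i ∈ Jᶜ, 2 * Real.log ‖q i z‖ := by
    rw [← Finset.sum_add_distrib]
    refine Finset.sum_congr rfl fun i _ => ?_
    ring
  have hle : ∀ i, Real.log ‖q i z‖ ≤ sg (xx m q) z / m := fun i => by
    rw [le_div_iff₀ hmR, mul_comm, ← hlx i]
    refine Real.log_le_log (hxn i) ?_
    have : ‖xx m q i z‖ ≤ ∑ j, ‖xx m q j z‖ :=
      Finset.single_le_sum (f := fun j => ‖xx m q j z‖) (fun j _ => norm_nonneg _)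
        (Finset.mem_univ i)
    linarith
  have hcard : ((Jᶜ).card : ℝ) = 3 - (J.card : ℝ) := by
    rw [Finset.card_compl, Fintype.card_fin, Nat.cast_sub (by simpa using J.card_le_univ)]
    norm_num
  have hsm : ∑ i ∈ Jᶜ, 2 * Real.log ‖q i z‖ ≤ 2 * (3 - (J.card : ℝ)) / m * sg (xx m q) z := by
    calc ∑ i ∈ Jᶜ, 2 * Real.log ‖q i z‖ ≤ ∑ i ∈ Jᶜ, 2 * (sg (xx m q) z / m) :=
          Finset.sum_le_sum fun i _ => by linarith [hle i]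
      _ = 2 * (3 - (J.card : ℝ)) / m * sg (xx m q) z := by
          rw [Finset.sum_const, nsmul_eq_mul, hcard]
          field_simp
  have hl12 : Real.log 12 ≤ 5 := by
    have e1 : Real.log 12 ≤ Real.log (2 ^ 5) := Real.log_le_log (by norm_num) (by norm_num)
    rw [Real.log_pow] at e1
    have := Real.log_two_lt_d9
    push_cast at e1
    linarith
  have hlY : 0 ≤ Real.log Y := Real.log_nonneg hY
  have hfin : (1 - 2 * (3 - (J.card : ℝ)) / m) * sg (xx m q) z =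
      sg (xx m q) z - 2 * (3 - (J.card : ℝ)) / m * sg (xx m q) z := by ring
  rw [hfin]
  linarith

end Pool.Agent.Work.MP_6d7a54_an.UP
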