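import Pool.Agent.Work.MP_6d7a54_an.UP.DefsG

/-!
# General version: scaling argument (MP_6d7a54_an)
-/

namespace Pool.Agent.Work.MP_6d7a54_an.UP

open Complex Metric Real Set

namespace GScale

theorem one_add_pos {N : ℕ} (f : Fin N → ℂ → ℂ) (z : ℂ) : 0 < 1 + ∑ i, ‖f i z‖ := by
  have : 0 ≤ ∑ i, ‖f i z‖ := Finset.sum_nonneg fun _ _ => norm_nonneg _
  linarith

theorem sg_nonneg {N : ℕ} (f : Fin N → ℂ → ℂ) (z : ℂ) : 0 ≤ sg f z := by
  refine Real.log_nonneg ?_
  have : 0 ≤ ∑ i, ‖f i z‖ := Finset.sum_nonneg fun _ _ => norm_nonneg _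
  linarith

theorem norm_le_of_sg {N : ℕ} {f : Fin N → ℂ → ℂ} {z : ℂ} {A : ℝ} (h : sg f z ≤ A) (i : Fin N) :
    ‖f i z‖ ≤ Real.exp A := by
  have h2 : 1 + ∑ i, ‖f i z‖ ≤ Real.exp A := by
    rw [← Real.exp_log (one_add_pos f z)]
    exact Real.exp_le_exp.mpr h
  have h3 : ‖f i z‖ ≤ ∑ i, ‖f i z‖ :=
    Finset.single_le_sum (f := fun i => ‖f i z‖) (fun _ _ => norm_nonneg _) (Finset.mem_univ i)
  linarith

theorem exists_of_lt_sg {f : Fin 3 → ℂ → ℂ} {z : ℂ} {A : ℝ} (h : A < sg f z) :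
    ∃ i, (Real.exp A - 1) / 3 < ‖f i z‖ := by
  by_contra hcon
  push Not at hcon
  have h1 : ∑ i, ‖f i z‖ ≤ Real.exp A - 1 := by
    rw [Fin.sum_univ_three]
    have h0 := hcon 0
    have h1 := hcon 1
    have h2 := hcon 2
    linarith
  have h2 : sg f z ≤ A := by
    unfold sg
    rw [Real.log_le_iff_le_exp (one_add_pos f z)]
    linarith
  linarith

theorem sg_cont {N : ℕ} {f : Fin N → ℂ → ℂ} {s : Set ℂ} (h : ∀ i, ContinuousOn (f i) s) :
    ContinuousOn (sg f) s := by
  unfold sg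
  refine ContinuousOn.log ?_ fun z _ => (one_add_pos f z).ne'
  exact continuousOn_const.add (continuousOn_finsetSum _ fun i _ => (h i).norm)

/-- maximum principle on an annulus -/
theorem annulus {f : ℂ → ℂ} {a R A B : ℝ} (ha : 0 < a) (hR1 : R < 1)
    (hf : DifferentiableOn ℂ f (ball 0 1)) (hA : ∀ z : ℂ, ‖z‖ = a → ‖f z‖ ≤ A)
    (hB : ∀ z : ℂ, ‖z‖ = R → ‖f z‖ ≤ B) (k : ℕ) {z : ℂ} (hz1 : a ≤ ‖z‖) (hz2 : ‖z‖ ≤ R) :
    ‖f z‖ ≤ max (A / a ^ k) (B / R ^ k) * ‖z‖ ^ k := by
  have hR : 0 < R := lt_of_lt_of_le ha (hz1.trans hz2)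
  have hz0 : 0 < ‖z‖ := lt_of_lt_of_le ha hz1
  set C : ℝ := max (A / a ^ k) (B / R ^ k) with hC
  set g : ℂ → ℂ := fun w => f w / w ^ k with hg
  have bd : ∀ w : ℂ, ‖w‖ = a ∨ ‖w‖ = R → ‖g w‖ ≤ C := by
    rintro w (hw | hw)
    · have h1 : ‖g w‖ = ‖f w‖ / a ^ k := by rw [hg]; simp only [norm_div, norm_pow, hw]
      rw [h1]
      exact (div_le_div_of_nonneg_right (hA w hw) (by positivity)).trans (le_max_left _ _)
    · have h1 : ‖g w‖ = ‖f w‖ / R ^ k := by rw [hg]; simp only [norm_div, norm_pow, hw]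
      rw [h1]
      exact (div_le_div_of_nonneg_right (hB w hw) (by positivity)).trans (le_max_right _ _)
  have key : ‖g z‖ ≤ C := by
    by_cases hza : ‖z‖ = a
    · exact bd z (Or.inl hza)
    by_cases hzR : ‖z‖ = R
    · exact bd z (Or.inr hzR)
    set U : Set ℂ := {w | a < ‖w‖ ∧ ‖w‖ < R} with hU
    have hUo : IsOpen U :=
      (isOpen_lt continuous_const continuous_norm).inter (isOpen_lt continuous_norm continuous_const)
    have hcl : closure U ⊆ {w | a ≤ ‖w‖ ∧ ‖w‖ ≤ R} := by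
      refine closure_minimal (fun w hw => ⟨hw.1.le, hw.2.le⟩) ?_
      exact (isClosed_le continuous_const continuous_norm).inter
        (isClosed_le continuous_norm continuous_const)
    have hUb : Bornology.IsBounded U := by
      refine (isBounded_ball (x := (0 : ℂ)) (r := R)).subset fun w hw => ?_
      simpa using hw.2
    have hzU : z ∈ U := ⟨lt_of_le_of_ne hz1 (Ne.symm hza), lt_of_le_of_ne hz2 hzR⟩
    refine norm_le_of_forall_mem_frontier_norm_le hUb ?_ ?_ (subset_closure hzU)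
    · refine DifferentiableOn.diffContOnCl fun w hw => ?_
      have hw' := hcl hw
      have hw0 : w ≠ 0 := by
        rintro rfl
        have := hw'.1
        rw [norm_zero] at this
        linarith
      have hwb : w ∈ ball (0 : ℂ) 1 := by
        rw [mem_ball_zero_iff]
        exact lt_of_le_of_lt hw'.2 hR1
      have h1 : DifferentiableAt ℂ f w := (hf w hwb).differentiableAt (isOpen_ball.mem_nhds hwb)
      exact (h1.div (differentiableAt_id.pow k) (pow_ne_zero k hw0)).differentiableWithinAt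
    · intro w hw
      rw [hUo.frontier_eq] at hw
      have hw' := hcl hw.1
      refine bd w ?_
      by_contra hcon
      push Not at hcon
      exact hw.2 ⟨lt_of_le_of_ne hw'.1 (Ne.symm hcon.1), lt_of_le_of_ne hw'.2 hcon.2⟩
  have h1 : ‖g z‖ = ‖f z‖ / ‖z‖ ^ k := by rw [hg]; simp only [norm_div, norm_pow]
  rw [h1, div_le_iff₀ (by positivity)] at key
  exact key

theorem cauchy {f : ℂ → ℂ} {R C : ℝ} (hR : 0 < R) (hR1 : R < 1)
    (hf : DifferentiableOn ℂ f (ball 0 1)) (hC : ∀ z : ℂ, ‖z‖ ≤ R → ‖f z‖ ≤ C) :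
    ‖deriv f 0‖ ≤ C / R := by
  refine norm_deriv_le_of_forall_mem_sphere_norm_le hR ?_ fun z hz => ?_
  · refine DifferentiableOn.diffContOnCl (hf.mono ?_)
    rw [closure_ball _ hR.ne']
    exact closedBall_subset_ball hR1
  · refine hC z ?_
    rw [mem_sphere_zero_iff_norm] at hz
    exact hz.le

/-- the rescaled functions -/
noncomputable def sc (q : Fin 3 → ℂ → ℂ) (rho : ℝ) (i : Fin 3) (z : ℂ) : ℂ := q i ((rho : ℂ) * z)

theorem xx_sc (m : ℕ) (q : Fin 3 → ℂ → ℂ) (rho : ℝ) (i : Fin 3) (z : ℂ) :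
    xx m (sc q rho) i z = xx m q i ((rho : ℂ) * z) := rfl

theorem sg_sc (m : ℕ) (q : Fin 3 → ℂ → ℂ) (rho : ℝ) (z : ℂ) :
    sg (xx m (sc q rho)) z = sg (xx m q) ((rho : ℂ) * z) := rfl

theorem deriv_sc (m : ℕ) (q : Fin 3 → ℂ → ℂ) (rho : ℝ) (i : Fin 3) (z : ℂ) :
    deriv (xx m (sc q rho) i) z = (rho : ℂ) * deriv (xx m q i) ((rho : ℂ) * z) := by
  have h := deriv_comp_mul_left (rho : ℂ) (xx m q i) z
  rw [smul_eq_mul] at h
  exact h

theorem deriv2_sc (m : ℕ) (q : Fin 3 → ℂ → ℂ) (rho : ℝ) (i : Fin 3) (z : ℂ) :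
    deriv (deriv (xx m (sc q rho) i)) z =
      (rho : ℂ) * ((rho : ℂ) * deriv (deriv (xx m q i)) ((rho : ℂ) * z)) := by
  have h0 : deriv (xx m (sc q rho) i) =
      fun z => (rho : ℂ) * deriv (xx m q i) ((rho : ℂ) * z) := by
    funext z
    exact deriv_sc m q rho i z
  rw [h0, deriv_const_mul_field]
  have h := deriv_comp_mul_left (rho : ℂ) (deriv (xx m q i)) z
  rw [smul_eq_mul] at h
  rw [h]

theorem W3_sc (m : ℕ) (q : Fin 3 → ℂ → ℂ) (rho : ℝ) (z : ℂ) :
    W3 m (sc q rho) z = (rho : ℂ) ^ 3 * W3 m q ((rho : ℂ) * z) := by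
  unfold W3
  rw [deriv_sc, deriv_sc, deriv2_sc, deriv2_sc]
  ring

theorem dat_sc {m : ℕ} {J : Finset (Fin 3)} {q : Fin 3 → ℂ → ℂ} (h : Dat3 m J q 1) {rho : ℝ}
    (h0 : 0 < rho) (h1 : rho ≤ 1 / 16) : Dat3 m ∅ (sc q rho) 2 := by
  have hmap : ∀ z ∈ ball (0 : ℂ) 2, (rho : ℂ) * z ∈ ball (0 : ℂ) 1 := by
    intro z hz
    rw [mem_ball_zero_iff] at hz ⊢
    rw [norm_mul, Complex.norm_real, Real.norm_of_nonneg h0.le]
    nlinarith
  refine ⟨fun i => ?_, fun i hi => absurd hi (Finset.notMem_empty i), fun z hz => ?_⟩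
  · exact (h.hq i).comp (by fun_prop) hmap
  · exact h.heq _ (hmap z hz)

theorem base_sc {m : ℕ} {L : ℝ} {q : Fin 3 → ℂ → ℂ} (h : Base3 m L q) (rho : ℝ) :
    Base3 m L (sc q rho) := by
  have h0 : ∀ i, sc q rho i 0 = q i 0 := fun i => by
    unfold sc
    rw [mul_zero]
  refine ⟨fun i => ?_, fun i => ?_⟩
  · rw [h0]
    exact h.h1 i
  · rw [h0]
    exact h.h2 i

theorem dv (A b c : ℝ) (k : ℕ) : A / b ^ k * c ^ k = A * (c / b) ^ k := by
  rw [div_pow]
  ring

/-- numerical part of the growth estimate -/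
theorem num {del M C a : ℝ} (hdel : 0 < del) (ha0 : 0 ≤ a) (ha : a ≤ Real.exp (-(20 / del)))
    (hM : 20 / del ≤ M) (hM2 : (2 * C + 4) / del ≤ M) :
    ∃ k : ℕ, Real.exp C * 128 ^ k ≤ (Real.exp (del * M) - 1) / 3 ∧
      Real.exp M * a ^ k ≤ (Real.exp (del * M) - 1) / 3 := by
  have hM20 : 20 ≤ del * M := by
    rw [div_le_iff₀ hdel] at hM
    linarith
  have hMC : 2 * C + 4 ≤ del * M := by
    rw [div_le_iff₀ hdel] at hM2
    linarith
  set k : ℕ := ⌊del * M / 10⌋₊ with hk
  have hk1 : (k : ℝ) ≤ del * M / 10 := Nat.floor_le (by linarith)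
  have hk2 : del * M / 10 < k + 1 := Nat.lt_floor_add_one _
  have hk3 : del * M / 20 ≤ k := by linarith
  have hS : Real.exp (C + del * M / 2) ≤ (Real.exp (del * M) - 1) / 3 := by
    have h1 : Real.exp (del * M) = Real.exp (del * M / 2) * Real.exp (del * M / 2) := by
      rw [← Real.exp_add]
      congr 1
      ring
    have h2 : Real.exp (C + 2) ≤ Real.exp (del * M / 2) := Real.exp_le_exp.mpr (by linarith)
    have h3 : Real.exp (C + 2) = Real.exp C * Real.exp 2 := Real.exp_add _ _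
    have h4 : (4 : ℝ) ≤ Real.exp 2 := by
      have h5 : Real.exp 2 = Real.exp 1 * Real.exp 1 := by
        rw [← Real.exp_add]
        norm_num
      have h6 : (2 : ℝ) ≤ Real.exp 1 := by
        have := Real.add_one_le_exp (1 : ℝ)
        linarith
      rw [h5]
      nlinarith
    have h5 : 0 < Real.exp C := Real.exp_pos _
    have h6 : 4 * Real.exp C ≤ Real.exp (del * M / 2) := by nlinarith
    have h7 : (4 : ℝ) ≤ Real.exp (del * M / 2) := by
      refine h4.trans (Real.exp_le_exp.mpr (by linarith))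
    have h8 : Real.exp (C + del * M / 2) = Real.exp C * Real.exp (del * M / 2) := Real.exp_add _ _
    rw [h8, le_div_iff₀ (by norm_num), h1]
    nlinarith
  refine ⟨k, ?_, ?_⟩
  · refine le_trans ?_ hS
    rw [Real.exp_add]
    refine mul_le_mul_of_nonneg_left ?_ (Real.exp_pos _).le
    have h1 : (128 : ℝ) ≤ Real.exp 5 := by
      have h2 : Real.exp 5 = Real.exp 1 ^ 5 := by
        rw [← Real.exp_nat_mul]
        norm_num
      have h3 := Real.exp_one_gt_d9
      rw [h2]
      calc (128 : ℝ) ≤ 2.7182818283 ^ 5 := by norm_num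
        _ ≤ Real.exp 1 ^ 5 := pow_le_pow_left₀ (by norm_num) h3.le 5
    calc (128 : ℝ) ^ k ≤ Real.exp 5 ^ k := pow_le_pow_left₀ (by norm_num) h1 k
      _ = Real.exp (k * 5) := (Real.exp_nat_mul 5 k).symm
      _ ≤ Real.exp (del * M / 2) := Real.exp_le_exp.mpr (by linarith)
  · have h1 : a ^ k ≤ Real.exp (-M) := by
      calc a ^ k ≤ Real.exp (-(20 / del)) ^ k := pow_le_pow_left₀ ha0 ha k
        _ = Real.exp (k * (-(20 / del))) := (Real.exp_nat_mul _ k).symm
        _ ≤ Real.exp (-M) := Real.exp_le_exp.mpr (by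
          have h2 : M ≤ k * (20 / del) := by
            rw [mul_div_assoc', le_div_iff₀ hdel]
            linarith
          linarith)
    have h2 : Real.exp M * a ^ k ≤ 1 := by
      calc Real.exp M * a ^ k ≤ Real.exp M * Real.exp (-M) :=
            mul_le_mul_of_nonneg_left h1 (Real.exp_pos _).le
        _ = 1 := by rw [← Real.exp_add, add_neg_cancel, Real.exp_zero]
    refine h2.trans ?_
    have h3 : (4 : ℝ) ≤ Real.exp (del * M) := by
      have := Real.add_one_le_exp (del * M)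
      linarith
    linarith

end GScale

theorem Scale_proof (h1 : S3_Step1) (h2 : S3_Local) : S3_Main := by
  intro m J L hm hJ hL
  obtain ⟨kap, C1, hkap, hC1, H1⟩ := h1 m J L hm hJ hL
  obtain ⟨del0, C2, hdel0, hC2, H2⟩ := h2 m L (kap / 2) C1 hm hL (by positivity) hC1
  set del : ℝ := min del0 (kap / 6) with hdel
  have hd0 : 0 < del := lt_min hdel0 (by positivity)
  have hd1 : del ≤ del0 := min_le_left _ _
  have hd2 : del ≤ kap / 6 := min_le_right _ _
  -- the threshold
  set T : ℝ := C1 + C2 + 20 / del + (2 * C2 + 4) / del + (Real.log (1 + 3 * L) + 1) / del with hT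
  have hlog : 0 ≤ Real.log (1 + 3 * L) := Real.log_nonneg (by linarith)
  have t1 : 0 ≤ 20 / del := by positivity
  have t2 : 0 ≤ (2 * C2 + 4) / del := by positivity
  have t3 : 0 ≤ (Real.log (1 + 3 * L) + 1) / del := by positivity
  -- the minimal scale
  set e : ℝ := min (1 / 16) (Real.exp (-(20 / del)) / 4) with he
  have he0 : 0 < e := lt_min (by norm_num) (by positivity)
  refine ⟨2 * Real.exp T + 64 * Real.exp C2 / e, by positivity, ?_⟩
  intro q hq hb i
  have hx : ∀ i, DifferentiableOn ℂ (xx m q i) (ball 0 1) := fun i => (hq.hq i).pow m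
  have hsc : ContinuousOn (sg (xx m q)) (ball 0 1) := GScale.sg_cont fun i => (hx i).continuousOn
  have hsub : closedBall (0 : ℂ) (1 / 2) ⊆ ball 0 1 := closedBall_subset_ball (by norm_num)
  obtain ⟨z1, hz1, hmax⟩ := (isCompact_closedBall (0 : ℂ) (1 / 2)).exists_isMaxOn
    ⟨0, by simp⟩ (hsc.mono hsub)
  set M : ℝ := sg (xx m q) z1 with hM
  have hMax : ∀ z : ℂ, ‖z‖ ≤ 1 / 2 → sg (xx m q) z ≤ M := fun z hz =>
    hmax (by rw [mem_closedBall_zero_iff]; exact hz)
  rw [mem_closedBall_zero_iff] at hz1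
  rcases lt_or_ge M T with hMT | hMT
  · -- small maximum
    have h3 := GScale.cauchy (R := 1 / 2) (C := Real.exp T) (by norm_num) (by norm_num) (hx i)
      (fun z hz => GScale.norm_le_of_sg ((hMax z hz).trans hMT.le) i)
    have h4 : 0 ≤ 64 * Real.exp C2 / e := by positivity
    linarith
  · have hMC1 : C1 ≤ M := by linarith
    have hMC2 : C2 ≤ M := by linarith
    have hM20 : 20 / del ≤ M := by linarith
    have hM4 : (2 * C2 + 4) / del ≤ M := by linarith
    have hML : Real.log (1 + 3 * L) + 1 ≤ del * M := by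
      have : (Real.log (1 + 3 * L) + 1) / del ≤ M := by linarith
      rw [div_le_iff₀ hd0] at this
      linarith
    have hM0 : 0 ≤ M := by linarith
    -- the value at zero
    have hs0 : sg (xx m q) 0 < del * M := by
      have h3 : sg (xx m q) 0 ≤ Real.log (1 + 3 * L) := by
        unfold sg
        refine Real.log_le_log (GScale.one_add_pos _ _) ?_
        rw [Fin.sum_univ_three]
        have a0 := (hb.h1 0).2
        have a1 := (hb.h1 1).2
        have a2 := (hb.h1 2).2
        unfold xx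
        linarith
      linarith
    set ρ : ℕ → ℝ := fun n => (1 / 2 : ℝ) ^ n / 16 with hρ
    have hρ0 : ∀ n, 0 < ρ n := fun n => by rw [hρ]; positivity
    have hρ1 : ∀ n, ρ n ≤ 1 / 16 := fun n => by
      have : (1 / 2 : ℝ) ^ n ≤ 1 := pow_le_one₀ (by norm_num) (by norm_num)
      simp only [hρ]
      linarith
    have hex : ∃ n, ∀ z : ℂ, ‖z‖ ≤ ρ n → sg (xx m q) z ≤ del * M := by
      have h0 : (0 : ℂ) ∈ ball (0 : ℂ) 1 := by simp
      have hcont : ContinuousAt (sg (xx m q)) 0 := hsc.continuousAt (isOpen_ball.mem_nhds h0)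
      have hev := hcont.eventually (gt_mem_nhds hs0)
      rw [Metric.eventually_nhds_iff] at hev
      obtain ⟨ε, hε, hball⟩ := hev
      obtain ⟨n, hn⟩ := exists_pow_lt_of_lt_one hε (show (1 / 2 : ℝ) < 1 by norm_num)
      refine ⟨n, fun z hz => (hball ?_).le⟩
      rw [dist_zero_right]
      refine lt_of_le_of_lt hz ?_
      have : 0 < (1 / 2 : ℝ) ^ n := by positivity
      simp only [hρ]
      linarith
    classical
    set n : ℕ := Nat.find hex with hn
    have hP : ∀ z : ℂ, ‖z‖ ≤ ρ n → sg (xx m q) z ≤ del * M := Nat.find_spec hex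
    have hr0 := hρ0 n
    have hr1 := hρ1 n
    -- the local statement at the scale `ρ n`
    have hloc : ∀ z : ℂ, ‖z‖ ≤ ρ n / 64 → sg (xx m q) z ≤ C2 := by
      have hnorm : ∀ z : ℂ, ‖((ρ n : ℝ) : ℂ) * z‖ = ρ n * ‖z‖ := fun z => by
        rw [norm_mul, Complex.norm_real, Real.norm_of_nonneg hr0.le]
      have hL := H2 (GScale.sc q (ρ n)) M (GScale.dat_sc hq hr0 hr1) (GScale.base_sc hb (ρ n)) hMC2
        ?_ ?_
      · intro z hz
        have hne : ((ρ n : ℝ) : ℂ) ≠ 0 := by exact_mod_cast hr0.ne'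
        have h3 := hL (z / ((ρ n : ℝ) : ℂ)) (by
          rw [norm_div, Complex.norm_real, Real.norm_of_nonneg hr0.le, div_le_iff₀ hr0]
          linarith)
        rw [GScale.sg_sc, mul_div_cancel₀ _ hne] at h3
        exact h3
      · intro z hz
        rw [GScale.sg_sc]
        have h3 : ‖((ρ n : ℝ) : ℂ) * z‖ ≤ ρ n := by
          rw [hnorm]
          nlinarith
        refine (hP _ h3).trans ?_
        exact mul_le_mul_of_nonneg_right hd1 hM0
      · intro z hz
        rw [GScale.W3_sc, norm_mul, norm_pow, Complex.norm_real, Real.norm_of_nonneg hr0.le]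
        have h3 : ‖((ρ n : ℝ) : ℂ) * z‖ ≤ ρ n := by
          rw [hnorm]
          nlinarith
        have h4 := H1 q M hq hb hMC1 ⟨z1, hz1, le_rfl⟩ (((ρ n : ℝ) : ℂ) * z) (by linarith)
        have h5 : -kap * M + 3 * sg (xx m q) (((ρ n : ℝ) : ℂ) * z) ≤ -(kap / 2) * M := by
          have h6 := hP _ h3
          have h7 : del * M ≤ kap / 6 * M := mul_le_mul_of_nonneg_right hd2 hM0
          linarith
        have h6 : ρ n ^ 3 ≤ 1 := pow_le_one₀ hr0.le (by linarith)
        calc ρ n ^ 3 * ‖W3 m q (((ρ n : ℝ) : ℂ) * z)‖ ≤ 1 * ‖W3 m q (((ρ n : ℝ) : ℂ) * z)‖ :=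
              mul_le_mul_of_nonneg_right h6 (norm_nonneg _)
          _ ≤ C1 * Real.exp (-kap * M + 3 * sg (xx m q) (((ρ n : ℝ) : ℂ) * z)) := by
              rw [one_mul]
              exact h4
          _ ≤ C1 * Real.exp (-(kap / 2) * M) :=
              mul_le_mul_of_nonneg_left (Real.exp_le_exp.mpr h5) hC1
    -- lower bound for the scale
    have hlow : e ≤ ρ n := by
      rcases Nat.eq_zero_or_pos n with h0 | h0
      · rw [h0]
        simp only [hρ, pow_zero]
        exact min_le_left _ _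
      · by_contra hcon
        push Not at hcon
        have hcon' : 4 * ρ n ≤ Real.exp (-(20 / del)) := by
          have := lt_of_lt_of_le hcon (min_le_right _ _)
          linarith
        have hn1 := Nat.find_min hex (m := n - 1) (by omega)
        push Not at hn1
        obtain ⟨z0, hz0, hz0'⟩ := hn1
        have hρ2 : ρ (n - 1) = 2 * ρ n := by
          obtain ⟨l, hl⟩ : ∃ l, n = l + 1 := ⟨n - 1, by omega⟩
          rw [hl, Nat.add_sub_cancel]
          simp only [hρ, pow_succ]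
          ring
        rw [hρ2] at hz0
        obtain ⟨j, hj⟩ := GScale.exists_of_lt_sg hz0'
        obtain ⟨k, hk1, hk2⟩ := GScale.num (C := C2) (a := 4 * ρ n) hd0 (by linarith) hcon' hM20 hM4
        rcases le_or_gt (ρ n / 64) ‖z0‖ with hz | hz
        · have h3 := GScale.annulus (f := xx m q j) (a := ρ n / 64) (R := 1 / 2)
            (A := Real.exp C2) (B := Real.exp M) (by linarith) (by norm_num) (hx j)
            (fun z hz => GScale.norm_le_of_sg (hloc z hz.le) j)
            (fun z hz => GScale.norm_le_of_sg (hMax z hz.le) j) k hz (by linarith)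
          have hp : ‖z0‖ ^ k ≤ (2 * ρ n) ^ k := pow_le_pow_left₀ (norm_nonneg _) hz0 k
          have h4 : Real.exp C2 / (ρ n / 64) ^ k * ‖z0‖ ^ k ≤ Real.exp C2 * 128 ^ k := by
            calc Real.exp C2 / (ρ n / 64) ^ k * ‖z0‖ ^ k
                ≤ Real.exp C2 / (ρ n / 64) ^ k * (2 * ρ n) ^ k :=
                  mul_le_mul_of_nonneg_left hp (by positivity)
              _ = Real.exp C2 * ((2 * ρ n) / (ρ n / 64)) ^ k := GScale.dv _ _ _ _
              _ = Real.exp C2 * 128 ^ k := by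
                  congr 2
                  field_simp
                  norm_num
          have h5 : Real.exp M / (1 / 2) ^ k * ‖z0‖ ^ k ≤ Real.exp M * (4 * ρ n) ^ k := by
            calc Real.exp M / (1 / 2) ^ k * ‖z0‖ ^ k ≤ Real.exp M / (1 / 2) ^ k * (2 * ρ n) ^ k :=
                  mul_le_mul_of_nonneg_left hp (by positivity)
              _ = Real.exp M * ((2 * ρ n) / (1 / 2)) ^ k := GScale.dv _ _ _ _
              _ = Real.exp M * (4 * ρ n) ^ k := by
                  congr 2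
                  ring
          have h6 : ‖xx m q j z0‖ ≤ (Real.exp (del * M) - 1) / 3 := by
            refine h3.trans ?_
            rw [max_mul_of_nonneg _ _ (by positivity)]
            exact max_le (h4.trans hk1) (h5.trans hk2)
          linarith
        · have h3 := GScale.norm_le_of_sg (hloc z0 hz.le) j
          have h4 : Real.exp C2 ≤ Real.exp C2 * 128 ^ k :=
            le_mul_of_one_le_right (Real.exp_pos _).le (one_le_pow₀ (by norm_num))
          linarith
    -- conclusion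
    have h3 := GScale.cauchy (R := ρ n / 64) (C := Real.exp C2) (by linarith) (by linarith) (hx i)
      (fun z hz => GScale.norm_le_of_sg (hloc z hz) i)
    have h4 : Real.exp C2 / (ρ n / 64) = 64 * Real.exp C2 / ρ n := by
      field_simp
    have h5 : 64 * Real.exp C2 / ρ n ≤ 64 * Real.exp C2 / e :=
      div_le_div_of_nonneg_left (by positivity) he0 hlow
    have h6 : 0 ≤ 2 * Real.exp T := by positivity
    linarith

end Pool.Agent.Work.MP_6d7a54_an.UP
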