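import Pool.Agent.Work.MP_6d7a54_an.UP.DefsG

/-!
# Step 1 of the general version
-/

namespace Pool.Agent.Work.MP_6d7a54_an.UP

open Complex Metric Real Set

noncomputable section

namespace GStep1

lemma sum_nonneg' {N : ℕ} (f : Fin N → ℂ → ℂ) (z : ℂ) : 0 ≤ ∑ i, ‖f i z‖ :=
  Finset.sum_nonneg (fun _ _ => norm_nonneg _)

lemma exp_sg {N : ℕ} (f : Fin N → ℂ → ℂ) (z : ℂ) :
    Real.exp (sg f z) = 1 + ∑ i, ‖f i z‖ := by
  unfold sg
  rw [Real.exp_log]
  have := sum_nonneg' f z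
  linarith

lemma norm_le_exp_sg {N : ℕ} (f : Fin N → ℂ → ℂ) (z : ℂ) (i : Fin N) :
    max 1 ‖f i z‖ ≤ Real.exp (sg f z) := by
  rw [exp_sg]
  have h1 : ‖f i z‖ ≤ ∑ j, ‖f j z‖ :=
    Finset.single_le_sum (f := fun j => ‖f j z‖) (fun _ _ => norm_nonneg _) (Finset.mem_univ i)
  have h0 := sum_nonneg' f z
  exact max_le (by linarith) (by linarith)

lemma pow_le_max (x : ℝ) (hx : 0 ≤ x) (m k : ℕ) (hk : k ≤ m) : x ^ k ≤ max 1 (x ^ m) := by
  rcases le_or_gt x 1 with h | h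
  · exact le_max_of_le_left (pow_le_one₀ hx h)
  · exact le_max_of_le_right (pow_le_pow_right₀ h.le hk)

lemma q_pow_le (m : ℕ) (q : Fin 3 → ℂ → ℂ) (z : ℂ) (i : Fin 3) (k : ℕ) (hk : k ≤ m) :
    ‖q i z ^ k‖ ≤ Real.exp (sg (xx m q) z) := by
  refine le_trans ?_ (norm_le_exp_sg (xx m q) z i)
  rw [norm_pow]
  have := pow_le_max ‖q i z‖ (norm_nonneg _) m k hk
  simpa [xx, norm_pow] using this

lemma prod_bound (m : ℕ) (J : Finset (Fin 3)) (q : Fin 3 → ℂ → ℂ) (z : ℂ) :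
    ‖(∏ i ∈ Jᶜ, q i z ^ (m - 2)) * (∏ i ∈ J, q i z ^ m)‖
      ≤ Real.exp (3 * sg (xx m q) z) := by
  have hE : 0 ≤ Real.exp (sg (xx m q) z) := (Real.exp_pos _).le
  have h1 : ‖∏ i ∈ Jᶜ, q i z ^ (m - 2)‖ ≤ Real.exp (sg (xx m q) z) ^ (Jᶜ).card := by
    rw [norm_prod]
    calc _ ≤ ∏ _i ∈ Jᶜ, Real.exp (sg (xx m q) z) :=
          Finset.prod_le_prod (fun _ _ => norm_nonneg _)
            (fun i _ => q_pow_le m q z i (m - 2) (Nat.sub_le _ _))
      _ = _ := by rw [Finset.prod_const]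
  have h2 : ‖∏ i ∈ J, q i z ^ m‖ ≤ Real.exp (sg (xx m q) z) ^ J.card := by
    rw [norm_prod]
    calc _ ≤ ∏ _i ∈ J, Real.exp (sg (xx m q) z) :=
          Finset.prod_le_prod (fun _ _ => norm_nonneg _)
            (fun i _ => q_pow_le m q z i m le_rfl)
      _ = _ := by rw [Finset.prod_const]
  rw [norm_mul]
  calc _ ≤ Real.exp (sg (xx m q) z) ^ (Jᶜ).card * Real.exp (sg (xx m q) z) ^ J.card :=
        mul_le_mul h1 h2 (norm_nonneg _) (pow_nonneg hE _)
    _ = Real.exp (sg (xx m q) z) ^ 3 := by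
        rw [← pow_add]
        congr 1
        have := Finset.card_compl_add_card J
        simp
    _ = Real.exp (3 * sg (xx m q) z) := by
        rw [← Real.exp_nat_mul]
        norm_num

lemma om3_diff (m : ℕ) (J : Finset (Fin 3)) (q : Fin 3 → ℂ → ℂ) (h : Dat3 m J q 1) :
    DifferentiableOn ℂ (om3 m J q) (ball 0 1) := by
  have hq := h.hq
  have hd : ∀ i, DifferentiableOn ℂ (deriv (q i)) (ball 0 1) := fun i =>
    (hq i).deriv isOpen_ball
  have hdd : ∀ i, DifferentiableOn ℂ (deriv (deriv (q i))) (ball 0 1) := fun i =>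
    (hd i).deriv isOpen_ball
  have e0 : ∀ i, DifferentiableOn ℂ (y0 q i) (ball 0 1) := fun i => (hq i).pow 2
  have e1 : ∀ i, DifferentiableOn ℂ (y1 m q i) (ball 0 1) := fun i =>
    ((hq i).mul (hd i)).const_mul _
  have e2 : ∀ i, DifferentiableOn ℂ (y2 m q i) (ball 0 1) := fun i =>
    ((((hd i).pow 2).const_mul _).add ((hq i).mul (hdd i))).const_mul _
  have e3 : DifferentiableOn ℂ (fun z => ∏ i ∈ J, (q i z ^ 2)⁻¹) (ball 0 1) := by
    refine DifferentiableOn.fun_finsetProd ?_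
    intro i hi
    refine DifferentiableOn.inv ((hq i).pow 2) ?_
    intro z hz
    exact pow_ne_zero 2 (h.hJ i hi z hz)
  have e4 : DifferentiableOn ℂ (fun z =>
      (y0 q 0 z * (y1 m q 1 z * y2 m q 2 z - y2 m q 1 z * y1 m q 2 z)
    - y0 q 1 z * (y1 m q 0 z * y2 m q 2 z - y2 m q 0 z * y1 m q 2 z)
    + y0 q 2 z * (y1 m q 0 z * y2 m q 1 z - y2 m q 0 z * y1 m q 1 z))) (ball 0 1) :=
    (((e0 0).mul (((e1 1).mul (e2 2)).sub ((e2 1).mul (e1 2)))).sub
      ((e0 1).mul (((e1 0).mul (e2 2)).sub ((e2 0).mul (e1 2))))).add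
      ((e0 2).mul (((e1 0).mul (e2 1)).sub ((e2 0).mul (e1 1))))
  exact e4.mul e3

end GStep1

open GStep1 in
theorem Step1_proof (h1 : S_Engine) (h2 : S3_Fac) (h3 : S3_Point) : S3_Step1 := by
  intro m J L hm hJ hL
  have hcard : J.card ≤ 3 := by simpa using Finset.card_le_univ J
  have hm0 : (0 : ℝ) < m := by
    have : (3 : ℝ) ≤ m := by exact_mod_cast hm
    linarith
  have heta : 0 < 1 - 2 * (3 - (J.card : ℝ)) / m := by
    have hc : (2 * (3 - (J.card : ℝ))) < m := by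
      have : ((2 * (3 - J.card) : ℕ) : ℝ) < m := by exact_mod_cast hJ
      rw [Nat.cast_mul, Nat.cast_sub hcard] at this
      simpa using this
    have : 2 * (3 - (J.card : ℝ)) / m < 1 := by
      rw [div_lt_one hm0]
      exact hc
    linarith
  obtain ⟨kap, C, hk, hC, hmain⟩ := h1 3 L _ 5 hL heta (by norm_num)
  refine ⟨kap, C, hk, hC, ?_⟩
  intro q M hD hB hM hz c hc
  have hcb : c ∈ ball (0 : ℂ) 1 := by
    rw [mem_ball_zero_iff]
    linarith
  have hmem : ball (0 : ℂ) 1 ∈ nhds c := isOpen_ball.mem_nhds hcb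
  have key := hmain (xx m q) (om3 m J q) M (fun i => (hD.hq i).pow m) (om3_diff m J q hD)
    (fun i => hB.h1 i) (h3 m J q hm hJ hD) hM hz c hc
  have hfac := h2 m J q c (by omega) (fun i => (hD.hq i).analyticAt hmem)
    (Filter.eventually_of_mem hmem (fun x hx => hD.heq x hx)) (fun i hi => hD.hJ i hi c hcb)
  rw [hfac, norm_mul]
  calc _ ≤ Real.exp (3 * sg (xx m q) c) * (C * Real.exp (- kap * M)) :=
        mul_le_mul (prod_bound m J q c) key (norm_nonneg _) (Real.exp_pos _).le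
    _ = C * Real.exp (- kap * M + 3 * sg (xx m q) c) := by
        rw [Real.exp_add]
        ring

end

end Pool.Agent.Work.MP_6d7a54_an.UP
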