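import Pool.Agent.Work.MP_6d7a54_an.UP.Defs

/-!
# Item Grow: the growth lemma
-/

set_option autoImplicit false

namespace Pool.Agent.Work.MP_6d7a54_an.UP

open Set

namespace Grow

/-- The sequence of radii. -/
noncomputable def seq (f : ℝ → ℝ) : ℕ → ℝ
  | 0 => 3 / 4
  | k + 1 => seq f k + 1 / (8 * Real.sqrt (f (seq f k)))

lemma sqrt_low {x : ℝ} {k : ℕ} (h : 64 * 2 ^ k ≤ x) : 8 * (4 / 3) ^ k ≤ Real.sqrt x := by
  apply Real.le_sqrt_of_sq_le
  refine le_trans ?_ h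
  have h1 : ((8 : ℝ) * (4 / 3) ^ k) ^ 2 = 64 * (16 / 9) ^ k := by
    rw [mul_pow, ← pow_mul, mul_comm k 2, pow_mul]
    norm_num
  rw [h1]
  have h2 : ((16 : ℝ) / 9) ^ k ≤ 2 ^ k := pow_le_pow_left₀ (by norm_num) (by norm_num) k
  linarith

lemma delta_le {x : ℝ} {k : ℕ} (h : 64 * 2 ^ k ≤ x) :
    1 / (8 * Real.sqrt x) ≤ 1 / 64 * (3 / 4) ^ k := by
  have h1 := sqrt_low h
  have h2 : (0 : ℝ) < 8 * (4 / 3) ^ k := by positivity
  have h3 : 1 / (8 * Real.sqrt x) ≤ 1 / (8 * (8 * (4 / 3) ^ k)) :=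
    one_div_le_one_div_of_le (by positivity) (by linarith)
  refine h3.trans (le_of_eq ?_)
  have h4 : ((4 : ℝ) / 3) ^ k * (3 / 4) ^ k = 1 := by
    rw [← mul_pow]
    norm_num
  have h5 : ((4 : ℝ) / 3) ^ k ≠ 0 := by positivity
  field_simp
  nlinarith

end Grow

open Grow in
theorem Grow_proof : S_Grow := by
  intro f hf h0
  by_contra hcon
  push Not at hcon
  have hlow : ∀ R : ℝ, 3 / 4 ≤ R → R ≤ 13 / 16 → 64 ≤ f R := by
    intro R h1 h2
    refine h0.trans (hf ⟨le_rfl, by norm_num⟩ ⟨h1, by linarith⟩ h1)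
  have hstep : ∀ R : ℝ, 3 / 4 ≤ R → R ≤ 13 / 16 →
      2 * f R < f (R + 1 / (8 * Real.sqrt (f R))) := by
    intro R h1 h2
    refine hcon R h1 h2 ?_
    have h3 := delta_le (k := 0) (x := f R) (by
      rw [pow_zero, mul_one]
      exact hlow R h1 h2)
    rw [pow_zero, mul_one] at h3
    linarith
  have key : ∀ k : ℕ, 3 / 4 ≤ seq f k ∧ seq f k ≤ 3 / 4 + 1 / 16 * (1 - (3 / 4) ^ k) ∧
      64 * 2 ^ k ≤ f (seq f k) := by
    intro k
    induction k with
    | zero =>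
      refine ⟨le_rfl, ?_, ?_⟩
      · change (3 : ℝ) / 4 ≤ _
        norm_num
      · rw [pow_zero, mul_one]
        exact h0
    | succ k ih =>
      obtain ⟨h1, h2, h3⟩ := ih
      have hp : (0 : ℝ) < (3 / 4) ^ k := by positivity
      have h4 : seq f k ≤ 13 / 16 := by linarith
      have h5 := delta_le h3
      have h6 : (0 : ℝ) ≤ 1 / (8 * Real.sqrt (f (seq f k))) := by positivity
      have h7 := hstep _ h1 h4
      have e1 : seq f (k + 1) = seq f k + 1 / (8 * Real.sqrt (f (seq f k))) := rfl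
      refine ⟨?_, ?_, ?_⟩
      · rw [e1]
        linarith
      · rw [e1, pow_succ]
        linarith
      · rw [e1, pow_succ]
        linarith
  obtain ⟨k, hk⟩ := pow_unbounded_of_one_lt (f (7 / 8)) (show (1 : ℝ) < 2 by norm_num)
  obtain ⟨h1, h2, h3⟩ := key k
  have hp : (0 : ℝ) < (3 / 4) ^ k := by positivity
  have h4 : seq f k ≤ 7 / 8 := by linarith
  have h5 : f (seq f k) ≤ f (7 / 8) := hf ⟨h1, h4⟩ ⟨by norm_num, le_rfl⟩ h4
  have h6 : (0 : ℝ) < 2 ^ k := by positivity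
  linarith

end Pool.Agent.Work.MP_6d7a54_an.UP
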