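import Pool.Agent.Work.MP_6d7a54_an.UP.Fac

/-!
# Minimum modulus of three functions on a common circle
-/

set_option autoImplicit false

namespace Pool.Agent.Work.MP_6d7a54_an.UP

open Complex Metric Real Set MeasureTheory

namespace MM

theorem mul_log_le {x : ℝ} (h : |x| ≤ 2) : |x * Real.log x| ≤ 2 := by
  rcases eq_or_ne x 0 with h0 | h0
  · rw [h0]; simp
  have hx : 0 < |x| := abs_pos.2 h0
  rw [abs_mul, ← Real.log_abs x]
  rcases le_or_gt |x| 1 with h1 | h1
  · have h2 := Real.abs_log_mul_self_lt |x| hx h1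
    rw [abs_mul, abs_abs, mul_comm] at h2
    linarith
  · have h2 := Real.log_le_sub_one_of_pos hx
    have h3 := Real.log_nonneg h1.le
    rw [abs_of_nonneg h3]
    nlinarith

theorem choose_t {ι : Type} [Fintype ι] (s : ι → ℝ) {rho : ℝ} (h0 : 0 < rho) (h1 : rho ≤ 1)
    (hs : ∀ i, 0 ≤ s i ∧ s i ≤ 5 / 4 * rho) :
    ∃ t : ℝ, rho / 2 ≤ t ∧ t ≤ 5 * rho / 8 ∧ (∀ i, t ≠ s i) ∧
      -(40 / rho) * Fintype.card ι ≤ ∑ i, Real.log (t - s i) := by
  set a : ℝ := rho / 2 with ha
  set b : ℝ := 5 * rho / 8 with hb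
  have hab : a < b := by rw [ha, hb]; linarith
  have hi : ∀ i, IntervalIntegrable (fun t => Real.log (t - s i)) volume a b := by
    intro i
    have := (intervalIntegral.intervalIntegrable_log' (a := a - s i) (b := b - s i)).comp_sub_right
      (s i)
    simpa using this
  have hI : ∀ i, -5 ≤ ∫ t in a..b, Real.log (t - s i) := by
    intro i
    rw [intervalIntegral.integral_comp_sub_right (fun t => Real.log t) (s i), integral_log]
    have e1 : |b - s i| ≤ 2 := by
      rw [abs_le, hb]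
      constructor <;> linarith [(hs i).1, (hs i).2]
    have e2 : |a - s i| ≤ 2 := by
      rw [abs_le, ha]
      constructor <;> linarith [(hs i).1, (hs i).2]
    have e3 := (abs_le.1 (mul_log_le e1)).1
    have e4 := (abs_le.1 (mul_log_le e2)).2
    have e5 : b - a ≤ 1 := by rw [ha, hb]; linarith
    linarith
  have hint : Integrable (fun t => ∑ i, Real.log (t - s i)) (volume.restrict (Ioc a b)) := by
    refine integrable_finsetSum _ fun i _ => ?_
    have := (hi i).1
    exact this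
  have hne : volume.restrict (Ioc a b) ≠ 0 := by
    rw [Ne, Measure.restrict_eq_zero, Real.volume_Ioc]
    simp [hab]
  have hnull : (volume.restrict (Ioc a b)) ((Ioc a b)ᶜ ∪ Set.range s) = 0 := by
    refine le_antisymm ((measure_union_le _ _).trans ?_) (by simp)
    have n1 : (volume.restrict (Ioc a b)) ((Ioc a b)ᶜ) = 0 := by
      rw [Measure.restrict_apply measurableSet_Ioc.compl]
      simp
    have n2 : (volume.restrict (Ioc a b)) (Set.range s) = 0 :=
      le_antisymm ((Measure.restrict_le_self _).trans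
        (le_of_eq ((Set.finite_range s).measure_zero volume))) (by simp)
    rw [n1, n2, add_zero]
  obtain ⟨t, ht, hle⟩ := exists_notMem_null_average_le hne hint hnull
  rw [Set.mem_union, not_or, Set.mem_compl_iff, not_not] at ht
  obtain ⟨ht1, ht2⟩ := ht
  refine ⟨t, ht1.1.le, ht1.2, fun i hti => ht2 ⟨i, hti.symm⟩, ?_⟩
  refine le_trans ?_ hle
  rw [average_eq, measureReal_restrict_apply_univ, Real.volume_real_Ioc_of_le hab.le, smul_eq_mul,
    integral_finsetSum _ (fun i _ => (hi i).1)]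
  have e1 : ∑ i : ι, (-5 : ℝ) ≤ ∑ i, ∫ t in Ioc a b, Real.log (t - s i) := by
    refine Finset.sum_le_sum fun i _ => ?_
    have := hI i
    rwa [intervalIntegral.integral_of_le hab.le] at this
  rw [Finset.sum_const, Finset.card_univ, nsmul_eq_mul] at e1
  have e2 : (b - a)⁻¹ = 8 / rho := by
    rw [ha, hb]
    field_simp
    norm_num
  rw [e2]
  have e3 : 0 < 8 / rho := by positivity
  calc -(40 / rho) * (Fintype.card ι : ℝ) = 8 / rho * ((Fintype.card ι : ℝ) * -5) := by ring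
    _ ≤ _ := mul_le_mul_of_nonneg_left e1 e3.le

/-- the exponential bound for the number of zeros -/
theorem count_le {n : ℕ} {X : ℝ} (h : Real.exp (-X) * (3 / 2 : ℝ) ^ n ≤ Real.exp X) :
    (n : ℝ) ≤ 6 * X := by
  have h1 : Real.exp (1 / 3) ≤ 3 / 2 := by
    have h2 := Real.one_sub_le_exp_neg (1 / 3)
    rw [Real.exp_neg] at h2
    have h3 := Real.exp_pos (1 / 3 : ℝ)
    have h4 : (2 / 3 : ℝ) * Real.exp (1 / 3) ≤ 1 := by
      have h5 := mul_le_mul_of_nonneg_right h2 h3.le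
      rw [inv_mul_cancel₀ h3.ne'] at h5
      linarith
    linarith
  have h2 : Real.exp ((n : ℝ) / 3) ≤ (3 / 2 : ℝ) ^ n := by
    have h3 : Real.exp ((n : ℝ) / 3) = Real.exp (1 / 3) ^ n := by
      rw [← Real.exp_nat_mul]
      congr 1
      ring
    rw [h3]
    exact pow_le_pow_left₀ (Real.exp_pos _).le h1 n
  have h3 : Real.exp (-X) * Real.exp ((n : ℝ) / 3) ≤ Real.exp X :=
    (mul_le_mul_of_nonneg_left h2 (Real.exp_pos _).le).trans h
  rw [← Real.exp_add, Real.exp_le_exp] at h3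
  linarith

/-- one function -/
theorem one {rho X : ℝ} {f : ℂ → ℂ} (h0 : 0 < rho) (hX : 1 ≤ X)
    (hf : AnalyticOnNhd ℂ f (closedBall 0 (2 * rho)))
    (hb : ∀ z ∈ closedBall (0 : ℂ) (2 * rho), ‖f z‖ ≤ Real.exp X) {z₀ : ℂ}
    (hz₀ : ‖z₀‖ ≤ rho / 4) (hfz : Real.exp (-X) ≤ ‖f z₀‖) :
    ∃ (n : ℕ) (s : Fin n → ℝ), (n : ℝ) ≤ 6 * X ∧ (∀ i, 0 ≤ s i ∧ s i ≤ 5 / 4 * rho) ∧
      ∀ z : ℂ, ‖z‖ ≤ 5 * rho / 8 →
        Real.exp (-(89 * X)) * ∏ i, (|‖z‖ - s i| / (3 * rho)) ≤ ‖f z‖ := by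
  have hmem : ∀ w ∈ ball (0 : ℂ) (7 * rho / 4), z₀ + w ∈ closedBall (0 : ℂ) (2 * rho) := by
    intro w hw
    rw [mem_ball_zero_iff] at hw
    rw [mem_closedBall_zero_iff]
    have := norm_add_le z₀ w
    linarith
  have hFd : DifferentiableOn ℂ (fun w => f (z₀ + w)) (ball 0 (7 * rho / 4)) := by
    intro w hw
    have h1 := (hf _ (hmem w hw)).differentiableAt
    exact (h1.comp w (by fun_prop : DifferentiableAt ℂ (fun w => z₀ + w) w)).differentiableWithinAt
  have hFM : ∀ w ∈ ball (0 : ℂ) (7 * rho / 4), ‖f (z₀ + w)‖ ≤ Real.exp X :=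
    fun w hw => hb _ (hmem w hw)
  have hF0 : ‖f (z₀ + 0)‖ = ‖f z₀‖ := by rw [add_zero]
  have hpos := Real.exp_pos (-X)
  have hF0' : f (z₀ + 0) ≠ 0 := by
    rw [← norm_pos_iff, hF0]
    linarith
  obtain ⟨n, a, H, ha, hHd, hHne, hHM, hH0, hn, heq⟩ := Fac.exists_fac
    (f := fun w => f (z₀ + w)) (R := 7 * rho / 4) (R' := 3 * rho / 2) (r := rho)
    h0 (by linarith) (by linarith) hFd hFM hF0'
  simp only [hF0] at hH0 hn
  refine ⟨n, fun i => ‖z₀ + a i‖, ?_, ?_, ?_⟩
  · apply count_le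
    have e : 3 * rho / 2 / rho = 3 / 2 := by field_simp
    rw [e] at hn
    exact (mul_le_mul_of_nonneg_right hfz (by positivity)).trans hn
  · intro i
    refine ⟨norm_nonneg _, ?_⟩
    have := norm_add_le z₀ (a i)
    have := ha i
    linarith
  · intro z hz
    obtain ⟨L, hLd, hLe, -, hL0⟩ := Fac.exists_log (H := H) (r := rho) h0
      (hHd.mono (ball_subset_ball (by linarith)))
      (fun w hw => hHne w (mem_ball_zero_iff.1 hw).le)
    set w : ℂ := z - z₀ with hw
    have hzw : z₀ + w = z := by rw [hw]; ring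
    have hwn : ‖w‖ ≤ 7 * rho / 8 := by
      have := norm_sub_le z z₀
      rw [← hw] at this
      linarith
    have hwb : w ∈ ball (0 : ℂ) rho := by rw [mem_ball_zero_iff]; linarith
    have h0b : (0 : ℂ) ∈ ball (0 : ℂ) rho := mem_ball_self h0
    have hre : ∀ x ∈ ball (0 : ℂ) rho, Real.exp (L x).re = ‖H x‖ := by
      intro x hx
      rw [← hLe x hx, Complex.norm_exp]
    have hreX : ∀ x ∈ ball (0 : ℂ) rho, (L x).re ≤ X := by
      intro x hx
      rw [← Real.exp_le_exp, hre x hx]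
      exact hHM x ((mem_ball_zero_iff.1 hx).le.trans (by linarith))
    have hL0n : ‖L 0‖ ≤ 5 * X := by
      have h1 : -X ≤ (L 0).re := by
        rw [← Real.exp_le_exp, hre 0 h0b]
        exact hfz.trans hH0
      have h2 : |(L 0).re| ≤ X := abs_le.2 ⟨h1, hreX 0 h0b⟩
      have h3 := Complex.norm_le_abs_re_add_abs_im (L 0)
      have h4 : π < 4 := Real.pi_lt_four
      linarith
    have hbc := Complex.borelCaratheodory (M := X) (R := rho) (by linarith) hLd
      (fun x hx => hreX x hx) h0 hwb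
    have hd0 : 0 < rho - ‖w‖ := by linarith
    have b1 : 2 * X * ‖w‖ / (rho - ‖w‖) ≤ 14 * X := by
      rw [div_le_iff₀ hd0]
      have : 0 ≤ X * (7 * rho / 8 - ‖w‖) := mul_nonneg (by linarith) (by linarith)
      nlinarith
    have b2 : ‖L 0‖ * (rho + ‖w‖) / (rho - ‖w‖) ≤ 75 * X := by
      rw [div_le_iff₀ hd0]
      have t1 : ‖L 0‖ * (rho + ‖w‖) ≤ 5 * X * (rho + ‖w‖) :=
        mul_le_mul_of_nonneg_right hL0n (by positivity)
      have : 0 ≤ X * (7 * rho / 8 - ‖w‖) := mul_nonneg (by linarith) (by linarith)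
      nlinarith
    have hHw : Real.exp (-(89 * X)) ≤ ‖H w‖ := by
      rw [← hre w hwb, Real.exp_le_exp]
      have h1 := Complex.abs_re_le_norm (L w)
      have h2 := (abs_le.1 h1).1
      linarith
    have hR7 : w ∈ ball (0 : ℂ) (7 * rho / 4) := by rw [mem_ball_zero_iff]; linarith
    have h1 := congrArg norm (heq w hR7)
    simp only [hzw] at h1
    rw [norm_mul, norm_mul, norm_prod, norm_prod] at h1
    have h2 : ∏ i, ‖(((3 * rho / 2 : ℝ) : ℂ)) ^ 2 - (starRingEnd ℂ) (a i) * w‖ ≤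
        ∏ _i : Fin n, (9 / 2 * rho ^ 2) := by
      refine Finset.prod_le_prod (fun i _ => norm_nonneg _) fun i _ => ?_
      refine (norm_sub_le _ _).trans ?_
      rw [norm_pow, Complex.norm_real, Real.norm_of_nonneg (by positivity), norm_mul,
        RCLike.norm_conj]
      have := mul_le_mul (ha i) hwn (norm_nonneg _) h0.le
      nlinarith
    have h3 : (∏ i, (|‖z‖ - ‖z₀ + a i‖| / (3 * rho))) * ∏ _i : Fin n, (9 / 2 * rho ^ 2) ≤
        ∏ i, ‖((3 * rho / 2 : ℝ) : ℂ) * (w - a i)‖ := by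
      rw [← Finset.prod_mul_distrib]
      refine Finset.prod_le_prod (fun i _ => by positivity) fun i _ => ?_
      rw [norm_mul, Complex.norm_real, Real.norm_of_nonneg (by positivity)]
      have e1 : w - a i = z - (z₀ + a i) := by rw [hw]; ring
      have e2 := abs_norm_sub_norm_le z (z₀ + a i)
      rw [← e1] at e2
      have e3 : |‖z‖ - ‖z₀ + a i‖| / (3 * rho) * (9 / 2 * rho ^ 2) =
          3 * rho / 2 * |‖z‖ - ‖z₀ + a i‖| := by
        field_simp
        ring
      rw [e3]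
      exact mul_le_mul_of_nonneg_left e2 (by positivity)
    have h4 : 0 < ∏ _i : Fin n, (9 / 2 * rho ^ 2) :=
      Finset.prod_pos fun _ _ => by positivity
    have h5 : 0 ≤ ∏ i, (|‖z‖ - ‖z₀ + a i‖| / (3 * rho)) :=
      Finset.prod_nonneg fun _ _ => by positivity
    refine le_of_mul_le_mul_right ?_ h4
    calc Real.exp (-(89 * X)) * (∏ i, (|‖z‖ - ‖z₀ + a i‖| / (3 * rho))) *
          ∏ _i : Fin n, (9 / 2 * rho ^ 2)
        ≤ ‖H w‖ * ∏ i, ‖((3 * rho / 2 : ℝ) : ℂ) * (w - a i)‖ := by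
          rw [mul_assoc]
          exact mul_le_mul hHw h3 (mul_nonneg h5 h4.le) (norm_nonneg _)
      _ = ‖f z‖ * ∏ i, ‖(((3 * rho / 2 : ℝ) : ℂ)) ^ 2 - (starRingEnd ℂ) (a i) * w‖ := h1.symm
      _ ≤ ‖f z‖ * ∏ _i : Fin n, (9 / 2 * rho ^ 2) :=
          mul_le_mul_of_nonneg_left h2 (norm_nonneg _)

end MM

open MM in
theorem MM_proof : S_MM := by
  intro rho h0 h1
  refine ⟨125 + 720 / rho, ?_, ?_⟩
  · have : 0 < 720 / rho := by positivity
    linarith
  intro f X hX hf hb hz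
  have key := fun i => (hz i).elim fun z₀ hz₀ => one h0 hX (hf i) (hb i) hz₀.1 hz₀.2
  choose n s hn hs hlow using key
  obtain ⟨t, ht1, ht2, htne, hsum⟩ := choose_t (ι := Σ i : Fin 3, Fin (n i))
    (fun p => s p.1 p.2) h0 h1 (fun p => hs p.1 p.2)
  refine ⟨t, ht1, ht2, ?_⟩
  intro i z hzt
  rw [mem_sphere_zero_iff_norm] at hzt
  have h2 := hlow i z (by rw [hzt]; exact ht2)
  refine le_trans ?_ h2
  rw [hzt]
  have hfac : ∀ p : (Σ i : Fin 3, Fin (n i)), 0 < |t - s p.1 p.2| / (3 * rho) ∧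
      |t - s p.1 p.2| / (3 * rho) ≤ 1 := by
    intro p
    have e1 : 0 < |t - s p.1 p.2| := abs_pos.2 (sub_ne_zero.2 (htne p))
    refine ⟨by positivity, ?_⟩
    rw [div_le_one (by positivity), abs_le]
    have := hs p.1 p.2
    constructor <;> linarith [this.1, this.2]
  have hcard : (Fintype.card (Σ i : Fin 3, Fin (n i)) : ℝ) ≤ 18 * X := by
    rw [Fintype.card_sigma]
    push_cast
    simp only [Fintype.card_fin]
    rw [Fin.sum_univ_three]
    have a0 := hn 0
    have a1 := hn 1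
    have a2 := hn 2
    linarith
  have hlog3 : Real.log (3 * rho) ≤ 2 := by
    have : Real.log (3 * rho) ≤ 3 * rho - 1 := Real.log_le_sub_one_of_pos (by positivity)
    linarith
  have hP : Real.exp (-((40 / rho + 2) * (18 * X))) ≤
      ∏ p : (Σ i : Fin 3, Fin (n i)), (|t - s p.1 p.2| / (3 * rho)) := by
    have e1 : ∏ p : (Σ i : Fin 3, Fin (n i)), (|t - s p.1 p.2| / (3 * rho)) =
        Real.exp (∑ p : (Σ i : Fin 3, Fin (n i)), (Real.log (t - s p.1 p.2) -
          Real.log (3 * rho))) := by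
      rw [Real.exp_sum]
      refine Finset.prod_congr rfl fun p _ => ?_
      have e2 : 0 < |t - s p.1 p.2| := abs_pos.2 (sub_ne_zero.2 (htne p))
      rw [Real.exp_sub, ← Real.log_abs (t - s p.1 p.2), Real.exp_log e2,
        Real.exp_log (by positivity)]
    rw [e1, Real.exp_le_exp, Finset.sum_sub_distrib, Finset.sum_const, Finset.card_univ,
      nsmul_eq_mul]
    have e3 : (Fintype.card (Σ i : Fin 3, Fin (n i)) : ℝ) * Real.log (3 * rho) ≤
        (Fintype.card (Σ i : Fin 3, Fin (n i)) : ℝ) * 2 :=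
      mul_le_mul_of_nonneg_left hlog3 (by positivity)
    have e4 : (40 / rho + 2) * (Fintype.card (Σ i : Fin 3, Fin (n i)) : ℝ) ≤
        (40 / rho + 2) * (18 * X) := mul_le_mul_of_nonneg_left hcard (by positivity)
    linarith
  have hle : ∏ p : (Σ i : Fin 3, Fin (n i)), (|t - s p.1 p.2| / (3 * rho)) ≤
      ∏ j, (|t - s i j| / (3 * rho)) := by
    rw [Fintype.prod_sigma]
    have e1 : ∀ i' : Fin 3, 0 ≤ ∏ j, (|t - s i' j| / (3 * rho)) ∧
        ∏ j, (|t - s i' j| / (3 * rho)) ≤ 1 := by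
      intro i'
      refine ⟨Finset.prod_nonneg fun j _ => (hfac ⟨i', j⟩).1.le,
        Finset.prod_le_one (fun j _ => (hfac ⟨i', j⟩).1.le) fun j _ => (hfac ⟨i', j⟩).2⟩
    rw [← Finset.mul_prod_erase Finset.univ (fun i' => ∏ j, (|t - s i' j| / (3 * rho)))
      (Finset.mem_univ i)]
    have e2 : ∏ x ∈ Finset.univ.erase i, (∏ j, (|t - s x j| / (3 * rho))) ≤ 1 :=
      Finset.prod_le_one (fun x _ => (e1 x).1) fun x _ => (e1 x).2
    have e3 := mul_le_mul_of_nonneg_left e2 (e1 i).1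
    rwa [mul_one] at e3
  have hfin : -(125 + 720 / rho) * X ≤ -(89 * X) + -((40 / rho + 2) * (18 * X)) := by
    have : 720 / rho = 18 * (40 / rho) := by ring
    rw [this]
    nlinarith
  calc Real.exp (-(125 + 720 / rho) * X) ≤
      Real.exp (-(89 * X) + -((40 / rho + 2) * (18 * X))) := Real.exp_le_exp.2 hfin
    _ = Real.exp (-(89 * X)) * Real.exp (-((40 / rho + 2) * (18 * X))) := Real.exp_add _ _
    _ ≤ Real.exp (-(89 * X)) * ∏ j, (|t - s i j| / (3 * rho)) :=
        mul_le_mul_of_nonneg_left (hP.trans hle) (Real.exp_pos _).le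

end Pool.Agent.Work.MP_6d7a54_an.UP
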