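import Pool.Agent.Work.MP_6d7a54_an.UP.Defs

/-!
# Poisson-Jensen inequality
-/

namespace Pool.Agent.Work.MP_6d7a54_an.UP

open Complex Metric Real Set

noncomputable section

namespace PJ

/-- the canonical factor has modulus at least one inside the disc -/
lemma one_le_canonicalFactor {r : ℝ} (hr : 0 < r) {w c : ℂ} (hw : w ∈ ball (0 : ℂ) r)
    (hc : c ∈ ball (0 : ℂ) r) (hcw : c ≠ w) : 1 ≤ ‖canonicalFactor r w c‖ := by
  rw [mem_ball_zero_iff] at hw hc
  rw [canonicalFactor_apply, norm_div]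
  have h0 : 0 < ‖(r : ℂ) * (c - w)‖ := by
    rw [norm_pos_iff]
    exact mul_ne_zero (by exact_mod_cast hr.ne') (sub_ne_zero.mpr hcw)
  rw [one_le_div h0]
  have hsq : ‖(r : ℂ) * (c - w)‖ ^ 2 ≤ ‖(r : ℂ) ^ 2 - (starRingEnd ℂ) w * c‖ ^ 2 := by
    have e1 : ‖(r : ℂ) * (c - w)‖ ^ 2 = r ^ 2 * ((c.re - w.re) ^ 2 + (c.im - w.im) ^ 2) := by
      rw [← Complex.normSq_eq_norm_sq]
      simp [Complex.normSq_apply]
      ring
    have e2 : ‖(r : ℂ) ^ 2 - (starRingEnd ℂ) w * c‖ ^ 2
        = (r ^ 2 - (w.re * c.re + w.im * c.im)) ^ 2 + (w.re * c.im - w.im * c.re) ^ 2 := by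
      have h2 : ((r : ℂ) ^ 2) = ((r ^ 2 : ℝ) : ℂ) := by push_cast; rfl
      rw [← Complex.normSq_eq_norm_sq, h2]
      simp only [Complex.normSq_apply, Complex.sub_re, Complex.sub_im, Complex.ofReal_re,
        Complex.ofReal_im, Complex.mul_re, Complex.mul_im, Complex.conj_re, Complex.conj_im]
      ring
    have hc2 : c.re ^ 2 + c.im ^ 2 ≤ r ^ 2 := by
      have : ‖c‖ ^ 2 ≤ r ^ 2 := pow_le_pow_left₀ (norm_nonneg _) hc.le 2
      rw [← Complex.normSq_eq_norm_sq, Complex.normSq_apply] at this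
      linarith
    have hw2 : w.re ^ 2 + w.im ^ 2 ≤ r ^ 2 := by
      have : ‖w‖ ^ 2 ≤ r ^ 2 := pow_le_pow_left₀ (norm_nonneg _) hw.le 2
      rw [← Complex.normSq_eq_norm_sq, Complex.normSq_apply] at this
      linarith
    rw [e1, e2]
    have key : 0 ≤ (r ^ 2 - (c.re ^ 2 + c.im ^ 2)) * (r ^ 2 - (w.re ^ 2 + w.im ^ 2)) :=
      mul_nonneg (by linarith) (by linarith)
    have id1 : (r ^ 2 - (w.re * c.re + w.im * c.im)) ^ 2 + (w.re * c.im - w.im * c.re) ^ 2
        - r ^ 2 * ((c.re - w.re) ^ 2 + (c.im - w.im) ^ 2)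
        = (r ^ 2 - (c.re ^ 2 + c.im ^ 2)) * (r ^ 2 - (w.re ^ 2 + w.im ^ 2)) := by ring
    linarith
  exact (sq_le_sq₀ (norm_nonneg _) (norm_nonneg _)).mp hsq

/-- order zero at points where `f` does not vanish -/
lemma order_zero {f : ℂ → ℂ} {z : ℂ} (hf : AnalyticAt ℂ f z) (hz : f z ≠ 0) :
    meromorphicOrderAt f z = 0 :=
  hf.meromorphicNFAt.meromorphicOrderAt_eq_zero_iff.2 hz

end PJ

open MeromorphicOn in
theorem PJ_proof : S_PJ := by
  intro f r c hr hc hf hsph hfc
  have hcc : c ∈ closedBall (0 : ℂ) r := ball_subset_closedBall hc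
  have hmer : MeromorphicOn f (closedBall 0 r) := hf.meromorphicOn
  have hord : ∀ u : (closedBall (0 : ℂ) r), meromorphicOrderAt f u ≠ ⊤ := by
    rw [← hmer.exists_meromorphicOrderAt_ne_top_iff_forall (Metric.isConnected_closedBall hr.le)]
    refine ⟨⟨c, hcc⟩, ?_⟩
    have : meromorphicOrderAt f c = 0 := PJ.order_zero (hf c hcc) hfc
    simp [this]
  obtain ⟨g, D⟩ := hmer.exists_ecanonicalDecomp hord
  have hdivs : ∀ i, divisor f (sphere (0 : ℂ) r) i = 0 := by
    intro i
    by_cases hi : i ∈ sphere (0 : ℂ) r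
    · rw [divisor_apply (hmer.mono_set sphere_subset_closedBall) hi,
        PJ.order_zero (hf i (sphere_subset_closedBall hi)) (hsph i hi)]
      rfl
    · exact Function.locallyFinsuppWithin.apply_eq_zero_of_notMem _ hi
  -- the value on the circle
  have hcirc : ∀ z ∈ sphere (0 : ℂ) r, Real.log ‖f z‖ = Real.log ‖g z‖ := by
    intro z hz
    have hzc := sphere_subset_closedBall hz
    rw [D.log_norm_eq hzc (PJ.order_zero (hf z hzc) (hsph z hz)) hr,
      (hf z hzc).meromorphicTrailingCoeffAt_of_ne_zero (hsph z hz)]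
    have h1 : (∑ᶠ i, (divisor f (ball (0 : ℂ) r) i : ℝ) * Real.log ‖canonicalFactor r i z‖) = 0 := by
      refine finsum_eq_zero_of_forall_eq_zero fun i => ?_
      by_cases hi : i ∈ ball (0 : ℂ) r
      · rw [norm_canonicalFactor_eval_circle_eq_one hi hz, Real.log_one, mul_zero]
      · rw [Function.locallyFinsuppWithin.apply_eq_zero_of_notMem _ hi]
        simp
    have h2 : (∑ᶠ i, (divisor f (sphere (0 : ℂ) r) i : ℝ) * Real.log ‖z - i‖) = 0 := by
      refine finsum_eq_zero_of_forall_eq_zero fun i => ?_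
      rw [hdivs i]
      simp
    rw [h1, h2]
    ring
  have hc' : Real.log ‖f c‖ ≤ Real.log ‖g c‖ := by
    rw [D.log_norm_eq hcc (PJ.order_zero (hf c hcc) hfc) hr,
      (hf c hcc).meromorphicTrailingCoeffAt_of_ne_zero hfc]
    have h1 : 0 ≤ ∑ᶠ i, (divisor f (ball (0 : ℂ) r) i : ℝ) * Real.log ‖canonicalFactor r i c‖ := by
      refine finsum_nonneg fun i => ?_
      by_cases hi : i ∈ ball (0 : ℂ) r
      · by_cases hic : c = i
        · subst hic
          rw [divisor_apply (hmer.mono_set ball_subset_closedBall) hi,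
            PJ.order_zero (hf c hcc) hfc]
          simp
        · refine mul_nonneg ?_ (Real.log_nonneg (PJ.one_le_canonicalFactor hr hi hc hic))
          have := (hf.mono ball_subset_closedBall).divisor_nonneg i
          exact_mod_cast this
      · rw [Function.locallyFinsuppWithin.apply_eq_zero_of_notMem _ hi]
        simp
    have h2 : (∑ᶠ i, (divisor f (sphere (0 : ℂ) r) i : ℝ) * Real.log ‖c - i‖) = 0 := by
      refine finsum_eq_zero_of_forall_eq_zero fun i => ?_
      rw [hdivs i]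
      simp
    rw [h2]
    linarith
  have hharm : InnerProductSpace.HarmonicOnNhd (fun z => Real.log ‖g z‖) (closedBall 0 r) :=
    fun z hz => (D.analyticOnNhd z hz).harmonicAt_log_norm (D.ne_zero z hz)
  have havg := hharm.circleAverage_poissonKernel_smul hc
  refine hc'.trans (le_of_eq ?_)
  rw [← havg]
  refine circleAverage_congr_sphere fun z hz => ?_
  rw [abs_of_pos hr] at hz
  simp only [Pi.smul_apply', smul_eq_mul]
  rw [hcirc z hz]

end

end Pool.Agent.Work.MP_6d7a54_an.UP
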