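import Mathlib

/-!
# Kobayashi metric of the complement of two lines and a Fermat curve (MP_6d7a54_an)

THEOREM. m >= 3, `X = {z_1 z_2 (z_0^m + z_1^m + z_2^m) = 0}` in the projective plane. The
Kobayashi-Royden metric of the complement is nondegenerate off `3 m + 1` lines.

Proof: notes 2040. Analytic core: `1 + exp u + exp v = q ^ m` on the unit disc gives a bound of
`u'(0)`, `v'(0)` as soon as the base point is off finitely many curves.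
All statements of the items are the Props below (K, C, k are constants).
-/

namespace Pool.Agent.Work.MP_6d7a54_an.UP

open Complex Metric Real Set

noncomputable section

/-- size of `(1, exp u, exp v)`, logarithmically -/
def sz (u v : ℂ → ℂ) (z : ℂ) : ℝ := max 0 (max (u z).re (v z).re)

/-- logarithmic Wronskian of `1, exp u, exp v` -/
def WW (u v : ℂ → ℂ) (z : ℂ) : ℂ :=
  deriv u z * deriv (deriv v) z - deriv (deriv u) z * deriv v z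
    + deriv u z * deriv v z * (deriv v z - deriv u z)

/-- `WW / q ^ (m - 2)`, in a form without denominators -/
def om (m : ℕ) (u v q : ℂ → ℂ) (z : ℂ) : ℂ :=
  (m : ℂ) * (deriv u z * (((m : ℂ) - 1) * (deriv q z) ^ 2 + q z * deriv (deriv q) z)
    - (deriv (deriv u) z + (deriv u z) ^ 2) * (q z * deriv q z)) * Complex.exp (- v z)

/-- the data: `1 + exp u + exp v = q ^ m` on the unit disc -/
structure Dat (m : ℕ) (u v q : ℂ → ℂ) : Prop where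
  hu : DifferentiableOn ℂ u (ball 0 1)
  hv : DifferentiableOn ℂ v (ball 0 1)
  hq : DifferentiableOn ℂ q (ball 0 1)
  heq : ∀ z ∈ ball (0 : ℂ) 1, 1 + Complex.exp (u z) + Complex.exp (v z) = q z ^ m

/-- `x` is neither small nor large -/
def Tame (L : ℝ) (x : ℂ) : Prop := L⁻¹ ≤ ‖x‖ ∧ ‖x‖ ≤ L

/-- the base point is away from the exceptional curves -/
structure Base (L : ℝ) (u v : ℂ → ℂ) : Prop where
  nu : ‖u 0‖ ≤ L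
  nv : ‖v 0‖ ≤ L
  h1 : Tame L (1 + Complex.exp (u 0))
  h2 : Tame L (1 + Complex.exp (v 0))
  h3 : Tame L (Complex.exp (u 0) + Complex.exp (v 0))
  h4 : Tame L (1 + Complex.exp (u 0) + Complex.exp (v 0))

/-! ### General analysis -/

/-- Poisson-Jensen inequality -/
def S_PJ : Prop := ∀ (f : ℂ → ℂ) (r : ℝ) (c : ℂ), 0 < r → c ∈ ball (0 : ℂ) r →
  AnalyticOnNhd ℂ f (closedBall 0 r) → (∀ z ∈ sphere (0 : ℂ) r, f z ≠ 0) → f c ≠ 0 →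
  Real.log ‖f c‖ ≤ circleAverage (fun z => poissonKernel 0 c z * Real.log ‖f z‖) 0 r

/-- upper Harnack inequality for `sz` (c = 0 below: value at `z`, average on the circle) -/
def S_HU : Prop := ∀ (u v : ℂ → ℂ) (r : ℝ) (z : ℂ), 0 < r → z ∈ ball (0 : ℂ) r →
  AnalyticOnNhd ℂ u (closedBall 0 r) → AnalyticOnNhd ℂ v (closedBall 0 r) →
  sz u v z ≤ (r + ‖z‖) / (r - ‖z‖) * circleAverage (sz u v) 0 r

/-- lower Harnack inequality for `sz` against the Poisson kernel -/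
def S_HL : Prop := ∀ (u v : ℂ → ℂ) (r : ℝ) (c : ℂ), 0 < r → c ∈ ball (0 : ℂ) r →
  AnalyticOnNhd ℂ u (closedBall 0 r) → AnalyticOnNhd ℂ v (closedBall 0 r) →
  (r - ‖c‖) / (r + ‖c‖) * circleAverage (sz u v) 0 r
    ≤ circleAverage (fun z => poissonKernel 0 c z * sz u v z) 0 r

/-- Borel-Caratheodory with two derivatives -/
def S_BC : Prop := ∃ K : ℝ, 1 ≤ K ∧ ∀ (u : ℂ → ℂ) (rho d S L : ℝ), 0 < d → d ≤ 1 → d < rho →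
  rho ≤ 1 → 1 ≤ S → 1 ≤ L → DifferentiableOn ℂ u (ball 0 rho) →
  (∀ z ∈ ball (0 : ℂ) rho, (u z).re ≤ S) → ‖u 0‖ ≤ L →
  ∀ z : ℂ, ‖z‖ ≤ rho - d → ‖u z‖ ≤ K * (S + L) / d ^ 3 ∧ ‖deriv u z‖ ≤ K * (S + L) / d ^ 3 ∧
    ‖deriv (deriv u) z‖ ≤ K * (S + L) / d ^ 3

/-- growth lemma -/
def S_Grow : Prop := ∀ f : ℝ → ℝ, MonotoneOn f (Icc (3/4) (7/8)) → 64 ≤ f (3/4) →
  ∃ R : ℝ, 3/4 ≤ R ∧ R ≤ 13/16 ∧ R + 1 / (8 * Real.sqrt (f R)) ≤ 7/8 ∧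
    f (R + 1 / (8 * Real.sqrt (f R))) ≤ 2 * f R

/-- good radii for the logarithmic derivatives -/
def S_GR : Prop := ∃ (K : ℝ) (k : ℕ), 1 ≤ K ∧ ∀ (h : ℂ → ℂ) (X R d : ℝ), 1 ≤ X → 0 < d →
  d ≤ 1/8 → 1/2 ≤ R → R + d ≤ 1 → AnalyticOnNhd ℂ h (closedBall 0 (R + d)) →
  (∀ z ∈ closedBall (0 : ℂ) (R + d), ‖h z‖ ≤ Real.exp X) → Real.exp (-X) ≤ ‖h 0‖ →
  ∃ r₁ r₂ : ℝ, R ≤ r₁ ∧ r₁ < r₂ ∧ r₂ ≤ R + d / 2 ∧ ∀ z : ℂ, r₁ ≤ ‖z‖ → ‖z‖ ≤ r₂ →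
    h z ≠ 0 ∧ ‖deriv h z / h z‖ ≤ K * (X / d) ^ k ∧
      ‖deriv (deriv h) z / h z‖ ≤ K * (X / d) ^ k

/-- Landau type lemma: `1 + exp w = k ^ m` -/
def S_Landau : Prop := ∀ (m : ℕ) (L : ℝ), 2 ≤ m → 1 ≤ L → ∃ C : ℝ, 0 ≤ C ∧
  ∀ (w k : ℂ → ℂ) (rho : ℝ), 0 < rho → DifferentiableOn ℂ w (ball 0 rho) →
    DifferentiableOn ℂ k (ball 0 rho) →
    (∀ z ∈ ball (0 : ℂ) rho, 1 + Complex.exp (w z) = k z ^ m) → ‖w 0‖ ≤ L →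
    L⁻¹ ≤ ‖1 + Complex.exp (w 0)‖ → ‖deriv w 0‖ ≤ C / rho

/-- minimum modulus of three functions on a common circle; `rho` is a fixed scale -/
def S_MM : Prop := ∀ rho : ℝ, 0 < rho → rho ≤ 1 → ∃ K : ℝ, 1 ≤ K ∧ ∀ (f : Fin 3 → ℂ → ℂ) (X : ℝ),
  1 ≤ X → (∀ i, AnalyticOnNhd ℂ (f i) (closedBall 0 (2 * rho))) →
  (∀ i, ∀ z ∈ closedBall (0 : ℂ) (2 * rho), ‖f i z‖ ≤ Real.exp X) →
  (∀ i, ∃ z : ℂ, ‖z‖ ≤ rho / 4 ∧ Real.exp (-X) ≤ ‖f i z‖) →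
  ∃ t : ℝ, rho / 2 ≤ t ∧ t ≤ 5 * rho / 8 ∧ ∀ i, ∀ z ∈ sphere (0 : ℂ) t,
    Real.exp (- K * X) ≤ ‖f i z‖

/-- a function with small logarithmic derivative on a circle is almost constant there -/
def S_Circ : Prop := ∀ (f g : ℂ → ℂ) (t e : ℝ), 0 < t → t ≤ 1 → 0 ≤ e → e ≤ 1/16 →
  (∀ z ∈ sphere (0 : ℂ) t, DifferentiableAt ℂ f z ∧ deriv f z = g z * f z ∧ ‖g z‖ ≤ e) →
  ContinuousOn g (sphere 0 t) →
  ∀ z ∈ sphere (0 : ℂ) t, ‖f z - f t‖ ≤ 16 * e * ‖f t‖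

/-! ### Algebra of the Wronskians -/

/-- pointwise Cartan inequality -/
def S_Cartan : Prop := ∀ (u v h : ℂ → ℂ) (z : ℂ) (Y : ℝ), 1 ≤ Y → AnalyticAt ℂ u z →
  AnalyticAt ℂ v z → (∀ᶠ x in nhds z, h x = 1 + Complex.exp (u x) + Complex.exp (v x)) →
  h z ≠ 0 → ‖deriv u z‖ ≤ Y → ‖deriv v z‖ ≤ Y → ‖deriv (deriv u) z‖ ≤ Y →
  ‖deriv (deriv v) z‖ ≤ Y → ‖deriv h z / h z‖ ≤ Y → ‖deriv (deriv h) z / h z‖ ≤ Y →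
  Real.exp (sz u v z) * ‖WW u v z‖ ≤ 16 * Y ^ 3 * ‖h z‖

/-- factorisation of the Wronskian -/
def S_Om : Prop := ∀ (m : ℕ) (u v q : ℂ → ℂ) (z : ℂ), 2 ≤ m → AnalyticAt ℂ u z →
  AnalyticAt ℂ v z → AnalyticAt ℂ q z →
  (∀ᶠ x in nhds z, 1 + Complex.exp (u x) + Complex.exp (v x) = q x ^ m) →
  WW u v z = q z ^ (m - 2) * om m u v q z

/-- the Wronskian in the coordinates `(-u, v - u)` -/
def S_Sym : Prop := ∀ (u v : ℂ → ℂ) (z : ℂ), AnalyticAt ℂ u z → AnalyticAt ℂ v z →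
  WW v u z = - WW u v z ∧ WW (fun x => - u x) (fun x => v x - u x) z = - WW u v z

/-- symmetry of the data -/
def S_SymDat : Prop := ∀ (m : ℕ) (u v q : ℂ → ℂ), 1 ≤ m → Dat m u v q →
  Dat m v u q ∧
  Dat m (fun x => - u x) (fun x => v x - u x) (fun x => q x * Complex.exp (- u x / (m : ℂ)))

/-- symmetry of the base point condition -/
def S_SymBase : Prop := ∀ L : ℝ, 1 ≤ L → ∃ L' : ℝ, L ≤ L' ∧ ∀ u v : ℂ → ℂ, Base L u v →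
  Base L' v u ∧ Base L' (fun x => - u x) (fun x => v x - u x)

/-! ### The steps of the proof -/

/-- Step 2: the Wronskian quotient is exponentially small on a fixed disc -/
def S_Step2 : Prop := ∀ (m : ℕ) (L : ℝ), 3 ≤ m → 1 ≤ L → ∃ (kap C : ℝ), 0 < kap ∧ 0 ≤ C ∧
  ∀ (u v q : ℂ → ℂ) (M : ℝ), Dat m u v q → Base L u v → C ≤ M →
  (∃ z : ℂ, ‖z‖ ≤ 1/2 ∧ M ≤ sz u v z) → ∀ c : ℂ, ‖c‖ ≤ 1/8 →
  ‖om m u v q c‖ ≤ C * Real.exp (- kap * M)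

/-- Step 2': the Wronskian is exponentially small on a fixed disc (`M` is now the maximum) -/
def S_Step2W : Prop := ∀ (m : ℕ) (L : ℝ), 3 ≤ m → 1 ≤ L → ∃ (e0 kap C : ℝ), 0 < e0 ∧ e0 ≤ 1/8 ∧
  0 < kap ∧ 0 ≤ C ∧
  ∀ (u v q : ℂ → ℂ) (M : ℝ), Dat m u v q → Base L u v → C ≤ M →
  (∃ z : ℂ, ‖z‖ ≤ 1/2 ∧ M ≤ sz u v z) → (∀ z : ℂ, ‖z‖ ≤ 1/2 → sz u v z ≤ M) →
  ∀ c : ℂ, ‖c‖ ≤ 2 * e0 → ‖WW u v c‖ ≤ C * Real.exp (- kap * M)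

/-- Step 3, case II: `u'` is tiny, hence `1 + exp u` is zero free -/
def S_CaseII : Prop := ∀ (m : ℕ) (L e0 : ℝ), 3 ≤ m → 1 ≤ L → 0 < e0 → e0 ≤ 1/8 →
  ∃ (eps C : ℝ), 0 < eps ∧ 0 ≤ C ∧ ∀ (u v q : ℂ → ℂ), Dat m u v q → Base L u v →
  (∀ z : ℂ, ‖z‖ ≤ e0 → ‖deriv u z‖ ≤ eps) → ‖deriv v 0‖ ≤ C

/-- Step 3, end of case I: `a = lam b + mu + tiny` -/
def S_CaseI : Prop := ∀ (m : ℕ) (L e0 : ℝ), 3 ≤ m → 1 ≤ L → 0 < e0 → e0 ≤ 1/8 →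
  ∃ (eps C : ℝ), 0 < eps ∧ 0 ≤ C ∧ ∀ (u v q : ℂ → ℂ) (lam : ℂ), Dat m u v q → Base L u v →
  ‖lam‖ ≤ 1 →
  (∀ z : ℂ, ‖z‖ ≤ e0 →
    ‖deriv u z * Complex.exp (u z) - lam * (deriv v z * Complex.exp (v z))‖ ≤ eps) →
  ‖deriv u 0‖ + ‖deriv v 0‖ ≤ C

/-- Step 3, case I: if `W` is tiny and `u', v', v' - u'` are not tiny then
`a' - lam b'` is tiny -/
def S_Near : Prop := ∀ (L e0 kap C0 : ℝ), 1 ≤ L → 0 < e0 → e0 ≤ 1/8 → 0 < kap → 0 ≤ C0 →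
  ∃ (k1 C : ℝ), 0 < k1 ∧ 0 ≤ C ∧ ∀ (u v : ℂ → ℂ) (M : ℝ), DifferentiableOn ℂ u (ball 0 1) →
  DifferentiableOn ℂ v (ball 0 1) → ‖u 0‖ ≤ L → ‖v 0‖ ≤ L → C ≤ M →
  (∀ z : ℂ, ‖z‖ ≤ 1/2 → sz u v z ≤ M) →
  (∀ z : ℂ, ‖z‖ ≤ 2 * e0 → ‖WW u v z‖ ≤ C0 * Real.exp (- kap * M)) →
  (∃ z : ℂ, ‖z‖ ≤ e0 / 4 ∧ Real.exp (- k1 * M) ≤ ‖deriv u z‖) →
  (∃ z : ℂ, ‖z‖ ≤ e0 / 4 ∧ Real.exp (- k1 * M) ≤ ‖deriv v z‖) →
  (∃ z : ℂ, ‖z‖ ≤ e0 / 4 ∧ Real.exp (- k1 * M) ≤ ‖deriv v z - deriv u z‖) →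
  ∃ lam : ℂ, lam ≠ 0 ∧
    (∀ z : ℂ, ‖z‖ ≤ e0 / 2 →
      ‖deriv u z * Complex.exp (u z) - lam * (deriv v z * Complex.exp (v z))‖
        ≤ C * Real.exp (- kap * M / 8)) ∧
    (∀ z : ℂ, ‖z‖ ≤ e0 / 2 →
      ‖lam⁻¹ * (deriv u z * Complex.exp (u z)) - deriv v z * Complex.exp (v z)‖
        ≤ C * Real.exp (- kap * M / 8))

/-- the analytic theorem -/
def S_Main : Prop := ∀ (m : ℕ) (L : ℝ), 3 ≤ m → 1 ≤ L → ∃ C : ℝ, 0 ≤ C ∧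
  ∀ (u v q : ℂ → ℂ), Dat m u v q → Base L u v → ‖deriv u 0‖ + ‖deriv v 0‖ ≤ C

end

end Pool.Agent.Work.MP_6d7a54_an.UP
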