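import Pool.Agent.Work.MP_6d7a54_an.UP.Defs

/-! MP_6d7a54_an, block UP, item HUL: Harnack inequalities for `sz` -/

set_option autoImplicit false

namespace Pool.Agent.Work.MP_6d7a54_an.UP

open Complex Metric Real Set

noncomputable section

namespace HUL

theorem kernel_le {r : ℝ} {w z : ℂ} (hz : z ∈ sphere (0 : ℂ) r) (hw : w ∈ ball (0 : ℂ) r) :
    poissonKernel 0 w z ≤ (r + ‖w‖) / (r - ‖w‖) := by
  rw [poissonKernel_eq_re_herglotzRieszKernel]
  have h := re_herglotzRieszKernel_le hz hw
  rw [sub_zero w] at h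
  simpa [herglotzRieszKernel_def] using h

theorem le_kernel {r : ℝ} {w z : ℂ} (hz : z ∈ sphere (0 : ℂ) r) (hw : w ∈ ball (0 : ℂ) r) :
    (r - ‖w‖) / (r + ‖w‖) ≤ poissonKernel 0 w z := by
  rw [poissonKernel_eq_re_herglotzRieszKernel]
  have h := le_re_herglotzRieszKernel hz hw
  rw [sub_zero w] at h
  simpa [herglotzRieszKernel_def] using h

theorem kernel_cont {r : ℝ} {w : ℂ} (hw : w ∈ ball (0 : ℂ) r) :
    ContinuousOn (poissonKernel 0 w) (sphere 0 |r|) := by
  rw [poissonKernel_eq_re_herglotzRieszKernel]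
  exact Complex.continuous_re.comp_continuousOn (continuousOn_herglotzRieszKernel_sphere hw)

theorem sz_cont {u v : ℂ → ℂ} {r : ℝ} (hr : 0 < r) (hu : AnalyticOnNhd ℂ u (closedBall 0 r))
    (hv : AnalyticOnNhd ℂ v (closedBall 0 r)) : ContinuousOn (sz u v) (sphere 0 |r|) := by
  rw [abs_of_pos hr]
  have h1 : ContinuousOn u (sphere 0 r) := hu.continuousOn.mono sphere_subset_closedBall
  have h2 : ContinuousOn v (sphere 0 r) := hv.continuousOn.mono sphere_subset_closedBall
  unfold sz
  exact continuousOn_const.sup ((Complex.continuous_re.comp_continuousOn h1).sup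
    (Complex.continuous_re.comp_continuousOn h2))

theorem sz_nonneg (u v : ℂ → ℂ) (z : ℂ) : 0 ≤ sz u v z := le_max_left _ _

theorem kernel_nonneg {r : ℝ} {w z : ℂ} (hz : z ∈ sphere (0 : ℂ) r) (hw : w ∈ ball (0 : ℂ) r) :
    0 ≤ poissonKernel 0 w z := by
  refine le_trans ?_ (le_kernel hz hw)
  have h := mem_ball_zero_iff.1 hw
  have h1 := norm_nonneg w
  exact div_nonneg (by linarith) (by linarith)

/-- one function -/
theorem one {u v : ℂ → ℂ} {r : ℝ} {w : ℂ} (hr : 0 < r) (hw : w ∈ ball (0 : ℂ) r)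
    (hu : AnalyticOnNhd ℂ u (closedBall 0 r)) (hv : AnalyticOnNhd ℂ v (closedBall 0 r))
    {g : ℂ → ℂ} (hg : AnalyticOnNhd ℂ g (closedBall 0 r)) (hle : ∀ z, (g z).re ≤ sz u v z) :
    (g w).re ≤ (r + ‖w‖) / (r - ‖w‖) * circleAverage (sz u v) 0 r := by
  have hgc : ContinuousOn (fun z => (g z).re) (sphere 0 |r|) := by
    rw [abs_of_pos hr]
    exact Complex.continuous_re.comp_continuousOn (hg.continuousOn.mono sphere_subset_closedBall)
  have hh : InnerProductSpace.HarmonicOnNhd (fun z => (g z).re) (closedBall 0 r) :=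
    fun x hx => (hg x hx).harmonicAt_re
  have e := InnerProductSpace.HarmonicOnNhd.circleAverage_poissonKernel_smul hh hw
  have hs := sz_cont hr hu hv
  have hK := kernel_cont hw
  have i1 : CircleIntegrable (poissonKernel 0 w • fun z => (g z).re) 0 r :=
    (hK.smul hgc).circleIntegrable'
  have i2 : CircleIntegrable (((r + ‖w‖) / (r - ‖w‖)) • sz u v) 0 r :=
    (continuousOn_const.smul hs).circleIntegrable'
  calc (g w).re = circleAverage (poissonKernel 0 w • fun z => (g z).re) 0 r := e.symm
    _ ≤ circleAverage (((r + ‖w‖) / (r - ‖w‖)) • sz u v) 0 r := by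
      apply circleAverage_mono i1 i2
      intro z hz
      rw [abs_of_pos hr] at hz
      show poissonKernel 0 w z * (g z).re ≤ (r + ‖w‖) / (r - ‖w‖) * sz u v z
      have k0 := kernel_nonneg hz hw
      calc poissonKernel 0 w z * (g z).re ≤ poissonKernel 0 w z * sz u v z := by
            gcongr
            exact hle z
        _ ≤ _ := by
            apply mul_le_mul_of_nonneg_right (kernel_le hz hw) (sz_nonneg _ _ _)
    _ = _ := by rw [circleAverage_smul, smul_eq_mul]

end HUL

theorem HU_proof : S_HU := by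
  intro u v r z hr hz hu hv
  have hz' := mem_ball_zero_iff.1 hz
  have h0 : 0 ≤ (r + ‖z‖) / (r - ‖z‖) * circleAverage (sz u v) 0 r := by
    apply mul_nonneg
    · exact div_nonneg (by have := norm_nonneg z; linarith) (by linarith)
    · exact circleAverage_nonneg_of_nonneg fun x _ => HUL.sz_nonneg u v x
  have h1 := HUL.one hr hz hu hv hu (fun x => (le_max_left _ _).trans (le_max_right _ _))
  have h2 := HUL.one hr hz hu hv hv (fun x => (le_max_right _ _).trans (le_max_right _ _))
  exact max_le h0 (max_le h1 h2)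

theorem HL_proof : S_HL := by
  intro u v r c hr hc hu hv
  have hs := HUL.sz_cont hr hu hv
  have hK := HUL.kernel_cont hc
  have i1 : CircleIntegrable (((r - ‖c‖) / (r + ‖c‖)) • sz u v) 0 r :=
    (continuousOn_const.smul hs).circleIntegrable'
  have i2 : CircleIntegrable (fun z => poissonKernel 0 c z * sz u v z) 0 r :=
    (hK.mul hs).circleIntegrable'
  calc (r - ‖c‖) / (r + ‖c‖) * circleAverage (sz u v) 0 r
      = circleAverage (((r - ‖c‖) / (r + ‖c‖)) • sz u v) 0 r := by rw [circleAverage_smul, smul_eq_mul]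
    _ ≤ _ := by
      apply circleAverage_mono i1 i2
      intro z hz
      rw [abs_of_pos hr] at hz
      exact mul_le_mul_of_nonneg_right (HUL.le_kernel hz hc) (HUL.sz_nonneg _ _ _)

end

end Pool.Agent.Work.MP_6d7a54_an.UP
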