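import Pool.Agent.Work.MP_6d7a54_an.UP.Defs

/-!
# General version: Fermat curve together with coordinate lines (MP_6d7a54_an)

`x_i = q_i ^ m`, `x_0 + x_1 + x_2 = 1` on a disc, `q_i` zero free for `i ∈ J`,
`2 (3 - |J|) < m`. Then the derivatives of the `x_i` at `0` are bounded in terms of the base
point, if it is off the lines `x_i = 0`, `x_i = 1`.
-/

namespace Pool.Agent.Work.MP_6d7a54_an.UP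

open Complex Metric Real Set

noncomputable section

/-- logarithmic size of a finite family of functions -/
def sg {N : ℕ} (f : Fin N → ℂ → ℂ) (z : ℂ) : ℝ := Real.log (1 + ∑ i, ‖f i z‖)

/-- the powers -/
def xx (m : ℕ) (q : Fin 3 → ℂ → ℂ) (i : Fin 3) (z : ℂ) : ℂ := q i z ^ m

/-- the data on the disc of radius `rho` -/
structure Dat3 (m : ℕ) (J : Finset (Fin 3)) (q : Fin 3 → ℂ → ℂ) (rho : ℝ) : Prop where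
  hq : ∀ i, DifferentiableOn ℂ (q i) (ball 0 rho)
  hJ : ∀ i ∈ J, ∀ z ∈ ball (0 : ℂ) rho, q i z ≠ 0
  heq : ∀ z ∈ ball (0 : ℂ) rho, q 0 z ^ m + q 1 z ^ m + q 2 z ^ m = 1

/-- the base point -/
structure Base3 (m : ℕ) (L : ℝ) (q : Fin 3 → ℂ → ℂ) : Prop where
  h1 : ∀ i, Tame L (q i 0 ^ m)
  h2 : ∀ i, L⁻¹ ≤ ‖1 - q i 0 ^ m‖

/-- the Wronskian `x_0' x_1'' - x_0'' x_1'` -/
def W3 (m : ℕ) (q : Fin 3 → ℂ → ℂ) (z : ℂ) : ℂ :=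
  deriv (xx m q 0) z * deriv (deriv (xx m q 1)) z
    - deriv (deriv (xx m q 0)) z * deriv (xx m q 1) z

/-- `(x_i, x_i', x_i'') / q_i ^ (m - 2)` -/
def y0 (q : Fin 3 → ℂ → ℂ) (i : Fin 3) (z : ℂ) : ℂ := q i z ^ 2

/-- see `y0` -/
def y1 (m : ℕ) (q : Fin 3 → ℂ → ℂ) (i : Fin 3) (z : ℂ) : ℂ := (m : ℂ) * (q i z * deriv (q i) z)

/-- see `y0` -/
def y2 (m : ℕ) (q : Fin 3 → ℂ → ℂ) (i : Fin 3) (z : ℂ) : ℂ :=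
  (m : ℂ) * (((m : ℂ) - 1) * deriv (q i) z ^ 2 + q i z * deriv (deriv (q i)) z)

/-- the Wronskian divided by its forced zeros -/
def om3 (m : ℕ) (J : Finset (Fin 3)) (q : Fin 3 → ℂ → ℂ) (z : ℂ) : ℂ :=
  (y0 q 0 z * (y1 m q 1 z * y2 m q 2 z - y2 m q 1 z * y1 m q 2 z)
    - y0 q 1 z * (y1 m q 0 z * y2 m q 2 z - y2 m q 0 z * y1 m q 2 z)
    + y0 q 2 z * (y1 m q 0 z * y2 m q 1 z - y2 m q 0 z * y1 m q 1 z))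
  * ∏ i ∈ J, (q i z ^ 2)⁻¹

/-- good radii for a family -/
def S_GRF : Prop := ∀ N : ℕ, ∃ (K : ℝ) (k : ℕ), 1 ≤ K ∧ ∀ (f : Fin N → ℂ → ℂ) (X R d : ℝ),
  1 ≤ X → 0 < d → d ≤ 1/8 → 1/2 ≤ R → R + d ≤ 1 →
  (∀ i, AnalyticOnNhd ℂ (f i) (closedBall 0 (R + d))) →
  (∀ i, ∀ z ∈ closedBall (0 : ℂ) (R + d), ‖f i z‖ ≤ Real.exp X) →
  (∀ i, Real.exp (-X) ≤ ‖f i 0‖) →
  ∃ r₁ r₂ : ℝ, R ≤ r₁ ∧ r₁ < r₂ ∧ r₂ ≤ R + d / 2 ∧ ∀ z : ℂ, r₁ ≤ ‖z‖ → ‖z‖ ≤ r₂ → ∀ i,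
    f i z ≠ 0 ∧ ‖deriv (f i) z / f i z‖ ≤ K * (X / d) ^ k ∧
      ‖deriv (deriv (f i)) z / f i z‖ ≤ K * (X / d) ^ k

/-- the engine: a pointwise Cartan inequality implies that `o` is exponentially small -/
def S_Engine : Prop := ∀ (N : ℕ) (L eta K : ℝ), 1 ≤ L → 0 < eta → 1 ≤ K →
  ∃ (kap C : ℝ), 0 < kap ∧ 0 ≤ C ∧
  ∀ (f : Fin N → ℂ → ℂ) (o : ℂ → ℂ) (M : ℝ), (∀ i, DifferentiableOn ℂ (f i) (ball 0 1)) →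
  DifferentiableOn ℂ o (ball 0 1) → (∀ i, Tame L (f i 0)) →
  (∀ z ∈ ball (0 : ℂ) 1, ∀ Y : ℝ, 1 ≤ Y →
    (∀ i, f i z ≠ 0 ∧ ‖deriv (f i) z / f i z‖ ≤ Y ∧ ‖deriv (deriv (f i)) z / f i z‖ ≤ Y) →
    o z ≠ 0 → eta * sg f z ≤ K + K * Real.log Y - Real.log ‖o z‖) →
  C ≤ M → (∃ z : ℂ, ‖z‖ ≤ 1/2 ∧ M ≤ sg f z) → ∀ c : ℂ, ‖c‖ ≤ 1/8 →
  ‖o c‖ ≤ C * Real.exp (- kap * M)

/-- factorisation of the Wronskian -/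
def S3_Fac : Prop := ∀ (m : ℕ) (J : Finset (Fin 3)) (q : Fin 3 → ℂ → ℂ) (z : ℂ), 2 ≤ m →
  (∀ i, AnalyticAt ℂ (q i) z) →
  (∀ᶠ x in nhds z, q 0 x ^ m + q 1 x ^ m + q 2 x ^ m = 1) → (∀ i ∈ J, q i z ≠ 0) →
  W3 m q z = (∏ i ∈ Jᶜ, q i z ^ (m - 2)) * (∏ i ∈ J, q i z ^ m) * om3 m J q z

/-- symmetry: the Wronskian of any two of the three functions is `± W3` -/
def S3_Sym : Prop := ∀ (m : ℕ) (q : Fin 3 → ℂ → ℂ) (z : ℂ),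
  (∀ i, AnalyticAt ℂ (q i) z) → (∀ᶠ x in nhds z, q 0 x ^ m + q 1 x ^ m + q 2 x ^ m = 1) →
  deriv (xx m q 0) z + deriv (xx m q 1) z + deriv (xx m q 2) z = 0 ∧
  ∀ i j : Fin 3, i ≠ j → ‖deriv (xx m q i) z * deriv (deriv (xx m q j)) z
    - deriv (deriv (xx m q i)) z * deriv (xx m q j) z‖ = ‖W3 m q z‖

/-- pointwise Cartan inequality (hypothesis of the engine) -/
def S3_Point : Prop := ∀ (m : ℕ) (J : Finset (Fin 3)) (q : Fin 3 → ℂ → ℂ), 3 ≤ m →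
  2 * (3 - J.card) < m → Dat3 m J q 1 → ∀ z ∈ ball (0 : ℂ) 1, ∀ Y : ℝ, 1 ≤ Y →
    (∀ i, xx m q i z ≠ 0 ∧ ‖deriv (xx m q i) z / xx m q i z‖ ≤ Y ∧
      ‖deriv (deriv (xx m q i)) z / xx m q i z‖ ≤ Y) →
    om3 m J q z ≠ 0 →
    (1 - 2 * (3 - (J.card : ℝ)) / m) * sg (xx m q) z
      ≤ 5 + 5 * Real.log Y - Real.log ‖om3 m J q z‖

/-- Step 1: the Wronskian is exponentially small on a fixed disc -/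
def S3_Step1 : Prop := ∀ (m : ℕ) (J : Finset (Fin 3)) (L : ℝ), 3 ≤ m → 2 * (3 - J.card) < m →
  1 ≤ L → ∃ (kap C : ℝ), 0 < kap ∧ 0 ≤ C ∧ ∀ (q : Fin 3 → ℂ → ℂ) (M : ℝ), Dat3 m J q 1 →
  Base3 m L q → C ≤ M → (∃ z : ℂ, ‖z‖ ≤ 1/2 ∧ M ≤ sg (xx m q) z) → ∀ c : ℂ, ‖c‖ ≤ 1/8 →
  ‖W3 m q c‖ ≤ C * Real.exp (- kap * M + 3 * sg (xx m q) c)

/-- Landau type lemma for the affine Fermat curve -/
def S3_L1 : Prop := ∀ (m : ℕ) (L : ℝ), 3 ≤ m → 1 ≤ L → ∃ C : ℝ, 0 ≤ C ∧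
  ∀ (k1 k2 : ℂ → ℂ) (rho : ℝ), 0 < rho → DifferentiableOn ℂ k1 (ball 0 rho) →
  DifferentiableOn ℂ k2 (ball 0 rho) → (∀ z ∈ ball (0 : ℂ) rho, k1 z ^ m + k2 z ^ m = 1) →
  Tame L (k1 0 ^ m) → Tame L (k2 0 ^ m) → ∀ z : ℂ, ‖z‖ ≤ rho / 8 → ‖k1 z ^ m‖ ≤ C

/-- end of the local argument: the curve is close to a line -/
def S3_End : Prop := ∀ (m : ℕ) (L : ℝ), 3 ≤ m → 1 ≤ L → ∃ (eps C : ℝ), 0 < eps ∧ 0 ≤ C ∧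
  ∀ (q : Fin 3 → ℂ → ℂ) (i k : Fin 3) (lam : ℂ), Dat3 m ∅ q 2 → Base3 m L q → i ≠ k →
  ‖lam‖ ≤ 1 →
  (∀ z : ℂ, ‖z‖ ≤ 1/8 → ‖deriv (xx m q i) z - lam * deriv (xx m q k) z‖ ≤ eps) →
  ∀ z : ℂ, ‖z‖ ≤ 1/64 → sg (xx m q) z ≤ C

/-- local statement (unit scale) -/
def S3_Local : Prop := ∀ (m : ℕ) (L kap C0 : ℝ), 3 ≤ m → 1 ≤ L → 0 < kap → 0 ≤ C0 →
  ∃ (del C : ℝ), 0 < del ∧ 0 ≤ C ∧ ∀ (q : Fin 3 → ℂ → ℂ) (M : ℝ), Dat3 m ∅ q 2 →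
  Base3 m L q → C ≤ M → (∀ z : ℂ, ‖z‖ ≤ 1 → sg (xx m q) z ≤ del * M) →
  (∀ z : ℂ, ‖z‖ ≤ 1 → ‖W3 m q z‖ ≤ C0 * Real.exp (- kap * M)) →
  ∀ z : ℂ, ‖z‖ ≤ 1/64 → sg (xx m q) z ≤ C

/-- the analytic theorem -/
def S3_Main : Prop := ∀ (m : ℕ) (J : Finset (Fin 3)) (L : ℝ), 3 ≤ m → 2 * (3 - J.card) < m →
  1 ≤ L → ∃ C : ℝ, 0 ≤ C ∧ ∀ q : Fin 3 → ℂ → ℂ, Dat3 m J q 1 → Base3 m L q →
  ∀ i, ‖deriv (xx m q i) 0‖ ≤ C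

/-! ### Geometry -/

/-- the cone over the complement of the Fermat curve of degree `m` and of the coordinate lines
`z_i = 0`, `i ∈ J` -/
def Cone (m : ℕ) (J : Finset (Fin 3)) : Set (Fin 3 → ℂ) :=
  {w | (∀ i ∈ J, w i ≠ 0) ∧ w 0 ^ m + w 1 ^ m + w 2 ^ m ≠ 0}

/-- the exceptional lines: coordinate lines and `z_i ^ m + z_j ^ m = 0` -/
def Exc (m : ℕ) : Set (Fin 3 → ℂ) :=
  {w | w 0 * w 1 * w 2 * ((w 0 ^ m + w 1 ^ m) * (w 0 ^ m + w 2 ^ m) * (w 1 ^ m + w 2 ^ m)) = 0}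

/-- bound for discs in the complement; `f` is a homogeneous lift of the disc -/
def S3_Geo : Prop := ∀ (m : ℕ) (J : Finset (Fin 3)), 3 ≤ m → 2 * (3 - J.card) < m →
  ∀ w : Fin 3 → ℂ, w ∈ Cone m J → w ∉ Exc m → ∃ C : ℝ, 0 ≤ C ∧
  ∀ f : ℂ → Fin 3 → ℂ, DifferentiableOn ℂ f (ball 0 1) → (∀ z ∈ ball (0 : ℂ) 1, f z ∈ Cone m J) →
  f 0 = w → ∀ i j : Fin 3, ‖deriv f 0 i * w j - deriv f 0 j * w i‖ ≤ C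

end

end Pool.Agent.Work.MP_6d7a54_an.UP
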