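import Mathlib

/-!
# Definitions for the Kobayashi-Royden metric of complements of plane curves (MP_6d7a54_an)
-/

namespace Pool.Agent.Work.MP_6d7a54_an.UP

open Metric MvPolynomial

noncomputable section

/-- The components of the curve `X`: the Fermat curve `z_0^m + z_1^m + z_2^m = 0` (index `none`)
and the coordinate lines `z_i = 0` for `i ∈ J`. -/
def comp (m : ℕ) (J : Finset (Fin 3)) : Option J → MvPolynomial (Fin 3) ℂ
  | none => X 0 ^ m + X 1 ^ m + X 2 ^ m
  | some i => X (i : Fin 3)

/-- The degrees of the components. -/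
def cdeg (m : ℕ) (J : Finset (Fin 3)) : Option J → ℕ
  | none => m
  | some _ => 1

/-- The curves `P k = 0` in the projective plane are smooth and cross normally: at every point
the gradients of those `P k` which vanish there are linearly independent. -/
def NormalCrossings {ι : Type} (P : ι → MvPolynomial (Fin 3) ℂ) : Prop :=
  ∀ w : Fin 3 → ℂ, w ≠ 0 →
    LinearIndependent ℂ (fun k : {k : ι // eval w (P k) = 0} =>
      (fun j : Fin 3 => eval w (pderiv j (P k.1))))

/-- The cone (in `ℂ^3`) over the complement of the union of the curves `P k = 0`. -/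
def complement {ι : Type} (P : ι → MvPolynomial (Fin 3) ℂ) : Set (Fin 3 → ℂ) :=
  {w | w ≠ 0 ∧ ∀ k, eval w (P k) ≠ 0}

/-- The infinitesimal Kobayashi (Kobayashi-Royden) pseudometric of the open subset `M` of the
projective plane whose cone is `Ω`, at the point `[w]`, evaluated at the tangent vector
represented by `v` (the tangent space of the plane at `[w]` is `ℂ^3 / ℂ w`). A holomorphic disc
in `M` is given by a holomorphic map `f` from the unit disc to `Ω` (homogeneous coordinates);
`f'(0) = R v` in the tangent space means `f'(0) = R v + c w`. -/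
def kobayashiRoyden (Ω : Set (Fin 3 → ℂ)) (w v : Fin 3 → ℂ) : ℝ :=
  sInf {t : ℝ | ∃ (R : ℝ) (f : ℂ → Fin 3 → ℂ) (c : ℂ), 0 < R ∧
    DifferentiableOn ℂ f (ball 0 1) ∧ (∀ z ∈ ball (0 : ℂ) 1, f z ∈ Ω) ∧ f 0 = w ∧
    deriv f 0 = (R : ℂ) • v + c • w ∧ t = 1 / R}

end

end Pool.Agent.Work.MP_6d7a54_an.UP
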