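import Pool.Agent.Work.MP_6d7a54_an.UP.DefsG
import Pool.Agent.Work.MP_6d7a54_an.UP.Kob

/-!
# Final step: from the bound for discs to the Kobayashi-Royden metric (MP_6d7a54_an)
-/

namespace Pool.Agent.Work.MP_6d7a54_an.UP

open Metric MvPolynomial

noncomputable section

namespace Fnl

lemma comp_hom (m : ℕ) (J : Finset (Fin 3)) (k : Option J) :
    (comp m J k).IsHomogeneous (cdeg m J k) := by
  cases k with
  | none =>
    have h : ∀ i : Fin 3, ((X i : MvPolynomial (Fin 3) ℂ) ^ m).IsHomogeneous m := by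
      intro i
      have := (isHomogeneous_X ℂ i).pow m
      simpa using this
    exact ((h 0).add (h 1)).add (h 2)
  | some i => exact isHomogeneous_X ℂ (i : Fin 3)

lemma sum_cdeg (m : ℕ) (J : Finset (Fin 3)) : ∑ k, cdeg m J k = m + J.card := by
  rw [Fintype.sum_option]
  simp [cdeg]

lemma eval_none (m : ℕ) (J : Finset (Fin 3)) (w : Fin 3 → ℂ) :
    eval w (comp m J none) = w 0 ^ m + w 1 ^ m + w 2 ^ m := by
  simp [comp]

lemma eval_some (m : ℕ) (J : Finset (Fin 3)) (w : Fin 3 → ℂ) (i : J) :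
    eval w (comp m J (some i)) = w (i : Fin 3) := by
  simp [comp]

lemma grad_none (m : ℕ) (J : Finset (Fin 3)) (w : Fin 3 → ℂ) (j : Fin 3) :
    eval w (pderiv j (comp m J none)) = m * w j ^ (m - 1) := by
  have h : ∀ i : Fin 3, eval w (pderiv j ((X i : MvPolynomial (Fin 3) ℂ) ^ m))
      = if i = j then (m : ℂ) * w j ^ (m - 1) else 0 := by
    intro i
    rw [pderiv_pow]
    by_cases hij : i = j
    · subst hij
      simp
    · rw [pderiv_X_of_ne hij]
      simp [hij]
  simp only [comp, map_add, h]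
  fin_cases j <;> simp

lemma grad_some (m : ℕ) (J : Finset (Fin 3)) (w : Fin 3 → ℂ) (i : J) (j : Fin 3) :
    eval w (pderiv j (comp m J (some i))) = if (i : Fin 3) = j then 1 else 0 := by
  simp only [comp]
  by_cases hij : (i : Fin 3) = j
  · rw [hij]
    simp
  · rw [pderiv_X_of_ne hij]
    simp [hij]

lemma nc (m : ℕ) (hm : 3 ≤ m) (J : Finset (Fin 3)) : NormalCrossings (comp m J) := by
  classical
  intro w hw
  rw [Fintype.linearIndependent_iff]
  intro g hg
  obtain ⟨j, hj⟩ : ∃ j, w j ≠ 0 := by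
    by_contra h
    push Not at h
    exact hw (funext h)
  have hco : ∀ i : Fin 3, ∑ k : {k : Option J // eval w (comp m J k) = 0},
      g k * eval w (pderiv i (comp m J k.1)) = 0 := by
    intro i
    have := congrFun hg i
    simpa using this
  -- the coefficient of the Fermat curve vanishes
  have hnone : ∀ k : {k : Option J // eval w (comp m J k) = 0}, k.1 = none → g k = 0 := by
    intro k hk
    have h1 := hco j
    rw [Finset.sum_eq_single k] at h1
    · rw [hk, grad_none] at h1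
      rcases mul_eq_zero.1 h1 with h2 | h2
      · exact h2
      · exfalso
        rcases mul_eq_zero.1 h2 with h3 | h3
        · have : m = 0 := by exact_mod_cast h3
          omega
        · exact hj (pow_eq_zero_iff (by omega) |>.1 h3)
    · intro k' _ hk'
      obtain ⟨k', hk0⟩ := k'
      cases k' with
      | none => exact absurd (Subtype.ext hk.symm) hk'
      | some i =>
        have : (i : Fin 3) ≠ j := by
          intro hij
          rw [eval_some, hij] at hk0
          exact hj hk0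
        rw [grad_some]
        simp [this]
    · intro h
      exact absurd (Finset.mem_univ k) h
  intro k
  obtain ⟨k0, hk0⟩ := k
  cases k0 with
  | none => exact hnone _ rfl
  | some i =>
    have h1 := hco (i : Fin 3)
    rw [Finset.sum_eq_single ⟨some i, hk0⟩] at h1
    · rw [grad_some] at h1
      simpa using h1
    · intro k' _ hk'
      obtain ⟨k', hk0'⟩ := k'
      cases k' with
      | none =>
        rw [hnone _ rfl, zero_mul]
      | some i' =>
        have : (i' : Fin 3) ≠ i := by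
          intro hij
          apply hk'
          apply Subtype.ext
          simp only [Option.some.injEq]
          exact Subtype.ext hij
        rw [grad_some]
        simp [this]
    · intro h
      exact absurd (Finset.mem_univ _) h

/-- the exceptional polynomial -/
def exc (m : ℕ) : MvPolynomial (Fin 3) ℂ :=
  X 0 * X 1 * X 2 * ((X 0 ^ m + X 1 ^ m) * (X 0 ^ m + X 2 ^ m) * (X 1 ^ m + X 2 ^ m))

lemma exc_hom (m : ℕ) : (exc m).IsHomogeneous (3 * m + 3) := by
  have h : ∀ i : Fin 3, ((X i : MvPolynomial (Fin 3) ℂ) ^ m).IsHomogeneous m := by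
    intro i
    have := (isHomogeneous_X ℂ i).pow m
    simpa using this
  have h1 := (((isHomogeneous_X ℂ (0 : Fin 3)).mul (isHomogeneous_X ℂ 1)).mul
    (isHomogeneous_X ℂ 2)).mul ((((h 0).add (h 1)).mul ((h 0).add (h 2))).mul
      ((h 1).add (h 2)))
  have e : 1 + 1 + 1 + (m + m + m) = 3 * m + 3 := by ring
  rw [e] at h1
  exact h1

lemma exc_eval (m : ℕ) (w : Fin 3 → ℂ) : eval w (exc m) = w 0 * w 1 * w 2 *
    ((w 0 ^ m + w 1 ^ m) * (w 0 ^ m + w 2 ^ m) * (w 1 ^ m + w 2 ^ m)) := by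
  simp [exc]

lemma exc_ne (m : ℕ) : exc m ≠ 0 := by
  intro h
  have := exc_eval m (fun _ => 1)
  rw [h] at this
  simp only [map_zero, one_pow, mul_one, one_mul] at this
  norm_num at this

lemma cone_eq (m : ℕ) (hm : 3 ≤ m) (J : Finset (Fin 3)) : complement (comp m J) = Cone m J := by
  ext w
  simp only [complement, Cone, Set.mem_setOf_eq]
  constructor
  · rintro ⟨h0, h1⟩
    refine ⟨fun i hi => ?_, ?_⟩
    · have := h1 (some ⟨i, hi⟩)
      rwa [eval_some] at this
    · have := h1 none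
      rwa [eval_none] at this
  · rintro ⟨h1, h2⟩
    refine ⟨?_, ?_⟩
    · rintro rfl
      apply h2
      simp [show m ≠ 0 by omega]
    · intro k
      cases k with
      | none => rwa [eval_none]
      | some i =>
        rw [eval_some]
        exact h1 i i.2

lemma cone_open (m : ℕ) (J : Finset (Fin 3)) : IsOpen (Cone m J) := by
  have : Cone m J = (⋂ i ∈ J, {w : Fin 3 → ℂ | w i ≠ 0}) ∩
      {w : Fin 3 → ℂ | w 0 ^ m + w 1 ^ m + w 2 ^ m ≠ 0} := by
    ext w
    simp [Cone]
  rw [this]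
  apply IsOpen.inter
  · apply isOpen_biInter_finset
    intro i _
    exact isOpen_ne_fun (continuous_apply i) continuous_const
  · exact isOpen_ne_fun (by fun_prop) continuous_const

/-- the set of admissible values is not empty -/
lemma nonempty_set {Ω : Set (Fin 3 → ℂ)} (hΩ : IsOpen Ω) {w : Fin 3 → ℂ} (hw : w ∈ Ω)
    (v : Fin 3 → ℂ) : {t : ℝ | ∃ (R : ℝ) (f : ℂ → Fin 3 → ℂ) (c : ℂ), 0 < R ∧
    DifferentiableOn ℂ f (ball 0 1) ∧ (∀ z ∈ ball (0 : ℂ) 1, f z ∈ Ω) ∧ f 0 = w ∧
    deriv f 0 = (R : ℂ) • v + c • w ∧ t = 1 / R}.Nonempty := by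
  obtain ⟨e, he, hball⟩ := Metric.isOpen_iff.1 hΩ w hw
  set R : ℝ := e / (2 * (‖v‖ + 1)) with hR
  have hv : 0 < ‖v‖ + 1 := by positivity
  have hRpos : 0 < R := by positivity
  have hder : ∀ z : ℂ, HasDerivAt (fun z : ℂ => w + (z * R) • v) ((R : ℂ) • v) z := by
    intro z
    have h1 : HasDerivAt (fun z : ℂ => z * (R : ℂ)) (R : ℂ) z := by
      simpa using (hasDerivAt_id z).mul_const (R : ℂ)
    exact (h1.smul_const v).const_add w
  refine ⟨1 / R, R, fun z => w + (z * R) • v, 0, hRpos, ?_, ?_, ?_, ?_, rfl⟩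
  · intro z _
    exact (hder z).differentiableAt.differentiableWithinAt
  · intro z hz
    apply hball
    have hz1 : ‖z‖ < 1 := by simpa using hz
    rw [mem_ball, dist_eq_norm, add_sub_cancel_left, norm_smul, norm_mul]
    have h1 : ‖(R : ℂ)‖ = R := by
      rw [Complex.norm_real]
      exact abs_of_pos hRpos
    rw [h1]
    calc ‖z‖ * R * ‖v‖ ≤ 1 * R * (‖v‖ + 1) := by
          gcongr
          linarith
      _ = e / 2 := by
          rw [hR]
          field_simp
      _ < e := by linarith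
  · simp
  · rw [(hder 0).deriv]
    simp

lemma pos_of_bound {Ω : Set (Fin 3 → ℂ)} (hΩ : IsOpen Ω) {w v : Fin 3 → ℂ} (hw : w ∈ Ω)
    (hw0 : w ≠ 0) (hv : ∀ c : ℂ, v ≠ c • w) {C : ℝ} (hC : 0 ≤ C)
    (hb : ∀ f : ℂ → Fin 3 → ℂ, DifferentiableOn ℂ f (ball 0 1) → (∀ z ∈ ball (0 : ℂ) 1, f z ∈ Ω) →
      f 0 = w → ∀ i j : Fin 3, ‖deriv f 0 i * w j - deriv f 0 j * w i‖ ≤ C) :
    0 < kobayashiRoyden Ω w v := by
  -- some minor of (v, w) does not vanish
  obtain ⟨j, hj⟩ : ∃ j, w j ≠ 0 := by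
    by_contra h
    push Not at h
    exact hw0 (funext h)
  obtain ⟨i, hi⟩ : ∃ i, v i * w j - v j * w i ≠ 0 := by
    by_contra h
    push Not at h
    apply hv (v j / w j)
    funext i
    have := h i
    simp only [Pi.smul_apply, smul_eq_mul]
    field_simp
    linear_combination this
  set D : ℝ := ‖v i * w j - v j * w i‖ with hD
  have hDpos : 0 < D := norm_pos_iff.2 hi
  have hlow : ∀ t ∈ {t : ℝ | ∃ (R : ℝ) (f : ℂ → Fin 3 → ℂ) (c : ℂ), 0 < R ∧
      DifferentiableOn ℂ f (ball 0 1) ∧ (∀ z ∈ ball (0 : ℂ) 1, f z ∈ Ω) ∧ f 0 = w ∧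
      deriv f 0 = (R : ℂ) • v + c • w ∧ t = 1 / R}, D / (C + 1) ≤ t := by
    rintro t ⟨R, f, c, hR, hf, hfΩ, hf0, hder, rfl⟩
    have h1 := hb f hf hfΩ hf0 i j
    rw [hder] at h1
    have h2 : ((R : ℂ) • v + c • w) i * w j - ((R : ℂ) • v + c • w) j * w i
        = (R : ℂ) * (v i * w j - v j * w i) := by
      simp only [Pi.add_apply, Pi.smul_apply, smul_eq_mul]
      ring
    rw [h2, norm_mul, Complex.norm_real, Real.norm_of_nonneg hR.le, ← hD] at h1
    rw [div_le_div_iff₀ (by linarith) hR]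
    linarith
  unfold kobayashiRoyden
  have := le_csInf (nonempty_set hΩ hw v) hlow
  exact lt_of_lt_of_le (by positivity) this

end Fnl

/-- assembly -/
theorem final_of_geo (h : S3_Geo) (m : ℕ) (J : Finset (Fin 3)) (hm : 3 ≤ m)
    (hJ : 2 * (3 - J.card) < m) :
    ((∀ k, (comp m J k).IsHomogeneous (cdeg m J k)) ∧ 4 ≤ ∑ k, cdeg m J k ∧
      NormalCrossings (comp m J)) ∧
    ∃ Q : MvPolynomial (Fin 3) ℂ, Q ≠ 0 ∧ Q.IsHomogeneous (3 * m + 3) ∧
      ∀ w ∈ complement (comp m J), eval w Q ≠ 0 → ∀ v : Fin 3 → ℂ, (∀ c : ℂ, v ≠ c • w) →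
        0 < kobayashiRoyden (complement (comp m J)) w v := by
  refine ⟨⟨Fnl.comp_hom m J, ?_, Fnl.nc m hm J⟩, Fnl.exc m, Fnl.exc_ne m, Fnl.exc_hom m, ?_⟩
  · rw [Fnl.sum_cdeg]
    have : J.card ≤ 3 := by
      have := Finset.card_le_univ J
      simpa using this
    omega
  · intro w hw hQ v hv
    rw [Fnl.exc_eval] at hQ
    have hw0 : w ≠ 0 := hw.1
    rw [Fnl.cone_eq m hm J] at hw ⊢
    obtain ⟨C, hC, hb⟩ := h m J hm hJ w hw hQ
    exact Fnl.pos_of_bound (Fnl.cone_open m J) hw hw0 hv hC hb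

end

end Pool.Agent.Work.MP_6d7a54_an.UP
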