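import Pool.Agent.Work.MP_6d7a54_an.UP.Defs

/-! # A function with small logarithmic derivative on a circle is almost constant there -/

namespace Pool.Agent.Work.MP_6d7a54_an.UP

open Complex Metric Real Set

namespace Circ

lemma exists_angle {t : ℝ} (_ht : 0 < t) {z : ℂ} (hz : z ∈ sphere (0 : ℂ) t) :
    ∃ θ : ℝ, 0 ≤ θ ∧ θ ≤ 2 * π ∧ circleMap 0 t θ = z := by
  have hn : ‖z‖ = t := by simpa using hz
  have h1 : circleMap 0 t (arg z) = z := by
    rw [circleMap, zero_add, ← hn]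
    exact Complex.norm_mul_exp_arg_mul_I z
  rcases le_or_gt 0 (arg z) with h | h
  · exact ⟨arg z, h, by linarith [Complex.arg_le_pi z, Real.pi_pos], h1⟩
  · refine ⟨arg z + 2 * π, by linarith [Complex.neg_pi_lt_arg z, Real.pi_pos], by linarith, ?_⟩
    rw [periodic_circleMap 0 t (arg z), h1]

lemma exp_small {e : ℝ} (h0 : 0 ≤ e) (h1 : e ≤ 1 / 16) : Real.exp (e * (2 * π)) - 1 ≤ 16 * e := by
  have hp := Real.pi_lt_d2
  have hp0 := Real.pi_pos
  have h2 : e * (2 * π) ≤ 2 / 5 := by nlinarith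
  have h3 : 0 ≤ e * (2 * π) := by positivity
  have h4 := Real.abs_exp_sub_one_sub_id_le (x := e * (2 * π)) (by
    rw [abs_of_nonneg h3]
    linarith)
  have h5 := (abs_le.1 h4).2
  have h6 : (e * (2 * π)) ^ 2 ≤ 2 / 5 * (e * (2 * π)) := by nlinarith
  nlinarith

end Circ

theorem Circ_proof : S_Circ := by
  intro f g t e ht ht1 he he1 hf hg z hz
  obtain ⟨θ, hθ0, hθ1, rfl⟩ := Circ.exists_angle ht hz
  have hmem : ∀ x : ℝ, circleMap 0 t x ∈ sphere (0 : ℂ) t := fun x =>
    circleMap_mem_sphere 0 ht.le x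
  have hd : ∀ x : ℝ, HasDerivAt (fun x : ℝ => f (circleMap 0 t x))
      (deriv f (circleMap 0 t x) * (circleMap 0 t x * I)) x := by
    intro x
    exact ((hf _ (hmem x)).1.hasDerivAt).comp x (hasDerivAt_circleMap 0 t x)
  have hG := norm_le_gronwallBound_of_norm_deriv_right_le
    (f := fun x : ℝ => f (circleMap 0 t x) - f t)
    (f' := fun x : ℝ => deriv f (circleMap 0 t x) * (circleMap 0 t x * I))
    (δ := 0) (K := e) (ε := e * ‖f t‖) (a := 0) (b := 2 * π)
    (fun x _ => ((hd x).sub_const (f t)).continuousAt.continuousWithinAt)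
    (fun x _ => ((hd x).sub_const (f t)).hasDerivWithinAt)
    (by simp [circleMap]) ?_ θ ⟨hθ0, hθ1⟩
  · rw [sub_zero] at hG
    refine hG.trans ?_
    rcases eq_or_lt_of_le he with h0 | h0
    · rw [← h0]
      simp [gronwallBound_K0]
    · rw [gronwallBound_of_K_ne_0 h0.ne']
      have h1 : Real.exp (e * θ) ≤ Real.exp (e * (2 * π)) := by
        apply Real.exp_le_exp.2
        gcongr
      have h2 := Circ.exp_small he he1
      have h3 : e * ‖f t‖ / e = ‖f t‖ := by field_simp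
      show 0 * Real.exp (e * θ) + e * ‖f t‖ / e * (Real.exp (e * θ) - 1) ≤ 16 * e * ‖f t‖
      rw [zero_mul, zero_add, h3]
      have h4 : 0 ≤ ‖f t‖ := norm_nonneg _
      nlinarith
  · intro x _
    obtain ⟨-, h1, h2⟩ := hf _ (hmem x)
    have hn : ‖circleMap 0 t x‖ = t := by simpa using hmem x
    have h3 : ‖f (circleMap 0 t x)‖ ≤ ‖f (circleMap 0 t x) - f t‖ + ‖f t‖ := by
      have := norm_add_le (f (circleMap 0 t x) - f t) (f t)
      simpa using this
    show ‖deriv f (circleMap 0 t x) * (circleMap 0 t x * I)‖ ≤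
      e * ‖f (circleMap 0 t x) - f t‖ + e * ‖f t‖
    rw [h1, norm_mul, norm_mul, norm_mul, hn, Complex.norm_I, mul_one]
    calc ‖g (circleMap 0 t x)‖ * ‖f (circleMap 0 t x)‖ * t
        ≤ e * ‖f (circleMap 0 t x)‖ * 1 := by gcongr
      _ = e * ‖f (circleMap 0 t x)‖ := mul_one _
      _ ≤ e * (‖f (circleMap 0 t x) - f t‖ + ‖f t‖) := by gcongr
      _ = _ := by ring

end Pool.Agent.Work.MP_6d7a54_an.UP
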