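import Pool.Agent.Work.MP_6d7a54_an.UP.DefsG
import Pool.Agent.Work.MP_6d7a54_an.UP.I_Circ

/-! # The local statement: the curve is close to a line or has bounded derivatives -/

set_option autoImplicit false

namespace Pool.Agent.Work.MP_6d7a54_an.UP

open Complex Metric Real Set

namespace GLocal

/-- maximum principle on the disc of radius `t < 2` -/
lemma max_disc {F : ℂ → ℂ} (hF : ∀ z : ℂ, ‖z‖ < 2 → DifferentiableAt ℂ F z) {t B : ℝ}
    (ht0 : 0 < t) (ht : t < 2) (hB : ∀ z ∈ sphere (0 : ℂ) t, ‖F z‖ ≤ B) {z : ℂ}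
    (hz : ‖z‖ ≤ t) : ‖F z‖ ≤ B := by
  have hd : DiffContOnCl ℂ F (ball 0 t) := by
    apply DifferentiableOn.diffContOnCl
    rw [closure_ball _ ht0.ne']
    intro x hx
    have : ‖x‖ ≤ t := by simpa using hx
    exact (hF x (lt_of_le_of_lt this ht)).differentiableWithinAt
  apply Complex.norm_le_of_forall_mem_frontier_norm_le isBounded_ball hd
  · rw [frontier_ball _ ht0.ne']
    exact hB
  · rw [closure_ball _ ht0.ne']
    simpa using hz

/-- a quotient with small Wronskian is almost constant on a small circle -/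
lemma quot_circ {p s : ℂ → ℂ} {t B : ℝ} (ht : 0 < t) (ht2 : 2 * π * t ≤ 1) (hB : 0 ≤ B)
    (hp : ∀ z ∈ sphere (0 : ℂ) t, AnalyticAt ℂ p z) (hs : ∀ z ∈ sphere (0 : ℂ) t, AnalyticAt ℂ s z)
    (hs0 : ∀ z ∈ sphere (0 : ℂ) t, s z ≠ 0)
    (hW : ∀ z ∈ sphere (0 : ℂ) t, ‖p z * deriv s z - deriv p z * s z‖ ≤ B * ‖s z‖ ^ 2) :
    ∀ z ∈ sphere (0 : ℂ) t, ‖p z / s z - p t / s t‖ ≤ B := by
  intro z hz
  obtain ⟨θ, hθ0, hθ1, rfl⟩ := Circ.exists_angle ht hz
  have hmem : ∀ x : ℝ, circleMap 0 t x ∈ sphere (0 : ℂ) t := fun x =>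
    circleMap_mem_sphere 0 ht.le x
  have hd : ∀ x ∈ Icc (0 : ℝ) (2 * π), HasDerivWithinAt
      (fun x : ℝ => p (circleMap 0 t x) / s (circleMap 0 t x))
      ((deriv p (circleMap 0 t x) * s (circleMap 0 t x) -
        p (circleMap 0 t x) * deriv s (circleMap 0 t x)) / s (circleMap 0 t x) ^ 2 *
        (circleMap 0 t x * I)) (Icc 0 (2 * π)) x := by
    intro x _
    have h1 := (hp _ (hmem x)).differentiableAt.hasDerivAt
    have h2 := (hs _ (hmem x)).differentiableAt.hasDerivAt
    have h3 := h1.div h2 (hs0 _ (hmem x))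
    exact (h3.comp x (hasDerivAt_circleMap 0 t x)).hasDerivWithinAt
  have hbd : ∀ x ∈ Icc (0 : ℝ) (2 * π),
      ‖(deriv p (circleMap 0 t x) * s (circleMap 0 t x) -
        p (circleMap 0 t x) * deriv s (circleMap 0 t x)) / s (circleMap 0 t x) ^ 2 *
        (circleMap 0 t x * I)‖ ≤ B * t := by
    intro x _
    have hn : ‖circleMap 0 t x‖ = t := by simpa using hmem x
    have h0 : 0 < ‖s (circleMap 0 t x)‖ := norm_pos_iff.2 (hs0 _ (hmem x))
    rw [norm_mul, norm_mul, Complex.norm_I, mul_one, hn, norm_div, norm_pow]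
    apply mul_le_mul_of_nonneg_right _ ht.le
    rw [div_le_iff₀ (by positivity), norm_sub_rev]
    exact hW _ (hmem x)
  have h4 := (convex_Icc (0 : ℝ) (2 * π)).norm_image_sub_le_of_norm_hasDerivWithin_le hd hbd
    (left_mem_Icc.2 (by positivity)) ⟨hθ0, hθ1⟩
  have e0 : circleMap 0 t 0 = (t : ℂ) := by simp [circleMap]
  rw [e0] at h4
  refine h4.trans ?_
  rw [sub_zero, Real.norm_of_nonneg hθ0]
  calc B * t * θ ≤ B * t * (2 * π) := by gcongr
    _ = B * (2 * π * t) := by ring
    _ ≤ B * 1 := by gcongr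
    _ = B := mul_one B

lemma le_exp_sg {N : ℕ} (f : Fin N → ℂ → ℂ) (i : Fin N) (z : ℂ) : ‖f i z‖ ≤ Real.exp (sg f z) := by
  have h1 : 0 ≤ ∑ i, ‖f i z‖ := Finset.sum_nonneg fun i _ => norm_nonneg _
  unfold sg
  rw [Real.exp_log (by linarith)]
  have h2 : ‖f i z‖ ≤ ∑ i, ‖f i z‖ :=
    Finset.single_le_sum (f := fun i => ‖f i z‖) (fun i _ => norm_nonneg _) (Finset.mem_univ i)
  linarith

lemma sg_le {N : ℕ} (f : Fin N → ℂ → ℂ) (z : ℂ) {B : ℝ} (hB : ∀ i, ‖f i z‖ ≤ B) (_hB0 : 0 ≤ B) :
    sg f z ≤ N * B := by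
  have h1 : 0 ≤ ∑ i, ‖f i z‖ := Finset.sum_nonneg fun i _ => norm_nonneg _
  unfold sg
  have h2 := Real.log_le_sub_one_of_pos (show 0 < 1 + ∑ i, ‖f i z‖ by linarith)
  have h3 : ∑ i, ‖f i z‖ ≤ ∑ _i : Fin N, B := Finset.sum_le_sum fun i _ => hB i
  simp at h3
  linarith

end GLocal

open GLocal in
theorem Local_proof (h1 : S_MM) (h2 : S3_Sym) (h3 : S3_End) : S3_Local := by
  intro m L kap C0 hm hL hkap hC0
  obtain ⟨eps, Ce, heps, hCe, hEnd⟩ := h3 m L hm hL
  obtain ⟨K, hK, hMM⟩ := h1 (1 / 4) (by norm_num) (by norm_num)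
  have hK0 : 0 < K := by linarith
  set del : ℝ := kap / (8 * K) with hdel
  have hdel0 : 0 < del := by positivity
  have hdK : 4 * K * del = kap / 2 := by rw [hdel]; field_simp; ring
  have hd8 : 2 * del ≤ kap / 4 := by
    have : 2 * del * 2 ≤ 4 * K * del := by nlinarith
    linarith
  refine ⟨del, 1 / del + Ce + 3 * (L + 1) + 4 * C0 / (kap * eps), hdel0, by positivity, ?_⟩
  intro q M hD hBase hCM hsg hW
  have p1 : 0 < 1 / del := by positivity
  have p2 : 0 < 3 * (L + 1) := by positivity
  have p3 : 0 ≤ 4 * C0 / (kap * eps) := by positivity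
  have hM1 : 1 ≤ del * M := by
    have : 1 / del ≤ M := by linarith
    rw [div_le_iff₀ hdel0] at this
    linarith
  have hM2 : C0 ≤ eps * (kap * M / 4) := by
    have : 4 * C0 / (kap * eps) ≤ M := by linarith
    rw [div_le_iff₀ (by positivity)] at this
    linarith
  -- analyticity
  have hxd : ∀ i, DifferentiableOn ℂ (xx m q i) (ball 0 2) := fun i => (hD.hq i).pow m
  have hxa : ∀ i, ∀ z : ℂ, ‖z‖ < 2 → AnalyticAt ℂ (xx m q i) z := fun i z hz =>
    (hxd i).analyticAt (isOpen_ball.mem_nhds (by simpa using hz))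
  have hqa : ∀ z : ℂ, ‖z‖ < 2 → ∀ i, AnalyticAt ℂ (q i) z := fun z hz i =>
    (hD.hq i).analyticAt (isOpen_ball.mem_nhds (by simpa using hz))
  have hev : ∀ z : ℂ, ‖z‖ < 2 → ∀ᶠ x in nhds z, q 0 x ^ m + q 1 x ^ m + q 2 x ^ m = 1 := by
    intro z hz
    filter_upwards [isOpen_ball.mem_nhds (show z ∈ ball (0 : ℂ) 2 by simpa using hz)] with x hx
    exact hD.heq x hx
  by_cases hcase : ∀ i, ∀ z : ℂ, ‖z‖ ≤ 1 / 16 → ‖deriv (xx m q i) z‖ ≤ 1
  · -- case II
    intro z hz
    have hz' : ‖z‖ ≤ 1 / 16 := by linarith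
    have h4 : ∀ i, ‖xx m q i z‖ ≤ L + 1 := by
      intro i
      have h5 := (convex_closedBall (0 : ℂ) (1 / 16)).norm_image_sub_le_of_norm_deriv_le
        (f := xx m q i) (C := 1)
        (fun x hx => (hxa i x (by
          have : ‖x‖ ≤ 1 / 16 := by simpa using hx
          linarith)).differentiableAt)
        (fun x hx => hcase i x (by simpa using hx))
        (show (0 : ℂ) ∈ closedBall (0 : ℂ) (1 / 16) by simp)
        (show z ∈ closedBall (0 : ℂ) (1 / 16) by simpa using hz')
      have h6 : ‖xx m q i 0‖ ≤ L := (hBase.h1 i).2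
      rw [sub_zero] at h5
      have h7 : ‖xx m q i z‖ ≤ ‖xx m q i z - xx m q i 0‖ + ‖xx m q i 0‖ := by
        have := norm_add_le (xx m q i z - xx m q i 0) (xx m q i 0)
        simpa using this
      linarith
    have h8 := sg_le (xx m q) z h4 (by linarith)
    push_cast at h8
    linarith
  · -- case I
    push Not at hcase
    obtain ⟨k, z1, hz1, hk1⟩ := hcase
    set X : ℝ := 2 * (del * M) with hX
    have hX1 : 1 ≤ X := by linarith
    have hder : ∀ i, ∀ z : ℂ, ‖z‖ ≤ 1 / 2 → ‖deriv (xx m q i) z‖ ≤ Real.exp X := by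
      intro i z hz
      have h4 := Complex.norm_deriv_le_of_forall_mem_sphere_norm_le (c := z) (R := 1 / 2)
        (f := xx m q i) (C := Real.exp (del * M)) (by norm_num)
        (by
          apply DifferentiableOn.diffContOnCl
          rw [closure_ball _ (by norm_num)]
          intro x hx
          have hx1 : ‖x - z‖ ≤ 1 / 2 := by
            rw [← dist_eq_norm]
            simpa using hx
          have : ‖x‖ ≤ ‖x - z‖ + ‖z‖ := by
            have := norm_add_le (x - z) z
            simpa using this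
          exact (hxa i x (by linarith)).differentiableAt.differentiableWithinAt)
        (by
          intro x hx
          have hx1 : ‖x - z‖ = 1 / 2 := mem_sphere_iff_norm.1 hx
          have : ‖x‖ ≤ ‖x - z‖ + ‖z‖ := by
            have := norm_add_le (x - z) z
            simpa using this
          exact (le_exp_sg (xx m q) i x).trans (Real.exp_le_exp.2 (hsg x (by linarith))))
      refine h4.trans ?_
      have h5 : (2 : ℝ) ≤ Real.exp (del * M) := by
        have := Real.add_one_le_exp (del * M)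
        linarith
      calc Real.exp (del * M) / (1 / 2) = 2 * Real.exp (del * M) := by ring
        _ ≤ Real.exp (del * M) * Real.exp (del * M) := by
            exact mul_le_mul_of_nonneg_right h5 (Real.exp_pos _).le
        _ = Real.exp X := by rw [← Real.exp_add, hX]; congr 1; ring
    obtain ⟨t, ht1, ht2, hmin⟩ := hMM (fun _ => deriv (xx m q k)) X hX1
      (fun _ z hz => (hxa k z (by
        have : ‖z‖ ≤ 2 * (1 / 4) := by simpa using hz
        linarith)).deriv)
      (fun _ z hz => hder k z (by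
        have : ‖z‖ ≤ 2 * (1 / 4) := by simpa using hz
        linarith))
      (fun _ => ⟨z1, by linarith, by
        have : Real.exp (-X) ≤ 1 := Real.exp_le_one_iff.2 (by linarith)
        linarith⟩)
    have ht0 : 0 < t := by linarith
    have htl : t < 1 := by linarith
    have hsph : ∀ z ∈ sphere (0 : ℂ) t, ‖z‖ = t := fun z hz => by simpa using hz
    -- choose the other index
    obtain ⟨i, hik⟩ : ∃ i : Fin 3, i ≠ k := ⟨k + 1, by fin_cases k <;> decide⟩
    have hk0 : ∀ z ∈ sphere (0 : ℂ) t, deriv (xx m q k) z ≠ 0 := fun z hz => by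
      have := lt_of_lt_of_le (Real.exp_pos _) (hmin 0 z hz)
      exact norm_pos_iff.mp this
    set B : ℝ := C0 * Real.exp (-(kap * M / 2)) with hB
    have hB0 : 0 ≤ B := by positivity
    have hquot := quot_circ (p := deriv (xx m q i)) (s := deriv (xx m q k)) (t := t) (B := B) ht0
      (by
        have := Real.pi_lt_d2
        nlinarith [Real.pi_pos]) hB0
      (fun z hz => (hxa i z (by rw [hsph z hz]; linarith)).deriv)
      (fun z hz => (hxa k z (by rw [hsph z hz]; linarith)).deriv) hk0
      (by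
        intro z hz
        have hz2 : ‖z‖ < 2 := by rw [hsph z hz]; linarith
        rw [(h2 m q z (hqa z hz2) (hev z hz2)).2 i k hik]
        have h4 := hW z (by rw [hsph z hz]; linarith)
        have h5 : Real.exp (-K * X) ≤ ‖deriv (xx m q k) z‖ := hmin 0 z hz
        have h6 : Real.exp (-K * X) ^ 2 ≤ ‖deriv (xx m q k) z‖ ^ 2 :=
          pow_le_pow_left₀ (Real.exp_pos _).le h5 2
        have h7 : Real.exp (-K * X) ^ 2 = Real.exp (-(kap * M / 2)) := by
          rw [← Real.exp_nat_mul]
          congr 1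
          have e2 : 4 * K * del * M = kap / 2 * M := by rw [hdK]
          push_cast
          rw [hX]
          linarith
        rw [h7] at h6
        calc ‖W3 m q z‖ ≤ C0 * Real.exp (-kap * M) := h4
          _ = C0 * Real.exp (-(kap * M / 2)) * Real.exp (-(kap * M / 2)) := by
              rw [mul_assoc, ← Real.exp_add]; congr 2; ring
          _ ≤ B * ‖deriv (xx m q k) z‖ ^ 2 := mul_le_mul_of_nonneg_left h6 hB0)
    set lam : ℂ := deriv (xx m q i) t / deriv (xx m q k) t with hlam
    -- small on the circle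
    have hcirc : ∀ z ∈ sphere (0 : ℂ) t,
        ‖deriv (xx m q i) z - lam * deriv (xx m q k) z‖ ≤ eps := by
      intro z hz
      have h4 := hquot z hz
      have h5 := hk0 z hz
      have e1 : deriv (xx m q i) z - lam * deriv (xx m q k) z =
          (deriv (xx m q i) z / deriv (xx m q k) z - lam) * deriv (xx m q k) z := by
        field_simp
      rw [e1, norm_mul]
      have h6 : ‖deriv (xx m q k) z‖ ≤ Real.exp X := hder k z (by rw [hsph z hz]; linarith)
      calc ‖deriv (xx m q i) z / deriv (xx m q k) z - lam‖ * ‖deriv (xx m q k) z‖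
          ≤ B * Real.exp X := mul_le_mul h4 h6 (norm_nonneg _) hB0
        _ = C0 * Real.exp (-(kap * M / 2) + X) := by rw [hB, Real.exp_add]; ring
        _ ≤ C0 * Real.exp (-(kap * M / 4)) := by
            apply mul_le_mul_of_nonneg_left _ hC0
            apply Real.exp_le_exp.2
            have hM0 : 0 < M := by
              by_contra hneg
              push Not at hneg
              nlinarith
            have : 2 * del * M ≤ kap / 4 * M := mul_le_mul_of_nonneg_right hd8 hM0.le
            rw [hX]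
            linarith
        _ ≤ eps := by
            rw [Real.exp_neg, ← div_eq_mul_inv, div_le_iff₀ (Real.exp_pos _)]
            have h7 := Real.add_one_le_exp (kap * M / 4)
            have h8 : eps * (kap * M / 4) ≤ eps * Real.exp (kap * M / 4) :=
              mul_le_mul_of_nonneg_left (by linarith) heps.le
            linarith
    have hdd : ∀ j, ∀ z : ℂ, ‖z‖ < 2 → DifferentiableAt ℂ (deriv (xx m q j)) z := fun j z hz =>
      (hxa j z hz).deriv.differentiableAt
    intro z hz
    by_cases hl : ‖lam‖ ≤ 1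
    · have h9 := hEnd q i k lam hD hBase hik hl (fun z hz =>
        max_disc (F := fun x => deriv (xx m q i) x - lam * deriv (xx m q k) x)
          (fun z hz => (hdd i z hz).sub ((hdd k z hz).const_mul lam)) ht0 (by linarith) hcirc
          (by linarith)) z hz
      linarith
    · push Not at hl
      have hl0 : lam ≠ 0 := by
        intro h
        rw [h, norm_zero] at hl
        linarith
      have hli : ‖lam⁻¹‖ ≤ 1 := by
        rw [norm_inv]
        exact inv_le_one_of_one_le₀ hl.le
      have h9 := hEnd q k i lam⁻¹ hD hBase hik.symm hli (fun z hz =>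
        max_disc (F := fun x => deriv (xx m q k) x - lam⁻¹ * deriv (xx m q i) x)
          (fun z hz => (hdd k z hz).sub ((hdd i z hz).const_mul lam⁻¹)) ht0 (by linarith)
          (by
            intro w hw
            have e1 : deriv (xx m q k) w - lam⁻¹ * deriv (xx m q i) w =
                -(lam⁻¹ * (deriv (xx m q i) w - lam * deriv (xx m q k) w)) := by
              field_simp
              ring
            show ‖deriv (xx m q k) w - lam⁻¹ * deriv (xx m q i) w‖ ≤ eps
            rw [e1, norm_neg, norm_mul]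
            calc ‖lam⁻¹‖ * ‖deriv (xx m q i) w - lam * deriv (xx m q k) w‖ ≤ 1 * eps :=
                  mul_le_mul hli (hcirc w hw) (norm_nonneg _) (by norm_num)
              _ = eps := one_mul _)
          (by linarith)) z hz
      linarith

end Pool.Agent.Work.MP_6d7a54_an.UP
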