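import Pool.Agent.Work.MP_6d7a54_an.UP.Defs

/-! # Item Cartan: the pointwise Cartan inequality -/

set_option autoImplicit false

namespace Pool.Agent.Work.MP_6d7a54_an.UP

open Complex Metric Real Set

noncomputable section

namespace Cartan

/-- derivatives of `h = 1 + exp u + exp v` -/
lemma derivs {u v h : ℂ → ℂ} {z : ℂ} (hu : AnalyticAt ℂ u z) (hv : AnalyticAt ℂ v z)
    (hh : ∀ᶠ x in nhds z, h x = 1 + Complex.exp (u x) + Complex.exp (v x)) :
    deriv h z = Complex.exp (u z) * deriv u z + Complex.exp (v z) * deriv v z ∧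
    deriv (deriv h) z = Complex.exp (u z) * (deriv (deriv u) z + deriv u z ^ 2)
      + Complex.exp (v z) * (deriv (deriv v) z + deriv v z ^ 2) := by
  have e1 : h =ᶠ[nhds z] fun x => 1 + Complex.exp (u x) + Complex.exp (v x) := hh
  have hd : ∀ x, AnalyticAt ℂ u x → AnalyticAt ℂ v x →
      HasDerivAt (fun x => 1 + Complex.exp (u x) + Complex.exp (v x))
        (Complex.exp (u x) * deriv u x + Complex.exp (v x) * deriv v x) x := by
    intro x h1 h2
    have a1 := h1.differentiableAt.hasDerivAt.cexp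
    have a2 := h2.differentiableAt.hasDerivAt.cexp
    exact (a1.const_add 1).add a2
  have e2 : deriv h =ᶠ[nhds z]
      fun x => Complex.exp (u x) * deriv u x + Complex.exp (v x) * deriv v x := by
    refine e1.deriv.trans ?_
    filter_upwards [hu.eventually_analyticAt, hv.eventually_analyticAt] with x h1 h2
    exact (hd x h1 h2).deriv
  refine ⟨e2.self_of_nhds, ?_⟩
  rw [e2.deriv_eq]
  have b1 := hu.differentiableAt.hasDerivAt.cexp.mul hu.deriv.differentiableAt.hasDerivAt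
  have b2 := hv.differentiableAt.hasDerivAt.cexp.mul hv.deriv.differentiableAt.hasDerivAt
  have b3 := (b1.add b2).deriv
  have b4 : deriv (fun x => Complex.exp (u x) * deriv u x + Complex.exp (v x) * deriv v x) z
      = Complex.exp (u z) * deriv u z * deriv u z + Complex.exp (u z) * deriv (deriv u) z +
        (Complex.exp (v z) * deriv v z * deriv v z + Complex.exp (v z) * deriv (deriv v) z) := b3
  rw [b4]
  ring

/-- norm bounds for the second coefficients -/
lemma bU {p q : ℂ} {Y : ℝ} (hp : ‖p‖ ≤ Y) (hq : ‖q‖ ≤ Y) : ‖q + p ^ 2‖ ≤ Y + Y ^ 2 := by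
  calc ‖q + p ^ 2‖ ≤ ‖q‖ + ‖p ^ 2‖ := norm_add_le _ _
    _ ≤ Y + Y ^ 2 := by
      rw [norm_pow]
      exact add_le_add hq (pow_le_pow_left₀ (norm_nonneg _) hp 2)

lemma bm {p q : ℂ} {A B : ℝ} (hp : ‖p‖ ≤ A) (hq : ‖q‖ ≤ B) : ‖p * q‖ ≤ A * B := by
  rw [norm_mul]
  exact mul_le_mul hp hq (norm_nonneg _) ((norm_nonneg _).trans hp)

lemma bs {p q : ℂ} {A B : ℝ} (hp : ‖p‖ ≤ A) (hq : ‖q‖ ≤ B) : ‖p - q‖ ≤ A + B :=
  (norm_sub_le _ _).trans (add_le_add hp hq)

lemma ba {p q : ℂ} {A B : ℝ} (hp : ‖p‖ ≤ A) (hq : ‖q‖ ≤ B) : ‖p + q‖ ≤ A + B :=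
  (norm_add_le _ _).trans (add_le_add hp hq)

end Cartan

theorem Cartan_proof : S_Cartan := by
  intro u v h z Y hY hu hv hh hh0 h1 h2 h3 h4 h5 h6
  obtain ⟨e1, e2⟩ := Cartan.derivs hu hv hh
  have e0 : h z = 1 + Complex.exp (u z) + Complex.exp (v z) := hh.self_of_nhds
  have hhn : 0 < ‖h z‖ := norm_pos_iff.2 hh0
  -- quotients
  obtain ⟨r1, hr1⟩ : ∃ r, r = deriv h z / h z := ⟨_, rfl⟩
  obtain ⟨r2, hr2⟩ : ∃ r, r = deriv (deriv h) z / h z := ⟨_, rfl⟩
  rw [← hr1] at h5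
  rw [← hr2] at h6
  have d1 : deriv h z = h z * r1 := by rw [hr1]; field_simp
  have d2 : deriv (deriv h) z = h z * r2 := by rw [hr2]; field_simp
  have hW : WW u v z = deriv u z * (deriv (deriv v) z + deriv v z ^ 2)
      - (deriv (deriv u) z + deriv u z ^ 2) * deriv v z := by
    unfold WW; ring
  obtain ⟨U, hU⟩ : ∃ U, U = deriv (deriv u) z + deriv u z ^ 2 := ⟨_, rfl⟩
  obtain ⟨W, hWd⟩ : ∃ W, W = deriv (deriv v) z + deriv v z ^ 2 := ⟨_, rfl⟩
  have bU : ‖U‖ ≤ Y + Y ^ 2 := by rw [hU]; exact Cartan.bU h1 h3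
  have bW : ‖W‖ ≤ Y + Y ^ 2 := by rw [hWd]; exact Cartan.bU h2 h4
  rw [← hU, ← hWd] at e2 hW
  rw [d1] at e1
  rw [d2] at e2
  have hY2 : Y ^ 2 ≤ Y ^ 3 := pow_le_pow_right₀ hY (by norm_num)
  have hY3 : 0 ≤ Y ^ 3 := by positivity
  have hsz : sz u v z = max 0 (max (u z).re (v z).re) := rfl
  rcases le_total (max (u z).re (v z).re) 0 with hc | hc
  · -- the maximum is one
    rw [hsz, max_eq_left hc, Real.exp_zero, one_mul]
    have key : WW u v z = h z * ((deriv u z * W - deriv v z * U) - (r1 * W - deriv v z * r2)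
        + (r1 * U - deriv u z * r2)) := by
      rw [hW]
      linear_combination (-(deriv u z * W - deriv v z * U)) * e0 + (W - U) * e1
        + (deriv u z - deriv v z) * e2
    rw [key, norm_mul]
    have hb : ‖(deriv u z * W - deriv v z * U) - (r1 * W - deriv v z * r2)
        + (r1 * U - deriv u z * r2)‖ ≤ 16 * Y ^ 3 := by
      refine (Cartan.ba (Cartan.bs (Cartan.bs (Cartan.bm h1 bW) (Cartan.bm h2 bU))
        (Cartan.bs (Cartan.bm h5 bW) (Cartan.bm h2 h6)))
        (Cartan.bs (Cartan.bm h5 bU) (Cartan.bm h1 h6))).trans ?_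
      nlinarith
    calc ‖h z‖ * _ ≤ ‖h z‖ * (16 * Y ^ 3) := mul_le_mul_of_nonneg_left hb hhn.le
      _ = 16 * Y ^ 3 * ‖h z‖ := by ring
  · rw [hsz, max_eq_right hc]
    rcases le_total (v z).re (u z).re with hd | hd
    · -- the maximum is `|exp u|`
      rw [max_eq_left hd, ← Complex.norm_exp, ← norm_mul]
      have key : Complex.exp (u z) * WW u v z = h z * (r1 * W - r2 * deriv v z) := by
        rw [hW]
        linear_combination (-W) * e1 + deriv v z * e2
      rw [key, norm_mul]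
      have hb : ‖r1 * W - r2 * deriv v z‖ ≤ 16 * Y ^ 3 := by
        refine (Cartan.bs (Cartan.bm h5 bW) (Cartan.bm h6 h2)).trans ?_
        nlinarith
      calc ‖h z‖ * _ ≤ ‖h z‖ * (16 * Y ^ 3) := mul_le_mul_of_nonneg_left hb hhn.le
        _ = 16 * Y ^ 3 * ‖h z‖ := by ring
    · rw [max_eq_right hd, ← Complex.norm_exp, ← norm_mul]
      have key : Complex.exp (v z) * WW u v z = h z * (deriv u z * r2 - U * r1) := by
        rw [hW]
        linear_combination (-deriv u z) * e2 + U * e1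
      rw [key, norm_mul]
      have hb : ‖deriv u z * r2 - U * r1‖ ≤ 16 * Y ^ 3 := by
        refine (Cartan.bs (Cartan.bm h1 h6) (Cartan.bm bU h5)).trans ?_
        nlinarith
      calc ‖h z‖ * _ ≤ ‖h z‖ * (16 * Y ^ 3) := mul_le_mul_of_nonneg_left hb hhn.le
        _ = 16 * Y ^ 3 * ‖h z‖ := by ring

end

end Pool.Agent.Work.MP_6d7a54_an.UP
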