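import Pool.Agent.Work.MP_6d7a54_an.UP.Defs

/-!
# Item CaseI: end of case I
-/

set_option autoImplicit false

namespace Pool.Agent.Work.MP_6d7a54_an.UP

open Complex Metric Set

namespace CaseI

lemma norm_log_le {z : ℂ} {c K : ℝ} (hc : 0 < c) (h1 : c ≤ ‖z‖) (h2 : ‖z‖ ≤ K) :
    ‖Complex.log z‖ ≤ |Real.log c| + |Real.log K| + Real.pi := by
  have hz : 0 < ‖z‖ := hc.trans_le h1
  refine (Complex.norm_le_abs_re_add_abs_im _).trans ?_
  rw [Complex.log_re, Complex.log_im]
  have h3 : |Real.log ‖z‖| ≤ |Real.log c| + |Real.log K| := by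
    have h4 : Real.log c ≤ Real.log ‖z‖ := Real.log_le_log hc h1
    have h5 : Real.log ‖z‖ ≤ Real.log K := Real.log_le_log hz h2
    rw [abs_le]
    have h6 := neg_abs_le (Real.log c)
    have h7 := le_abs_self (Real.log K)
    have h8 := abs_nonneg (Real.log c)
    have h9 := abs_nonneg (Real.log K)
    constructor <;> linarith
  have h4 := Complex.abs_arg_le_pi z
  linarith

lemma core (h1 : S_Landau) (m : ℕ) (L c K e0 : ℝ) (hm : 2 ≤ m) (hL : 1 ≤ L) (hc : 0 < c)
    (hK : 0 < K) (he0 : 0 < e0) : ∃ C1 : ℝ, 0 ≤ C1 ∧ ∀ (v e g : ℂ → ℂ) (A B : ℂ),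
      DifferentiableOn ℂ v (ball 0 e0) → DifferentiableOn ℂ e (ball 0 e0) →
      DifferentiableOn ℂ g (ball 0 e0) → c ≤ ‖A‖ → ‖A‖ ≤ K → c ≤ ‖B‖ → ‖B‖ ≤ K → e 0 = 0 →
      (∀ z ∈ ball (0 : ℂ) e0, ‖e z‖ ≤ c / 2) → ‖deriv e 0‖ ≤ c →
      (∀ z ∈ ball (0 : ℂ) e0, A + e z + B * Complex.exp (v z) = g z ^ m) → ‖v 0‖ ≤ L →
      c ≤ ‖A + B * Complex.exp (v 0)‖ → ‖deriv v 0‖ ≤ C1 := by
  set L' : ℝ := L + 2 * (|Real.log c| + |Real.log K| + Real.pi) + K / c with hL'
  have hKc : 0 < K / c := by positivity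
  have hpi := Real.pi_pos
  have hL'1 : 1 ≤ L' := by
    have h8 := abs_nonneg (Real.log c)
    have h9 := abs_nonneg (Real.log K)
    rw [hL']
    linarith
  obtain ⟨C, hC, hLan⟩ := h1 m L' hm hL'1
  refine ⟨C / e0 + 1, by positivity, ?_⟩
  intro v e g A B hv he hg hA1 hA2 hB1 hB2 e00 hes hed heq hv0 hAB
  have hA0 : A ≠ 0 := norm_pos_iff.1 (hc.trans_le hA1)
  have hB0 : B ≠ 0 := norm_pos_iff.1 (hc.trans_le hB1)
  have hm0 : (m : ℂ) ≠ 0 := by
    have : m ≠ 0 := by omega
    exact_mod_cast this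
  have hmem : (0 : ℂ) ∈ ball (0 : ℂ) e0 := mem_ball_self he0
  have hsl : ∀ z ∈ ball (0 : ℂ) e0, 1 + e z / A ∈ slitPlane := by
    intro z hz
    apply Complex.mem_slitPlane_of_norm_lt_one
    rw [norm_div, div_lt_one (hc.trans_le hA1)]
    have := hes z hz
    linarith
  set l : ℂ → ℂ := fun z => Complex.log A + Complex.log (1 + e z / A) with hl
  have hexpl : ∀ z ∈ ball (0 : ℂ) e0, Complex.exp (l z) = A + e z := by
    intro z hz
    change Complex.exp (Complex.log A + Complex.log (1 + e z / A)) = A + e z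
    rw [Complex.exp_add, Complex.exp_log hA0, Complex.exp_log (slitPlane_ne_zero (hsl z hz))]
    field_simp
  have hld : DifferentiableOn ℂ l (ball 0 e0) := by
    refine DifferentiableOn.const_add _ ?_
    exact DifferentiableOn.clog ((he.div_const A).const_add 1) hsl
  set w : ℂ → ℂ := fun z => v z + Complex.log B - l z with hw
  set k : ℂ → ℂ := fun z => g z * Complex.exp (-(l z) / m) with hk
  have hwd : DifferentiableOn ℂ w (ball 0 e0) := (hv.add_const _).sub hld
  have hkd : DifferentiableOn ℂ k (ball 0 e0) := hg.mul ((hld.neg.div_const _).cexp)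
  have hwk : ∀ z ∈ ball (0 : ℂ) e0, 1 + Complex.exp (w z) = k z ^ m := by
    intro z hz
    have h2 := hexpl z hz
    have h3 : A + e z ≠ 0 := by
      rw [← h2]
      exact Complex.exp_ne_zero _
    change 1 + Complex.exp (v z + Complex.log B - l z) = (g z * Complex.exp (-(l z) / m)) ^ m
    rw [Complex.exp_sub, Complex.exp_add, Complex.exp_log hB0, h2, mul_pow, ← heq z hz,
      ← Complex.exp_nat_mul]
    have h4 : (m : ℂ) * (-(l z) / m) = -(l z) := by field_simp
    rw [h4, Complex.exp_neg, h2]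
    field_simp
  have hl0 : l 0 = Complex.log A := by
    change Complex.log A + Complex.log (1 + e 0 / A) = _
    rw [e00, zero_div, add_zero, Complex.log_one, add_zero]
  have hw0 : ‖w 0‖ ≤ L' := by
    change ‖v 0 + Complex.log B - l 0‖ ≤ L'
    rw [hl0]
    have h2 := norm_log_le hc hA1 hA2
    have h3 := norm_log_le hc hB1 hB2
    calc ‖v 0 + Complex.log B - Complex.log A‖ ≤ ‖v 0‖ + ‖Complex.log B‖ + ‖Complex.log A‖ :=
          (norm_sub_le _ _).trans (add_le_add_left (norm_add_le _ _) _)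
      _ ≤ L' := by rw [hL']; linarith
  have hw1 : L'⁻¹ ≤ ‖1 + Complex.exp (w 0)‖ := by
    have h2 : 1 + Complex.exp (w 0) = (A + B * Complex.exp (v 0)) / A := by
      change 1 + Complex.exp (v 0 + Complex.log B - l 0) = _
      rw [hl0, Complex.exp_sub, Complex.exp_add, Complex.exp_log hB0, Complex.exp_log hA0]
      field_simp
    rw [h2, norm_div]
    calc L'⁻¹ ≤ (K / c)⁻¹ := by
          refine inv_anti₀ hKc ?_
          have h8 := abs_nonneg (Real.log c)
          have h9 := abs_nonneg (Real.log K)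
          rw [hL']
          linarith
      _ = c / K := inv_div _ _
      _ ≤ _ := div_le_div₀ (norm_nonneg _) hAB (hc.trans_le hA1) hA2
  have h2 := hLan w k e0 he0 hwd hkd hwk hw0 hw1
  have hvd : DifferentiableAt ℂ v 0 := (hv 0 hmem).differentiableAt (isOpen_ball.mem_nhds hmem)
  have hed' : HasDerivAt e (deriv e 0) 0 :=
    ((he 0 hmem).differentiableAt (isOpen_ball.mem_nhds hmem)).hasDerivAt
  have hld0 : HasDerivAt l (deriv e 0 / A) 0 := by
    have h3 : HasDerivAt (fun z => 1 + e z / A) (deriv e 0 / A) 0 :=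
      (hed'.div_const A).const_add 1
    have h4 := (h3.clog (hsl 0 hmem)).const_add (Complex.log A)
    rw [e00, zero_div, add_zero, div_one] at h4
    exact h4
  have hwd0 : HasDerivAt w (deriv v 0 - deriv e 0 / A) 0 :=
    (hvd.hasDerivAt.add_const _).sub hld0
  rw [hwd0.deriv] at h2
  have h3 : ‖deriv e 0 / A‖ ≤ 1 := by
    rw [norm_div, div_le_one (hc.trans_le hA1)]
    exact hed.trans hA1
  have h4 : ‖deriv v 0‖ ≤ ‖deriv v 0 - deriv e 0 / A‖ + ‖deriv e 0 / A‖ := by
    have := norm_add_le (deriv v 0 - deriv e 0 / A) (deriv e 0 / A)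
    rwa [sub_add_cancel] at this
  linarith

end CaseI

open CaseI in
theorem CaseI_proof (h1 : S_Landau) : S_CaseI := by
  intro m L e0 hm hL he0 he8
  set d : ℝ := Real.exp (-L) / (2 * L) with hd
  have hL0 : 0 < L := by linarith
  have hd0 : 0 < d := by positivity
  have hexpL : Real.exp (-L) ≤ 1 := Real.exp_le_one_iff.2 (by linarith)
  have hdL : d * (2 * L) = Real.exp (-L) := by
    rw [hd]
    field_simp
  have hd2 : d ≤ 1 / 2 := by
    rw [hd, div_le_iff₀ (by positivity)]
    nlinarith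
  have hEL : 1 ≤ Real.exp L := Real.one_le_exp hL0.le
  have hEE : Real.exp L * Real.exp (-L) = 1 := by
    rw [← Real.exp_add, add_neg_cancel, Real.exp_zero]
  have hinv : L⁻¹ = 2 * (d * Real.exp L) := by
    have : d * Real.exp L * (2 * L) = 1 := by
      calc d * Real.exp L * (2 * L) = Real.exp L * (d * (2 * L)) := by ring
        _ = 1 := by rw [hdL, hEE]
    field_simp
    linarith
  have hdE : d ≤ d * Real.exp L := le_mul_of_one_le_right hd0.le hEL
  obtain ⟨C1, hC1, hcore⟩ := core h1 m L d (1 + 2 * Real.exp L) e0 (by omega) hL hd0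
    (by positivity) he0
  refine ⟨d / 2, C1 + (1 + Real.exp L * C1) * Real.exp L, by positivity, by positivity, ?_⟩
  intro u v q lam hD hB hlam hs
  have hsub : ball (0 : ℂ) e0 ⊆ ball 0 1 := ball_subset_ball (by linarith)
  have hmem : (0 : ℂ) ∈ ball (0 : ℂ) e0 := mem_ball_self he0
  have hmem1 : (0 : ℂ) ∈ ball (0 : ℂ) 1 := mem_ball_self one_pos
  have ha : ∀ z ∈ ball (0 : ℂ) 1,
      HasDerivAt (fun z => Complex.exp (u z)) (deriv u z * Complex.exp (u z)) z := by
    intro z hz
    have := (((hD.hu z hz).differentiableAt (isOpen_ball.mem_nhds hz)).hasDerivAt).cexp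
    rwa [mul_comm] at this
  have hb : ∀ z ∈ ball (0 : ℂ) 1,
      HasDerivAt (fun z => Complex.exp (v z)) (deriv v z * Complex.exp (v z)) z := by
    intro z hz
    have := (((hD.hv z hz).differentiableAt (isOpen_ball.mem_nhds hz)).hasDerivAt).cexp
    rwa [mul_comm] at this
  set a0 : ℂ := Complex.exp (u 0) with ha0
  set b0 : ℂ := Complex.exp (v 0) with hb0
  set mu : ℂ := a0 - lam * b0 with hmu
  set e : ℂ → ℂ := fun z => Complex.exp (u z) - lam * Complex.exp (v z) - mu with he
  have hed : ∀ z ∈ ball (0 : ℂ) 1, HasDerivAt e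
      (deriv u z * Complex.exp (u z) - lam * (deriv v z * Complex.exp (v z))) z :=
    fun z hz => ((ha z hz).sub ((hb z hz).const_mul lam)).sub_const _
  have he00 : e 0 = 0 := by
    change a0 - lam * b0 - mu = 0
    rw [hmu, sub_self]
  have heD : DifferentiableOn ℂ e (ball 0 e0) := fun z hz =>
    (hed z (hsub hz)).differentiableAt.differentiableWithinAt
  have hdn : ∀ z ∈ ball (0 : ℂ) e0, ‖deriv e z‖ ≤ d / 2 := by
    intro z hz
    rw [(hed z (hsub hz)).deriv]
    refine hs z ?_
    rw [mem_ball_zero_iff] at hz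
    exact hz.le
  have hes : ∀ z ∈ ball (0 : ℂ) e0, ‖e z‖ ≤ d / 2 := by
    intro z hz
    have h2 := (convex_ball (0 : ℂ) e0).norm_image_sub_le_of_norm_deriv_le
      (f := e) (C := d / 2) (fun x hx => (hed x (hsub hx)).differentiableAt) hdn hmem hz
    rw [he00, sub_zero, sub_zero] at h2
    rw [mem_ball_zero_iff] at hz
    refine h2.trans ?_
    have : d / 2 * ‖z‖ ≤ d / 2 * 1 := mul_le_mul_of_nonneg_left (by linarith) (by positivity)
    linarith
  have hed0 : ‖deriv e 0‖ ≤ d := (hdn 0 hmem).trans (by linarith)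
  -- bounds at the base point
  have hre : ∀ x : ℂ, ‖x‖ ≤ L → ‖Complex.exp x‖ ≤ Real.exp L ∧ Real.exp (-L) ≤ ‖Complex.exp x‖ := by
    intro x hx
    rw [Complex.norm_exp]
    have h2 := (abs_le.1 ((Complex.abs_re_le_norm x).trans hx))
    exact ⟨Real.exp_le_exp.2 h2.2, Real.exp_le_exp.2 h2.1⟩
  obtain ⟨ha1, ha2⟩ := hre _ hB.nu
  obtain ⟨hb1, hb2⟩ := hre _ hB.nv
  rw [← ha0] at ha1 ha2
  rw [← hb0] at hb1 hb2
  have hmuK : ‖mu‖ ≤ 2 * Real.exp L := by
    calc ‖mu‖ ≤ ‖a0‖ + ‖lam * b0‖ := norm_sub_le _ _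
      _ ≤ Real.exp L + 1 * Real.exp L := by
          rw [norm_mul]
          exact add_le_add ha1 (mul_le_mul hlam hb1 (norm_nonneg _) zero_le_one)
      _ = _ := by ring
  have hvb : ‖deriv v 0‖ ≤ C1 := by
    by_cases hcase : d ≤ ‖lam‖ ∧ d ≤ ‖mu‖
    · refine hcore v e (fun z => Complex.exp (u z / m)) mu lam (hD.hv.mono hsub) heD
        (((hD.hu.mono hsub).div_const _).cexp) hcase.2 (by linarith) hcase.1 (by linarith) he00
        hes hed0 ?_ hB.nv ?_
      swap
      · have h2 : mu + lam * Complex.exp (v 0) = a0 := by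
          rw [hmu, ← hb0]
          ring
        rw [h2]
        refine le_trans ?_ ha2
        rw [hd, div_le_iff₀ (by positivity)]
        have := Real.exp_pos (-L)
        nlinarith
      intro z hz
      change mu + (Complex.exp (u z) - lam * Complex.exp (v z) - mu) + lam * Complex.exp (v z) =
        Complex.exp (u z / m) ^ m
      rw [← Complex.exp_nat_mul]
      have hm0 : (m : ℂ) ≠ 0 := by
        have : m ≠ 0 := by omega
        exact_mod_cast this
      have h4 : (m : ℂ) * (u z / m) = u z := by field_simp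
      rw [h4]
      ring
    · have h2 : d ≤ ‖1 + mu‖ ∧ d ≤ ‖1 + lam‖ := by
        by_cases hl : ‖lam‖ < d
        · constructor
          · have h3 : 1 + mu = (1 + a0) - lam * b0 := by rw [hmu]; ring
            have h4 := norm_sub_norm_le (1 + a0) (lam * b0)
            rw [← h3] at h4
            have h5 := hB.h1.1
            have h6 : ‖lam * b0‖ ≤ d * Real.exp L := by
              rw [norm_mul]
              exact mul_le_mul hl.le hb1 (norm_nonneg _) hd0.le
            linarith
          · have h4 := norm_sub_norm_le (1 : ℂ) (-lam)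
            rw [sub_neg_eq_add, norm_neg, norm_one] at h4
            linarith
        · have hm' : ‖mu‖ < d := by
            by_contra hcon
            exact hcase ⟨not_lt.1 hl, not_lt.1 hcon⟩
          constructor
          · have h4 := norm_sub_norm_le (1 : ℂ) (-mu)
            rw [sub_neg_eq_add, norm_neg, norm_one] at h4
            linarith
          · have h3 : (1 + lam) * b0 = (a0 + b0) - mu := by rw [hmu]; ring
            have h4 := norm_sub_norm_le (a0 + b0) mu
            rw [← h3, norm_mul] at h4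
            have h5 := hB.h3.1
            have h6 : d * Real.exp L ≤ ‖1 + lam‖ * ‖b0‖ := by linarith
            have h7 : ‖1 + lam‖ * ‖b0‖ ≤ ‖1 + lam‖ * Real.exp L :=
              mul_le_mul_of_nonneg_left hb1 (norm_nonneg _)
            exact le_of_mul_le_mul_right (h6.trans h7) (by positivity)
      refine hcore v e q (1 + mu) (1 + lam) (hD.hv.mono hsub) heD (hD.hq.mono hsub) h2.1 ?_ h2.2
        ?_ he00 hes hed0 ?_ hB.nv ?_
      · have := norm_add_le (1 : ℂ) mu
        rw [norm_one] at this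
        linarith
      · have := norm_add_le (1 : ℂ) lam
        rw [norm_one] at this
        linarith
      · intro z hz
        rw [← hD.heq z (hsub hz)]
        change 1 + mu + (Complex.exp (u z) - lam * Complex.exp (v z) - mu) +
          (1 + lam) * Complex.exp (v z) = _
        ring
      · have h3 : 1 + mu + (1 + lam) * Complex.exp (v 0) =
            1 + Complex.exp (u 0) + Complex.exp (v 0) := by
          rw [hmu, hb0, ha0]
          ring
        rw [h3]
        refine le_trans ?_ hB.h4.1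
        linarith
  have hub : ‖deriv u 0‖ ≤ (1 + Real.exp L * C1) * Real.exp L := by
    have h2 := (hed 0 hmem1).deriv
    have h3 : deriv u 0 * a0 = deriv e 0 + lam * (deriv v 0 * b0) := by
      rw [h2]
      ring
    have h4 : ‖deriv u 0‖ * ‖a0‖ ≤ 1 + Real.exp L * C1 := by
      rw [← norm_mul, h3]
      refine (norm_add_le _ _).trans (add_le_add (hed0.trans (by linarith)) ?_)
      rw [norm_mul, norm_mul]
      calc ‖lam‖ * (‖deriv v 0‖ * ‖b0‖) ≤ 1 * (C1 * Real.exp L) :=
            mul_le_mul hlam (mul_le_mul hvb hb1 (norm_nonneg _) hC1) (by positivity) zero_le_one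
        _ = _ := by ring
    have h5 : ‖deriv u 0‖ * Real.exp (-L) ≤ 1 + Real.exp L * C1 :=
      (mul_le_mul_of_nonneg_left ha2 (norm_nonneg _)).trans h4
    calc ‖deriv u 0‖ = ‖deriv u 0‖ * Real.exp (-L) * Real.exp L := by
          rw [mul_assoc, mul_comm (Real.exp (-L)), hEE, mul_one]
      _ ≤ _ := mul_le_mul_of_nonneg_right h5 (by positivity)
  linarith

end Pool.Agent.Work.MP_6d7a54_an.UP
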