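import Pool.Agent.Work.MP_6d7a54_an.UP.Defs

/-!
# Case II: `u'` is tiny
-/

set_option autoImplicit false

namespace Pool.Agent.Work.MP_6d7a54_an.UP

open Complex Metric Real Set

namespace CaseII

/-- the quotient `(1 + exp u) / (1 + exp (u 0))` -/
noncomputable def xx (u : ℂ → ℂ) (z : ℂ) : ℂ :=
  (1 + Complex.exp (u z)) / (1 + Complex.exp (u 0))

/-- a logarithm of `1 + exp u` -/
noncomputable def ll (u : ℂ → ℂ) (z : ℂ) : ℂ :=
  Complex.log (1 + Complex.exp (u 0)) + Complex.log (xx u z)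

lemma u_close {u : ℂ → ℂ} {e0 eps : ℝ} (hu : DifferentiableOn ℂ u (ball 0 1)) (he : 0 < e0)
    (he1 : e0 ≤ 1 / 8) (h : ∀ z : ℂ, ‖z‖ ≤ e0 → ‖deriv u z‖ ≤ eps) {z : ℂ}
    (hz : ‖z‖ ≤ e0) : ‖u z - u 0‖ ≤ eps * e0 := by
  have heps : 0 ≤ eps := (norm_nonneg _).trans (h 0 (by simpa using he.le))
  have h1 : ∀ x ∈ closedBall (0 : ℂ) e0, DifferentiableAt ℂ u x := by
    intro x hx
    refine hu.differentiableAt (isOpen_ball.mem_nhds ?_)
    rw [mem_ball_zero_iff]
    rw [mem_closedBall_zero_iff] at hx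
    linarith
  have h2 : ∀ x ∈ closedBall (0 : ℂ) e0, ‖deriv u x‖ ≤ eps := by
    intro x hx
    rw [mem_closedBall_zero_iff] at hx
    exact h x hx
  have h0 : (0 : ℂ) ∈ closedBall (0 : ℂ) e0 := mem_closedBall_self he.le
  have h3 := (convex_closedBall (0 : ℂ) e0).norm_image_sub_le_of_norm_deriv_le h1 h2
    h0 (mem_closedBall_zero_iff.2 hz)
  rw [sub_zero] at h3
  exact h3.trans (mul_le_mul_of_nonneg_left hz heps)

lemma x_close {u : ℂ → ℂ} {L e0 eps : ℝ} (hL : 1 ≤ L) (hu0 : ‖u 0‖ ≤ L)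
    (h1 : Tame L (1 + Complex.exp (u 0))) (he : 0 < e0) (he1 : e0 ≤ 1 / 8) (heps : 0 < eps)
    (heps1 : eps ≤ Real.exp (-L) / L) {z : ℂ} (hz : ‖u z - u 0‖ ≤ eps * e0) :
    ‖xx u z - 1‖ ≤ 1 / 2 := by
  have hL0 : 0 < L := by linarith
  have hE : 0 < Real.exp L := Real.exp_pos L
  have hepsL : eps * (L * Real.exp L) ≤ 1 := by
    have : eps * (L * Real.exp L) ≤ Real.exp (-L) / L * (L * Real.exp L) :=
      mul_le_mul_of_nonneg_right heps1 (by positivity)
    refine this.trans (le_of_eq ?_)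
    rw [Real.exp_neg]
    field_simp
  have hden : 0 < ‖1 + Complex.exp (u 0)‖ := lt_of_lt_of_le (inv_pos.2 hL0) h1.1
  have hne : 1 + Complex.exp (u 0) ≠ 0 := norm_pos_iff.1 hden
  have e1 : xx u z - 1 = (Complex.exp (u 0) * (Complex.exp (u z - u 0) - 1)) /
      (1 + Complex.exp (u 0)) := by
    unfold xx
    rw [Complex.exp_sub]
    have := Complex.exp_ne_zero (u 0)
    field_simp
    ring
  have hsmall : ‖u z - u 0‖ ≤ 1 := by
    have h2 : eps ≤ 1 := by
      have h3 : 1 ≤ L * Real.exp L := by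
        have : 1 ≤ Real.exp L := Real.one_le_exp hL0.le
        nlinarith
      nlinarith
    nlinarith
  have e2 : ‖Complex.exp (u z - u 0) - 1‖ ≤ 2 * (eps * e0) :=
    (Complex.norm_exp_sub_one_le hsmall).trans (by linarith)
  have e3 : ‖Complex.exp (u 0)‖ ≤ Real.exp L := by
    rw [Complex.norm_exp]
    exact Real.exp_le_exp.2 ((Complex.re_le_norm _).trans hu0)
  rw [e1, norm_div, norm_mul, div_le_iff₀ hden]
  have e4 : ‖Complex.exp (u 0)‖ * ‖Complex.exp (u z - u 0) - 1‖ ≤ Real.exp L * (2 * (eps * e0)) :=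
    mul_le_mul e3 e2 (norm_nonneg _) hE.le
  have e5 : Real.exp L * (2 * (eps * e0)) ≤ 1 / 4 * L⁻¹ := by
    have h5 : (eps * (L * Real.exp L)) * (2 * e0) ≤ 1 * (1 / 4) := by
      apply mul_le_mul hepsL (by linarith) (by positivity) (by norm_num)
    have h6 : Real.exp L * (2 * (eps * e0)) = ((eps * (L * Real.exp L)) * (2 * e0)) * L⁻¹ := by
      field_simp
    rw [h6]
    have : 0 < L⁻¹ := inv_pos.2 hL0
    nlinarith
  have e6 := h1.1
  have : 0 < L⁻¹ := inv_pos.2 hL0
  nlinarith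

lemma mem_slit {x : ℂ} (h : ‖x - 1‖ ≤ 1 / 2) : x ∈ Complex.slitPlane := by
  left
  have h1 : |(x - 1).re| ≤ 1 / 2 := (Complex.abs_re_le_norm _).trans h
  rw [Complex.sub_re, Complex.one_re] at h1
  linarith [(abs_le.1 h1).1]

end CaseII

open CaseII in
theorem CaseII_proof (h1 : S_Landau) : S_CaseII := by
  intro m L e0 hm hL he he1
  have hL0 : 0 < L := by linarith
  have hm0 : (m : ℂ) ≠ 0 := by
    have : m ≠ 0 := by omega
    exact_mod_cast this
  obtain ⟨C, hC, hC'⟩ := h1 m (L ^ 2 + 2 * L + 4) (by omega) (by nlinarith)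
  have hepspos : 0 < Real.exp (-L) / L := by positivity
  refine ⟨Real.exp (-L) / L, C / e0 + 1, hepspos, by positivity, ?_⟩
  intro u v q hD hB hder
  have hxc : ∀ z : ℂ, ‖z‖ ≤ e0 → ‖xx u z - 1‖ ≤ 1 / 2 := fun z hz =>
    x_close hL hB.nu hB.h1 he he1 hepspos le_rfl (u_close hD.hu he he1 hder hz)
  have hden : 0 < ‖1 + Complex.exp (u 0)‖ := lt_of_lt_of_le (inv_pos.2 hL0) hB.h1.1
  have hne : 1 + Complex.exp (u 0) ≠ 0 := norm_pos_iff.1 hden
  have hsub : ball (0 : ℂ) e0 ⊆ ball 0 1 := ball_subset_ball (by linarith)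
  have hexpl : ∀ z ∈ ball (0 : ℂ) e0, Complex.exp (ll u z) = 1 + Complex.exp (u z) := by
    intro z hz
    rw [mem_ball_zero_iff] at hz
    have hx := mem_slit (hxc z hz.le)
    unfold ll
    rw [Complex.exp_add, Complex.exp_log hne, Complex.exp_log (Complex.slitPlane_ne_zero hx)]
    unfold xx
    field_simp
  have hne1 : ∀ z ∈ ball (0 : ℂ) e0, 1 + Complex.exp (u z) ≠ 0 := fun z hz => by
    rw [← hexpl z hz]; exact Complex.exp_ne_zero _
  have hdxx : ∀ z ∈ ball (0 : ℂ) e0, HasDerivAt (xx u)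
      (Complex.exp (u z) * deriv u z / (1 + Complex.exp (u 0))) z := by
    intro z hz
    have h2 : HasDerivAt u (deriv u z) z :=
      (hD.hu.differentiableAt (isOpen_ball.mem_nhds (hsub hz))).hasDerivAt
    exact ((h2.cexp).const_add 1).div_const _
  have hdll : ∀ z ∈ ball (0 : ℂ) e0, HasDerivAt (ll u)
      (Complex.exp (u z) * deriv u z / (1 + Complex.exp (u 0)) / xx u z) z := by
    intro z hz
    have hz' := mem_ball_zero_iff.1 hz
    exact ((hdxx z hz).clog (mem_slit (hxc z hz'.le))).const_add _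
  have hdlo : DifferentiableOn ℂ (ll u) (ball 0 e0) :=
    fun z hz => (hdll z hz).differentiableAt.differentiableWithinAt
  have h0mem : (0 : ℂ) ∈ ball (0 : ℂ) e0 := mem_ball_self he
  have key := hC' (fun z => v z - ll u z) (fun z => q z * Complex.exp (-(ll u z) / m)) e0 he
    ((hD.hv.mono hsub).sub hdlo)
    ((hD.hq.mono hsub).mul ((hdlo.neg.div_const _).cexp)) ?_ ?_ ?_
  · -- conclusion
    have hv0 : HasDerivAt v (deriv v 0) 0 :=
      (hD.hv.differentiableAt (isOpen_ball.mem_nhds (hsub h0mem))).hasDerivAt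
    have hw := (hv0.sub (hdll 0 h0mem)).deriv
    have hx0 : xx u 0 = 1 := div_self hne
    have e1 : deriv (fun z => v z - ll u z) 0 = deriv v 0 -
        Complex.exp (u 0) * deriv u 0 / (1 + Complex.exp (u 0)) / xx u 0 := hw
    rw [e1, hx0, div_one] at key
    have e2 : ‖Complex.exp (u 0) * deriv u 0 / (1 + Complex.exp (u 0))‖ ≤ 1 := by
      rw [norm_div, norm_mul, div_le_one hden]
      have e3 : ‖Complex.exp (u 0)‖ ≤ Real.exp L := by
        rw [Complex.norm_exp]
        exact Real.exp_le_exp.2 ((Complex.re_le_norm _).trans hB.nu)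
      have e4 : ‖deriv u 0‖ ≤ Real.exp (-L) / L := hder 0 (by simpa using he.le)
      calc ‖Complex.exp (u 0)‖ * ‖deriv u 0‖ ≤ Real.exp L * (Real.exp (-L) / L) :=
            mul_le_mul e3 e4 (norm_nonneg _) (Real.exp_pos _).le
        _ = L⁻¹ := by
            rw [Real.exp_neg]
            have := Real.exp_ne_zero L
            field_simp
        _ ≤ ‖1 + Complex.exp (u 0)‖ := hB.h1.1
    calc ‖deriv v 0‖ = ‖(deriv v 0 - Complex.exp (u 0) * deriv u 0 / (1 + Complex.exp (u 0)))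
          + Complex.exp (u 0) * deriv u 0 / (1 + Complex.exp (u 0))‖ := by ring_nf
      _ ≤ _ := norm_add_le _ _
      _ ≤ C / e0 + 1 := add_le_add key e2
  · -- the equation
    intro z hz
    have hm1 : m ≠ 0 := by omega
    rw [mul_pow, ← Complex.exp_nat_mul, mul_div_cancel₀ _ hm0, Complex.exp_neg, Complex.exp_sub,
      hexpl z hz, ← hD.heq z (hsub hz)]
    have := hne1 z hz
    field_simp
  · -- the base point
    have hx0 : xx u 0 = 1 := div_self hne
    have e1 : ll u 0 = Complex.log (1 + Complex.exp (u 0)) := by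
      unfold ll
      rw [hx0, Complex.log_one, add_zero]
    rw [e1]
    have e2 : ‖Complex.log (1 + Complex.exp (u 0))‖ ≤ L + 4 := by
      have e3 : ‖Complex.log (1 + Complex.exp (u 0))‖ ≤
          |(Complex.log (1 + Complex.exp (u 0))).re| + |(Complex.log (1 + Complex.exp (u 0))).im| :=
        Complex.norm_le_abs_re_add_abs_im _
      rw [Complex.log_re, Complex.log_im] at e3
      have e4 : |Real.log ‖1 + Complex.exp (u 0)‖| ≤ L := by
        rw [abs_le]
        constructor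
        · have h5 : Real.log L⁻¹ ≤ Real.log ‖1 + Complex.exp (u 0)‖ :=
            Real.log_le_log (inv_pos.2 hL0) hB.h1.1
          rw [Real.log_inv] at h5
          have h6 : Real.log L ≤ L - 1 := Real.log_le_sub_one_of_pos hL0
          linarith
        · have h5 : Real.log ‖1 + Complex.exp (u 0)‖ ≤ Real.log L :=
            Real.log_le_log hden hB.h1.2
          have h6 : Real.log L ≤ L - 1 := Real.log_le_sub_one_of_pos hL0
          linarith
      have e5 : |Complex.arg (1 + Complex.exp (u 0))| ≤ 4 :=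
        (Complex.abs_arg_le_pi _).trans Real.pi_le_four
      linarith
    calc ‖v 0 - Complex.log (1 + Complex.exp (u 0))‖
        ≤ ‖v 0‖ + ‖Complex.log (1 + Complex.exp (u 0))‖ := norm_sub_le _ _
      _ ≤ L ^ 2 + 2 * L + 4 := by nlinarith [hB.nv]
  · -- the lower bound
    show (L ^ 2 + 2 * L + 4)⁻¹ ≤ ‖1 + Complex.exp (v 0 - ll u 0)‖
    have e1 : 1 + Complex.exp (v 0 - ll u 0) =
        (1 + Complex.exp (u 0) + Complex.exp (v 0)) / (1 + Complex.exp (u 0)) := by
      rw [Complex.exp_sub, hexpl 0 h0mem]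
      field_simp
    rw [e1, norm_div, le_div_iff₀ hden]
    have e2 : (L ^ 2 + 2 * L + 4)⁻¹ * ‖1 + Complex.exp (u 0)‖ ≤ (L ^ 2 + 2 * L + 4)⁻¹ * L :=
      mul_le_mul_of_nonneg_left hB.h1.2 (by positivity)
    have e3 : (L ^ 2 + 2 * L + 4)⁻¹ * L ≤ L⁻¹ := by
      rw [inv_mul_le_iff₀ (by positivity), ← div_eq_mul_inv, le_div_iff₀ hL0]
      nlinarith
    exact (e2.trans e3).trans hB.h4.1

end Pool.Agent.Work.MP_6d7a54_an.UP
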