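import Pool.Agent.Work.MP_6d7a54_an.UP.Defs

/-!
# Landau type lemma: `1 + exp w = k ^ m`

Classical route: Bloch's theorem (with a poor constant) and Landau's theorem for functions
omitting `0` and `1`, applied to `(k - 1) / (ζ - 1)` with `ζ = exp (2 π i / m)`.
The hypotheses of the item are not used.
-/

set_option autoImplicit false

namespace Pool.Agent.Work.MP_6d7a54_an.UP

open Complex Metric Real Set

namespace Landau

/-- a branch of the logarithm on a disc -/
theorem exists_log {f : ℂ → ℂ} {r : ℝ} (hr : 0 < r) (hf : DifferentiableOn ℂ f (ball 0 r))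
    (h0 : ∀ z ∈ ball (0 : ℂ) r, f z ≠ 0) (y : ℂ) (hy : Complex.exp y = f 0) :
    ∃ g : ℂ → ℂ, DifferentiableOn ℂ g (ball 0 r) ∧ g 0 = y ∧
      ∀ z ∈ ball (0 : ℂ) r, Complex.exp (g z) = f z := by
  have h1 : DifferentiableOn ℂ (fun z => deriv f z / f z) (ball 0 r) :=
    (hf.deriv isOpen_ball).div hf h0
  obtain ⟨g, hg0, hg⟩ := h1.isExactOn_ball.with_val_at 0 y
  refine ⟨g, fun z hz => (hg z hz).differentiableAt.differentiableWithinAt, hg0, ?_⟩
  have hd : ∀ z ∈ ball (0 : ℂ) r,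
      HasDerivAt (fun z => f z * Complex.exp (-g z)) 0 z := by
    intro z hz
    have h2 : HasDerivAt f (deriv f z) z :=
      (hf.differentiableAt (isOpen_ball.mem_nhds hz)).hasDerivAt
    have h3 := h2.mul ((hg z hz).neg.cexp)
    have e : deriv f z * Complex.exp (-g z) + f z * (Complex.exp (-g z) * -(deriv f z / f z)) =
        0 := by
      have := h0 z hz
      field_simp
      ring
    exact (h3.congr_deriv e)
  have hc : ∀ z ∈ ball (0 : ℂ) r, f z * Complex.exp (-g z) = f 0 * Complex.exp (-g 0) := by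
    intro z hz
    refine IsOpen.is_const_of_deriv_eq_zero (f := fun z => f z * Complex.exp (-g z))
      (s := ball (0 : ℂ) r) isOpen_ball (convex_ball _ _).isPreconnected ?_ ?_ hz
      (mem_ball_self hr)
    · exact fun z hz => (hd z hz).differentiableAt.differentiableWithinAt
    · exact fun z hz => (hd z hz).deriv
  intro z hz
  have h4 := hc z hz
  rw [hg0, ← hy, ← Complex.exp_add, add_neg_cancel, Complex.exp_zero, Complex.exp_neg] at h4
  have h5 : Complex.exp (g z) ≠ 0 := Complex.exp_ne_zero _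
  field_simp at h4
  exact h4.symm

/-- Bloch's theorem -/
theorem bloch {f : ℂ → ℂ} {r : ℝ} (hr : 0 < r) (hf : DifferentiableOn ℂ f (ball 0 r)) :
    ∃ w : ℂ, ball w (r * ‖deriv f 0‖ / 96) ⊆ f '' ball 0 r := by
  rcases eq_or_ne (deriv f 0) 0 with h00 | h00
  · exact ⟨0, by rw [h00]; simp⟩
  have hD : 0 < ‖deriv f 0‖ := norm_pos_iff.2 h00
  set R : ℝ := r / 2 with hR
  have hR0 : 0 < R := by positivity
  have hRr : R < r := by rw [hR]; linarith
  have hdd : DifferentiableOn ℂ (deriv f) (ball 0 r) := hf.deriv isOpen_ball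
  have hsub : closedBall (0 : ℂ) R ⊆ ball 0 r := closedBall_subset_ball hRr
  have hcont : ContinuousOn (fun z : ℂ => (R - ‖z‖) * ‖deriv f z‖) (closedBall 0 R) :=
    (continuousOn_const.sub continuous_norm.continuousOn).mul (hdd.continuousOn.mono hsub).norm
  obtain ⟨a, ha, hmax⟩ := (isCompact_closedBall (0 : ℂ) R).exists_isMaxOn
    ⟨0, mem_closedBall_self hR0.le⟩ hcont
  have hmax' : ∀ z : ℂ, ‖z‖ ≤ R → (R - ‖z‖) * ‖deriv f z‖ ≤ (R - ‖a‖) * ‖deriv f a‖ := by
    intro z hz
    exact hmax (by simpa using hz)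
  have hφ0 : R * ‖deriv f 0‖ ≤ (R - ‖a‖) * ‖deriv f a‖ := by
    have := hmax' 0 (by simpa using hR0.le)
    simpa using this
  have haR : ‖a‖ ≤ R := by simpa using ha
  set M : ℝ := ‖deriv f a‖ with hM
  have hpos : 0 < (R - ‖a‖) * M := lt_of_lt_of_le (by positivity) hφ0
  have haR' : 0 < R - ‖a‖ := by
    rcases (sub_nonneg.2 haR).eq_or_lt with h | h
    · rw [← h] at hpos; simp at hpos
    · exact h
  have hM0 : 0 < M := pos_of_mul_pos_right hpos haR'.le
  set t : ℝ := (R - ‖a‖) / 2 with ht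
  have ht0 : 0 < t := by positivity
  have hat : ‖a‖ = R - 2 * t := by rw [ht]; ring
  have hin : ∀ z ∈ closedBall a t, ‖z‖ ≤ R - t := by
    intro z hz
    have h1 : ‖z - a‖ ≤ t := by simpa [dist_eq_norm] using hz
    have h2 : ‖z‖ ≤ ‖z - a‖ + ‖a‖ := by
      calc ‖z‖ = ‖(z - a) + a‖ := by ring_nf
        _ ≤ _ := norm_add_le _ _
    linarith
  have hb2 : ∀ z ∈ closedBall a t, ‖deriv f z‖ ≤ 2 * M := by
    intro z hz
    have h1 := hin z hz
    have h2 := hmax' z (by linarith)
    have h3 : t * ‖deriv f z‖ ≤ (R - ‖z‖) * ‖deriv f z‖ := by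
      apply mul_le_mul_of_nonneg_right _ (norm_nonneg _); linarith
    have h4 : t * ‖deriv f z‖ ≤ t * (2 * M) := by
      calc t * ‖deriv f z‖ ≤ (R - ‖a‖) * M := h3.trans h2
        _ = t * (2 * M) := by rw [ht]; ring
    exact le_of_mul_le_mul_left h4 ht0
  have hballr : ball a t ⊆ ball (0 : ℂ) r := by
    intro z hz
    have := hin z (ball_subset_closedBall hz)
    rw [mem_ball_zero_iff]; linarith
  have hcballr : closedBall a t ⊆ ball (0 : ℂ) r := by
    intro z hz
    have := hin z hz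
    rw [mem_ball_zero_iff]; linarith
  -- Schwarz lemma for the derivative
  have hS : ∀ z ∈ ball a t, ‖deriv f z - deriv f a‖ ≤ 3 * M / t * ‖z - a‖ := by
    intro z hz
    have := Complex.dist_le_div_mul_dist_of_mapsTo_ball (f := deriv f) (c := a) (R₁ := t)
      (R₂ := 3 * M) (hdd.mono hballr) (by
        intro x hx
        rw [mem_closedBall, dist_eq_norm]
        calc ‖deriv f x - deriv f a‖ ≤ ‖deriv f x‖ + ‖deriv f a‖ := norm_sub_le _ _
          _ ≤ 2 * M + M := by
            have := hb2 x (ball_subset_closedBall hx)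
            linarith
          _ = 3 * M := by ring) hz
    simpa [dist_eq_norm] using this
  set s : ℝ := t / 6 with hs
  have hs0 : 0 < s := by positivity
  have hst : s < t := by rw [hs]; linarith
  have hsmall : ∀ z ∈ closedBall a s, ‖deriv f z - deriv f a‖ ≤ M / 2 := by
    intro z hz
    have h1 : ‖z - a‖ ≤ s := by simpa [dist_eq_norm] using hz
    have h2 := hS z (by rw [mem_ball, dist_eq_norm]; linarith)
    calc ‖deriv f z - deriv f a‖ ≤ 3 * M / t * ‖z - a‖ := h2
      _ ≤ 3 * M / t * s := by gcongr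
      _ = M / 2 := by rw [hs]; field_simp; ring
  have hlow : ∀ z ∈ closedBall a s, M / 2 * ‖z - a‖ ≤ ‖f z - f a‖ := by
    intro z hz
    have hder : ∀ x ∈ closedBall a s, HasDerivWithinAt (fun z => f z - deriv f a * z)
        (deriv f x - deriv f a) (closedBall a s) x := by
      intro x hx
      have hxr : x ∈ ball (0 : ℂ) r := hcballr (closedBall_subset_closedBall hst.le hx)
      have h2 : HasDerivAt f (deriv f x) x :=
        (hf.differentiableAt (isOpen_ball.mem_nhds hxr)).hasDerivAt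
      have h3 : HasDerivAt (fun z => f z - deriv f a * z) (deriv f x - deriv f a * 1) x :=
        h2.sub ((hasDerivAt_id x).const_mul (deriv f a))
      rw [mul_one] at h3
      exact h3.hasDerivWithinAt
    have h5 := (convex_closedBall a s).norm_image_sub_le_of_norm_hasDerivWithin_le hder
      (fun x hx => hsmall x hx) (mem_closedBall_self hs0.le) hz
    have h6 : deriv f a * (z - a) = (f z - f a) - ((f z - deriv f a * z) -
        (f a - deriv f a * a)) := by ring
    have h7 : M * ‖z - a‖ ≤ ‖f z - f a‖ + M / 2 * ‖z - a‖ := by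
      calc M * ‖z - a‖ = ‖deriv f a * (z - a)‖ := by rw [norm_mul]
        _ ≤ ‖f z - f a‖ + ‖(f z - deriv f a * z) - (f a - deriv f a * a)‖ := by
            rw [h6]; exact norm_sub_le _ _
        _ ≤ _ := by gcongr
    linarith
  have hfd : DiffContOnCl ℂ f (ball a s) := by
    apply DifferentiableOn.diffContOnCl
    rw [closure_ball a hs0.ne']
    exact hf.mono ((closedBall_subset_closedBall hst.le).trans hcballr)
  have hfin := hfd.ball_subset_image_closedBall (ε := M * s / 2) hs0 (by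
    intro z hz
    have h1 : ‖z - a‖ = s := by simpa [dist_eq_norm] using hz
    have h2 := hlow z (sphere_subset_closedBall hz)
    rw [h1] at h2
    linarith) (by
    have hev : ∀ᶠ z in nhdsWithin a {a}ᶜ, f z ≠ f a := by
      have h1 : ∀ᶠ z in nhds a, z ∈ closedBall a s := closedBall_mem_nhds a hs0
      filter_upwards [h1.filter_mono nhdsWithin_le_nhds, self_mem_nhdsWithin] with z h2 h3
      intro h4
      have h5 := hlow z h2
      rw [h4, sub_self, norm_zero] at h5
      have h6 : 0 < ‖z - a‖ := norm_pos_iff.2 (sub_ne_zero.2 h3)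
      have : 0 < M / 2 * ‖z - a‖ := by positivity
      linarith
    exact hev.frequently.filter_mono nhdsWithin_le_nhds)
  refine ⟨f a, ?_⟩
  have hrad : r * ‖deriv f 0‖ / 96 ≤ M * s / 2 / 2 := by
    have h1 : R * ‖deriv f 0‖ ≤ 2 * t * M := by
      calc R * ‖deriv f 0‖ ≤ (R - ‖a‖) * M := hφ0
        _ = 2 * t * M := by rw [ht]; ring
    rw [hs]
    have h2 : r = 2 * R := by rw [hR]; ring
    rw [h2]
    nlinarith
  intro v hv
  obtain ⟨z, hz, hzv⟩ := hfin (ball_subset_ball hrad hv)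
  exact ⟨z, hcballr (closedBall_subset_closedBall hst.le hz), hzv⟩

/-- the points where `cosh` is an odd integer are `4`-dense -/
theorem dense (ζ : ℂ) : ∃ a : ℂ, ‖a - ζ‖ < 4 ∧ ∃ n : ℤ, Complex.cosh a = 2 * n - 1 := by
  -- the real part
  obtain ⟨s, hs, N, hN⟩ : ∃ s : ℝ, |s - ζ.re| ≤ 2 ∧ ∃ N : ℤ, Real.cosh s = 2 * N - 1 := by
    set x : ℝ := |ζ.re| with hx
    set N : ℤ := ⌊(Real.cosh x + 1) / 2⌋ with hN
    have h1 : (N : ℝ) ≤ (Real.cosh x + 1) / 2 := Int.floor_le _
    have h2 : (Real.cosh x + 1) / 2 < N + 1 := Int.lt_floor_add_one _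
    have h3 : 1 ≤ N := by
      rw [hN, Int.le_floor]
      have := Real.one_le_cosh x
      push_cast
      linarith
    have h3' : (1 : ℝ) ≤ N := by exact_mod_cast h3
    set s : ℝ := Real.arcosh (2 * N - 1) with hs
    have hs0 : 0 ≤ s := Real.arcosh_nonneg (by linarith)
    have hcs : Real.cosh s = 2 * N - 1 := Real.cosh_arcosh (by linarith)
    have hsx : s ≤ x := by
      by_contra hlt
      push Not at hlt
      have h4 : Real.cosh x < Real.cosh s := by
        rw [Real.cosh_lt_cosh, abs_of_nonneg (abs_nonneg _), abs_of_nonneg hs0]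
        exact hlt
      linarith
    have hxs : x ≤ s + 2 := by
      by_contra hlt
      push Not at hlt
      have h4 : Real.cosh (s + 2) < Real.cosh x := by
        rw [Real.cosh_lt_cosh, abs_of_nonneg (by linarith : (0 : ℝ) ≤ s + 2),
          abs_of_nonneg (abs_nonneg _)]
        exact hlt
      have h5 : 3 * Real.cosh s ≤ Real.cosh (s + 2) := by
        rw [Real.cosh_add]
        have h6 : 3 ≤ Real.cosh 2 := by
          rw [Real.cosh_eq]
          have g1 : Real.exp 2 = Real.exp 1 * Real.exp 1 := by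
            rw [← Real.exp_add]; norm_num
          have g2 := Real.exp_one_gt_d9
          have g3 := Real.exp_pos (-2)
          rw [g1]
          nlinarith
        have h7 : 0 ≤ Real.sinh s := Real.sinh_nonneg_iff.2 hs0
        have h8 : 0 ≤ Real.sinh 2 := Real.sinh_nonneg_iff.2 (by norm_num)
        have h9 := Real.cosh_pos s
        nlinarith [mul_nonneg h7 h8]
      linarith
    rcases le_total 0 ζ.re with h | h
    · refine ⟨s, ?_, N, hcs⟩
      have : x = ζ.re := abs_of_nonneg h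
      rw [← this, abs_le]
      constructor <;> linarith
    · refine ⟨-s, ?_, N, by rw [Real.cosh_neg]; exact hcs⟩
      have : x = -ζ.re := abs_of_nonpos h
      rw [abs_le]
      constructor <;> linarith
  -- the imaginary part
  set k : ℤ := round (ζ.im / Real.pi) with hk
  have hpi := Real.pi_pos
  have hk1 : |(k : ℝ) * Real.pi - ζ.im| < 2 := by
    have h1 := abs_sub_round (ζ.im / Real.pi)
    have h2 : (k : ℝ) * Real.pi - ζ.im = -((ζ.im / Real.pi - k) * Real.pi) := by
      field_simp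
      ring
    rw [h2, abs_neg, abs_mul, abs_of_pos hpi]
    have h3 := Real.pi_lt_d2
    calc |ζ.im / Real.pi - k| * Real.pi ≤ 1 / 2 * Real.pi := by gcongr
      _ < 2 := by linarith
  refine ⟨(s : ℂ) + k * (Real.pi * I), ?_, ?_⟩
  · have h1 : ((s : ℂ) + k * (Real.pi * I) - ζ).re = s - ζ.re := by simp
    have h2 : ((s : ℂ) + k * (Real.pi * I) - ζ).im = (k : ℝ) * Real.pi - ζ.im := by simp
    have h3 := Complex.norm_le_abs_re_add_abs_im ((s : ℂ) + k * (Real.pi * I) - ζ)
    rw [h1, h2] at h3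
    linarith
  · have h4 : Complex.cosh ((s : ℂ) + k * (Real.pi * I)) = (-1) ^ k * Real.cosh s := by
      rw [Complex.cosh_add]
      have h5 : Complex.cosh ((k : ℂ) * (Real.pi * I)) = (-1) ^ k := by
        rw [← mul_assoc, Complex.cosh_mul_I]
        have g1 := Real.cos_int_mul_pi k
        have g2 : Complex.cos ((k : ℂ) * Real.pi) = ((Real.cos (k * Real.pi) : ℝ) : ℂ) := by
          push_cast; rfl
        rw [g2, g1]; push_cast; rfl
      have h6 : Complex.sinh ((k : ℂ) * (Real.pi * I)) = 0 := by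
        rw [← mul_assoc, Complex.sinh_mul_I, Complex.sin_int_mul_pi, zero_mul]
      rw [h5, h6, mul_zero, add_zero, mul_comm, Complex.ofReal_cosh]
    rw [h4, hN]
    rcases Int.even_or_odd k with hke | hko
    · refine ⟨N, ?_⟩
      rw [hke.neg_one_zpow]; push_cast; ring
    · refine ⟨1 - N, ?_⟩
      rw [hko.neg_one_zpow]; push_cast; ring

/-- a function on a disc such that `cosh G` omits the odd integers -/
theorem omit_bound {G : ℂ → ℂ} {r : ℝ} (hr : 0 < r) (hG : DifferentiableOn ℂ G (ball 0 r))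
    (h : ∀ z ∈ ball (0 : ℂ) r, ∀ n : ℤ, Complex.cosh (G z) ≠ 2 * n - 1) :
    ‖deriv G 0‖ ≤ 384 / r := by
  by_contra hcon
  push Not at hcon
  obtain ⟨w, hw⟩ := bloch hr hG
  obtain ⟨a, ha, n, hn⟩ := dense w
  have h1 : a ∈ ball w (r * ‖deriv G 0‖ / 96) := by
    rw [mem_ball, dist_eq_norm]
    have : 384 < r * ‖deriv G 0‖ := by
      rw [div_lt_iff₀ hr] at hcon; linarith
    linarith
  obtain ⟨z, hz, hza⟩ := hw h1
  exact h z hz n (by rw [hza]; exact hn)

/-- Landau's theorem for a function omitting `0` and `1` -/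
theorem landau {f : ℂ → ℂ} {r c : ℝ} (hr : 0 < r) (hc : 0 < c)
    (hf : DifferentiableOn ℂ f (ball 0 r)) (h0 : ∀ z ∈ ball (0 : ℂ) r, f z ≠ 0)
    (h1 : ∀ z ∈ ball (0 : ℂ) r, f z ≠ 1) (hlo : c ≤ ‖f 0‖) (hhi : ‖f 0‖ ≤ c⁻¹) :
    ‖deriv f 0‖ ≤ 4000 * c⁻¹ * (|Real.log c| + 4) / r := by
  have hmem0 : (0 : ℂ) ∈ ball (0 : ℂ) r := mem_ball_self hr
  have hf00 : f 0 ≠ 0 := h0 0 hmem0
  -- first logarithm
  obtain ⟨l, hl, hl0, hle⟩ := exists_log hr hf h0 (Complex.log (f 0)) (Complex.exp_log hf00)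
  set φ : ℂ → ℂ := fun z => l z / (2 * Real.pi * I) with hφ
  have h2pi : (2 * Real.pi * I : ℂ) ≠ 0 := Complex.two_pi_I_ne_zero
  have hφd : DifferentiableOn ℂ φ (ball 0 r) := hl.div_const _
  have hφint : ∀ z ∈ ball (0 : ℂ) r, ∀ n : ℤ, φ z ≠ n := by
    intro z hz n hn
    have h2 : l z = n * (2 * Real.pi * I) := by
      rw [← hn, hφ]; field_simp
    apply h1 z hz
    rw [← hle z hz, h2, Complex.exp_int_mul_two_pi_mul_I]
  have hφ0 : ∀ z ∈ ball (0 : ℂ) r, φ z ≠ 0 := by
    intro z hz; simpa using hφint z hz 0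
  have hφ1 : ∀ z ∈ ball (0 : ℂ) r, φ z - 1 ≠ 0 := by
    intro z hz; rw [sub_ne_zero]; simpa using hφint z hz 1
  obtain ⟨P, hP, -, hPe⟩ := exists_log hr hφd hφ0 (Complex.log (φ 0))
    (Complex.exp_log (hφ0 0 hmem0))
  obtain ⟨Q, hQ, -, hQe⟩ := exists_log hr (hφd.sub_const 1) hφ1 (Complex.log (φ 0 - 1))
    (Complex.exp_log (hφ1 0 hmem0))
  set u : ℂ → ℂ := fun z => Complex.exp (P z / 2) with hu
  set v : ℂ → ℂ := fun z => Complex.exp (Q z / 2) with hv
  have hu2 : ∀ z ∈ ball (0 : ℂ) r, u z ^ 2 = φ z := by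
    intro z hz
    rw [hu, ← Complex.exp_nat_mul, ← hPe z hz]
    congr 1; push_cast; ring
  have hv2 : ∀ z ∈ ball (0 : ℂ) r, v z ^ 2 = φ z - 1 := by
    intro z hz
    rw [hv, ← Complex.exp_nat_mul, ← hQe z hz]
    congr 1; push_cast; ring
  have huv : ∀ z ∈ ball (0 : ℂ) r, (u z - v z) * (u z + v z) = 1 := by
    intro z hz
    have := hu2 z hz
    have := hv2 z hz
    linear_combination hu2 z hz - hv2 z hz
  have hud : DifferentiableOn ℂ (fun z => u z - v z) (ball 0 r) :=
    ((hP.div_const 2).cexp).sub ((hQ.div_const 2).cexp)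
  have hne : ∀ z ∈ ball (0 : ℂ) r, u z - v z ≠ 0 := by
    intro z hz h
    have := huv z hz
    rw [h, zero_mul] at this
    exact zero_ne_one this
  obtain ⟨g, hg, -, hge⟩ := exists_log hr hud hne (Complex.log (u 0 - v 0))
    (Complex.exp_log (hne 0 hmem0))
  set G : ℂ → ℂ := fun z => 2 * g z with hG
  have hGd : DifferentiableOn ℂ G (ball 0 r) := hg.const_mul 2
  have hcosh : ∀ z ∈ ball (0 : ℂ) r, Complex.cosh (G z) = 2 * φ z - 1 := by
    intro z hz
    have h3 : Complex.exp (-g z) = u z + v z := by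
      rw [Complex.exp_neg, hge z hz]
      exact inv_eq_of_mul_eq_one_right (huv z hz)
    have h4 : Complex.cosh (g z) = u z := by
      rw [Complex.cosh, hge z hz, h3]; ring
    rw [hG]
    simp only
    rw [Complex.cosh_two_mul, Complex.sinh_sq, h4]
    linear_combination 2 * hu2 z hz
  have hGb := omit_bound hr hGd (by
    intro z hz n h
    rw [hcosh z hz] at h
    apply hφint z hz n
    linear_combination h / 2)
  -- derivatives at the origin
  have hG0 : HasDerivAt G (deriv G 0) 0 :=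
    (hGd.differentiableAt (isOpen_ball.mem_nhds hmem0)).hasDerivAt
  have hφ00 : HasDerivAt φ (deriv φ 0) 0 :=
    (hφd.differentiableAt (isOpen_ball.mem_nhds hmem0)).hasDerivAt
  have hl00 : HasDerivAt l (deriv l 0) 0 :=
    (hl.differentiableAt (isOpen_ball.mem_nhds hmem0)).hasDerivAt
  have e1 : Complex.sinh (G 0) * deriv G 0 = 2 * deriv φ 0 := by
    have h3 : HasDerivAt (fun z => Complex.cosh (G z)) (Complex.sinh (G 0) * deriv G 0) 0 :=
      (Complex.hasDerivAt_cosh _).comp 0 hG0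
    have h4 : HasDerivAt (fun z => 2 * φ z - 1) (2 * deriv φ 0) 0 :=
      (hφ00.const_mul 2).sub_const 1
    have h5 : (fun z => Complex.cosh (G z)) =ᶠ[nhds 0] fun z => 2 * φ z - 1 := by
      filter_upwards [isOpen_ball.mem_nhds hmem0] with z hz
      exact hcosh z hz
    exact h3.unique (h4.congr_of_eventuallyEq h5)
  have e2 : deriv φ 0 = deriv l 0 / (2 * Real.pi * I) := (hl00.div_const _).deriv
  have e3 : deriv f 0 = f 0 * deriv l 0 := by
    have h3 : HasDerivAt (fun z => Complex.exp (l z)) (Complex.exp (l 0) * deriv l 0) 0 :=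
      hl00.cexp
    have h5 : f =ᶠ[nhds 0] fun z => Complex.exp (l z) := by
      filter_upwards [isOpen_ball.mem_nhds hmem0] with z hz
      exact (hle z hz).symm
    rw [(h3.congr_of_eventuallyEq h5).deriv, hle 0 hmem0]
  -- size of `φ 0`
  have hpi := Real.pi_pos
  have hpi3 := Real.pi_gt_three
  have hpi4 := Real.pi_le_four
  have hφn : ‖φ 0‖ ≤ (|Real.log c| + 4) / 6 := by
    have h3 : ‖φ 0‖ = ‖Complex.log (f 0)‖ / (2 * Real.pi) := by
      rw [hφ]
      simp only
      rw [hl0, norm_div]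
      congr 1
      simp [abs_of_pos hpi]
    have h4 : ‖Complex.log (f 0)‖ ≤ |Real.log c| + 4 := by
      refine (Complex.norm_le_abs_re_add_abs_im _).trans ?_
      rw [Complex.log_re, Complex.log_im]
      have h5 : |Real.log ‖f 0‖| ≤ |Real.log c| := by
        have h6 : Real.log c ≤ Real.log ‖f 0‖ := Real.log_le_log hc hlo
        have h7 : Real.log ‖f 0‖ ≤ -Real.log c := by
          rw [← Real.log_inv]
          exact Real.log_le_log (norm_pos_iff.2 hf00) hhi
        rw [abs_le]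
        constructor
        · have := neg_abs_le (Real.log c); linarith
        · have := neg_le_abs (Real.log c); linarith
      have h8 := (Complex.abs_arg_le_pi (f 0))
      linarith
    rw [h3]
    have h9 : 0 ≤ |Real.log c| + 4 := by positivity
    calc ‖Complex.log (f 0)‖ / (2 * Real.pi) ≤ (|Real.log c| + 4) / (2 * 3) := by gcongr
      _ = _ := by norm_num
  set A : ℝ := |Real.log c| + 4 with hA
  have hA4 : 4 ≤ A := by have := abs_nonneg (Real.log c); linarith
  have hsinh : ‖Complex.sinh (G 0)‖ ≤ 2 * A := by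
    have h3 : Complex.sinh (G 0) ^ 2 = 4 * (φ 0 * (φ 0 - 1)) := by
      rw [Complex.sinh_sq, hcosh 0 hmem0]; ring
    have h4 : ‖Complex.sinh (G 0)‖ ^ 2 ≤ (2 * A) ^ 2 := by
      rw [← norm_pow, h3, norm_mul, norm_mul]
      have h5 : ‖φ 0 - 1‖ ≤ A / 6 + 1 := by
        calc ‖φ 0 - 1‖ ≤ ‖φ 0‖ + ‖(1 : ℂ)‖ := norm_sub_le _ _
          _ ≤ A / 6 + 1 := by rw [norm_one]; linarith
      have h6 : ‖(4 : ℂ)‖ = 4 := by simp
      rw [h6]
      have h7 : ‖φ 0‖ * ‖φ 0 - 1‖ ≤ A / 6 * (A / 6 + 1) := by gcongr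
      nlinarith
    exact le_of_sq_le_sq h4 (by positivity)
  -- conclusion
  have e4 : deriv f 0 = f 0 * (Real.pi * I) * (Complex.sinh (G 0) * deriv G 0) := by
    rw [e1, e2, e3]
    field_simp
  have h10 : ‖(Real.pi * I : ℂ)‖ = Real.pi := by simp [abs_of_pos hpi]
  rw [e4, norm_mul (f 0 * (Real.pi * I)), norm_mul (f 0), h10, norm_mul (Complex.sinh (G 0))]
  have hc1 : 0 < c⁻¹ := inv_pos.2 hc
  calc ‖f 0‖ * Real.pi * (‖Complex.sinh (G 0)‖ * ‖deriv G 0‖)
      ≤ c⁻¹ * 4 * (2 * A * (384 / r)) := by gcongr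
    _ = 3072 * c⁻¹ * A / r := by ring
    _ ≤ 4000 * c⁻¹ * A / r := by gcongr; norm_num

/-- the Landau type lemma, without hypotheses -/
theorem main : S_Landau := by
  intro m L hm hL
  set ζ : ℂ := Complex.exp (2 * Real.pi * I / m) with hζ
  have hprim : IsPrimitiveRoot ζ m := Complex.isPrimitiveRoot_exp m (by omega)
  have hζ1 : ζ ≠ 1 := hprim.ne_one (by omega)
  have hζm : ζ ^ m = 1 := hprim.pow_eq_one
  have hζ0 : ζ - 1 ≠ 0 := sub_ne_zero.2 hζ1
  have hζn : 0 < ‖ζ - 1‖ := norm_pos_iff.2 hζ0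
  set B : ℝ := 1 + Real.exp L with hB
  have hB1 : 1 ≤ B := by have := Real.exp_pos L; linarith
  set c1 : ℝ := Real.exp (-L) / (m * B ^ m * ‖ζ - 1‖) with hc1
  set c2 : ℝ := ‖ζ - 1‖ / (B + 1) with hc2
  have hm0 : (0 : ℝ) < m := by exact_mod_cast (by omega : 0 < m)
  have hc10 : 0 < c1 := by positivity
  have hc20 : 0 < c2 := by positivity
  set c : ℝ := min c1 c2 with hc
  have hc0 : 0 < c := lt_min hc10 hc20
  refine ⟨Real.exp L * (m * B ^ m * (‖ζ - 1‖ * (4000 * c⁻¹ * (|Real.log c| + 4)))), by positivity,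
    ?_⟩
  intro w k r hr hw hk heq hw0 _
  have hmem0 : (0 : ℂ) ∈ ball (0 : ℂ) r := mem_ball_self hr
  have hk0 : ‖k 0‖ ≤ B := by
    by_contra hcon
    push Not at hcon
    have h1 : ‖k 0‖ ^ m ≤ B := by
      rw [← norm_pow, ← heq 0 hmem0]
      refine (norm_add_le _ _).trans ?_
      rw [norm_one, Complex.norm_exp, hB]
      gcongr
      exact (Complex.re_le_norm _).trans hw0
    have h2 : B < ‖k 0‖ ^ m := by
      calc B < ‖k 0‖ := hcon
        _ = ‖k 0‖ ^ 1 := (pow_one _).symm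
        _ ≤ ‖k 0‖ ^ m := pow_le_pow_right₀ (by linarith) (by omega)
    linarith
  have hexplo : Real.exp (-L) ≤ ‖Complex.exp (w 0)‖ := by
    rw [Complex.norm_exp]
    apply Real.exp_le_exp.2
    have := Complex.abs_re_le_norm (w 0)
    have := neg_abs_le (w 0).re
    linarith
  have hk1 : Real.exp (-L) ≤ ‖k 0 - 1‖ * (m * B ^ m) := by
    have h1 : Complex.exp (w 0) = (k 0 - 1) * ∑ j ∈ Finset.range m, k 0 ^ j := by
      rw [mul_geom_sum, ← heq 0 hmem0]; ring
    have h2 : ‖∑ j ∈ Finset.range m, k 0 ^ j‖ ≤ m * B ^ m := by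
      refine (norm_sum_le _ _).trans ?_
      calc ∑ j ∈ Finset.range m, ‖k 0 ^ j‖ ≤ ∑ _j ∈ Finset.range m, B ^ m := by
            apply Finset.sum_le_sum
            intro j hj
            rw [norm_pow]
            calc ‖k 0‖ ^ j ≤ B ^ j := by gcongr
              _ ≤ B ^ m := pow_le_pow_right₀ hB1 (Finset.mem_range.1 hj).le
        _ = m * B ^ m := by simp
    rw [h1, norm_mul] at hexplo
    exact hexplo.trans (by gcongr)
  set f : ℂ → ℂ := fun z => (k z - 1) / (ζ - 1) with hf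
  have hfd : DifferentiableOn ℂ f (ball 0 r) := (hk.sub_const 1).div_const _
  have hkm : ∀ z ∈ ball (0 : ℂ) r, k z ^ m ≠ 1 := by
    intro z hz h
    have := heq z hz
    rw [h] at this
    have h2 : Complex.exp (w z) = 0 := by linear_combination this
    exact Complex.exp_ne_zero _ h2
  have hf0 : ∀ z ∈ ball (0 : ℂ) r, f z ≠ 0 := by
    intro z hz h
    have h1 : k z - 1 = 0 := by
      rw [hf] at h
      simpa [hζ0] using h
    apply hkm z hz
    rw [sub_eq_zero.1 h1, one_pow]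
  have hf1 : ∀ z ∈ ball (0 : ℂ) r, f z ≠ 1 := by
    intro z hz h
    have h1 : k z - 1 = ζ - 1 := by
      rw [hf] at h
      simp only at h
      rwa [div_eq_one_iff_eq hζ0] at h
    apply hkm z hz
    rw [sub_left_inj.1 h1, hζm]
  have hlo : c ≤ ‖f 0‖ := by
    refine (min_le_left _ _).trans ?_
    rw [hf, hc1]
    simp only
    rw [norm_div, div_le_div_iff₀ (by positivity) hζn]
    calc Real.exp (-L) * ‖ζ - 1‖ ≤ (‖k 0 - 1‖ * (m * B ^ m)) * ‖ζ - 1‖ := by gcongr
      _ = _ := by ring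
  have hhi : ‖f 0‖ ≤ c⁻¹ := by
    have h1 : ‖f 0‖ ≤ c2⁻¹ := by
      rw [hf, hc2]
      simp only
      rw [norm_div, inv_div]
      gcongr
      calc ‖k 0 - 1‖ ≤ ‖k 0‖ + ‖(1 : ℂ)‖ := norm_sub_le _ _
        _ ≤ B + 1 := by rw [norm_one]; linarith
    refine h1.trans ?_
    exact inv_anti₀ hc0 (min_le_right _ _)
  have hmain := landau hr hc0 hfd hf0 hf1 hlo hhi
  -- back to `w`
  have hk00 : HasDerivAt k (deriv k 0) 0 :=
    (hk.differentiableAt (isOpen_ball.mem_nhds hmem0)).hasDerivAt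
  have hw00 : HasDerivAt w (deriv w 0) 0 :=
    (hw.differentiableAt (isOpen_ball.mem_nhds hmem0)).hasDerivAt
  have e1 : deriv f 0 = deriv k 0 / (ζ - 1) := ((hk00.sub_const 1).div_const _).deriv
  have e2 : Complex.exp (w 0) * deriv w 0 = m * k 0 ^ (m - 1) * deriv k 0 := by
    have h3 : HasDerivAt (fun z => 1 + Complex.exp (w z)) (Complex.exp (w 0) * deriv w 0) 0 :=
      (hw00.cexp).const_add 1
    have h4 : HasDerivAt (fun z => k z ^ m) (m * k 0 ^ (m - 1) * deriv k 0) 0 := hk00.pow m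
    have h5 : (fun z => 1 + Complex.exp (w z)) =ᶠ[nhds 0] fun z => k z ^ m := by
      filter_upwards [isOpen_ball.mem_nhds hmem0] with z hz
      exact heq z hz
    exact h3.unique (h4.congr_of_eventuallyEq h5)
  have h6 : ‖deriv k 0‖ ≤ ‖ζ - 1‖ * (4000 * c⁻¹ * (|Real.log c| + 4) / r) := by
    have : deriv k 0 = (ζ - 1) * deriv f 0 := by rw [e1]; field_simp
    rw [this, norm_mul]
    gcongr
  have h7 : Real.exp (-L) * ‖deriv w 0‖ ≤ m * B ^ m *
      (‖ζ - 1‖ * (4000 * c⁻¹ * (|Real.log c| + 4) / r)) := by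
    calc Real.exp (-L) * ‖deriv w 0‖ ≤ ‖Complex.exp (w 0)‖ * ‖deriv w 0‖ := by gcongr
      _ = m * ‖k 0‖ ^ (m - 1) * ‖deriv k 0‖ := by
          rw [← norm_mul, e2, norm_mul, norm_mul, norm_pow, Complex.norm_natCast]
      _ ≤ m * B ^ m * (‖ζ - 1‖ * (4000 * c⁻¹ * (|Real.log c| + 4) / r)) := by
          gcongr
          calc ‖k 0‖ ^ (m - 1) ≤ B ^ (m - 1) := by gcongr
            _ ≤ B ^ m := pow_le_pow_right₀ hB1 (by omega)
  have h8 : ‖deriv w 0‖ = Real.exp L * (Real.exp (-L) * ‖deriv w 0‖) := by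
    rw [← mul_assoc, ← Real.exp_add, add_neg_cancel, Real.exp_zero, one_mul]
  rw [h8]
  calc Real.exp L * (Real.exp (-L) * ‖deriv w 0‖)
      ≤ Real.exp L * (m * B ^ m * (‖ζ - 1‖ * (4000 * c⁻¹ * (|Real.log c| + 4) / r))) := by gcongr
    _ = _ := by ring

end Landau

theorem Landau_proof (_h1 : S_HU) (_h2 : S_BC) (_h3 : S_Grow) (_h4 : S_GR) : S_Landau :=
  Landau.main

end Pool.Agent.Work.MP_6d7a54_an.UP
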