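import Pool.Agent.Work.MP_6d7a54_an.UP.Defs

/-!
# Assembly of the analytic theorem (MP_6d7a54_an)
-/

namespace Pool.Agent.Work.MP_6d7a54_an.UP

open Complex Metric Real Set

noncomputable section

namespace MainP

lemma sz_cont {u v : ℂ → ℂ} {s : Set ℂ} (hu : ContinuousOn u s) (hv : ContinuousOn v s) :
    ContinuousOn (sz u v) s := by
  unfold sz
  have h1 : ContinuousOn (fun z => (u z).re) s := Complex.continuous_re.comp_continuousOn hu
  have h2 : ContinuousOn (fun z => (v z).re) s := Complex.continuous_re.comp_continuousOn hv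
  have h3 : ContinuousOn (fun z => max (u z).re (v z).re) s :=
    continuous_max.comp_continuousOn (h1.prodMk h2)
  exact continuous_max.comp_continuousOn (continuousOn_const.prodMk h3)

/-- the maximum of `sz` on the closed disc of radius one half -/
lemma exists_max {u v : ℂ → ℂ} (hu : ContinuousOn u (ball 0 1)) (hv : ContinuousOn v (ball 0 1)) :
    ∃ M : ℝ, (∃ z : ℂ, ‖z‖ ≤ 1/2 ∧ M ≤ sz u v z) ∧ (∀ z : ℂ, ‖z‖ ≤ 1/2 → sz u v z ≤ M) := by
  have hc : ContinuousOn (sz u v) (closedBall (0 : ℂ) (1/2)) :=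
    (sz_cont hu hv).mono (closedBall_subset_ball (by norm_num))
  obtain ⟨z, hz, hmax⟩ := (isCompact_closedBall (0 : ℂ) (1/2)).exists_isMaxOn
    ⟨0, by simp⟩ hc
  refine ⟨sz u v z, ⟨z, by simpa using hz, le_refl _⟩, fun w hw => ?_⟩
  exact hmax (by simpa using hw)

lemma sz_swap (u v : ℂ → ℂ) (z : ℂ) : sz v u z = sz u v z := by
  unfold sz
  rw [max_comm (v z).re]

end MainP

open MainP in
theorem Main_proof (h1 : S_BC) (h2 : S_Step2W) (h3 : S_Near) (h4 : S_CaseI) (h5 : S_CaseII)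
    (h6 : S_SymDat) (h7 : S_SymBase) : S_Main := by
  intro m L hm hL
  -- constants for the symmetric situations
  obtain ⟨L1, hL1, hS1⟩ := h7 L hL
  obtain ⟨L2, hL2, hS2⟩ := h7 L1 (hL.trans hL1)
  obtain ⟨L3, hL3, hS3⟩ := h7 L2 ((hL.trans hL1).trans hL2)
  have hL3' : 1 ≤ L3 := ((hL.trans hL1).trans hL2).trans hL3
  have hL13 : L ≤ L3 := (hL1.trans hL2).trans hL3
  have baseMono : ∀ {a b : ℝ} {u v : ℂ → ℂ}, 1 ≤ a → a ≤ b → Base a u v → Base b u v := by
    intro a b u v ha hab hB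
    have hinv : b⁻¹ ≤ a⁻¹ := inv_anti₀ (by linarith) hab
    exact ⟨hB.nu.trans hab, hB.nv.trans hab, ⟨hinv.trans hB.h1.1, hB.h1.2.trans hab⟩,
      ⟨hinv.trans hB.h2.1, hB.h2.2.trans hab⟩, ⟨hinv.trans hB.h3.1, hB.h3.2.trans hab⟩,
      ⟨hinv.trans hB.h4.1, hB.h4.2.trans hab⟩⟩
  obtain ⟨e0, kap, C2, he0, he8, hkap, hC2, hW⟩ := h2 m L hm hL
  obtain ⟨k1, C3, hk1, hC3, hN⟩ := h3 L e0 kap C2 hL he0 he8 hkap hC2
  obtain ⟨eps4, C4, heps4, hC4, hI⟩ := h4 m L3 (e0 / 2) hm hL3' (by linarith) (by linarith)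
  obtain ⟨eps5, C5, heps5, hC5, hII⟩ := h5 m L3 (e0 / 4) hm hL3' (by linarith) (by linarith)
  obtain ⟨K, hK, hBC⟩ := h1
  -- threshold for M
  have lim1 : ∃ N1 : ℝ, ∀ M : ℝ, N1 ≤ M → Real.exp (- k1 * M) ≤ min eps5 1 := by
    have hpos : 0 < min eps5 1 := lt_min heps5 (by norm_num)
    refine ⟨- Real.log (min eps5 1) / k1, fun M hM => ?_⟩
    rw [div_le_iff₀ hk1] at hM
    rw [← Real.le_log_iff_exp_le hpos]
    linarith
  have lim2 : ∃ N2 : ℝ, ∀ M : ℝ, N2 ≤ M → C3 * Real.exp (- kap * M / 8) ≤ eps4 := by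
    refine ⟨- Real.log (eps4 / (C3 + 1)) * 8 / kap, fun M hM => ?_⟩
    rw [div_le_iff₀ hkap] at hM
    have hq : 0 < eps4 / (C3 + 1) := by positivity
    have : Real.exp (- kap * M / 8) ≤ eps4 / (C3 + 1) := by
      rw [← Real.le_log_iff_exp_le hq]
      linarith
    calc C3 * Real.exp (- kap * M / 8) ≤ (C3 + 1) * (eps4 / (C3 + 1)) := by
          apply mul_le_mul (by linarith) this (Real.exp_nonneg _) (by linarith)
      _ = eps4 := by field_simp
  obtain ⟨N1, hN1⟩ := lim1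
  obtain ⟨N2, hN2⟩ := lim2
  set M0 : ℝ := max (max C2 C3) (max (max N1 N2) 1) with hM0
  have hM01 : 1 ≤ M0 := (le_max_right _ _).trans (le_max_right _ _)
  -- the bound in the bounded case
  set CB : ℝ := K * (M0 + L) / (1/4) ^ 3 with hCB
  refine ⟨2 * CB + 2 * C4 + 2 * C5 + 2, by
    have : 0 ≤ CB := by rw [hCB]; positivity
    linarith, ?_⟩
  intro u v q hD hB
  have hCB0 : 0 ≤ CB := by rw [hCB]; positivity
  have hBCuse : ∀ w : ℂ → ℂ, DifferentiableOn ℂ w (ball 0 1) → ∀ Mx : ℝ, 1 ≤ Mx → Mx ≤ M0 →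
      (∀ z ∈ ball (0 : ℂ) (1/2), (w z).re ≤ Mx) → ‖w 0‖ ≤ L → ‖deriv w 0‖ ≤ CB := by
    intro w hw Mx hMx1 hMx hre hw0
    have := (hBC w (1/2) (1/4) Mx L (by norm_num) (by norm_num) (by norm_num) (by norm_num)
      hMx1 hL (hw.mono (ball_subset_ball (by norm_num))) hre hw0 0 (by simp; norm_num)).2.1
    refine this.trans ?_
    rw [hCB]
    gcongr
  obtain ⟨M, hMz, hMle⟩ := exists_max hD.hu.continuousOn hD.hv.continuousOn
  by_cases hMM : M < M0
  · -- bounded case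
    have e1 : ‖deriv u 0‖ ≤ CB := by
      apply hBCuse u hD.hu M0 hM01 (le_refl _) _ hB.nu
      intro z hz
      have hz' : ‖z‖ ≤ 1/2 := by
        have : ‖z‖ < 1/2 := by simpa using hz
        linarith
      exact ((le_max_left _ _).trans (le_max_right _ _)).trans ((hMle z hz').trans hMM.le)
    have e2 : ‖deriv v 0‖ ≤ CB := by
      apply hBCuse v hD.hv M0 hM01 (le_refl _) _ hB.nv
      intro z hz
      have hz' : ‖z‖ ≤ 1/2 := by
        have : ‖z‖ < 1/2 := by simpa using hz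
        linarith
      exact ((le_max_right _ _).trans (le_max_right _ _)).trans ((hMle z hz').trans hMM.le)
    linarith
  push Not at hMM
  have hC2M : C2 ≤ M := ((le_max_left _ _).trans (le_max_left _ _)).trans hMM
  have hC3M : C3 ≤ M := ((le_max_right _ _).trans (le_max_left _ _)).trans hMM
  have hN1M : N1 ≤ M :=
    (((le_max_left _ _).trans (le_max_left _ _)).trans (le_max_right _ _)).trans hMM
  have hN2M : N2 ≤ M :=
    (((le_max_right _ _).trans (le_max_left _ _)).trans (le_max_right _ _)).trans hMM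
  have hWW := hW u v q M hD hB hC2M hMz hMle
  have hsmall : ∀ x : ℝ, x < Real.exp (- k1 * M) → x ≤ eps5 ∧ x ≤ 1 := fun x hx =>
    ⟨hx.le.trans ((hN1 M hN1M).trans (min_le_left _ _)),
      hx.le.trans ((hN1 M hN1M).trans (min_le_right _ _))⟩
  -- the symmetric data
  obtain ⟨hDs, hDt⟩ := h6 m u v q (by omega) hD
  have hB3 : Base L3 u v := baseMono hL hL13 hB
  obtain ⟨hBs, hBt⟩ := hS1 u v hB
  have hBs3 : Base L3 v u := baseMono (hL.trans hL1) (hL2.trans hL3) hBs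
  by_cases c1 : ∃ z : ℂ, ‖z‖ ≤ e0 / 4 ∧ Real.exp (- k1 * M) ≤ ‖deriv u z‖
  swap
  · push Not at c1
    have e1 : ‖deriv v 0‖ ≤ C5 := hII u v q hD hB3 (fun z hz => (hsmall _ (c1 z hz)).1)
    have e2 : ‖deriv u 0‖ ≤ 1 := (hsmall _ (c1 0 (by simp; linarith))).2
    linarith
  by_cases c2 : ∃ z : ℂ, ‖z‖ ≤ e0 / 4 ∧ Real.exp (- k1 * M) ≤ ‖deriv v z‖
  swap
  · push Not at c2
    have e1 : ‖deriv u 0‖ ≤ C5 := hII v u q hDs hBs3 (fun z hz => (hsmall _ (c2 z hz)).1)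
    have e2 : ‖deriv v 0‖ ≤ 1 := (hsmall _ (c2 0 (by simp; linarith))).2
    linarith
  by_cases c3 : ∃ z : ℂ, ‖z‖ ≤ e0 / 4 ∧ Real.exp (- k1 * M) ≤ ‖deriv v z - deriv u z‖
  swap
  · push Not at c3
    -- coordinates (v - u, -u)
    obtain ⟨hDt2, -⟩ := h6 m _ _ _ (by omega) hDt
    obtain ⟨hBt2, -⟩ := hS2 _ _ hBt
    have hBt3 := baseMono ((hL.trans hL1).trans hL2) hL3 hBt2
    have hder : ∀ z : ℂ, ‖z‖ ≤ e0 / 4 →
        deriv (fun x => v x - u x) z = deriv v z - deriv u z := by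
      intro z hz
      have hzb : z ∈ ball (0 : ℂ) 1 := by
        simp only [mem_ball, dist_zero_right]
        linarith
      exact deriv_fun_sub (hD.hv.differentiableAt (isOpen_ball.mem_nhds hzb))
        (hD.hu.differentiableAt (isOpen_ball.mem_nhds hzb))
    have e1 := hII _ _ _ hDt2 hBt3 (fun z hz => by
      rw [hder z hz]
      exact (hsmall _ (c3 z hz)).1)
    have e1' : ‖deriv u 0‖ ≤ C5 := by
      have : deriv (fun x => - u x) 0 = - deriv u 0 := deriv.fun_neg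
      rw [this, norm_neg] at e1
      exact e1
    have e2 : ‖deriv v 0 - deriv u 0‖ ≤ 1 := (hsmall _ (c3 0 (by simp; linarith))).2
    have e3 : ‖deriv v 0‖ ≤ ‖deriv v 0 - deriv u 0‖ + ‖deriv u 0‖ := by
      have := norm_add_le (deriv v 0 - deriv u 0) (deriv u 0)
      simpa using this
    linarith
  obtain ⟨lam, hlam, hY1, hY2⟩ := hN u v M hD.hu hD.hv hB.nu hB.nv hC3M hMle hWW c1 c2 c3
  have hsm := hN2 M hN2M
  by_cases hl : ‖lam‖ ≤ 1
  · have := hI u v q lam hD hB3 hl (fun z hz => (hY1 z hz).trans hsm)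
    linarith
  · push Not at hl
    have hl' : ‖lam⁻¹‖ ≤ 1 := by
      rw [norm_inv]
      exact inv_le_one_of_one_le₀ hl.le
    have := hI v u q lam⁻¹ hDs hBs3 hl' (fun z hz => by
      rw [norm_sub_rev]
      exact (hY2 z hz).trans hsm)
    linarith

end

end Pool.Agent.Work.MP_6d7a54_an.UP
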