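import Pool.Agent.Work.MP_6d7a54_an.UP.Defs

set_option autoImplicit false

namespace Pool.Agent.Work.MP_6d7a54_an.UP

open Complex Metric Real Set

namespace Near

/-- the quotient -/
noncomputable def ph (p s : ℂ → ℂ) (x : ℂ) : ℂ :=
  deriv p x * Complex.exp (p x) / (deriv s x * Complex.exp (s x))

lemma deriv_ph (p s : ℂ → ℂ) (z : ℂ) (hp : AnalyticAt ℂ p z) (hs : AnalyticAt ℂ s z)
    (hp1 : deriv p z ≠ 0) (hs1 : deriv s z ≠ 0) :
    DifferentiableAt ℂ (ph p s) z ∧
      deriv (ph p s) z = (- WW p s z / (deriv p z * deriv s z)) * ph p s z := by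
  have h1 := hp.differentiableAt.hasDerivAt
  have h2 := hs.differentiableAt.hasDerivAt
  have h3 := hp.deriv.differentiableAt.hasDerivAt
  have h4 := hs.deriv.differentiableAt.hasDerivAt
  have h5 : deriv s z * Complex.exp (s z) ≠ 0 := mul_ne_zero hs1 (Complex.exp_ne_zero _)
  have h6 := (h3.mul h1.cexp).div (h4.mul h2.cexp) h5
  have e1 := Complex.exp_ne_zero (s z)
  have h7 : HasDerivAt (ph p s) ((- WW p s z / (deriv p z * deriv s z)) * ph p s z) z := by
    refine h6.congr_deriv ?_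
    unfold ph WW
    simp only [Pi.mul_apply]
    field_simp
    ring
  exact ⟨h7.differentiableAt, h7.deriv⟩

lemma ball_analytic {p : ℂ → ℂ} (hp : DifferentiableOn ℂ p (ball 0 1)) {z : ℂ} (hz : ‖z‖ < 1) :
    AnalyticAt ℂ p z :=
  hp.analyticAt (isOpen_ball.mem_nhds (by simpa using hz))

/-- maximum principle on the disc of radius `t < 1` -/
lemma max_disc {F : ℂ → ℂ} (hF : ∀ z : ℂ, ‖z‖ < 1 → DifferentiableAt ℂ F z) {t B : ℝ}
    (ht0 : 0 < t) (ht : t < 1) (hB : ∀ z ∈ sphere (0 : ℂ) t, ‖F z‖ ≤ B) {z : ℂ}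
    (hz : ‖z‖ ≤ t) : ‖F z‖ ≤ B := by
  have hd : DiffContOnCl ℂ F (ball 0 t) := by
    apply DifferentiableOn.diffContOnCl
    rw [closure_ball _ ht0.ne']
    intro x hx
    have : ‖x‖ ≤ t := by simpa using hx
    exact (hF x (lt_of_le_of_lt this ht)).differentiableWithinAt
  apply Complex.norm_le_of_forall_mem_frontier_norm_le isBounded_ball hd
  · rw [frontier_ball _ ht0.ne']
    exact hB
  · rw [closure_ball _ ht0.ne']
    simpa using hz

/-- the core estimate for a pair -/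
lemma core (h3 : S_Circ) (p s : ℂ → ℂ) (t e Y w L2 : ℝ) (hp : DifferentiableOn ℂ p (ball 0 1))
    (hs : DifferentiableOn ℂ s (ball 0 1)) (ht0 : 0 < t) (ht1 : t < 1)
    (hL : |(p 0 - s 0).re| ≤ L2)
    (hp1 : ∀ z ∈ sphere (0 : ℂ) t, Real.exp (-Y) ≤ ‖deriv p z‖ ∧ ‖deriv p z‖ ≤ Real.exp Y)
    (hs1 : ∀ z ∈ sphere (0 : ℂ) t, Real.exp (-Y) ≤ ‖deriv s z‖ ∧ ‖deriv s z‖ ≤ Real.exp Y)
    (hw : ∀ z ∈ sphere (0 : ℂ) t, ‖WW p s z‖ ≤ w) (hwe : w * Real.exp (2 * Y) ≤ e)
    (he : e ≤ 1 / 32) :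
    ph p s t ≠ 0 ∧ (∀ z ∈ sphere (0 : ℂ) t, ‖ph p s z - ph p s t‖ ≤ 16 * e * ‖ph p s t‖) ∧
    ‖ph p s t‖ ≤ Real.exp (2 * Y + 1 + L2) ∧
    (∀ z ∈ sphere (0 : ℂ) t, |(p z - s z).re| ≤ 4 * Y + 2 + L2) := by
  have hsph : ∀ z ∈ sphere (0 : ℂ) t, ‖z‖ = t := fun z hz => by simpa using hz
  have htm : (t : ℂ) ∈ sphere (0 : ℂ) t := by simp [abs_of_pos ht0]
  have hpa : ∀ z ∈ sphere (0 : ℂ) t, AnalyticAt ℂ p z := fun z hz =>
    ball_analytic hp (by rw [hsph z hz]; exact ht1)
  have hsa : ∀ z ∈ sphere (0 : ℂ) t, AnalyticAt ℂ s z := fun z hz =>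
    ball_analytic hs (by rw [hsph z hz]; exact ht1)
  have hp0 : ∀ z ∈ sphere (0 : ℂ) t, deriv p z ≠ 0 := fun z hz => by
    have := lt_of_lt_of_le (Real.exp_pos _) (hp1 z hz).1
    exact norm_pos_iff.mp this
  have hs0 : ∀ z ∈ sphere (0 : ℂ) t, deriv s z ≠ 0 := fun z hz => by
    have := lt_of_lt_of_le (Real.exp_pos _) (hs1 z hz).1
    exact norm_pos_iff.mp this
  have hg : ∀ z ∈ sphere (0 : ℂ) t, ‖- WW p s z / (deriv p z * deriv s z)‖ ≤ e := by
    intro z hz
    rw [norm_div, norm_neg, norm_mul]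
    have h1 : Real.exp (-Y) * Real.exp (-Y) ≤ ‖deriv p z‖ * ‖deriv s z‖ :=
      mul_le_mul (hp1 z hz).1 (hs1 z hz).1 (Real.exp_pos _).le (norm_nonneg _)
    have h2 : Real.exp (-Y) * Real.exp (-Y) = (Real.exp (2 * Y))⁻¹ := by
      rw [← Real.exp_add, ← Real.exp_neg]; congr 1; ring
    rw [h2] at h1
    have h0 : 0 < (Real.exp (2 * Y))⁻¹ := by positivity
    calc ‖WW p s z‖ / (‖deriv p z‖ * ‖deriv s z‖) ≤ w / (Real.exp (2 * Y))⁻¹ :=
          div_le_div₀ ((norm_nonneg _).trans (hw z hz)) (hw z hz) h0 h1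
      _ = w * Real.exp (2 * Y) := by rw [div_inv_eq_mul]
      _ ≤ e := hwe
  have he0 : 0 ≤ e := (norm_nonneg _).trans (hg _ htm)
  have hcont : ContinuousOn (fun z => - WW p s z / (deriv p z * deriv s z)) (sphere 0 t) := by
    intro z hz
    apply ContinuousAt.continuousWithinAt
    have a1 := (hpa z hz).deriv.continuousAt
    have a2 := (hsa z hz).deriv.continuousAt
    have a3 := (hpa z hz).deriv.deriv.continuousAt
    have a4 := (hsa z hz).deriv.deriv.continuousAt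
    apply ContinuousAt.div
    · unfold WW
      exact (((a1.mul a4).sub (a3.mul a2)).add ((a1.mul a2).mul (a2.sub a1))).neg
    · exact a1.mul a2
    · exact mul_ne_zero (hp0 z hz) (hs0 z hz)
  have hcirc := h3 (ph p s) (fun z => - WW p s z / (deriv p z * deriv s z)) t e ht0 ht1.le he0
    (by linarith) (fun z hz => ⟨(deriv_ph p s z (hpa z hz) (hsa z hz) (hp0 z hz) (hs0 z hz)).1,
      (deriv_ph p s z (hpa z hz) (hsa z hz) (hp0 z hz) (hs0 z hz)).2, hg z hz⟩) hcont
  have hne : ph p s t ≠ 0 := by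
    unfold ph
    exact div_ne_zero (mul_ne_zero (hp0 _ htm) (Complex.exp_ne_zero _))
      (mul_ne_zero (hs0 _ htm) (Complex.exp_ne_zero _))
  have hlpos : 0 < ‖ph p s t‖ := norm_pos_iff.mpr hne
  set lam := ph p s t with hlam
  -- modulus of the quotient on the circle
  have hmod : ∀ z ∈ sphere (0 : ℂ) t, ‖ph p s z‖ =
      ‖deriv p z‖ / ‖deriv s z‖ * Real.exp (p z - s z).re := by
    intro z hz
    unfold ph
    rw [norm_div, norm_mul, norm_mul, Complex.norm_exp, Complex.norm_exp, Complex.sub_re,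
      Real.exp_sub]
    have := norm_ne_zero_iff.mpr (hs0 z hz)
    field_simp
  have hup : ∀ z ∈ sphere (0 : ℂ) t, ‖ph p s z‖ ≤ 3 / 2 * ‖lam‖ := by
    intro z hz
    have h1 := hcirc z hz
    have h2 : ‖ph p s z‖ ≤ ‖ph p s z - lam‖ + ‖lam‖ := by
      have := norm_add_le (ph p s z - lam) lam
      simpa using this
    nlinarith
  have hlo : ∀ z ∈ sphere (0 : ℂ) t, ‖lam‖ / 2 ≤ ‖ph p s z‖ := by
    intro z hz
    have h1 := hcirc z hz
    have h2 : ‖lam‖ ≤ ‖ph p s z‖ + ‖ph p s z - lam‖ := by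
      have := norm_sub_le (ph p s z) (ph p s z - lam)
      simpa using this
    nlinarith
  have e2 : (2 : ℝ) ≤ Real.exp 1 := by
    have := Real.add_one_le_exp (1 : ℝ)
    linarith
  -- bounds of exp Re (p - s)
  have hq1 : ∀ z ∈ sphere (0 : ℂ) t, Real.exp (p z - s z).re ≤ ‖lam‖ * Real.exp (2 * Y + 1) := by
    intro z hz
    have h1 := hup z hz
    rw [hmod z hz] at h1
    have h2 : Real.exp (-(2 * Y)) ≤ ‖deriv p z‖ / ‖deriv s z‖ := by
      have h0 : 0 < ‖deriv s z‖ := norm_pos_iff.mpr (hs0 z hz)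
      rw [le_div_iff₀ h0]
      calc Real.exp (-(2 * Y)) * ‖deriv s z‖ ≤ Real.exp (-(2 * Y)) * Real.exp Y :=
            mul_le_mul_of_nonneg_left (hs1 z hz).2 (Real.exp_pos _).le
        _ = Real.exp (-Y) := by rw [← Real.exp_add]; congr 1; ring
        _ ≤ ‖deriv p z‖ := (hp1 z hz).1
    have h3 : Real.exp (-(2 * Y)) * Real.exp (p z - s z).re ≤ 3 / 2 * ‖lam‖ :=
      (mul_le_mul_of_nonneg_right h2 (Real.exp_pos _).le).trans h1
    have h4 : Real.exp (p z - s z).re = Real.exp (2 * Y) *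
        (Real.exp (-(2 * Y)) * Real.exp (p z - s z).re) := by
      rw [← mul_assoc, ← Real.exp_add]; simp
    rw [h4]
    calc _ ≤ Real.exp (2 * Y) * (3 / 2 * ‖lam‖) :=
          mul_le_mul_of_nonneg_left h3 (Real.exp_pos _).le
      _ ≤ Real.exp (2 * Y) * (Real.exp 1 * ‖lam‖) := by
          apply mul_le_mul_of_nonneg_left _ (Real.exp_pos _).le
          exact mul_le_mul_of_nonneg_right (by linarith) hlpos.le
      _ = ‖lam‖ * Real.exp (2 * Y + 1) := by rw [Real.exp_add]; ring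
  have hq2 : ∀ z ∈ sphere (0 : ℂ) t,
      Real.exp (-(p z - s z).re) ≤ ‖lam‖⁻¹ * Real.exp (2 * Y + 1) := by
    intro z hz
    have h1 := hlo z hz
    rw [hmod z hz] at h1
    have h2 : ‖deriv p z‖ / ‖deriv s z‖ ≤ Real.exp (2 * Y) := by
      have h0 : 0 < ‖deriv s z‖ := norm_pos_iff.mpr (hs0 z hz)
      rw [div_le_iff₀ h0]
      calc ‖deriv p z‖ ≤ Real.exp Y := (hp1 z hz).2
        _ = Real.exp (2 * Y) * Real.exp (-Y) := by rw [← Real.exp_add]; congr 1; ring
        _ ≤ Real.exp (2 * Y) * ‖deriv s z‖ :=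
            mul_le_mul_of_nonneg_left (hs1 z hz).1 (Real.exp_pos _).le
    have h3 : ‖lam‖ / 2 ≤ Real.exp (2 * Y) * Real.exp (p z - s z).re :=
      h1.trans (mul_le_mul_of_nonneg_right h2 (Real.exp_pos _).le)
    rw [Real.exp_neg]
    have h5 : 0 < Real.exp (p z - s z).re := Real.exp_pos _
    rw [inv_mul_eq_div, inv_le_comm₀ h5 (by positivity), inv_div]
    rw [div_le_iff₀ (Real.exp_pos _), Real.exp_add]
    calc ‖lam‖ = 2 * (‖lam‖ / 2) := by ring
      _ ≤ Real.exp 1 * (Real.exp (2 * Y) * Real.exp (p z - s z).re) :=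
          mul_le_mul e2 h3 (by positivity) (by positivity)
      _ = Real.exp (p z - s z).re * (Real.exp (2 * Y) * Real.exp 1) := by ring
  -- the value at 0
  have hdiff : ∀ z : ℂ, ‖z‖ < 1 → DifferentiableAt ℂ (fun x => Complex.exp (p x - s x)) z :=
    fun z hz => ((ball_analytic hp hz).differentiableAt.sub
      (ball_analytic hs hz).differentiableAt).cexp
  have hdiff' : ∀ z : ℂ, ‖z‖ < 1 → DifferentiableAt ℂ (fun x => Complex.exp (-(p x - s x))) z :=
    fun z hz => ((ball_analytic hp hz).differentiableAt.sub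
      (ball_analytic hs hz).differentiableAt).neg.cexp
  have hz1 : Real.exp (p 0 - s 0).re ≤ ‖lam‖ * Real.exp (2 * Y + 1) := by
    have := max_disc hdiff ht0 ht1 (B := ‖lam‖ * Real.exp (2 * Y + 1))
      (fun z hz => by rw [Complex.norm_exp]; exact hq1 z hz) (z := 0) (by simpa using ht0.le)
    rwa [Complex.norm_exp] at this
  have hz2 : Real.exp (-(p 0 - s 0).re) ≤ ‖lam‖⁻¹ * Real.exp (2 * Y + 1) := by
    have := max_disc hdiff' ht0 ht1 (B := ‖lam‖⁻¹ * Real.exp (2 * Y + 1))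
      (fun z hz => by rw [Complex.norm_exp, Complex.neg_re]; exact hq2 z hz) (z := 0)
      (by simpa using ht0.le)
    rwa [Complex.norm_exp, Complex.neg_re] at this
  have hL' := abs_le.mp hL
  have hlamup : ‖lam‖ ≤ Real.exp (2 * Y + 1 + L2) := by
    have h1 : Real.exp (-L2) ≤ ‖lam‖⁻¹ * Real.exp (2 * Y + 1) :=
      (Real.exp_le_exp.mpr (by linarith [hL'.2])).trans hz2
    rw [inv_mul_eq_div, le_div_iff₀ hlpos] at h1
    calc ‖lam‖ = Real.exp L2 * (Real.exp (-L2) * ‖lam‖) := by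
          rw [← mul_assoc, ← Real.exp_add]; simp
      _ ≤ Real.exp L2 * Real.exp (2 * Y + 1) := mul_le_mul_of_nonneg_left h1 (Real.exp_pos _).le
      _ = Real.exp (2 * Y + 1 + L2) := by rw [← Real.exp_add]; congr 1; ring
  have hlamlo : ‖lam‖⁻¹ ≤ Real.exp (2 * Y + 1 + L2) := by
    have h1 : Real.exp (-L2) ≤ ‖lam‖ * Real.exp (2 * Y + 1) :=
      (Real.exp_le_exp.mpr (by linarith [hL'.1])).trans hz1
    rw [inv_le_comm₀ hlpos (Real.exp_pos _), ← Real.exp_neg]
    calc Real.exp (-(2 * Y + 1 + L2)) = Real.exp (-(2 * Y + 1)) * Real.exp (-L2) := by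
          rw [← Real.exp_add]; congr 1; ring
      _ ≤ Real.exp (-(2 * Y + 1)) * (‖lam‖ * Real.exp (2 * Y + 1)) :=
          mul_le_mul_of_nonneg_left h1 (Real.exp_pos _).le
      _ = ‖lam‖ := by
          rw [mul_comm ‖lam‖, ← mul_assoc, ← Real.exp_add]; simp
  refine ⟨hne, hcirc, hlamup, ?_⟩
  intro z hz
  rw [abs_le]
  constructor
  · have h1 : Real.exp (-(p z - s z).re) ≤ Real.exp (4 * Y + 2 + L2) := by
      refine (hq2 z hz).trans ?_
      calc ‖lam‖⁻¹ * Real.exp (2 * Y + 1) ≤ Real.exp (2 * Y + 1 + L2) * Real.exp (2 * Y + 1) :=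
            mul_le_mul_of_nonneg_right hlamlo (Real.exp_pos _).le
        _ = Real.exp (4 * Y + 2 + L2) := by rw [← Real.exp_add]; congr 1; ring
    have := Real.exp_le_exp.mp h1
    linarith
  · have h1 : Real.exp (p z - s z).re ≤ Real.exp (4 * Y + 2 + L2) := by
      refine (hq1 z hz).trans ?_
      calc ‖lam‖ * Real.exp (2 * Y + 1) ≤ Real.exp (2 * Y + 1 + L2) * Real.exp (2 * Y + 1) :=
            mul_le_mul_of_nonneg_right hlamup (Real.exp_pos _).le
        _ = Real.exp (4 * Y + 2 + L2) := by rw [← Real.exp_add]; congr 1; ring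
    exact Real.exp_le_exp.mp h1

end Near

open Near in
theorem Near_proof (h1 : S_BC) (h2 : S_MM) (h3 : S_Circ) (h4 : S_Sym) : S_Near := by
  intro L e0 kap C0 hL he0 he0' hkap hC0
  obtain ⟨K0, hK0, hBC⟩ := h1
  obtain ⟨K, hK, hMM⟩ := h2 e0 he0 (by linarith)
  have hK00 : 0 < K0 := by linarith
  have hKpos : 0 < K := by linarith
  set k1 : ℝ := kap / (80 * K) with hk1
  have hk1pos : 0 < k1 := by positivity
  set Cf : ℝ := 16 * Real.exp (3 + 4 * L) with hCf
  have hCf0 : 0 < Cf := by positivity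
  have hL0 : 0 < L := by linarith
  refine ⟨k1, 1 + L + 1 / k1 + 512 * K0 / k1 ^ 2 + 4 * C0 / kap + 64 / kap + Cf, hk1pos,
    by positivity, ?_⟩
  intro u v M hu hv hu0 hv0 hCM hsz hWW hz1 hz2 hz3
  have p1 : 0 < 1 / k1 := by positivity
  have p2 : 0 < 512 * K0 / k1 ^ 2 := by positivity
  have p3 : 0 ≤ 4 * C0 / kap := by positivity
  have p4 : 0 < 64 / kap := by positivity
  have hM1 : 1 ≤ M := by linarith
  have hML : L ≤ M := by linarith
  have hX1 : 1 ≤ k1 * M := by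
    have : 1 / k1 ≤ M := by linarith
    rw [div_le_iff₀ hk1pos] at this
    linarith
  have hM2 : 512 * K0 ≤ M * k1 ^ 2 := by
    have : 512 * K0 / k1 ^ 2 ≤ M := by linarith
    rwa [div_le_iff₀ (by positivity)] at this
  have hM3 : 4 * C0 ≤ M * kap := by
    have : 4 * C0 / kap ≤ M := by linarith
    rwa [div_le_iff₀ hkap] at this
  have hM4 : 64 ≤ M * kap := by
    have : 64 / kap ≤ M := by linarith
    rwa [div_le_iff₀ hkap] at this
  have hM0 : 0 < M := by linarith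
  -- the bounds of the derivatives
  have hb : ball (0 : ℂ) (1 / 2) ⊆ ball 0 1 := ball_subset_ball (by norm_num)
  have hszu : ∀ z ∈ ball (0 : ℂ) (1 / 2), (u z).re ≤ M := by
    intro z hz
    have h := hsz z (by simpa using (mem_ball_zero_iff.mp hz).le)
    exact le_trans (le_trans (le_max_left _ _) (le_max_right _ _)) h
  have hszv : ∀ z ∈ ball (0 : ℂ) (1 / 2), (v z).re ≤ M := by
    intro z hz
    have h := hsz z (by simpa using (mem_ball_zero_iff.mp hz).le)
    exact le_trans (le_trans (le_max_right _ _) (le_max_right _ _)) h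
  have hBu := hBC u (1 / 2) (1 / 4) M L (by norm_num) (by norm_num) (by norm_num) (by norm_num)
    hM1 hL (hu.mono hb) hszu hu0
  have hBv := hBC v (1 / 2) (1 / 4) M L (by norm_num) (by norm_num) (by norm_num) (by norm_num)
    hM1 hL (hv.mono hb) hszv hv0
  set X : ℝ := k1 * M with hX
  have hAX : 2 * (K0 * (M + L) / (1 / 4) ^ 3) ≤ Real.exp X := by
    have e1 : 2 * (K0 * (M + L) / (1 / 4) ^ 3) = 128 * K0 * (M + L) := by ring
    have e2 : 128 * K0 * (M + L) ≤ 128 * K0 * (2 * M) :=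
      mul_le_mul_of_nonneg_left (by linarith) (by positivity)
    have e3 : 512 * K0 * M ≤ M * k1 ^ 2 * M := mul_le_mul_of_nonneg_right hM2 hM0.le
    have e4 : M * k1 ^ 2 * M = X ^ 2 := by rw [hX]; ring
    have e5 := Real.quadratic_le_exp_of_nonneg (show 0 ≤ X by linarith)
    rw [e1]
    linarith
  have hua : ∀ z : ℂ, ‖z‖ ≤ 1 / 4 → ‖deriv u z‖ ≤ K0 * (M + L) / (1 / 4) ^ 3 := fun z hz =>
    (hBu z (by linarith)).2.1
  have hva : ∀ z : ℂ, ‖z‖ ≤ 1 / 4 → ‖deriv v z‖ ≤ K0 * (M + L) / (1 / 4) ^ 3 := fun z hz =>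
    (hBv z (by linarith)).2.1
  have hA0 : 0 ≤ K0 * (M + L) / (1 / 4) ^ 3 := by positivity
  set f : Fin 3 → ℂ → ℂ := ![deriv u, deriv v, fun z => deriv v z - deriv u z] with hf
  have hfA : ∀ i, AnalyticOnNhd ℂ (f i) (closedBall 0 (2 * e0)) := by
    intro i z hz
    have hz' : ‖z‖ ≤ 2 * e0 := by simpa using hz
    have hz1 : ‖z‖ < 1 := by linarith
    have a1 := (ball_analytic hu hz1).deriv
    have a2 := (ball_analytic hv hz1).deriv
    fin_cases i
    · exact a1
    · exact a2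
    · exact a2.sub a1
  have hfB : ∀ i, ∀ z : ℂ, ‖z‖ ≤ 1 / 4 → ‖f i z‖ ≤ Real.exp X := by
    intro i z hz
    fin_cases i
    · exact ((hua z hz).trans (by linarith)).trans hAX
    · exact ((hva z hz).trans (by linarith)).trans hAX
    · exact ((norm_sub_le _ _).trans (by linarith [hua z hz, hva z hz])).trans hAX
  have hXe : Real.exp (- X) = Real.exp (- k1 * M) := by rw [hX]; congr 1; ring
  have hfz : ∀ i, ∃ z : ℂ, ‖z‖ ≤ e0 / 4 ∧ Real.exp (-X) ≤ ‖f i z‖ := by
    intro i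
    rw [hXe]
    fin_cases i
    · exact hz1
    · exact hz2
    · exact hz3
  obtain ⟨t, ht1, ht2, hmin⟩ := hMM f X hX1 hfA
    (fun i z hz => hfB i z (by
      have : ‖z‖ ≤ 2 * e0 := by simpa using hz
      linarith)) hfz
  have ht0 : 0 < t := by linarith
  have htl : t < 1 := by linarith
  set Y : ℝ := K * X with hY
  have hYM : Y = kap * M / 80 := by rw [hY, hX, hk1]; field_simp
  have hXY : X ≤ Y := by rw [hY]; nlinarith
  have hsph : ∀ z ∈ sphere (0 : ℂ) t, ‖z‖ = t := fun z hz => by simpa using hz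
  have hmin' : ∀ i, ∀ z ∈ sphere (0 : ℂ) t, Real.exp (-Y) ≤ ‖f i z‖ := by
    intro i z hz
    have e : -Y = -K * X := by rw [hY]; ring
    rw [e]
    exact hmin i z hz
  have hmax' : ∀ i, ∀ z ∈ sphere (0 : ℂ) t, ‖f i z‖ ≤ Real.exp Y := fun i z hz =>
    (hfB i z (by rw [hsph z hz]; linarith)).trans (Real.exp_le_exp.mpr hXY)
  set e : ℝ := Real.exp (-(kap * M / 2)) with he
  set w : ℝ := C0 * Real.exp (- kap * M) with hw
  have hMk : 0 ≤ M * kap := by positivity
  have hwe : w * Real.exp (2 * Y) ≤ e := by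
    have a1 : C0 ≤ Real.exp (M * kap / 4) := by
      have := Real.add_one_le_exp (M * kap / 4)
      linarith
    rw [hw, he, mul_assoc, ← Real.exp_add]
    calc _ ≤ Real.exp (M * kap / 4) * Real.exp (- kap * M + 2 * Y) :=
          mul_le_mul_of_nonneg_right a1 (Real.exp_pos _).le
      _ = Real.exp (M * kap / 4 + (- kap * M + 2 * Y)) := (Real.exp_add _ _).symm
      _ ≤ _ := Real.exp_le_exp.mpr (by rw [hYM]; linarith)
  have he32 : e ≤ 1 / 32 := by
    have a1 := Real.add_one_le_exp (kap * M / 2)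
    rw [he, Real.exp_neg, one_div]
    apply inv_anti₀ (by norm_num)
    linarith
  have he0p : 0 < e := Real.exp_pos _
  have hWs : ∀ z ∈ sphere (0 : ℂ) t, ‖WW u v z‖ ≤ w := fun z hz =>
    hWW z (by rw [hsph z hz]; linarith)
  have hre : ∀ x : ℂ, |x.re| ≤ ‖x‖ := fun x => Complex.abs_re_le_norm x
  have c1 := core h3 u v t e Y w (2 * L) hu hv ht0 htl
    ((hre _).trans ((norm_sub_le _ _).trans (by linarith)))
    (fun z hz => ⟨hmin' 0 z hz, hmax' 0 z hz⟩) (fun z hz => ⟨hmin' 1 z hz, hmax' 1 z hz⟩)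
    hWs hwe he32
  have hana : ∀ z ∈ sphere (0 : ℂ) t, AnalyticAt ℂ u z ∧ AnalyticAt ℂ v z := fun z hz =>
    ⟨ball_analytic hu (by rw [hsph z hz]; exact htl), ball_analytic hv (by rw [hsph z hz]; exact htl)⟩
  have hd1 : ∀ z ∈ sphere (0 : ℂ) t, deriv (fun x => - u x) z = - deriv u z := fun z _ =>
    deriv.fun_neg
  have hd2 : ∀ z ∈ sphere (0 : ℂ) t, deriv (fun x => v x - u x) z = deriv v z - deriv u z :=
    fun z hz => deriv_fun_sub (hana z hz).2.differentiableAt (hana z hz).1.differentiableAt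
  have c2 := core h3 (fun x => - u x) (fun x => v x - u x) t e Y w (2 * L) hu.neg (hv.sub hu)
    ht0 htl
    (by
      have e1 : (-u 0 - (v 0 - u 0)) = - v 0 := by ring
      show |(-u 0 - (v 0 - u 0)).re| ≤ 2 * L
      rw [e1]
      refine (hre _).trans ?_
      rw [norm_neg]; linarith)
    (fun z hz => by
      rw [hd1 z hz, norm_neg]
      exact ⟨hmin' 0 z hz, hmax' 0 z hz⟩)
    (fun z hz => by
      rw [hd2 z hz]
      exact ⟨hmin' 2 z hz, hmax' 2 z hz⟩)
    (fun z hz => by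
      rw [(h4 u v z (hana z hz).1 (hana z hz).2).2, norm_neg]
      exact hWs z hz) hwe he32
  obtain ⟨hne, hcirc, hlam, -⟩ := c1
  obtain ⟨-, -, -, hrev⟩ := c2
  set lam := ph u v t with hlamdef
  have hlpos : 0 < ‖lam‖ := norm_pos_iff.mpr hne
  have hvz : ∀ z ∈ sphere (0 : ℂ) t, (v z).re ≤ 4 * Y + 2 + 2 * L := by
    intro z hz
    have := abs_le.mp (hrev z hz)
    have e1 : (-u z - (v z - u z)).re = - (v z).re := by
      have : (-u z - (v z - u z)) = - v z := by ring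
      rw [this, Complex.neg_re]
    rw [e1] at this
    linarith [this.1]
  have hvn : ∀ z ∈ sphere (0 : ℂ) t, deriv v z ≠ 0 := fun z hz => by
    have := lt_of_lt_of_le (Real.exp_pos _) (hmin' 1 z hz)
    exact norm_pos_iff.mp this
  have hfac : ∀ z ∈ sphere (0 : ℂ) t, deriv u z * Complex.exp (u z) =
      ph u v z * (deriv v z * Complex.exp (v z)) := by
    intro z hz
    unfold ph
    have := hvn z hz
    have h' := Complex.exp_ne_zero (v z)
    field_simp
  have hvv : ∀ z ∈ sphere (0 : ℂ) t, ‖deriv v z * Complex.exp (v z)‖ ≤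
      Real.exp (5 * Y + 2 + 2 * L) := by
    intro z hz
    rw [norm_mul, Complex.norm_exp]
    calc _ ≤ Real.exp Y * Real.exp (4 * Y + 2 + 2 * L) :=
          mul_le_mul (hmax' 1 z hz) (Real.exp_le_exp.mpr (hvz z hz)) (Real.exp_pos _).le
            (Real.exp_pos _).le
      _ = _ := by rw [← Real.exp_add]; congr 1; ring
  have hY0 : 0 ≤ Y := by rw [hYM]; positivity
  have hS2 : ∀ z ∈ sphere (0 : ℂ) t,
      ‖lam⁻¹ * (deriv u z * Complex.exp (u z)) - deriv v z * Complex.exp (v z)‖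
        ≤ Cf * Real.exp (- kap * M / 8) := by
    intro z hz
    have e1 : lam⁻¹ * (deriv u z * Complex.exp (u z)) - deriv v z * Complex.exp (v z) =
        lam⁻¹ * (ph u v z - lam) * (deriv v z * Complex.exp (v z)) := by
      rw [hfac z hz]; field_simp
    rw [e1, norm_mul, norm_mul, norm_inv]
    have a1 : ‖lam‖⁻¹ * ‖ph u v z - lam‖ ≤ 16 * e := by
      rw [inv_mul_le_iff₀ hlpos]
      linarith [hcirc z hz]
    calc _ ≤ 16 * e * Real.exp (5 * Y + 2 + 2 * L) :=
          mul_le_mul a1 (hvv z hz) (norm_nonneg _) (by positivity)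
      _ = 16 * Real.exp (-(kap * M / 2) + (5 * Y + 2 + 2 * L)) := by
          rw [he, Real.exp_add (-(kap * M / 2))]; ring
      _ ≤ 16 * Real.exp ((3 + 4 * L) + (- kap * M / 8)) := by
          apply mul_le_mul_of_nonneg_left _ (by norm_num)
          apply Real.exp_le_exp.mpr
          rw [hYM]; linarith
      _ = Cf * Real.exp (- kap * M / 8) := by rw [hCf, Real.exp_add]; ring
  have hS1 : ∀ z ∈ sphere (0 : ℂ) t,
      ‖deriv u z * Complex.exp (u z) - lam * (deriv v z * Complex.exp (v z))‖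
        ≤ Cf * Real.exp (- kap * M / 8) := by
    intro z hz
    have e1 : deriv u z * Complex.exp (u z) - lam * (deriv v z * Complex.exp (v z)) =
        (ph u v z - lam) * (deriv v z * Complex.exp (v z)) := by
      rw [hfac z hz]; ring
    rw [e1, norm_mul]
    calc _ ≤ (16 * e * ‖lam‖) * Real.exp (5 * Y + 2 + 2 * L) :=
          mul_le_mul (hcirc z hz) (hvv z hz) (norm_nonneg _) (by positivity)
      _ ≤ (16 * e * Real.exp (2 * Y + 1 + 2 * L)) * Real.exp (5 * Y + 2 + 2 * L) := by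
          apply mul_le_mul_of_nonneg_right _ (Real.exp_pos _).le
          exact mul_le_mul_of_nonneg_left hlam (by positivity)
      _ = 16 * Real.exp (-(kap * M / 2) + (2 * Y + 1 + 2 * L) + (5 * Y + 2 + 2 * L)) := by
          rw [he, Real.exp_add _ (5 * Y + 2 + 2 * L), Real.exp_add (-(kap * M / 2))]; ring
      _ ≤ 16 * Real.exp ((3 + 4 * L) + (- kap * M / 8)) := by
          apply mul_le_mul_of_nonneg_left _ (by norm_num)
          apply Real.exp_le_exp.mpr
          rw [hYM]; linarith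
      _ = Cf * Real.exp (- kap * M / 8) := by rw [hCf, Real.exp_add]; ring
  have hfin : Cf * Real.exp (- kap * M / 8) ≤
      (1 + L + 1 / k1 + 512 * K0 / k1 ^ 2 + 4 * C0 / kap + 64 / kap + Cf) *
        Real.exp (- kap * M / 8) :=
    mul_le_mul_of_nonneg_right (by linarith) (Real.exp_pos _).le
  have hdu : ∀ z : ℂ, ‖z‖ < 1 → DifferentiableAt ℂ (fun x => deriv u x * Complex.exp (u x)) z :=
    fun z hz => (ball_analytic hu hz).deriv.differentiableAt.mul
      (ball_analytic hu hz).differentiableAt.cexp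
  have hdv : ∀ z : ℂ, ‖z‖ < 1 → DifferentiableAt ℂ (fun x => deriv v x * Complex.exp (v x)) z :=
    fun z hz => (ball_analytic hv hz).deriv.differentiableAt.mul
      (ball_analytic hv hz).differentiableAt.cexp
  refine ⟨lam, hne, ?_, ?_⟩
  · intro z hz
    refine (max_disc (F := fun x => deriv u x * Complex.exp (u x) -
      lam * (deriv v x * Complex.exp (v x)))
      (fun z hz => (hdu z hz).sub ((hdv z hz).const_mul lam)) ht0 htl hS1 (by linarith)).trans hfin
  · intro z hz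
    refine (max_disc (F := fun x => lam⁻¹ * (deriv u x * Complex.exp (u x)) -
      deriv v x * Complex.exp (v x))
      (fun z hz => ((hdu z hz).const_mul lam⁻¹).sub (hdv z hz)) ht0 htl hS2 (by linarith)).trans hfin

end Pool.Agent.Work.MP_6d7a54_an.UP
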