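import Pool.Agent.Work.MP_6d7a54_an.UP.Defs

/-! MP_6d7a54_an, block UP, items Om and Sym. -/

set_option autoImplicit false

namespace Pool.Agent.Work.MP_6d7a54_an.UP

open Complex Metric Real Set Filter

noncomputable section

namespace Om

theorem hasDerivAt_exp_mul {u : ℂ → ℂ} {x : ℂ} (hu : AnalyticAt ℂ u x) :
    HasDerivAt (fun y => Complex.exp (u y)) (deriv u x * Complex.exp (u x)) x := by
  have := hu.differentiableAt.hasDerivAt.cexp
  rw [mul_comm]
  exact this

theorem hasDerivAt_exp_mul2 {u : ℂ → ℂ} {x : ℂ} (hu : AnalyticAt ℂ u x) :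
    HasDerivAt (fun y => deriv u y * Complex.exp (u y))
      ((deriv (deriv u) x + (deriv u x) ^ 2) * Complex.exp (u x)) x := by
  have h1 : HasDerivAt (deriv u) (deriv (deriv u) x) x := hu.deriv.differentiableAt.hasDerivAt
  have := h1.mul (hasDerivAt_exp_mul hu)
  have e : (deriv (deriv u) x + (deriv u x) ^ 2) * Complex.exp (u x) =
      deriv (deriv u) x * Complex.exp (u x) +
        deriv u x * (deriv u x * Complex.exp (u x)) := by ring
  rw [e]
  exact this

theorem first {m : ℕ} {u v q : ℂ → ℂ} {z : ℂ} (hu : AnalyticAt ℂ u z) (hv : AnalyticAt ℂ v z)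
    (hq : AnalyticAt ℂ q z)
    (h : ∀ᶠ x in nhds z, 1 + Complex.exp (u x) + Complex.exp (v x) = q x ^ m) :
    ∀ᶠ x in nhds z, deriv u x * Complex.exp (u x) + deriv v x * Complex.exp (v x) =
      (m : ℂ) * q x ^ (m - 1) * deriv q x := by
  have h' : (fun x => 1 + Complex.exp (u x) + Complex.exp (v x)) =ᶠ[nhds z]
      (fun x => q x ^ m) := h
  filter_upwards [h'.deriv, hu.eventually_analyticAt, hv.eventually_analyticAt,
    hq.eventually_analyticAt] with x hx hux hvx hqx
  have e1 : deriv (fun x => 1 + Complex.exp (u x) + Complex.exp (v x)) x =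
      deriv u x * Complex.exp (u x) + deriv v x * Complex.exp (v x) := by
    have := ((hasDerivAt_const x (1 : ℂ)).add (hasDerivAt_exp_mul hux)).add
      (hasDerivAt_exp_mul hvx)
    have h2 := this.deriv
    rw [zero_add] at h2
    exact h2
  have e2 : deriv (fun x => q x ^ m) x = (m : ℂ) * q x ^ (m - 1) * deriv q x :=
    (hqx.differentiableAt.hasDerivAt.pow m).deriv
  rw [← e1, ← e2, hx]

theorem second {m : ℕ} {u v q : ℂ → ℂ} {z : ℂ} (hu : AnalyticAt ℂ u z) (hv : AnalyticAt ℂ v z)
    (hq : AnalyticAt ℂ q z)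
    (h : ∀ᶠ x in nhds z, 1 + Complex.exp (u x) + Complex.exp (v x) = q x ^ m) :
    (deriv (deriv u) z + (deriv u z) ^ 2) * Complex.exp (u z) +
      (deriv (deriv v) z + (deriv v z) ^ 2) * Complex.exp (v z) =
      (m : ℂ) * (((m - 1 : ℕ) : ℂ) * q z ^ (m - 1 - 1) * (deriv q z) ^ 2 +
        q z ^ (m - 1) * deriv (deriv q) z) := by
  have h1 : (fun x => deriv u x * Complex.exp (u x) + deriv v x * Complex.exp (v x)) =ᶠ[nhds z]
      (fun x => (m : ℂ) * q x ^ (m - 1) * deriv q x) := first hu hv hq h
  have h2 := h1.deriv_eq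
  have e1 : deriv (fun x => deriv u x * Complex.exp (u x) + deriv v x * Complex.exp (v x)) z =
      (deriv (deriv u) z + (deriv u z) ^ 2) * Complex.exp (u z) +
      (deriv (deriv v) z + (deriv v z) ^ 2) * Complex.exp (v z) :=
    ((hasDerivAt_exp_mul2 hu).add (hasDerivAt_exp_mul2 hv)).deriv
  have e2 : HasDerivAt (fun x => (m : ℂ) * q x ^ (m - 1) * deriv q x)
      ((m : ℂ) * (((m - 1 : ℕ) : ℂ) * q z ^ (m - 1 - 1) * (deriv q z) ^ 2 +
        q z ^ (m - 1) * deriv (deriv q) z)) z := by
    have a1 : HasDerivAt (deriv q) (deriv (deriv q) z) z :=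
      hq.deriv.differentiableAt.hasDerivAt
    have a2 := ((hq.differentiableAt.hasDerivAt.pow (m - 1)).const_mul (m : ℂ)).mul a1
    have e : (m : ℂ) * (((m - 1 : ℕ) : ℂ) * q z ^ (m - 1 - 1) * (deriv q z) ^ 2 +
        q z ^ (m - 1) * deriv (deriv q) z) =
        (m : ℂ) * (((m - 1 : ℕ) : ℂ) * q z ^ (m - 1 - 1) * deriv q z) * deriv q z +
          (m : ℂ) * q z ^ (m - 1) * deriv (deriv q) z := by ring
    rw [e]
    exact a2
  rw [← e1, h2, e2.deriv]

end Om

open Om in
theorem Om_proof : S_Om := by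
  intro m u v q z hm hu hv hq h
  obtain ⟨n, rfl⟩ : ∃ n, m = n + 2 := ⟨m - 2, by omega⟩
  have h1 := (first hu hv hq h).self_of_nhds
  have h2 := second hu hv hq h
  have hn : n + 2 - 1 = n + 1 := by omega
  have hn2 : n + 2 - 2 = n := by omega
  have hn1 : n + 1 - 1 = n := by omega
  simp only [hn, hn1] at h1 h2
  have hE : Complex.exp (v z) * Complex.exp (- v z) = 1 := by
    rw [← Complex.exp_add, add_neg_cancel, Complex.exp_zero]
  have key : Complex.exp (v z) * WW u v z =
      deriv u z * ((deriv (deriv u) z + (deriv u z) ^ 2) * Complex.exp (u z) +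
        (deriv (deriv v) z + (deriv v z) ^ 2) * Complex.exp (v z)) -
      (deriv (deriv u) z + (deriv u z) ^ 2) *
        (deriv u z * Complex.exp (u z) + deriv v z * Complex.exp (v z)) := by
    unfold WW
    ring
  rw [h1, h2] at key
  have e : WW u v z = (Complex.exp (v z) * WW u v z) * Complex.exp (- v z) := by
    calc WW u v z = (Complex.exp (v z) * Complex.exp (- v z)) * WW u v z := by
          rw [hE, one_mul]
      _ = _ := by ring
  rw [e, key, om, hn2]
  push_cast
  ring

theorem Sym_proof : S_Sym := by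
  intro u v z hu hv
  constructor
  · unfold WW
    ring
  · have d1 : ∀ᶠ x in nhds z, deriv (fun x => - u x) x = - deriv u x :=
      Eventually.of_forall (fun x => deriv.fun_neg)
    have d2 : ∀ᶠ x in nhds z, deriv (fun x => v x - u x) x = deriv v x - deriv u x := by
      filter_upwards [hu.eventually_analyticAt, hv.eventually_analyticAt] with x hx hy
      exact (hy.differentiableAt.hasDerivAt.sub hx.differentiableAt.hasDerivAt).deriv
    have e1 : deriv (deriv (fun x => - u x)) z = - deriv (deriv u) z := by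
      have : deriv (fun x => - u x) =ᶠ[nhds z] fun x => - deriv u x := d1
      rw [this.deriv_eq]
      exact (hu.deriv.differentiableAt.hasDerivAt.neg).deriv
    have e2 : deriv (deriv (fun x => v x - u x)) z = deriv (deriv v) z - deriv (deriv u) z := by
      have : deriv (fun x => v x - u x) =ᶠ[nhds z] fun x => deriv v x - deriv u x := d2
      rw [this.deriv_eq]
      exact (hv.deriv.differentiableAt.hasDerivAt.sub hu.deriv.differentiableAt.hasDerivAt).deriv
    unfold WW
    rw [e1, e2, d1.self_of_nhds, d2.self_of_nhds]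
    ring

end

end Pool.Agent.Work.MP_6d7a54_an.UP
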