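import Pool.Agent.Work.MP_6d7a54_an.UP.Defs

namespace Pool.Agent.Work.MP_6d7a54_an.UP

open Complex Metric Real Set

namespace Step2W

theorem growth {u : ℂ → ℂ} {L B : ℝ} (hu : DifferentiableOn ℂ u (ball 0 1)) (h0 : ‖u 0‖ ≤ L)
    (hd : ∀ z : ℂ, ‖z‖ ≤ 1 / 4 → ‖deriv u z‖ ≤ B) {c : ℂ} (hc : ‖c‖ ≤ 1 / 4) :
    (u c).re ≤ L + B * ‖c‖ := by
  have h1 : ‖u c - u 0‖ ≤ B * ‖c - 0‖ := by
    apply Convex.norm_image_sub_le_of_norm_deriv_le (s := closedBall (0 : ℂ) (1 / 4))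
    · intro x hx
      have hx' : x ∈ ball (0 : ℂ) 1 := by
        rw [mem_closedBall, dist_zero_right] at hx
        rw [mem_ball, dist_zero_right]
        linarith
      exact (hu x hx').differentiableAt (isOpen_ball.mem_nhds hx')
    · intro x hx
      rw [mem_closedBall, dist_zero_right] at hx
      exact hd x hx
    · exact convex_closedBall _ _
    · rw [mem_closedBall, dist_self]
      norm_num
    · rw [mem_closedBall, dist_zero_right]
      exact hc
  rw [sub_zero] at h1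
  calc (u c).re ≤ ‖u c‖ := Complex.re_le_norm _
    _ = ‖u 0 + (u c - u 0)‖ := by rw [add_sub_cancel]
    _ ≤ ‖u 0‖ + ‖u c - u 0‖ := norm_add_le _ _
    _ ≤ L + B * ‖c‖ := add_le_add h0 h1

theorem norm_three (a b : ℂ) : ‖1 + Complex.exp a + Complex.exp b‖ ≤
    3 * Real.exp (max 0 (max a.re b.re)) := by
  have h1 : ‖(1 : ℂ)‖ ≤ Real.exp (max 0 (max a.re b.re)) := by
    rw [norm_one]
    exact Real.one_le_exp (le_max_left _ _)
  have h2 : ‖Complex.exp a‖ ≤ Real.exp (max 0 (max a.re b.re)) := by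
    rw [Complex.norm_exp]
    exact Real.exp_le_exp.2 ((le_max_left _ _).trans (le_max_right _ _))
  have h3 : ‖Complex.exp b‖ ≤ Real.exp (max 0 (max a.re b.re)) := by
    rw [Complex.norm_exp]
    exact Real.exp_le_exp.2 ((le_max_right _ _).trans (le_max_right _ _))
  calc ‖1 + Complex.exp a + Complex.exp b‖ ≤ ‖(1 : ℂ) + Complex.exp a‖ + ‖Complex.exp b‖ :=
        norm_add_le _ _
    _ ≤ ‖(1 : ℂ)‖ + ‖Complex.exp a‖ + ‖Complex.exp b‖ := by gcongr; exact norm_add_le _ _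
    _ ≤ _ := by linarith

theorem pow_bound {x E : ℝ} {m : ℕ} (hx : 0 ≤ x) (hE : 1 ≤ E) (h : x ^ m ≤ E) :
    x ^ (m - 2) ≤ E := by
  rcases le_total x 1 with hx1 | hx1
  · exact (pow_le_one₀ hx hx1).trans hE
  · exact (pow_le_pow_right₀ hx1 (Nat.sub_le m 2)).trans h

end Step2W

open Step2W

theorem Step2W_proof (h1 : S_Step2) (h2 : S_Om) (h3 : S_BC) : S_Step2W := by
  intro m L hm hL
  obtain ⟨kap₁, C₁, hkap, hC₁, h1⟩ := h1 m L hm hL
  obtain ⟨K, hK, h3⟩ := h3
  have hK0 : 0 < K := by linarith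
  set K₀ := 64 * K with hK₀
  have hK₀p : 0 < K₀ := by positivity
  set e₀ := min (1 / 16) (kap₁ / (8 * K₀)) with he₀
  have he₀p : 0 < e₀ := lt_min (by norm_num) (by positivity)
  have he₁ : e₀ ≤ 1 / 16 := min_le_left _ _
  have he₂ : e₀ ≤ kap₁ / (8 * K₀) := min_le_right _ _
  have he₃ : 2 * e₀ * K₀ ≤ kap₁ / 4 := by
    rw [le_div_iff₀ (by positivity)] at he₂
    linarith
  set C₂ := 3 * C₁ * Real.exp (L + kap₁ / 4 * L) with hC₂
  have hC₂p : 0 ≤ C₂ := by positivity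
  refine ⟨e₀, kap₁ / 2, C₁ + C₂ + 1, he₀p, by linarith, by positivity, by positivity, ?_⟩
  intro u v q M hD hB hM hex hall c hc
  have hM1 : 1 ≤ M := by linarith
  have hMC : C₁ ≤ M := by linarith
  have hc8 : ‖c‖ ≤ 1 / 8 := by linarith
  have hc4 : ‖c‖ ≤ 1 / 4 := by linarith
  have hcb : c ∈ ball (0 : ℂ) 1 := by
    rw [mem_ball, dist_zero_right]
    linarith
  have hnb : ball (0 : ℂ) 1 ∈ nhds c := isOpen_ball.mem_nhds hcb
  have hom := h1 u v q M hD hB hMC hex c hc8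
  have hW := h2 m u v q c (by omega) (hD.hu.analyticAt hnb) (hD.hv.analyticAt hnb)
    (hD.hq.analyticAt hnb) (Filter.eventually_of_mem hnb hD.heq)
  have hsub : ball (0 : ℂ) (1 / 2) ⊆ ball 0 1 := ball_subset_ball (by norm_num)
  have hder : ∀ w : ℂ → ℂ, DifferentiableOn ℂ w (ball 0 1) → ‖w 0‖ ≤ L →
      (∀ z : ℂ, ‖z‖ ≤ 1 / 2 → (w z).re ≤ M) → ∀ z : ℂ, ‖z‖ ≤ 1 / 4 →
      ‖deriv w z‖ ≤ K₀ * (M + L) := by
    intro w hw hw0 hwM z hz
    have h := (h3 w (1 / 2) (1 / 4) M L (by norm_num) (by norm_num) (by norm_num) (by norm_num)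
      hM1 hL (hw.mono hsub) (fun z hz => by
        rw [mem_ball, dist_zero_right] at hz
        exact hwM z hz.le) hw0 z (by linarith)).2.1
    refine h.trans (le_of_eq ?_)
    rw [hK₀]
    ring
  have hu4 := growth hD.hu hB.nu (hder u hD.hu hB.nu fun z hz =>
    ((le_max_left _ _).trans (le_max_right _ _)).trans (hall z hz)) hc4
  have hv4 := growth hD.hv hB.nv (hder v hD.hv hB.nv fun z hz =>
    ((le_max_right _ _).trans (le_max_right _ _)).trans (hall z hz)) hc4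
  have hML : 0 ≤ M + L := by linarith
  have hsz : sz u v c ≤ L + kap₁ / 4 * (M + L) := by
    have hb : K₀ * (M + L) * ‖c‖ ≤ kap₁ / 4 * (M + L) := by
      calc K₀ * (M + L) * ‖c‖ ≤ K₀ * (M + L) * (2 * e₀) :=
            mul_le_mul_of_nonneg_left hc (by positivity)
        _ = (2 * e₀ * K₀) * (M + L) := by ring
        _ ≤ kap₁ / 4 * (M + L) := mul_le_mul_of_nonneg_right he₃ hML
    refine max_le (by positivity) (max_le ?_ ?_)
    · linarith
    · linarith
  have hqm : ‖q c‖ ^ m ≤ 3 * Real.exp (sz u v c) := by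
    rw [← norm_pow, ← hD.heq c hcb]
    exact norm_three _ _
  have hsz0 : 0 ≤ sz u v c := le_max_left _ _
  have hq2 : ‖q c‖ ^ (m - 2) ≤ 3 * Real.exp (sz u v c) :=
    pow_bound (norm_nonneg _) (by linarith [Real.one_le_exp hsz0]) hqm
  rw [hW, norm_mul, norm_pow]
  have hE : Real.exp (sz u v c) ≤ Real.exp (L + kap₁ / 4 * (M + L)) := Real.exp_le_exp.2 hsz
  calc ‖q c‖ ^ (m - 2) * ‖om m u v q c‖
      ≤ (3 * Real.exp (L + kap₁ / 4 * (M + L))) * (C₁ * Real.exp (-kap₁ * M)) := by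
        apply mul_le_mul (hq2.trans (by linarith)) hom (norm_nonneg _) (by positivity)
    _ = C₂ * Real.exp (-(3 / 4 * kap₁) * M) := by
        have e1 : Real.exp (L + kap₁ / 4 * (M + L)) * Real.exp (-kap₁ * M) =
            Real.exp (L + kap₁ / 4 * L) * Real.exp (-(3 / 4 * kap₁) * M) := by
          rw [← Real.exp_add, ← Real.exp_add]
          congr 1
          ring
        rw [hC₂]
        linear_combination (3 * C₁) * e1
    _ ≤ C₂ * Real.exp (-(kap₁ / 2) * M) := by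
        apply mul_le_mul_of_nonneg_left _ hC₂p
        apply Real.exp_le_exp.2
        apply mul_le_mul_of_nonneg_right _ (by linarith)
        linarith
    _ ≤ (C₁ + C₂ + 1) * Real.exp (-(kap₁ / 2) * M) := by
        apply mul_le_mul_of_nonneg_right _ (Real.exp_pos _).le
        linarith

end Pool.Agent.Work.MP_6d7a54_an.UP
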