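import Pool.Agent.Work.MP_6d7a54_an.UP.Defs

/-!
# Item SymD: symmetry of the data and of the base point condition
-/

set_option autoImplicit false

namespace Pool.Agent.Work.MP_6d7a54_an.UP

open Complex Metric Real Set

namespace SymD

lemma tame_mono {L L' : ℝ} {x : ℂ} (hL : 0 < L) (hLL : L ≤ L') (h : Tame L x) : Tame L' x :=
  ⟨(inv_anti₀ hL hLL).trans h.1, h.2.trans hLL⟩

lemma tame_mul {L : ℝ} (hL : 1 ≤ L) {x w : ℂ} (hw : ‖w‖ ≤ L) (h : Tame L x) :
    Tame (2 * L * Real.exp L) (Complex.exp (-w) * x) := by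
  have hL0 : 0 < L := by linarith
  have hn : ‖Complex.exp (-w)‖ = Real.exp (-w.re) := by
    rw [Complex.norm_exp, Complex.neg_re]
  have hre := (abs_le.1 ((Complex.abs_re_le_norm w).trans hw))
  have h1 : Real.exp (-L) ≤ ‖Complex.exp (-w)‖ := by
    rw [hn, Real.exp_le_exp]
    linarith [hre.2]
  have h2 : ‖Complex.exp (-w)‖ ≤ Real.exp L := by
    rw [hn, Real.exp_le_exp]
    linarith [hre.1]
  constructor
  · rw [norm_mul]
    calc (2 * L * Real.exp L)⁻¹ = 2⁻¹ * (Real.exp (-L) * L⁻¹) := by
          rw [Real.exp_neg]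
          field_simp
      _ ≤ 1 * (Real.exp (-L) * L⁻¹) := by
          gcongr
          norm_num
      _ = Real.exp (-L) * L⁻¹ := one_mul _
      _ ≤ ‖Complex.exp (-w)‖ * ‖x‖ := by
          gcongr
          exact h.1
  · rw [norm_mul]
    calc ‖Complex.exp (-w)‖ * ‖x‖ ≤ Real.exp L * L := by
          gcongr
          exact h.2
      _ ≤ 2 * L * Real.exp L := by nlinarith [Real.exp_pos L]

end SymD

open SymD

theorem SymDat_proof : S_SymDat := by
  intro m u v q hm h
  refine ⟨⟨h.hv, h.hu, h.hq, fun z hz => ?_⟩, ⟨h.hu.neg, h.hv.sub h.hu, ?_, fun z hz => ?_⟩⟩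
  · rw [← h.heq z hz]
    ring
  · exact h.hq.mul ((h.hu.neg.div_const _).cexp)
  · have hm' : (m : ℂ) ≠ 0 := by
      exact_mod_cast (by omega : m ≠ 0)
    rw [mul_pow, ← Complex.exp_nat_mul, ← h.heq z hz, mul_div_cancel₀ _ hm', Complex.exp_sub,
      Complex.exp_neg]
    have := Complex.exp_ne_zero (u z)
    field_simp
    ring

theorem SymBase_proof : S_SymBase := by
  intro L hL
  have hL0 : 0 < L := by linarith
  have hexp : 1 ≤ Real.exp L := Real.one_le_exp hL0.le
  have h2L : 2 * L ≤ 2 * L * Real.exp L := le_mul_of_one_le_right (by linarith) hexp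
  have hLL : L ≤ 2 * L * Real.exp L := by linarith
  refine ⟨2 * L * Real.exp L, hLL, fun u v h => ⟨?_, ?_⟩⟩
  · refine ⟨h.nv.trans hLL, h.nu.trans hLL, tame_mono hL0 hLL h.h2, tame_mono hL0 hLL h.h1, ?_, ?_⟩
    · rw [add_comm]
      exact tame_mono hL0 hLL h.h3
    · rw [add_right_comm]
      exact tame_mono hL0 hLL h.h4
  · have hne := Complex.exp_ne_zero (u 0)
    have e1 : Complex.exp (v 0 - u 0) = Complex.exp (-u 0) * Complex.exp (v 0) := by
      rw [← Complex.exp_add]
      congr 1
      ring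
    have e2 : Complex.exp (-u 0) * Complex.exp (u 0) = 1 := by
      rw [← Complex.exp_add]
      simp
    refine ⟨?_, ?_, ?_, ?_, ?_, ?_⟩
    · simp only [norm_neg]
      exact h.nu.trans hLL
    · refine le_trans (norm_sub_le _ _) ?_
      linarith [h.nu, h.nv]
    · have e : 1 + Complex.exp (-u 0) = Complex.exp (-u 0) * (1 + Complex.exp (u 0)) := by
        rw [mul_add, e2, mul_one, add_comm]
      simp only [e]
      exact tame_mul hL h.nu h.h1
    · have e : 1 + Complex.exp (v 0 - u 0) =
          Complex.exp (-u 0) * (Complex.exp (u 0) + Complex.exp (v 0)) := by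
        rw [mul_add, e2, e1]
      simp only [e]
      exact tame_mul hL h.nu h.h3
    · have e : Complex.exp (-u 0) + Complex.exp (v 0 - u 0) =
          Complex.exp (-u 0) * (1 + Complex.exp (v 0)) := by
        rw [mul_add, mul_one, e1]
      simp only [e]
      exact tame_mul hL h.nu h.h2
    · have e : 1 + Complex.exp (-u 0) + Complex.exp (v 0 - u 0) =
          Complex.exp (-u 0) * (1 + Complex.exp (u 0) + Complex.exp (v 0)) := by
        rw [mul_add, mul_add, e2, mul_one, e1]
        ring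
      simp only [e]
      exact tame_mul hL h.nu h.h4

end Pool.Agent.Work.MP_6d7a54_an.UP
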